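import Pool.Agent.M7.Basic

/-! # The Galois action on the eight roots through matrices over `ZMod 7`: definitions (helper33) -/

namespace Pool.Agent.M7

/-- `val x y` is the root of the octic given by the subgroup generated by `x P + y Q`, where `P`, `Q`
is a basis of the 7-torsion, and `m σ` is the matrix of `σ`. -/
structure Frame7 {F K : Type*} [Field F] [Field K] [Algebra F K]
    (m : (K ≃ₐ[F] K) →* Matrix (Fin 2) (Fin 2) (ZMod 7)) (val : ZMod 7 → ZMod 7 → K) (J : K) :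
    Prop where
  smul : ∀ k x y : ZMod 7, k ≠ 0 → val (k * x) (k * y) = val x y
  root : ∀ x y : ZMod 7, (x ≠ 0 ∨ y ≠ 0) → G8 J (val x y) = 0
  gal : ∀ (σ : K ≃ₐ[F] K) (x y : ZMod 7), (x ≠ 0 ∨ y ≠ 0) →
    σ (val x y) = val (m σ 0 0 * x + m σ 0 1 * y) (m σ 1 0 * x + m σ 1 1 * y)
  inj : ∀ x y x' y' : ZMod 7, (x ≠ 0 ∨ y ≠ 0) → (x' ≠ 0 ∨ y' ≠ 0) → val x y = val x' y' →
    x * y' = x' * y

/-- the three possible outcomes; `i` is a square root of -7 -/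
def Outcome7 (F : Type*) {K : Type*} [Field F] [Field K] [Algebra F K] [DecidableEq K] (J i : K) :
    Prop :=
  (∃ x : K, G8 J x = 0 ∧ ∀ σ : K ≃ₐ[F] K, σ x = x) ∨
  (∃ x x' : K, x ≠ x' ∧ G8 J x = 0 ∧ G8 J x' = 0 ∧ ∀ σ : K ≃ₐ[F] K,
    (σ i = i ∧ σ x = x ∧ σ x' = x') ∨ (σ i = -i ∧ σ x = x' ∧ σ x' = x)) ∨
  (∃ S T : Finset K, S.card = 4 ∧ T.card = 4 ∧ Disjoint S T ∧ (∀ x ∈ S, G8 J x = 0) ∧
    (∀ x ∈ T, G8 J x = 0) ∧ ∀ σ : K ≃ₐ[F] K, S.image σ = S ∧ T.image σ = T)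

end Pool.Agent.M7
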