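import Pool.Agent.M7.Basic

/-! # The eight roots of the octic and its discriminant (helper33)

`G8 J x = 0`, derivative `D x = 8 x⁷ + 84 J x⁵ + 252 J² x³ + 140 J³ x - J⁴`.
Identity: `x D x = 7 (x⁴ + 5 J x² + J²)² + G8 J x`. `ah x = x⁴ + 5 J x² + J²`.

PROOFS. `ah_ne`: let `G8 J x = 0`, `ah x = 0`; reducing `G8 J x` modulo `ah` gives
`-24 J³ (x² + J) - J⁴ x = 0`, so `24 (x² + J) = -J x`, squared and with `x⁴ = -5 J x² - J²`:
`576 (-3 J x²) = J² x²`; `x ≠ 0` (`G8 J 0 ≠ 0`), `J = -1728`.
`exists_eight`: the polynomial `X⁸ + …` over the algebraically closed `K` splits (card of roots 8) and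
has no double root (`D x ≠ 0` at the roots by the identity and `ah_ne`), so the roots are 8 distinct
elements. `eight_prod`: the difference of the two monic polynomials of degree 8 has degree `≤ 7` and 8
roots. `eight_disc`: `v` the roots. `G8 J 0 = -7 J⁴ = ∏ vᵢ` (sign `(-1)⁸`). Derivative of
`eight_prod` at `vᵢ`: `D vᵢ = ∏_{j ≠ i} (vᵢ - vⱼ)`. `Matrix.det_vandermonde`:
`det² = ∏_{i < j} (vⱼ - vᵢ)² = (-1)^28 ∏ᵢ ∏_{j ≠ i} (vᵢ - vⱼ) = ∏ D vᵢ`, and
`∏ vᵢ * ∏ D vᵢ = ∏ 7 ah(vᵢ)²`. So `-7 J⁴ det² = 7⁸ (∏ ah vᵢ)²`.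
`sign_of_perm`: `z = det * J²/(343 ∏ ah vᵢ)` satisfies `z² = -7`, so `z = ± i`. `σ` fixes
`∏ ah vᵢ` (it permutes the factors), and `σ det = det (vandermonde (v ∘ π)) = sign π * det`
(`Matrix.det_permute`, `RingHom.map_det`). -/

namespace Pool.Agent.M7

variable {K : Type*} [Field K] [CharZero K]

def ah (J x : K) : K := x ^ 4 + 5 * J * x ^ 2 + J ^ 2

lemma ah_ne {J x : K} (hJ : J ≠ 0) (hJ' : J ≠ -1728) (hx : G8 J x = 0) : ah J x ≠ 0 := by
  intro ha
  unfold G8 at hx
  unfold ah at ha
  have hx0 : x ≠ 0 := by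
    rintro rfl
    have h1 : J ^ 4 = 0 := by linear_combination (-1 / 7 : K) * hx
    exact hJ (pow_eq_zero_iff (by norm_num) |>.1 h1)
  have h1 : J ^ 3 * (24 * (x ^ 2 + J) + J * x) = 0 := by
    linear_combination (x ^ 4 + 9 * J * x ^ 2 + 17 * J ^ 2) * ha - hx
  have h2 : 24 * (x ^ 2 + J) + J * x = 0 :=
    (mul_eq_zero.1 h1).resolve_left (pow_ne_zero 3 hJ)
  have h3 : J * x ^ 2 * (J + 1728) = 0 := by
    linear_combination (J * x - 24 * (x ^ 2 + J)) * h2 + 576 * ha
  rcases mul_eq_zero.1 h3 with h4 | h4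
  · rcases mul_eq_zero.1 h4 with h5 | h5
    · exact hJ h5
    · exact hx0 (pow_eq_zero_iff (by norm_num) |>.1 h5)
  · exact hJ' (eq_neg_of_add_eq_zero_left h4)

open Polynomial in
/-- the octic -/
noncomputable def octP (J : K) : K[X] :=
  X ^ 8 + C (14 * J) * X ^ 6 + C (63 * J ^ 2) * X ^ 4 + C (70 * J ^ 3) * X ^ 2 - C (J ^ 4) * X -
    C (7 * J ^ 4)

omit [CharZero K] in
open Polynomial in
lemma octP_eval (J x : K) : (octP J).eval x = G8 J x := by
  unfold octP G8
  simp

open Polynomial in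
lemma octP_deg (J : K) : (octP J).natDegree = 8 := by
  unfold octP
  compute_degree!

omit [CharZero K] in
open Polynomial in
lemma octP_monic (J : K) : (octP J).Monic := by
  unfold octP
  monicity!

/-- the derivative -/
def octD (J x : K) : K := 8 * x ^ 7 + 84 * J * x ^ 5 + 252 * J ^ 2 * x ^ 3 + 140 * J ^ 3 * x - J ^ 4

open Polynomial in
lemma octP_der (J x : K) : (derivative (octP J)).eval x = octD J x := by
  unfold octP octD
  simp only [derivative_sub, derivative_add, derivative_X_pow, derivative_C_mul, derivative_C,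
    derivative_X, eval_sub, eval_add, eval_mul, eval_C, eval_pow, eval_X, eval_one, eval_zero]
  norm_num
  ring

omit [CharZero K] in
lemma octD_id (J x : K) : x * octD J x = 7 * ah J x ^ 2 + G8 J x := by
  unfold octD ah G8; ring

open Polynomial in
theorem exists_eight [IsAlgClosed K] {J : K} (hJ : J ≠ 0) (hJ' : J ≠ -1728) :
    ∃ v : Fin 8 → K, Function.Injective v ∧ ∀ i, G8 J (v i) = 0 := by
  classical
  have h0 : octP J ≠ 0 := (octP_monic J).ne_zero
  have hcard : (octP J).roots.card = 8 := by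
    rw [← octP_deg J]
    exact (splits_iff_card_roots.1 (IsAlgClosed.splits (octP J)))
  have hnd : (octP J).roots.Nodup := by
    rw [Multiset.nodup_iff_count_le_one]
    intro x
    rw [count_roots]
    by_contra hc
    have hc' : 1 < (octP J).rootMultiplicity x := by omega
    rw [one_lt_rootMultiplicity_iff_isRoot h0] at hc'
    obtain ⟨h1, h2⟩ := hc'
    have h1' : G8 J x = 0 := by rw [← octP_eval]; exact h1
    have h2' : octD J x = 0 := by rw [← octP_der]; exact h2
    have h3 := octD_id J x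
    rw [h1', h2', mul_zero, add_zero] at h3
    have h4 : ah J x ^ 2 = 0 := by
      have h7 : (7 : K) ≠ 0 := by norm_num
      exact (mul_eq_zero.1 h3.symm).resolve_left h7
    exact ah_ne hJ hJ' h1' (pow_eq_zero_iff (by norm_num) |>.1 h4)
  have hc2 : (octP J).roots.toFinset.card = 8 := by
    rw [Multiset.toFinset_card_of_nodup hnd, hcard]
  let e := (octP J).roots.toFinset.equivFinOfCardEq hc2
  refine ⟨fun i => ((e.symm i : (octP J).roots.toFinset) : K), ?_, fun i => ?_⟩
  · exact Subtype.val_injective.comp e.symm.injective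
  · have h := (e.symm i).2
    rw [Multiset.mem_toFinset, mem_roots h0] at h
    rw [← octP_eval]
    exact h

open Polynomial in
lemma octP_prod {J : K} {v : Fin 8 → K} (hv : Function.Injective v)
    (hr : ∀ i, G8 J (v i) = 0) : octP J = ∏ i, (X - C (v i)) := by
  have hm : (∏ i, (X - C (v i))).Monic := monic_prod_of_monic _ _ fun i _ => monic_X_sub_C _
  have hd : (∏ i, (X - C (v i))).natDegree = 8 := by
    rw [natDegree_prod_of_monic _ _ fun i _ => monic_X_sub_C _]
    simp
  have hd1 : (octP J).degree = 8 := by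
    rw [degree_eq_natDegree (octP_monic J).ne_zero, octP_deg]; rfl
  have hd2 : (∏ i, (X - C (v i))).degree = 8 := by
    rw [degree_eq_natDegree hm.ne_zero, hd]; rfl
  refine eq_of_degree_sub_lt_of_eval_index_eq (v := v) Finset.univ hv.injOn ?_ fun i _ => ?_
  · rw [Finset.card_univ, Fintype.card_fin]
    have := degree_sub_lt (hd1.trans hd2.symm) (octP_monic J).ne_zero
      (by rw [(octP_monic J).leadingCoeff, hm.leadingCoeff])
    rw [hd1] at this
    exact this
  · rw [octP_eval, hr, eval_prod]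
    symm
    exact Finset.prod_eq_zero (Finset.mem_univ i) (by simp)

theorem eight_prod {J : K} {v : Fin 8 → K} (hv : Function.Injective v)
    (hr : ∀ i, G8 J (v i) = 0) (x : K) : G8 J x = ∏ i, (x - v i) := by
  rw [← octP_eval, octP_prod hv hr, Polynomial.eval_prod]
  simp

open Polynomial in
lemma eight_der {J : K} {v : Fin 8 → K} (hv : Function.Injective v)
    (hr : ∀ i, G8 J (v i) = 0) (i : Fin 8) :
    octD J (v i) = ∏ j ∈ Finset.univ.erase i, (v i - v j) := by
  rw [← octP_der, octP_prod hv hr, ← Finset.mul_prod_erase _ _ (Finset.mem_univ i), derivative_mul]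
  simp [eval_prod]

omit [CharZero K] in
lemma prod_erase_vdm (v : Fin 8 → K) :
    ∏ i, ∏ j ∈ Finset.univ.erase i, (v i - v j) = (Matrix.vandermonde v).det ^ 2 := by
  have h1 : ∀ i : Fin 8, ∏ j ∈ Finset.univ.erase i, (v i - v j) =
      (∏ j ∈ Finset.Ioi i, (v i - v j)) * ∏ j ∈ Finset.Iio i, (v i - v j) := by
    intro i
    rw [← Finset.prod_union]
    · apply Finset.prod_congr _ fun _ _ => rfl
      ext j
      simp only [Finset.mem_erase, Finset.mem_univ, and_true, Finset.mem_union, Finset.mem_Ioi,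
        Finset.mem_Iio]
      exact ⟨fun h => (lt_or_gt_of_ne h).symm, fun h => h.elim ne_of_gt ne_of_lt⟩
    · rw [Finset.disjoint_left]
      intro j hj hj'
      rw [Finset.mem_Ioi] at hj
      rw [Finset.mem_Iio] at hj'
      exact lt_asymm hj hj'
  have h2 : ∏ i : Fin 8, ∏ j ∈ Finset.Iio i, (v i - v j) = (Matrix.vandermonde v).det := by
    rw [Matrix.det_vandermonde]
    exact Finset.prod_comm' (by intro x y; simp)
  have h3 : ∏ i : Fin 8, ∏ j ∈ Finset.Ioi i, (v i - v j) = (Matrix.vandermonde v).det := by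
    rw [Matrix.det_vandermonde]
    have h4 : ∀ i : Fin 8, ∏ j ∈ Finset.Ioi i, (v i - v j) =
        (-1) ^ (Finset.Ioi i).card * ∏ j ∈ Finset.Ioi i, (v j - v i) := by
      intro i
      rw [← Finset.prod_const, ← Finset.prod_mul_distrib]
      exact Finset.prod_congr rfl fun j _ => by ring
    rw [Finset.prod_congr rfl fun i _ => h4 i, Finset.prod_mul_distrib, Finset.prod_pow_eq_pow_sum,
      (by decide : ∑ i : Fin 8, (Finset.Ioi i).card = 28)]
    norm_num
  rw [Finset.prod_congr rfl fun i _ => h1 i, Finset.prod_mul_distrib, h2, h3, sq]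

theorem eight_disc {J : K} (hJ : J ≠ 0) {v : Fin 8 → K} (hv : Function.Injective v)
    (hr : ∀ i, G8 J (v i) = 0) :
    (Matrix.vandermonde v).det ^ 2 = -7 * (343 * (∏ i, ah J (v i)) / J ^ 2) ^ 2 := by
  have h1 : ∏ i, octD J (v i) = (Matrix.vandermonde v).det ^ 2 := by
    rw [← prod_erase_vdm]
    exact Finset.prod_congr rfl fun i _ => eight_der hv hr i
  have h2 : ∏ i, v i = -7 * J ^ 4 := by
    have h3 := eight_prod hv hr 0
    have h4 : ∏ i, (0 - v i) = ∏ i, v i := by
      have h5 : ∀ i, 0 - v i = (-1) * v i := fun i => by ring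
      rw [Finset.prod_congr rfl fun i _ => h5 i, Finset.prod_mul_distrib, Finset.prod_const,
        Finset.card_univ, Fintype.card_fin]
      norm_num
    rw [h4] at h3
    rw [← h3]
    unfold G8
    ring
  have h3 : (∏ i, v i) * ∏ i, octD J (v i) = 7 ^ 8 * (∏ i, ah J (v i)) ^ 2 := by
    rw [← Finset.prod_mul_distrib, ← Finset.prod_pow]
    have h4 : ∀ i, v i * octD J (v i) = 7 * ah J (v i) ^ 2 := by
      intro i
      rw [octD_id, hr, add_zero]
    rw [Finset.prod_congr rfl fun i _ => h4 i, Finset.prod_mul_distrib, Finset.prod_const,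
      Finset.card_univ, Fintype.card_fin]
  rw [h1, h2] at h3
  field_simp
  linear_combination (-1 / 7 : K) * h3

theorem sign_of_perm {F : Type*} [Field F] [Algebra F K] {J : F} (hJ : J ≠ 0) (hJ' : J ≠ -1728)
    {v : Fin 8 → K} (hv : Function.Injective v) (hr : ∀ i, G8 (algebraMap F K J) (v i) = 0)
    {i : K} (hi : i ^ 2 = -7) (σ : K ≃ₐ[F] K) (π : Equiv.Perm (Fin 8))
    (hπ : ∀ k, σ (v k) = v (π k)) : σ i = ((Equiv.Perm.sign π : ℤ) : K) * i := by
  have hJK : algebraMap F K J ≠ 0 := fun h => hJ ((map_eq_zero _).mp h)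
  have hJK' : algebraMap F K J ≠ -1728 := by
    intro h
    apply hJ'
    apply (algebraMap F K).injective
    rw [h, map_neg, map_ofNat]
  set A : K := ∏ k, ah (algebraMap F K J) (v k) with hA
  have hA0 : A ≠ 0 := Finset.prod_ne_zero_iff.2 fun k _ => ah_ne hJK hJK' (hr k)
  set w : K := 343 * A / (algebraMap F K J) ^ 2 with hw
  have hw0 : w ≠ 0 := div_ne_zero (mul_ne_zero (by norm_num) hA0) (pow_ne_zero 2 hJK)
  have hσA : σ A = A := by
    rw [hA, map_prod]
    have h1 : ∀ k, σ (ah (algebraMap F K J) (v k)) = ah (algebraMap F K J) (v (π k)) := by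
      intro k
      unfold ah
      simp only [map_add, map_mul, map_pow, hπ, AlgEquiv.commutes, map_ofNat]
    rw [Finset.prod_congr rfl fun k _ => h1 k]
    exact Equiv.prod_comp π fun k => ah (algebraMap F K J) (v k)
  have hσw : σ w = w := by
    rw [hw, map_div₀, map_mul, map_pow, hσA, AlgEquiv.commutes, map_ofNat]
  have hσd : σ (Matrix.vandermonde v).det =
      ((Equiv.Perm.sign π : ℤ) : K) * (Matrix.vandermonde v).det := by
    have h1 := RingHom.map_det (σ : K →+* K) (Matrix.vandermonde v)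
    have h2 : (σ : K →+* K).mapMatrix (Matrix.vandermonde v) =
        (Matrix.vandermonde v).submatrix π id := by
      ext a b
      simp [Matrix.vandermonde_apply, hπ]
    rw [h2, Matrix.det_permute] at h1
    exact h1
  have hd := eight_disc hJK hv hr
  rw [← hA, ← hw] at hd
  have hd2 : (Matrix.vandermonde v).det ^ 2 = (i * w) ^ 2 := by
    rw [hd, mul_pow, hi]
  rcases sq_eq_sq_iff_eq_or_eq_neg.1 hd2 with h | h
  · rw [h, map_mul, hσw] at hσd
    have h5 : (σ i - ((Equiv.Perm.sign π : ℤ) : K) * i) * w = 0 := by linear_combination hσd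
    exact sub_eq_zero.1 ((mul_eq_zero.1 h5).resolve_right hw0)
  · rw [h, map_neg, map_mul, hσw] at hσd
    have h5 : (σ i - ((Equiv.Perm.sign π : ℤ) : K) * i) * w = 0 := by linear_combination -hσd
    exact sub_eq_zero.1 ((mul_eq_zero.1 h5).resolve_right hw0)

/-- an element which moves a square root of -7 moves one of the eight roots -/
theorem exists_moved {F : Type*} [Field F] [Algebra F K] [IsAlgClosed K] {J : F} (hJ : J ≠ 0)
    (hJ' : J ≠ -1728) {i : K} (hi : i ^ 2 = -7) (σ : K ≃ₐ[F] K) (hσ : σ i = -i) :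
    ∃ x : K, G8 (algebraMap F K J) x = 0 ∧ σ x ≠ x := by
  have hJK : algebraMap F K J ≠ 0 := fun h => hJ ((map_eq_zero _).mp h)
  have hJK' : algebraMap F K J ≠ -1728 := by
    intro h
    apply hJ'
    apply (algebraMap F K).injective
    rw [h, map_neg, map_ofNat]
  obtain ⟨v, hv, hr⟩ := exists_eight hJK hJK'
  by_contra hcon
  push Not at hcon
  have h1 := sign_of_perm hJ hJ' hv hr hi σ 1 (fun k => hcon _ (hr k))
  rw [hσ, Equiv.Perm.sign_one] at h1
  have h2 : (2 : K) * i = 0 := by
    simp only [Units.val_one, Int.cast_one, one_mul] at h1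
    linear_combination -h1
  have h3 : i = 0 := (mul_eq_zero.mp h2).resolve_left two_ne_zero
  rw [h3] at hi
  norm_num at hi

end Pool.Agent.M7
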