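import Pool.Agent.M7.Pts7

/-! # Existence of points of order 7; roots of the octic (helper33)

PROOFS: in the header of `Pool/Agent/M7/Pts7.lean` (`exists_of_root`, `Gof.root`, `Gof.eq_or`,
`exists_of_G8`). Compare `Pool/Agent/S5N/Pts5.lean`. -/

namespace Pool.Agent.M7

open WeierstrassCurve WeierstrassCurve.Affine Pool.Agent.H42M

variable {K : Type*} [Field K] [DecidableEq K] {W : Affine K}

theorem exists_of_root [CharZero K] [IsAlgClosed K] [W.IsElliptic] {j : K}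
    (hj : JRel (-27 * W.c₄) (-54 * W.c₆) j) (h0 : j ≠ 0) (h1 : j ≠ 1728) {t : K}
    (ht : j * t = uu t * aa t ^ 3) : ∃ R : W.Point, Tof R t := by
  obtain ⟨X₁, X₂, X₃, hrel, htf, d1, d2, hf1, hf2⟩ := exists_rel hj h0 h1 ht
  have h4 : (4 : K) ≠ 0 := by norm_num
  obtain ⟨R, hR⟩ := exists_point (W := W) X₁
  have hRR := Xof_add_self_ne hR hf1
  obtain ⟨X', hX'⟩ := exists_Xof hRR
  have e1 : X' = X₂ := by
    have h2 := Xof_dup hR hX'
    apply mul_left_cancel₀ h4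
    apply mul_right_cancel₀ hf1
    rw [h2, d1]
  rw [e1] at hX'
  have hRRR := Xof_add_self_ne hX' hf2
  obtain ⟨X'', hX''⟩ := exists_Xof hRRR
  have e2 : X'' = X₃ := by
    have h2 := Xof_dup hX' hX''
    apply mul_left_cancel₀ h4
    apply mul_right_cancel₀ hf2
    rw [h2, d2]
  rw [e2] at hX''
  have h3 : R + R + R ≠ 0 := by
    intro h
    have h5 : R + R = -R := eq_neg_of_add_eq_zero_left h
    rw [h5] at hX'
    exact hrel.ne₁₂ (hR.neg.unique hX')
  obtain ⟨X₃', hX₃'⟩ := exists_Xof h3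
  have e3 : X₃' = X₃ := by
    have hm : R + R - R = R := add_sub_cancel_right R R
    have h5 := Xof_sum hX' hR hrel.ne₁₂.symm hX₃' (by rw [hm]; exact hR)
    have h6 : (X₁ - X₂) ^ 2 ≠ 0 := pow_ne_zero 2 (sub_ne_zero.mpr hrel.ne₁₂)
    apply mul_right_cancel₀ h6
    linear_combination h5 - hrel.s₁
  rw [e3] at hX₃'
  have h7 : (7 : ℤ) • R = 0 := by
    have e : (7 : ℤ) • R = R + R + (R + R) + (R + R + R) := by abel
    rcases hX''.eq_or hX₃' with h | h
    · exfalso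
      have h5 : R + R = R := by
        have h6 : (R + R) + (R + R) = (R + R) + R := h
        exact add_left_cancel h6
      exact hR.ne_zero (left_eq_add.mp h5.symm)
    · rw [e, h]
      exact neg_add_cancel _
  exact ⟨R, X₁, X₂, X₃, hR, hX', hX'', h7, hrel, htf.symm⟩

omit [DecidableEq K] in
lemma p7b_key {J t x : K} (hx : x ^ 2 = J * t) : t ^ 4 * G8 J x = x ^ 8 * (bb t - x) := by
  have e2 : J * t = x ^ 2 := hx.symm
  have e : t ^ 4 * G8 J x = x ^ 8 * t ^ 4 + 14 * (J * t) * t ^ 3 * x ^ 6 +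
      63 * (J * t) ^ 2 * t ^ 2 * x ^ 4 + 70 * (J * t) ^ 3 * t * x ^ 2 - (J * t) ^ 4 * x -
      7 * (J * t) ^ 4 := by
    unfold G8; ring
  rw [e, e2]
  unfold bb
  ring

omit [DecidableEq K] in
lemma p7b_sq {j t : K} (h : j * t = uu t * aa t ^ 3) : bb t ^ 2 = (j - 1728) * t := by
  have := uu_aa_bb t
  linear_combination -this - h

theorem Gof.root [CharZero K] {j : K} (hj : JRel (-27 * W.c₄) (-54 * W.c₆) j) {R : W.Point}
    {x : K} (h : Gof R x) : G8 (j - 1728) x = 0 := by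
  obtain ⟨t, h1, rfl⟩ := h
  obtain ⟨ht, hjt⟩ := h1.root hj
  have h2 := p7b_key (p7b_sq hjt)
  rw [sub_self, mul_zero] at h2
  exact (mul_eq_zero.mp h2).resolve_left (pow_ne_zero 4 ht)

theorem Gof.eq_or [CharZero K] {j : K} (hj : JRel (-27 * W.c₄) (-54 * W.c₆) j) (h0 : j ≠ 0)
    (h1 : j ≠ 1728) {R R' : W.Point} {x : K} (h : Gof R x) (h' : Gof R' x) :
    ∃ k : ℤ, R' = k • R := by
  obtain ⟨t, h2, rfl⟩ := h
  obtain ⟨t', h2', h3⟩ := h'
  have e1 := p7b_sq (h2.root hj).2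
  have e2 := p7b_sq (h2'.root hj).2
  rw [h3] at e1
  have e3 : t = t' := by
    apply mul_left_cancel₀ (sub_ne_zero.mpr h1)
    rw [← e1, ← e2]
  rw [← e3] at h2'
  exact h2.eq_or hj h0 h1 h2'

theorem exists_of_G8 [CharZero K] [IsAlgClosed K] [W.IsElliptic] {j : K}
    (hj : JRel (-27 * W.c₄) (-54 * W.c₆) j) (h0 : j ≠ 0) (h1 : j ≠ 1728) {x : K}
    (hx : G8 (j - 1728) x = 0) : ∃ R : W.Point, Gof R x := by
  have hJ : j - 1728 ≠ 0 := sub_ne_zero.mpr h1
  have hx0 : x ≠ 0 := by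
    rintro rfl
    have e : G8 (j - 1728) 0 = -7 * (j - 1728) ^ 4 := by unfold G8; ring
    rw [e] at hx
    exact mul_ne_zero (by norm_num) (pow_ne_zero 4 hJ) hx
  obtain ⟨t, ht⟩ : ∃ t, t = x ^ 2 / (j - 1728) := ⟨_, rfl⟩
  have e1 : x ^ 2 = (j - 1728) * t := by
    rw [ht]; field_simp
  have h2 := p7b_key e1
  rw [hx, mul_zero] at h2
  have e2 : bb t = x := by
    have h3 := (mul_eq_zero.mp h2.symm).resolve_left (pow_ne_zero 8 hx0)
    exact sub_eq_zero.mp h3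
  have e3 : j * t = uu t * aa t ^ 3 := by
    have h4 := uu_aa_bb t
    rw [e2] at h4
    linear_combination -h4 - e1
  obtain ⟨R, hR⟩ := exists_of_root hj h0 h1 e3
  exact ⟨R, t, hR, e2.symm⟩

end Pool.Agent.M7
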