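import Pool.Agent.M7.FrameDef
import Pool.Agent.M7.Pts7b
import Pool.Agent.M7.Eight

/-! # A basis of the 7-torsion adapted to complex conjugation (helper33)

Adapt `Pool/Agent/S5N/Frame5.lean` (the same for 5, complete).

PROOF of `basis7`. By `exists_moved` (with `σ = c`, `i` a square root of -7) there is `x` with
`G8 J x = 0`, `c x ≠ x`, `J = j - 1728`; by `exists_of_G8` a point `R` with `Gof R x`.
`P = R + c R`, `Q = R - c R`. `c P = P`, `c Q = -Q`; `P ≠ 0`: otherwise `c R = -R` and `act_Gof`,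
`Tof.neg`, `Tof.unique` give `c x = x`; `Q ≠ 0` in the same way. `7 P = 7 Q = 0`. If
`x P + y Q = 0`, apply `c`: `2 x P = 0`, `2 y Q = 0`, so 7 divides `x` and `y`. The last claim: let
`7 R = 0`, `R ≠ 0`; the eight points `P + k Q` (`k = 0, …, 6`), `Q` are pairwise not proportional, so
by `Gof.eq_or` their roots are eight distinct roots of the octic (`exists_Tof`); by `eight_prod` the
root of `R` is one of them, and `Gof.eq_or` gives `R = k • R'`.
PROOF of `frame7`. As `frame5`. For `σ` write `σ P = a P + g Q`, `σ Q = b P + d Q`; `m σ = !![a, b; g, d]`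
is multiplicative, `m 1 = 1`. `val x y` := the `z` with `Gof (x P + y Q) z` for `(x, y) ≠ 0`.
`smul`: `Tof.zsmul`. `gal`: `act_Gof`. `root`: `Gof.root`. `inj`: `Gof.eq_or` gives
`(x', y') = k (x, y)`. -/

namespace Pool.Agent.M7

open Pool.Agent.H42M WeierstrassCurve WeierstrassCurve.Affine

section Abstract

variable {M : Type*} [AddCommGroup M]

private lemma dvd_of_zsmul {P : M} (hP : P ≠ 0) (h7 : (7 : ℤ) • P = 0) {x : ℤ}
    (hx : x • P = 0) : 7 ∣ x := by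
  by_contra hc
  have hp : Prime (7 : ℤ) := by norm_num
  obtain ⟨u, v, huv⟩ := (hp.coprime_iff_not_dvd).mpr hc
  apply hP
  have h1 : P = (u * 7 + v * x) • P := by rw [huv, one_zsmul]
  rw [h1, add_zsmul, mul_zsmul, mul_zsmul, h7, hx, zsmul_zero, zsmul_zero, add_zero]

/-- the homomorphism `x ↦ x P` on `ZMod 7` -/
private noncomputable def g7 (P : M) (h : (7 : ℤ) • P = 0) : ZMod 7 →+ M :=
  ZMod.lift 7 ⟨zmultiplesHom M P, by simpa using h⟩

private lemma g7_coe {P : M} (h : (7 : ℤ) • P = 0) (x : ℤ) : g7 P h (x : ZMod 7) = x • P := by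
  simp [g7]

/-- the point with coordinates `x`, `y` -/
private noncomputable def pt {P Q : M} (hP : (7 : ℤ) • P = 0) (hQ : (7 : ℤ) • Q = 0)
    (x y : ZMod 7) : M := g7 P hP x + g7 Q hQ y

variable {P Q : M} (hP : (7 : ℤ) • P = 0) (hQ : (7 : ℤ) • Q = 0)

include hP hQ

private lemma pt_coe (x y : ℤ) : pt hP hQ (x : ZMod 7) (y : ZMod 7) = x • P + y • Q := by
  rw [pt, g7_coe, g7_coe]

private lemma pt_add (x y x' y' : ZMod 7) :
    pt hP hQ (x + x') (y + y') = pt hP hQ x y + pt hP hQ x' y' := by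
  simp only [pt, map_add]
  abel

private lemma pt_neg (x y : ZMod 7) : pt hP hQ (-x) (-y) = -pt hP hQ x y := by
  simp only [pt, map_neg]
  abel

private lemma pt_zsmul (n : ℤ) (x y : ZMod 7) :
    pt hP hQ ((n : ZMod 7) * x) ((n : ZMod 7) * y) = n • pt hP hQ x y := by
  simp only [pt, ← zsmul_eq_mul, map_zsmul, zsmul_add]

private lemma pt_eq_zero (hind : ∀ x y : ℤ, x • P + y • Q = 0 → 7 ∣ x ∧ 7 ∣ y) {x y : ZMod 7}
    (h : pt hP hQ x y = 0) : x = 0 ∧ y = 0 := by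
  obtain ⟨a, rfl⟩ := ZMod.intCast_surjective x
  obtain ⟨b, rfl⟩ := ZMod.intCast_surjective y
  rw [pt_coe] at h
  obtain ⟨h1, h2⟩ := hind a b h
  exact ⟨(ZMod.intCast_zmod_eq_zero_iff_dvd a 7).mpr (by exact_mod_cast h1),
    (ZMod.intCast_zmod_eq_zero_iff_dvd b 7).mpr (by exact_mod_cast h2)⟩

private lemma pt_inj (hind : ∀ x y : ℤ, x • P + y • Q = 0 → 7 ∣ x ∧ 7 ∣ y) {x y x' y' : ZMod 7}
    (h : pt hP hQ x y = pt hP hQ x' y') : x = x' ∧ y = y' := by
  have h1 : pt hP hQ (x + -x') (y + -y') = 0 := by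
    rw [pt_add, pt_neg, h, add_neg_cancel]
  obtain ⟨h2, h3⟩ := pt_eq_zero hP hQ hind h1
  exact ⟨eq_of_sub_eq_zero (by rw [sub_eq_add_neg, h2]),
    eq_of_sub_eq_zero (by rw [sub_eq_add_neg, h3])⟩

private lemma pt_tor (x y : ZMod 7) : (7 : ℤ) • pt hP hQ x y = 0 := by
  rw [← pt_zsmul]
  have h7 : ((7 : ℤ) : ZMod 7) = 0 := by decide
  rw [h7, zero_mul, zero_mul]
  simp [pt]

private lemma pt_of_eq_or {R : M} {x y : ZMod 7} (h : ∃ k : ℤ, R = k • pt hP hQ x y) :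
    ∃ k : ZMod 7, R = pt hP hQ (k * x) (k * y) := by
  obtain ⟨k, hk⟩ := h
  exact ⟨(k : ZMod 7), by rw [pt_zsmul, hk]⟩

end Abstract

section Points

variable {K : Type*} [Field K] [DecidableEq K] {W : Affine K}

private lemma gof_ne_zero {R : W.Point} {x : K} (hh : Gof R x) : R ≠ 0 := by
  obtain ⟨t, h1, -⟩ := hh
  exact h1.ne_zero

private lemma gof_tor {R : W.Point} {x : K} (hh : Gof R x) : (7 : ℤ) • R = 0 := by
  obtain ⟨t, h1, -⟩ := hh
  exact h1.tor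

private lemma gof_unique {R : W.Point} {x x' : K} (h : Gof R x) (h' : Gof R x') : x = x' := by
  obtain ⟨t, h1, rfl⟩ := h
  obtain ⟨t', h2, rfl⟩ := h'
  rw [h1.unique h2]

private lemma gof_neg {R : W.Point} {x : K} (h : Gof R x) : Gof (-R) x := by
  obtain ⟨t, h1, h2⟩ := h
  exact ⟨t, h1.neg, h2⟩

private lemma gof_zsmul {R : W.Point} {x : K} (h : Gof R x) {k : ℤ} (hk : ¬ (7 : ℤ) ∣ k) :
    Gof (k • R) x := by
  obtain ⟨t, h1, h2⟩ := h
  exact ⟨t, h1.zsmul hk, h2⟩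

variable [CharZero K]

private lemma exists_Gof {R : W.Point} (hR : R ≠ 0) (h7 : (7 : ℤ) • R = 0) : ∃ x, Gof R x := by
  obtain ⟨t, ht⟩ := exists_Tof hR h7
  exact ⟨bb t, t, ht, rfl⟩

variable {j : K} (hj : JRel (-27 * W.c₄) (-54 * W.c₆) j) (h0 : j ≠ 0)
  (h1 : j ≠ 1728) {P Q : W.Point} (hP : (7 : ℤ) • P = 0) (hQ : (7 : ℤ) • Q = 0)
  (hind : ∀ x y : ℤ, x • P + y • Q = 0 → 7 ∣ x ∧ 7 ∣ y)

include hj h0 h1 hind

private lemma prop_of_gof {x y x' y' : ZMod 7} {h : K} (hh : Gof (pt hP hQ x y) h)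
    (hh' : Gof (pt hP hQ x' y') h) : ∃ k : ZMod 7, x' = k * x ∧ y' = k * y := by
  obtain ⟨k, hk⟩ := pt_of_eq_or hP hQ (hh.eq_or hj h0 h1 hh')
  exact ⟨k, pt_inj hP hQ hind hk⟩

private lemma exists_val :
    ∃ val : ZMod 7 → ZMod 7 → K, (∀ x y, (x ≠ 0 ∨ y ≠ 0) → Gof (pt hP hQ x y) (val x y)) ∧
      ∀ x y x' y' : ZMod 7, (x ≠ 0 ∨ y ≠ 0) → (x' ≠ 0 ∨ y' ≠ 0) → val x y = val x' y' →
        x * y' = x' * y := by
  have hex : ∀ x y : ZMod 7, ∃ h : K, (x ≠ 0 ∨ y ≠ 0) → Gof (pt hP hQ x y) h := by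
    intro x y
    by_cases hxy : x ≠ 0 ∨ y ≠ 0
    · obtain ⟨h, hh⟩ := exists_Gof (R := pt hP hQ x y) (by
        intro hz
        obtain ⟨hx, hy⟩ := pt_eq_zero hP hQ hind hz
        rcases hxy with hxy | hxy
        · exact hxy hx
        · exact hxy hy) (pt_tor hP hQ x y)
      exact ⟨h, fun _ => hh⟩
    · exact ⟨0, fun h => absurd h hxy⟩
  choose val hval using hex
  refine ⟨val, hval, ?_⟩
  intro x y x' y' hxy hxy' he
  have h2 := hval x' y' hxy'
  rw [← he] at h2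
  obtain ⟨k, hk1, hk2⟩ := prop_of_gof hj h0 h1 hP hQ hind (hval x y hxy) h2
  rw [hk1, hk2]
  ring

private lemma span7 (R : W.Point) (hR : (7 : ℤ) • R = 0) :
    ∃ x y : ZMod 7, R = pt hP hQ x y := by
  by_cases hR0 : R = 0
  · exact ⟨0, 0, by simp [pt, hR0]⟩
  obtain ⟨h, hh⟩ := exists_Gof hR0 hR
  obtain ⟨val, hval, hv⟩ := exists_val hj h0 h1 hP hQ hind
  have hne : ∀ k : Fin 8, (((![1, 1, 1, 1, 1, 1, 1, 0] : Fin 8 → ZMod 7) k) ≠ 0 ∨
      ((![0, 1, 2, 3, 4, 5, 6, 1] : Fin 8 → ZMod 7) k) ≠ 0) := by decide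
  have hinj : Function.Injective (fun k : Fin 8 => val ((![1, 1, 1, 1, 1, 1, 1, 0] : Fin 8 → ZMod 7) k)
      ((![0, 1, 2, 3, 4, 5, 6, 1] : Fin 8 → ZMod 7) k)) := by
    intro k l hkl
    have h2 := hv _ _ _ _ (hne k) (hne l) hkl
    clear hkl
    revert k l
    decide
  have hroot : ∀ k : Fin 8, G8 (j - 1728) ((fun k : Fin 8 =>
      val ((![1, 1, 1, 1, 1, 1, 1, 0] : Fin 8 → ZMod 7) k)
      ((![0, 1, 2, 3, 4, 5, 6, 1] : Fin 8 → ZMod 7) k)) k) = 0 := by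
    intro k
    exact (hval _ _ (hne k)).root hj
  have h3 := eight_prod hinj hroot h
  rw [hh.root hj] at h3
  obtain ⟨k, -, hk⟩ := Finset.prod_eq_zero_iff.mp h3.symm
  rw [sub_eq_zero] at hk
  have h4 := hval _ _ (hne k)
  rw [hk] at hh
  obtain ⟨l, hl⟩ := pt_of_eq_or hP hQ (h4.eq_or hj h0 h1 hh)
  exact ⟨_, _, hl⟩

end Points

variable {F K : Type*} [Field F] [Field K] [CharZero K] [IsAlgClosed K] [DecidableEq K]
  [Algebra F K] {W : WeierstrassCurve F} [(WeierstrassCurve.Affine.baseChange W K).IsElliptic]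

theorem basis7 {j : F} (hj : JRel (-27 * (WeierstrassCurve.Affine.baseChange W K).c₄)
      (-54 * (WeierstrassCurve.Affine.baseChange W K).c₆) (algebraMap F K j))
    (h0 : j ≠ 0) (h1 : j ≠ 1728) (c : K ≃ₐ[F] K) (hcc : ∀ z, c (c z) = z)
    (hc7 : ∀ z : K, z ^ 2 = -7 → c z = -z) :
    ∃ P Q : (WeierstrassCurve.Affine.baseChange W K).Point,
      (7 : ℤ) • P = 0 ∧ (7 : ℤ) • Q = 0 ∧ act W c P = P ∧ act W c Q = -Q ∧
      (∀ x y : ℤ, x • P + y • Q = 0 → 7 ∣ x ∧ 7 ∣ y) ∧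
      ∀ R : (WeierstrassCurve.Affine.baseChange W K).Point, (7 : ℤ) • R = 0 →
        ∃ x y : ℤ, R = x • P + y • Q := by
  have h0K : algebraMap F K j ≠ 0 := fun h => h0 ((map_eq_zero _).mp h)
  have h1K : algebraMap F K j ≠ 1728 := by
    intro h
    apply h1
    apply (algebraMap F K).injective
    rw [h, map_ofNat]
  obtain ⟨i, hi⟩ := IsAlgClosed.exists_pow_nat_eq (-7 : K) (n := 2) (by norm_num)
  obtain ⟨h, hr, hch⟩ := exists_moved (J := j - 1728) (sub_ne_zero.mpr h1)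
    (fun hc => h0 (by linear_combination hc)) hi c (hc7 i hi)
  rw [map_sub, map_ofNat] at hr
  obtain ⟨R, hR⟩ := exists_of_G8 hj h0K h1K hr
  have hcR : Gof (act W c R) (c h) := act_Gof c hR
  have hcc' : ∀ R : (WeierstrassCurve.Affine.baseChange W K).Point, act W c (act W c R) = R := by
    intro R
    rw [← act_mul, show c * c = 1 from AlgEquiv.ext hcc, act_one]
  have hR7 := gof_tor hR
  have hcR7 := gof_tor hcR
  obtain ⟨P, hPdef⟩ : ∃ P, P = R + act W c R := ⟨_, rfl⟩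
  obtain ⟨Q, hQdef⟩ : ∃ Q, Q = R - act W c R := ⟨_, rfl⟩
  have hP7 : (7 : ℤ) • P = 0 := by rw [hPdef, zsmul_add, hR7, hcR7, add_zero]
  have hQ7 : (7 : ℤ) • Q = 0 := by rw [hQdef, zsmul_sub, hR7, hcR7, sub_zero]
  have hP0 : P ≠ 0 := by
    intro hz
    have h2 : act W c R = -R := by
      rw [hPdef] at hz
      exact eq_neg_of_add_eq_zero_right hz
    rw [h2] at hcR
    exact hch (gof_unique hcR (gof_neg hR))
  have hQ0 : Q ≠ 0 := by
    intro hz
    have h2 : act W c R = R := by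
      rw [hQdef] at hz
      exact (sub_eq_zero.mp hz).symm
    rw [h2] at hcR
    exact hch (gof_unique hcR hR)
  have hcP : act W c P = P := by rw [hPdef, map_add, hcc', add_comm]
  have hcQ : act W c Q = -Q := by rw [hQdef, map_sub, hcc', neg_sub]
  have hind : ∀ x y : ℤ, x • P + y • Q = 0 → 7 ∣ x ∧ 7 ∣ y := by
    intro x y hxy
    have h2 : x • P - y • Q = 0 := by
      have h3 := congrArg (act W c) hxy
      rw [map_add, map_zsmul, map_zsmul, hcP, hcQ, map_zero, zsmul_neg, ← sub_eq_add_neg] at h3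
      exact h3
    have h4 : (2 * x) • P = 0 := by
      have h5 : (2 * x) • P = (x • P + y • Q) + (x • P - y • Q) := by module
      rw [h5, hxy, h2, add_zero]
    have h6 : (2 * y) • Q = 0 := by
      have h5 : (2 * y) • Q = (x • P + y • Q) - (x • P - y • Q) := by module
      rw [h5, hxy, h2, sub_zero]
    have h7 := dvd_of_zsmul hP0 hP7 h4
    have h8 := dvd_of_zsmul hQ0 hQ7 h6
    constructor <;> omega
  refine ⟨P, Q, hP7, hQ7, hcP, hcQ, hind, ?_⟩
  intro R' hR'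
  obtain ⟨x, y, hxy⟩ := span7 hj h0K h1K hP7 hQ7 hind R' hR'
  obtain ⟨a, rfl⟩ := ZMod.intCast_surjective x
  obtain ⟨b, rfl⟩ := ZMod.intCast_surjective y
  exact ⟨a, b, by rw [hxy, pt_coe]⟩

theorem frame7 {j : F} (hj : JRel (-27 * (WeierstrassCurve.Affine.baseChange W K).c₄)
      (-54 * (WeierstrassCurve.Affine.baseChange W K).c₆) (algebraMap F K j))
    (h0 : j ≠ 0) (h1 : j ≠ 1728) (c : K ≃ₐ[F] K) (hcc : ∀ z, c (c z) = z)
    (hc7 : ∀ z : K, z ^ 2 = -7 → c z = -z) :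
    ∃ (m : (K ≃ₐ[F] K) →* Matrix (Fin 2) (Fin 2) (ZMod 7)) (val : ZMod 7 → ZMod 7 → K),
      Frame7 m val (algebraMap F K (j - 1728)) ∧ m c = !![1, 0; 0, -1] ∧
      ∀ σ τ : K ≃ₐ[F] K, (∀ R : (WeierstrassCurve.Affine.baseChange W K).Point,
        (7 : ℤ) • R = 0 → act W σ (act W τ R) = act W τ (act W σ R)) →
          m σ * m τ = m τ * m σ := by
  have h0K : algebraMap F K j ≠ 0 := fun h => h0 ((map_eq_zero _).mp h)
  have h1K : algebraMap F K j ≠ 1728 := by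
    intro h
    apply h1
    apply (algebraMap F K).injective
    rw [h, map_ofNat]
  obtain ⟨P, Q, hP7, hQ7, hcP, hcQ, hind, hspan⟩ := basis7 (W := W) hj h0 h1 c hcc hc7
  have hsp : ∀ R : (WeierstrassCurve.Affine.baseChange W K).Point, (7 : ℤ) • R = 0 →
      ∃ x y : ZMod 7, R = pt hP7 hQ7 x y := by
    intro R hR
    obtain ⟨x, y, hxy⟩ := hspan R hR
    exact ⟨x, y, by rw [pt_coe, hxy]⟩
  have hinj := fun {x y x' y' : ZMod 7} (h : pt hP7 hQ7 x y = pt hP7 hQ7 x' y') =>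
    pt_inj hP7 hQ7 hind h
  have hp10 : pt hP7 hQ7 1 0 = P := by
    have := pt_coe hP7 hQ7 1 0
    simpa using this
  have hp01 : pt hP7 hQ7 0 1 = Q := by
    have := pt_coe hP7 hQ7 0 1
    simpa using this
  have hp0m : pt hP7 hQ7 0 (-1) = -Q := by
    have := pt_neg hP7 hQ7 0 1
    rw [neg_zero, hp01] at this
    exact this
  have htor : ∀ (σ : K ≃ₐ[F] K) {R : (WeierstrassCurve.Affine.baseChange W K).Point},
      (7 : ℤ) • R = 0 → (7 : ℤ) • act W σ R = 0 := by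
    intro σ R h
    rw [← map_zsmul, h, map_zero]
  have hm : ∀ σ : K ≃ₐ[F] K, ∃ A : Matrix (Fin 2) (Fin 2) (ZMod 7),
      act W σ P = pt hP7 hQ7 (A 0 0) (A 1 0) ∧ act W σ Q = pt hP7 hQ7 (A 0 1) (A 1 1) := by
    intro σ
    obtain ⟨a, g, h2⟩ := hsp _ (htor σ hP7)
    obtain ⟨b, d, h3⟩ := hsp _ (htor σ hQ7)
    exact ⟨!![a, b; g, d], h2, h3⟩
  choose m hmP hmQ using hm
  have hact : ∀ (σ : K ≃ₐ[F] K) (x y : ZMod 7), act W σ (pt hP7 hQ7 x y) =
      pt hP7 hQ7 (m σ 0 0 * x + m σ 0 1 * y) (m σ 1 0 * x + m σ 1 1 * y) := by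
    intro σ x y
    obtain ⟨a, rfl⟩ := ZMod.intCast_surjective x
    obtain ⟨b, rfl⟩ := ZMod.intCast_surjective y
    rw [pt_coe, map_add, map_zsmul, map_zsmul, hmP, hmQ, ← pt_zsmul, ← pt_zsmul, ← pt_add]
    congr 1 <;> ring
  have heq : ∀ A B : Matrix (Fin 2) (Fin 2) (ZMod 7),
      pt hP7 hQ7 (A 0 0) (A 1 0) = pt hP7 hQ7 (B 0 0) (B 1 0) →
      pt hP7 hQ7 (A 0 1) (A 1 1) = pt hP7 hQ7 (B 0 1) (B 1 1) → A = B := by
    intro A B h2 h3
    obtain ⟨e1, e2⟩ := hinj h2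
    obtain ⟨e3, e4⟩ := hinj h3
    ext i k
    fin_cases i <;> fin_cases k
    · exact e1
    · exact e3
    · exact e2
    · exact e4
  have hmul : ∀ σ τ, pt hP7 hQ7 ((m σ * m τ) 0 0) ((m σ * m τ) 1 0) = act W σ (act W τ P) ∧
      pt hP7 hQ7 ((m σ * m τ) 0 1) ((m σ * m τ) 1 1) = act W σ (act W τ Q) := by
    intro σ τ
    rw [hmP τ, hmQ τ, hact, hact]
    constructor <;> simp only [Matrix.mul_apply, Fin.sum_univ_two]
  have hone : m 1 = 1 := by
    apply heq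
    · rw [← hmP, act_one]
      simpa using hp10.symm
    · rw [← hmQ, act_one]
      simpa using hp01.symm
  have hmm : ∀ σ τ, m (σ * τ) = m σ * m τ := by
    intro σ τ
    apply heq
    · rw [← hmP, act_mul, (hmul σ τ).1]
    · rw [← hmQ, act_mul, (hmul σ τ).2]
  obtain ⟨val, hval, hv⟩ := exists_val hj h0K h1K hP7 hQ7 hind
  refine ⟨⟨⟨m, hone⟩, hmm⟩, val, ⟨?_, ?_, ?_, hv⟩, ?_, ?_⟩
  · intro k x y hk
    by_cases hxy : x ≠ 0 ∨ y ≠ 0
    · have hxy' : k * x ≠ 0 ∨ k * y ≠ 0 := by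
        revert k x y; decide
      have h2 := hval _ _ hxy'
      have h3 := hval _ _ hxy
      obtain ⟨n, rfl⟩ := ZMod.intCast_surjective k
      rw [pt_zsmul] at h2
      refine gof_unique h2 (gof_zsmul h3 ?_)
      intro hn
      exact hk ((ZMod.intCast_zmod_eq_zero_iff_dvd n 7).mpr (by exact_mod_cast hn))
    · push Not at hxy
      rw [hxy.1, hxy.2, mul_zero]
  · intro x y hxy
    rw [map_sub, map_ofNat]
    exact (hval x y hxy).root hj
  · intro σ x y hxy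
    have h2 := act_Gof σ (hval x y hxy)
    rw [hact] at h2
    refine gof_unique h2 (hval _ _ ?_)
    by_contra hcon
    push Not at hcon
    have h3 := gof_ne_zero h2
    rw [hcon.1, hcon.2] at h3
    exact h3 (by simp [pt])
  · change m c = _
    apply heq
    · rw [← hmP, hcP]
      simpa using hp10.symm
    · rw [← hmQ, hcQ]
      simpa using hp0m.symm
  · intro σ τ hst
    change m σ * m τ = m τ * m σ
    apply heq
    · rw [(hmul σ τ).1, (hmul τ σ).1, hst P hP7]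
    · rw [(hmul σ τ).2, (hmul τ σ).2, hst Q hQ7]

end Pool.Agent.M7
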