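import Pool.Agent.M7.Even7

/-! # Group theory: the elements fixing the square root of -7 commute (helper33)

Adapt `Pool/Agent/S5N/Mat5.lean` (the same for 5, complete).

PROOF. `N` = elements fixing `i`; for every `σ`, `σ` or `c σ` is in `N`, and `c N c = N`.
`m σ = !![a, b; g, d]` for `σ ∈ N` commutes with `m (c σ c) = !![a, -b; -g, d]`:
`2 b (d - a) = 0`, `2 g (a - d) = 0`.
(1) All `m σ`, `σ ∈ N`, have `b = g = 0`: `val 1 0` is fixed by `N` and by `c`. First outcome.
(2) There is `σ₀ ∈ N` with `(b₀, g₀) ≠ 0`, so `a₀ = d₀`. Commuting with `m σ₀`: every `τ ∈ N` has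
`a = d` and `b g₀ = b₀ g`. If `g₀ = 0`: `g = 0` for all `τ ∈ N`, `val 1 0` is fixed. If `b₀ = 0`:
`val 0 1` is fixed. Otherwise:
(2a) `b₀ g₀` is a square (`1, 2, 4`): there is `k ≠ 0` with `k² b₀ = g₀`; then `g = k² b` for all
`τ ∈ N`, `τ (val 1 k) = val (a + b k) (g + a k) = val (a + b k) (k (a + b k)) = val 1 k` (`a + b k ≠ 0` as
`det ≠ 0`), same for `-k`; `c` exchanges them. Second outcome (`c i = -i`).
(2b) `b₀ g₀ = 3, 5, 6`: there is `k ≠ 0` with `k² b₀ = -g₀`; `g = -k² b` for all `τ ∈ N`.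
`a² - b g = a² + (k b)² ∈ {1, 2, 4}` for all `τ ∈ N`: if `b ≠ 0` this is `even7` (`b g = -(k b)²` is
`6, 3, 5`); if `b = 0` it is `a² ≠ 0`. `S = {val 1 0, val 0 1, val 1 k, val 1 (-k)}`,
`T = {val 1 (2 k), val 1 (-2 k), val 1 (3 k), val 1 (-3 k)}`. For `τ ∈ N`:
`τ (val 1 0) = val a (-k² b)`, `τ (val 0 1) = val b a`, `τ (val 1 (y k)) = val (a + b k y) (k (a y - k b))`;
a finite check (`decide` over `k a b` with the condition on `a² + (k b)²`) shows that the images of the
four elements of `S` (`T`) are in `S` (`T`); `σ` is injective so `S.image σ = S`. `c` fixes `val 1 0`,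
`val 0 1` and exchanges `val 1 y`, `val 1 (-y)`. Third outcome; the eight elements are distinct by
`Frame7.inj`. -/

namespace Pool.Agent.M7

private theorem m7cancel : ∀ {a b c : ZMod 7}, a ≠ 0 → a * b = a * c → b = c := by decide

private theorem m7zero : ∀ {a b : ZMod 7}, a * b = 0 → a = 0 ∨ b = 0 := by decide

private theorem m7seven : (7 : ZMod 7) = 0 := by decide

/-- normal form of a point of the projective line over `ZMod 7` -/
private def m7nf (x y : ZMod 7) : ZMod 7 × ZMod 7 := if x = 0 then (0, 1) else (1, y * x ^ 5)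

private def m7A (k : ZMod 7) : Finset (ZMod 7 × ZMod 7) := {(1, 0), (0, 1), (1, k), (1, -k)}

private def m7B (k : ZMod 7) : Finset (ZMod 7 × ZMod 7) :=
  {(1, 2 * k), (1, -(2 * k)), (1, 3 * k), (1, -(3 * k))}

private theorem m7cardA : ∀ k : ZMod 7, k ≠ 0 → (m7A k).card = 4 := by decide

private theorem m7cardB : ∀ k : ZMod 7, k ≠ 0 → (m7B k).card = 4 := by decide

private theorem m7injA : ∀ k : ZMod 7, k ≠ 0 → ∀ p ∈ m7A k, ∀ q ∈ m7A k,
    p.1 * q.2 = q.1 * p.2 → p = q := by decide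

private theorem m7injB : ∀ k : ZMod 7, k ≠ 0 → ∀ p ∈ m7B k, ∀ q ∈ m7B k,
    p.1 * q.2 = q.1 * p.2 → p = q := by decide

private theorem m7disj : ∀ k : ZMod 7, k ≠ 0 → ∀ p ∈ m7A k, ∀ q ∈ m7B k,
    p.1 * q.2 ≠ q.1 * p.2 := by decide

private theorem m7nzA : ∀ k : ZMod 7, ∀ p ∈ m7A k, p.1 ≠ 0 ∨ p.2 ≠ 0 := by decide

private theorem m7nzB : ∀ k : ZMod 7, ∀ p ∈ m7B k, p.1 ≠ 0 ∨ p.2 ≠ 0 := by decide

private def m7cond (k a b : ZMod 7) : Prop :=
  a ^ 2 + (k * b) ^ 2 = 1 ∨ a ^ 2 + (k * b) ^ 2 = 2 ∨ a ^ 2 + (k * b) ^ 2 = 4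

private instance (k a b : ZMod 7) : Decidable (m7cond k a b) := by
  unfold m7cond; infer_instance

private def m7chk (A : Finset (ZMod 7 × ZMod 7)) (k a b : ZMod 7) : Prop :=
  ∀ p ∈ A, (a * p.1 + b * p.2 ≠ 0 ∨ -(k ^ 2 * b) * p.1 + a * p.2 ≠ 0) ∧
    m7nf (a * p.1 + b * p.2) (-(k ^ 2 * b) * p.1 + a * p.2) ∈ A

private instance (A : Finset (ZMod 7 × ZMod 7)) (k a b : ZMod 7) : Decidable (m7chk A k a b) := by
  unfold m7chk; infer_instance

private theorem m7keyA : ∀ k a b : ZMod 7, k ≠ 0 → m7cond k a b → m7chk (m7A k) k a b := by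
  decide

private theorem m7keyB : ∀ k a b : ZMod 7, k ≠ 0 → m7cond k a b → m7chk (m7B k) k a b := by
  decide

private theorem m7negA : ∀ k : ZMod 7, k ≠ 0 → ∀ p ∈ m7A k,
    m7nf p.1 (-p.2) ∈ m7A k := by decide

private theorem m7negB : ∀ k : ZMod 7, k ≠ 0 → ∀ p ∈ m7B k,
    m7nf p.1 (-p.2) ∈ m7B k := by decide

variable {F K : Type*} [Field F] [Field K] [CharZero K] [DecidableEq K] [Algebra F K]
  {m : (K ≃ₐ[F] K) →* Matrix (Fin 2) (Fin 2) (ZMod 7)} {val : ZMod 7 → ZMod 7 → K} {J : F} {i : K}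

theorem outcome_of_commute (hJ : J ≠ 0) (hJ' : J ≠ -1728) (H : Frame7 m val (algebraMap F K J))
    (hi : i ^ 2 = -7) (hii : ∀ σ : K ≃ₐ[F] K, σ i = i ∨ σ i = -i) (c : K ≃ₐ[F] K) (hcc : c * c = 1)
    (hmc : m c = !![1, 0; 0, -1]) (hci : c i = -i)
    (hab : ∀ σ τ : K ≃ₐ[F] K, σ i = i → τ i = i → m σ * m τ = m τ * m σ) :
    Outcome7 F (algebraMap F K J) i := by
  have hdet : ∀ σ : K ≃ₐ[F] K, m σ 0 0 * m σ 1 1 - m σ 0 1 * m σ 1 0 ≠ 0 := by
    intro σ h0
    have h1 : m σ * m σ⁻¹ = 1 := by rw [← map_mul]; simp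
    have h2 : (m σ).det * (m σ⁻¹).det = 1 := by rw [← Matrix.det_mul, h1, Matrix.det_one]
    have h3 : (m σ).det = 0 := by rw [Matrix.det_fin_two, h0]
    rw [h3, zero_mul] at h2
    exact absurd h2 (by decide)
  have hc : ∀ x y : ZMod 7, (x ≠ 0 ∨ y ≠ 0) → c (val x y) = val x (-y) := by
    intro x y hxy
    rw [H.gal c x y hxy, hmc]
    simp
  have hdec : ∀ σ : K ≃ₐ[F] K, σ i = i ∨ ∃ τ : K ≃ₐ[F] K, τ i = i ∧ σ = c * τ := by
    intro σ
    rcases hii σ with h | h
    · exact Or.inl h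
    · refine Or.inr ⟨c * σ, ?_, ?_⟩
      · rw [AlgEquiv.mul_apply, h, map_neg, hci, neg_neg]
      · rw [← mul_assoc, hcc, one_mul]
  have hfix : ∀ h : K, c h = h → (∀ τ : K ≃ₐ[F] K, τ i = i → τ h = h) → ∀ σ : K ≃ₐ[F] K, σ h = h := by
    intro h h1 h2 σ
    rcases hdec σ with h3 | ⟨τ, h3, rfl⟩
    · exact h2 σ h3
    · rw [AlgEquiv.mul_apply, h2 τ h3, h1]
  have hbg : ∀ σ : K ≃ₐ[F] K, σ i = i → m σ 0 1 * (m σ 0 0 - m σ 1 1) = 0 ∧
      m σ 1 0 * (m σ 0 0 - m σ 1 1) = 0 := by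
    intro σ hσ
    have h1 := hab σ (c * σ * c) hσ (by
      rw [AlgEquiv.mul_apply, AlgEquiv.mul_apply, hci, map_neg, hσ, map_neg, hci, neg_neg])
    rw [map_mul, map_mul, hmc] at h1
    have h01 := congrFun (congrFun h1 0) 1
    have h10 := congrFun (congrFun h1 1) 0
    simp only [Matrix.mul_apply, Fin.sum_univ_two, Matrix.of_apply, Matrix.cons_val', Matrix.cons_val_zero,
      Matrix.cons_val_one, Matrix.cons_val_fin_one] at h01 h10
    constructor
    · linear_combination (-4) * h01 - (m σ 0 1 * (m σ 0 0 - m σ 1 1)) * m7seven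
    · linear_combination 4 * h10 - (m σ 1 0 * (m σ 0 0 - m σ 1 1)) * m7seven
  have m10 : ∀ x : ZMod 7, x ≠ 0 → val x 0 = val 1 0 := by
    intro x hx
    have := H.smul x 1 0 hx
    simpa using this
  have m01 : ∀ y : ZMod 7, y ≠ 0 → val 0 y = val 0 1 := by
    intro y hy
    have := H.smul y 0 1 hy
    simpa using this
  have m1k : ∀ x y k : ZMod 7, x ≠ 0 → y = k * x → val x y = val 1 k := by
    intro x y k hx hy
    have := H.smul x 1 k hx
    rw [hy, ← this]
    simp [mul_comm]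
  by_cases hall : ∀ σ : K ≃ₐ[F] K, σ i = i → m σ 0 1 = 0 ∧ m σ 1 0 = 0
  · refine Or.inl ⟨val 1 0, H.root 1 0 (Or.inl (by decide)), hfix _ ?_ ?_⟩
    · rw [hc 1 0 (Or.inl (by decide)), neg_zero]
    · intro τ hτ
      obtain ⟨h1, h2⟩ := hall τ hτ
      have h3 := hdet τ
      rw [h1, zero_mul, sub_zero] at h3
      rw [H.gal τ 1 0 (Or.inl (by decide)), h1, h2]
      simp only [mul_one, mul_zero, add_zero]
      exact m10 _ (left_ne_zero_of_mul h3)
  push Not at hall
  obtain ⟨σ₀, hσ₀, hne⟩ := hall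
  obtain ⟨q1, q2⟩ := hbg σ₀ hσ₀
  have hne' : m σ₀ 0 1 ≠ 0 ∨ m σ₀ 1 0 ≠ 0 := by
    by_cases h : m σ₀ 0 1 = 0
    · exact Or.inr (hne h)
    · exact Or.inl h
  have had : ∀ τ : K ≃ₐ[F] K, τ i = i →
      m τ 0 0 = m τ 1 1 ∧ m τ 0 1 * m σ₀ 1 0 = m σ₀ 0 1 * m τ 1 0 := by
    intro τ hτ
    have h1 := hab τ σ₀ hτ hσ₀
    have h00 := congrFun (congrFun h1 0) 0
    have h01 := congrFun (congrFun h1 0) 1
    have h10 := congrFun (congrFun h1 1) 0
    simp only [Matrix.mul_apply, Fin.sum_univ_two] at h00 h01 h10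
    have ha0 : m σ₀ 0 0 = m σ₀ 1 1 := by
      rcases hne' with h | h
      · exact sub_eq_zero.mp ((m7zero q1).resolve_left h)
      · exact sub_eq_zero.mp ((m7zero q2).resolve_left h)
    rw [← ha0] at h01 h10
    constructor
    · rcases hne' with h | h
      · apply m7cancel h
        linear_combination h01
      · apply m7cancel h
        linear_combination -h10
    · linear_combination h00
  generalize hb0 : m σ₀ 0 1 = b₀ at *
  generalize hg0 : m σ₀ 1 0 = g₀ at *
  by_cases hg : g₀ = 0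
  · have hb : b₀ ≠ 0 := by
      rcases hne' with h | h
      · exact h
      · exact absurd hg h
    refine Or.inl ⟨val 1 0, H.root 1 0 (Or.inl (by decide)), hfix _ ?_ ?_⟩
    · rw [hc 1 0 (Or.inl (by decide)), neg_zero]
    · intro τ hτ
      obtain ⟨h1, h2⟩ := had τ hτ
      rw [hg, mul_zero] at h2
      have h4 : m τ 1 0 = 0 := (m7zero h2.symm).resolve_left hb
      have h3 := hdet τ
      rw [h4, mul_zero, sub_zero] at h3
      rw [H.gal τ 1 0 (Or.inl (by decide)), h4]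
      simp only [mul_one, mul_zero, add_zero]
      exact m10 _ (left_ne_zero_of_mul h3)
  by_cases hb : b₀ = 0
  · refine Or.inl ⟨val 0 1, H.root 0 1 (Or.inr (by decide)), hfix _ ?_ ?_⟩
    · rw [hc 0 1 (Or.inr (by decide))]
      exact m01 _ (by decide)
    · intro τ hτ
      obtain ⟨h1, h2⟩ := had τ hτ
      rw [hb, zero_mul] at h2
      have h4 : m τ 0 1 = 0 := (m7zero h2).resolve_right hg
      have h3 := hdet τ
      rw [h4, zero_mul, sub_zero] at h3
      rw [H.gal τ 0 1 (Or.inr (by decide)), h4]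
      simp only [mul_one, mul_zero, zero_add]
      exact m01 _ (right_ne_zero_of_mul h3)
  have hcase : (∃ k : ZMod 7, k ≠ 0 ∧ k ^ 2 * b₀ = g₀) ∨
      (∃ k : ZMod 7, k ≠ 0 ∧ k ^ 2 * b₀ = -g₀) := by
    clear had hb0 hg0 q1 q2 hne hne'
    revert b₀ g₀; decide
  rcases hcase with ⟨k, hk, hkb⟩ | ⟨k, hk, hkb⟩
  · have hc1 : c (val 1 k) = val 1 (-k) := hc 1 k (Or.inl (by decide))
    have hc2 : c (val 1 (-k)) = val 1 k := by
      rw [hc 1 (-k) (Or.inl (by decide)), neg_neg]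
    have hτ : ∀ τ : K ≃ₐ[F] K, τ i = i → τ (val 1 k) = val 1 k ∧ τ (val 1 (-k)) = val 1 (-k) := by
      intro τ hτ
      obtain ⟨h1, h2⟩ := had τ hτ
      have h3 := hdet τ
      have h4 : m τ 1 0 = k ^ 2 * m τ 0 1 := by
        apply m7cancel hb
        linear_combination -h2 - m τ 0 1 * hkb
      have h5 : (m τ 0 0 + m τ 0 1 * k) * (m τ 0 0 + m τ 0 1 * -k) ≠ 0 := by
        intro h6
        apply h3
        rw [← h1, h4]
        linear_combination h6
      constructor
      · rw [H.gal τ 1 k (Or.inl (by decide))]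
        refine m1k _ _ _ ?_ ?_
        · rw [mul_one]; exact left_ne_zero_of_mul h5
        · rw [← h1, h4]; ring
      · rw [H.gal τ 1 (-k) (Or.inl (by decide))]
        refine m1k _ _ _ ?_ ?_
        · rw [mul_one]; exact right_ne_zero_of_mul h5
        · rw [← h1, h4]; ring
    refine Or.inr (Or.inl ⟨val 1 k, val 1 (-k), ?_, H.root 1 k (Or.inl (by decide)),
      H.root 1 (-k) (Or.inl (by decide)), ?_⟩)
    · intro h
      have h1 := H.inj _ _ _ _ (Or.inl (by decide)) (Or.inl (by decide)) h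
      apply hk
      clear hkb hc1 hc2 hτ h
      revert k; decide
    · intro σ
      rcases hdec σ with h | ⟨τ, h, rfl⟩
      · exact Or.inl ⟨h, hτ σ h⟩
      · obtain ⟨h1, h2⟩ := hτ τ h
        refine Or.inr ⟨?_, ?_, ?_⟩
        · rw [AlgEquiv.mul_apply, h, hci]
        · rw [AlgEquiv.mul_apply, h1, hc1]
        · rw [AlgEquiv.mul_apply, h2, hc2]
  · -- the normal form does not change the value
    have hnf : ∀ x y : ZMod 7, (x ≠ 0 ∨ y ≠ 0) → val x y = val (m7nf x y).1 (m7nf x y).2 := by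
      intro x y hxy
      unfold m7nf
      by_cases hx : x = 0
      · simp only [hx, if_true]
        exact m01 y (hxy.resolve_left (not_not.2 hx))
      · simp only [hx, if_false]
        refine m1k x y _ hx ?_
        have : ∀ x y : ZMod 7, x ≠ 0 → y = y * x ^ 5 * x := by decide
        exact this x y hx
    -- the two sets are permuted
    have hperm : ∀ (A : Finset (ZMod 7 × ZMod 7)) (σ : K ≃ₐ[F] K),
        (∀ p ∈ A, p.1 ≠ 0 ∨ p.2 ≠ 0) →
        (∀ p ∈ A, (m σ 0 0 * p.1 + m σ 0 1 * p.2 ≠ 0 ∨ m σ 1 0 * p.1 + m σ 1 1 * p.2 ≠ 0) ∧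
          m7nf (m σ 0 0 * p.1 + m σ 0 1 * p.2) (m σ 1 0 * p.1 + m σ 1 1 * p.2) ∈ A) →
        (A.image fun p => val p.1 p.2).image σ = A.image fun p => val p.1 p.2 := by
      intro A σ hA hA'
      refine Finset.eq_of_subset_of_card_le ?_ ?_
      · intro z hz
        rw [Finset.mem_image] at hz
        obtain ⟨w, hw, rfl⟩ := hz
        rw [Finset.mem_image] at hw
        obtain ⟨p, hp, rfl⟩ := hw
        obtain ⟨h1, h2⟩ := hA' p hp
        rw [H.gal σ p.1 p.2 (hA p hp), hnf _ _ h1]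
        exact Finset.mem_image.2 ⟨_, h2, rfl⟩
      · rw [Finset.card_image_of_injective _ σ.injective]
    have hτ : ∀ τ : K ≃ₐ[F] K, τ i = i →
        ((m7A k).image fun p => val p.1 p.2).image τ = (m7A k).image (fun p => val p.1 p.2) ∧
        ((m7B k).image fun p => val p.1 p.2).image τ = (m7B k).image (fun p => val p.1 p.2) := by
      intro τ hτ
      obtain ⟨h1, h2⟩ := had τ hτ
      have h4 : m τ 1 0 = -(k ^ 2 * m τ 0 1) := by
        apply m7cancel hb
        linear_combination -h2 + m τ 0 1 * hkb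
      have h3 : m τ 0 0 ^ 2 + (k * m τ 0 1) ^ 2 = 1 ∨ m τ 0 0 ^ 2 + (k * m τ 0 1) ^ 2 = 2 ∨
          m τ 0 0 ^ 2 + (k * m τ 0 1) ^ 2 = 4 := by
        by_cases h5 : m τ 0 1 = 0
        · have h6 := hdet τ
          rw [h5, zero_mul, sub_zero, ← h1] at h6
          rw [h5, mul_zero]
          generalize m τ 0 0 = a at *
          clear h1
          revert a; decide
        · have h6 := even7 hJ hJ' H hi τ hτ h1 (by
            rw [h4]
            clear h1 h2 h4
            generalize m τ 0 1 = b at *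
            clear hkb
            revert k b; decide)
          have h7 : m τ 0 0 ^ 2 - m τ 0 1 * m τ 1 0 = m τ 0 0 ^ 2 + (k * m τ 0 1) ^ 2 := by
            rw [h4]; ring
          rw [h7] at h6
          exact h6
      have kA := m7keyA k (m τ 0 0) (m τ 0 1) hk h3
      have kB := m7keyB k (m τ 0 0) (m τ 0 1) hk h3
      constructor
      · refine hperm _ τ (m7nzA k) fun p hp => ?_
        rw [h4, ← h1]
        exact kA p hp
      · refine hperm _ τ (m7nzB k) fun p hp => ?_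
        rw [h4, ← h1]
        exact kB p hp
    have hcS : ((m7A k).image fun p => val p.1 p.2).image c = (m7A k).image (fun p => val p.1 p.2) := by
      refine hperm _ c (m7nzA k) fun p hp => ?_
      have h1 := m7nzA k p hp
      rw [hmc]
      simp only [Matrix.of_apply, Matrix.cons_val', Matrix.cons_val_zero, Matrix.cons_val_one,
        Matrix.cons_val_fin_one, one_mul, zero_mul, add_zero, zero_add, neg_mul]
      exact ⟨h1.imp_right neg_ne_zero.2, m7negA k hk p hp⟩
    have hcT : ((m7B k).image fun p => val p.1 p.2).image c = (m7B k).image (fun p => val p.1 p.2) := by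
      refine hperm _ c (m7nzB k) fun p hp => ?_
      have h1 := m7nzB k p hp
      rw [hmc]
      simp only [Matrix.of_apply, Matrix.cons_val', Matrix.cons_val_zero, Matrix.cons_val_one,
        Matrix.cons_val_fin_one, one_mul, zero_mul, add_zero, zero_add, neg_mul]
      exact ⟨h1.imp_right neg_ne_zero.2, m7negB k hk p hp⟩
    refine Or.inr (Or.inr ⟨(m7A k).image fun p => val p.1 p.2, (m7B k).image fun p => val p.1 p.2,
      ?_, ?_, ?_, ?_, ?_, ?_⟩)
    · rw [Finset.card_image_of_injOn, m7cardA k hk]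
      intro p hp q hq h
      exact m7injA k hk p hp q hq (H.inj _ _ _ _ (m7nzA k p hp) (m7nzA k q hq) h)
    · rw [Finset.card_image_of_injOn, m7cardB k hk]
      intro p hp q hq h
      exact m7injB k hk p hp q hq (H.inj _ _ _ _ (m7nzB k p hp) (m7nzB k q hq) h)
    · rw [Finset.disjoint_left]
      intro z hz hz'
      rw [Finset.mem_image] at hz hz'
      obtain ⟨p, hp, rfl⟩ := hz
      obtain ⟨q, hq, h⟩ := hz'
      exact m7disj k hk p hp q hq (H.inj _ _ _ _ (m7nzA k p hp) (m7nzB k q hq) h.symm)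
    · intro z hz
      rw [Finset.mem_image] at hz
      obtain ⟨p, hp, rfl⟩ := hz
      exact H.root _ _ (m7nzA k p hp)
    · intro z hz
      rw [Finset.mem_image] at hz
      obtain ⟨p, hp, rfl⟩ := hz
      exact H.root _ _ (m7nzB k p hp)
    · intro σ
      rcases hdec σ with h | ⟨τ, h, rfl⟩
      · exact hτ σ h
      · obtain ⟨h1, h2⟩ := hτ τ h
        have e : ∀ X : Finset K, X.image (c * τ : K ≃ₐ[F] K) = (X.image τ).image c := by
          intro X
          rw [Finset.image_image]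
          rfl
        rw [e, e, h1, h2, hcS, hcT]
        exact ⟨rfl, rfl⟩

end Pool.Agent.M7
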