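import Pool.Agent.M7.Pts7

/-! # The point of `X₀(7)` and the modular form of a stable subgroup of order 7 (helper33)

PROOF: in the header of `Pool/Agent/M7/Pts7.lean` (`borel7`). Compare `H42M.five` in
`Pool/Agent/H42M/ModPts.lean`. -/

namespace Pool.Agent.M7

open WeierstrassCurve WeierstrassCurve.Affine Pool.Agent.H42M

variable {F K : Type*} [Field F] [Field K] [DecidableEq K] [Algebra F K] {W : WeierstrassCurve F}

/-- the coordinates of `k R`, `2 k R`, `4 k R` -/
private lemma p7_rot {L : Type*} [Field L] [DecidableEq L] {V : Affine L} {R S : V.Point}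
    {X₁ X₂ X₃ Y₁ Y₂ Y₃ : L} (h7 : (7 : ℤ) • R = 0) (a1 : Xof R X₁) (a2 : Xof (R + R) X₂)
    (a3 : Xof (R + R + (R + R)) X₃) (b1 : Xof S Y₁) (b2 : Xof (S + S) Y₂)
    (b3 : Xof (S + S + (S + S)) Y₃) {k : ℤ} (hk0 : 0 ≤ k) (hk7 : k < 7) (hS : S = k • R) :
    (Y₁ = X₁ ∧ Y₂ = X₂ ∧ Y₃ = X₃) ∨ (Y₁ = X₂ ∧ Y₂ = X₃ ∧ Y₃ = X₁) ∨
      (Y₁ = X₃ ∧ Y₂ = X₁ ∧ Y₃ = X₂) := by
  have hk : k ≠ 0 := by
    rintro rfl
    rw [zero_smul] at hS
    exact b1.ne_zero hS
  have h3 : k = 1 ∨ k = 2 ∨ k = 3 ∨ k = 4 ∨ k = 5 ∨ k = 6 := by omega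
  rcases h3 with h3 | h3 | h3 | h3 | h3 | h3 <;> rw [h3] at hS
  · have e1 : S = R := by rw [hS]; module
    rw [e1] at b1 b2 b3
    exact Or.inl ⟨b1.unique a1, b2.unique a2, b3.unique a3⟩
  · have e1 : S = R + R := by rw [hS]; module
    have e2 : S + S = R + R + (R + R) := by rw [hS]; module
    have e3 : S + S + (S + S) = R := by rw [hS]; linear_combination (norm := module) h7
    rw [e1] at b1
    rw [e2] at b2
    rw [e3] at b3
    exact Or.inr (Or.inl ⟨b1.unique a2, b2.unique a3, b3.unique a1⟩)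
  · have e1 : S = -(R + R + (R + R)) := by rw [hS]; linear_combination (norm := module) h7
    have e2 : S + S = -R := by rw [hS]; linear_combination (norm := module) h7
    have e3 : S + S + (S + S) = -(R + R) := by
      rw [hS]; linear_combination (norm := module) (2 : ℤ) • h7
    rw [e1] at b1
    rw [e2] at b2
    rw [e3] at b3
    exact Or.inr (Or.inr ⟨b1.unique a3.neg, b2.unique a1.neg, b3.unique a2.neg⟩)
  · have e1 : S = R + R + (R + R) := by rw [hS]; module
    have e2 : S + S = R := by rw [hS]; linear_combination (norm := module) h7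
    have e3 : S + S + (S + S) = R + R := by
      rw [hS]; linear_combination (norm := module) (2 : ℤ) • h7
    rw [e1] at b1
    rw [e2] at b2
    rw [e3] at b3
    exact Or.inr (Or.inr ⟨b1.unique a3, b2.unique a1, b3.unique a2⟩)
  · have e1 : S = -(R + R) := by rw [hS]; linear_combination (norm := module) h7
    have e2 : S + S = -(R + R + (R + R)) := by
      rw [hS]; linear_combination (norm := module) (2 : ℤ) • h7
    have e3 : S + S + (S + S) = -R := by
      rw [hS]; linear_combination (norm := module) (3 : ℤ) • h7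
    rw [e1] at b1
    rw [e2] at b2
    rw [e3] at b3
    exact Or.inr (Or.inl ⟨b1.unique a2.neg, b2.unique a3.neg, b3.unique a1.neg⟩)
  · have e1 : S = -R := by rw [hS]; linear_combination (norm := module) h7
    have e2 : S + S = -(R + R) := by
      rw [hS]; linear_combination (norm := module) (2 : ℤ) • h7
    have e3 : S + S + (S + S) = -(R + R + (R + R)) := by
      rw [hS]; linear_combination (norm := module) (4 : ℤ) • h7
    rw [e1] at b1
    rw [e2] at b2
    rw [e3] at b3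
    exact Or.inl ⟨b1.unique a1.neg, b2.unique a2.neg, b3.unique a3.neg⟩

/-- the point of `X₀(7)` and the modular form of a stable subgroup of order 7 -/
theorem borel7 [CharZero K] [IsGalois F K] {C : AddSubgroup (WeierstrassCurve.Affine.baseChange W K).Point}
    (hC : Nat.card C = 7) (hst : ∀ σ : K ≃ₐ[F] K, C.map (act W σ) = C) {j : F}
    (hj : JRel (-27 * W.c₄) (-54 * W.c₆) j) (hu : ∀ t : F, uu t ≠ 0) :
    ∃ t M : F, M ≠ 0 ∧ j * t = uu t * aa t ^ 3 ∧ W.c₄ = uu t * aa t * M ^ 2 ∧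
      W.c₆ = uu t * bb t * M ^ 3 := by
  obtain ⟨R, hRC, hR0⟩ := exists_ne_zero (by norm_num) hC
  have h7 : (7 : ℤ) • R = 0 := by
    obtain ⟨r, -, -, -, h⟩ := exists_zsmul (by norm_num) hC hRC hR0 hRC
    exact_mod_cast h
  obtain ⟨t₀, X₁, X₂, X₃, a1, a2, a3, -, a5, rfl⟩ := exists_Tof hR0 h7
  have hc4 : (WeierstrassCurve.Affine.baseChange W K).c₄ = algebraMap F K W.c₄ := W.map_c₄ _
  have hc6 : (WeierstrassCurve.Affine.baseChange W K).c₆ = algebraMap F K W.c₆ := W.map_c₆ _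
  have hgal : ∀ σ : K ≃ₐ[F] K, (σ X₁ = X₁ ∧ σ X₂ = X₂ ∧ σ X₃ = X₃) ∨
      (σ X₁ = X₂ ∧ σ X₂ = X₃ ∧ σ X₃ = X₁) ∨ (σ X₁ = X₃ ∧ σ X₂ = X₁ ∧ σ X₃ = X₂) := by
    intro σ
    have hQ : act W σ R ∈ C := by
      rw [← hst σ]
      exact AddSubgroup.mem_map_of_mem _ hRC
    obtain ⟨k, hk0, hk7, hk, -⟩ := exists_zsmul (by norm_num) hC hRC hR0 hQ
    have b1 := act_Xof σ a1
    have b2 := act_Xof σ a2
    have b3 := act_Xof σ a3
    rw [map_add] at b2
    rw [map_add, map_add] at b3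
    exact p7_rot h7 a1 a2 a3 b1 b2 b3 hk0 (by exact_mod_cast hk7) hk
  have hfix : ∀ z : K, (∀ σ : K ≃ₐ[F] K, σ z = z) → ∃ a : F, algebraMap F K a = z := fun z hz =>
    (InfiniteGalois.mem_range_algebraMap_iff_fixed z).mpr hz
  obtain ⟨t, ht⟩ := hfix (tf X₁ X₂ X₃) (by
    intro σ
    have e : σ (tf X₁ X₂ X₃) = tf (σ X₁) (σ X₂) (σ X₃) := by
      unfold tf
      simp only [map_add, map_mul, map_sub, map_pow, map_ofNat, map_div₀]
    rcases hgal σ with ⟨h1, h2, h3⟩ | ⟨h1, h2, h3⟩ | ⟨h1, h2, h3⟩ <;> rw [e, h1, h2, h3]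
    · exact tf_rot a5
    · rw [tf_rot a5.rot.rot])
  obtain ⟨M, hM⟩ := hfix (mf X₁ X₂ X₃) (by
    intro σ
    have e : σ (mf X₁ X₂ X₃) = mf (σ X₁) (σ X₂) (σ X₃) := by
      unfold mf
      simp only [map_add, map_mul, map_sub, map_pow, map_ofNat, map_div₀, map_neg]
    rcases hgal σ with ⟨h1, h2, h3⟩ | ⟨h1, h2, h3⟩ | ⟨h1, h2, h3⟩ <;> rw [e, h1, h2, h3]
    · exact mf_rot _ _ _
    · rw [mf_rot X₃ X₁ X₂])
  have inj := (algebraMap F K).injective
  have huu : ∀ s : F, algebraMap F K (uu s) = uu (algebraMap F K s) := by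
    intro s
    unfold uu
    simp only [map_add, map_mul, map_pow, map_ofNat]
  have haa : ∀ s : F, algebraMap F K (aa s) = aa (algebraMap F K s) := by
    intro s
    unfold aa
    simp only [map_add, map_mul, map_pow, map_ofNat, map_one]
  have hbb : ∀ s : F, algebraMap F K (bb s) = bb (algebraMap F K s) := by
    intro s
    unfold bb
    simp only [map_add, map_mul, map_pow, map_ofNat, map_sub]
  have hjK : JRel (-27 * (WeierstrassCurve.Affine.baseChange W K).c₄)
      (-54 * (WeierstrassCurve.Affine.baseChange W K).c₆) (algebraMap F K j) := by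
    obtain ⟨j1, j2⟩ := hj
    rw [hc4, hc6]
    constructor
    · intro h0
      apply j1
      apply inj
      simpa only [map_add, map_mul, map_pow, map_ofNat, map_neg, map_zero] using h0
    · have := congrArg (algebraMap F K) j2
      simpa only [map_add, map_mul, map_pow, map_ofNat, map_neg] using this
  have hu' : uu (tf X₁ X₂ X₃) ≠ 0 := by
    rw [← ht, ← huu]
    intro h0
    apply hu t
    apply inj
    rw [h0, map_zero]
  obtain ⟨-, r2⟩ := Rel7.root hjK a5
  obtain ⟨m1, m2, m3⟩ := Rel7.c4c6 a5 hu'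
  rw [← ht] at r2 m2 m3
  rw [← hM] at m1 m2 m3
  rw [hc4] at m2
  rw [hc6] at m3
  refine ⟨t, M, ?_, ?_, ?_, ?_⟩
  · rintro rfl
    exact m1 (map_zero _)
  · apply inj
    rw [map_mul, map_mul, map_pow, huu, haa]
    exact r2
  · apply inj
    rw [map_mul, map_mul, map_pow, huu, haa]
    have h27 : (-27 : K) ≠ 0 := by norm_num
    exact mul_left_cancel₀ h27 m2
  · apply inj
    rw [map_mul, map_mul, map_pow, huu, hbb]
    have h54 : (-54 : K) ≠ 0 := by norm_num
    exact mul_left_cancel₀ h54 m3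

end Pool.Agent.M7
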