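import Mathlib

/-! # Complex conjugation and the seventh roots of unity (helper33)

PROOFS. `exists_conj7`: copy `Pool/Agent/H42M/ModConj.lean`; for a real number `n > 0` and `w² = -n` in
`ℂ` the real part of `w` is 0. `exists_zeta`: `K` algebraically closed of characteristic 0 has a
primitive seventh root of unity `ζ`; `i = ζ + ζ² + ζ⁴ - ζ³ - ζ⁵ - ζ⁶`, `i² = -7` (with
`1 + ζ + … + ζ⁶ = 0`). `σ ζ = ζ ^ a` with `a = 1, …, 6`; `σ i = i` if `a = 1, 2, 4`, `σ i = -i` if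
`a = 3, 5, 6`. `Z7 σ` means `σ ζ = ζ` (every `z` with `z⁷ = 1` is a power of `ζ`). `cube`: `σ i = i`
implies `a = 1, 2, 4` (as `2 i ≠ 0`), `a³ ≡ 1 mod 7`. `cyc`: `σ ζ = ζ ^ a`, `τ ζ = ζ ^ b`,
`a, b ∈ {1, 2, 4}`; if `a ≠ 1` then `b ≡ a ^ k` for a `k`, and `τ * (σ ^ k)⁻¹` fixes `ζ`. -/

namespace Pool.Agent.M7

private lemma conj_sq {n : ℝ} (hn : 0 < n) {w : ℂ} (hw : w ^ 2 = ((-n : ℝ) : ℂ)) :
    (starRingEnd ℂ) w = -w := by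
  have hre : w.re = 0 := by
    have h1 := congrArg Complex.re hw
    have h2 := congrArg Complex.im hw
    simp only [pow_two, Complex.mul_re, Complex.mul_im, Complex.ofReal_re, Complex.ofReal_im] at h1 h2
    have h3 : w.re * w.im = 0 := by linarith
    rcases mul_eq_zero.mp h3 with h3 | h3
    · exact h3
    · rw [h3] at h1
      nlinarith [mul_self_nonneg w.re]
  apply Complex.ext
  · simp [hre]
  · simp

theorem exists_conj7 {F K : Type*} [Field F] [Field K] [Algebra F K] [Normal F K]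
    (φ : F →+* ℝ) : ∃ c : K ≃ₐ[F] K, (∀ z, c (c z) = z) ∧ (∀ z : K, z ^ 2 = -3 → c z = -z) ∧
      ∀ z : K, z ^ 2 = -7 → c z = -z := by
  let iF : Algebra F ℂ := (Complex.ofRealHom.comp φ).toAlgebra
  have halg : Algebra.IsAlgebraic F K := Normal.toIsAlgebraic
  let ι : K →ₐ[F] ℂ := IsAlgClosed.lift
  let iK : Algebra K ℂ := ι.toRingHom.toAlgebra
  have htow : IsScalarTower F K ℂ := IsScalarTower.of_algebraMap_eq fun x => (ι.commutes x).symm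
  let χ : ℂ ≃ₐ[F] ℂ := AlgEquiv.ofRingEquiv (f := (starRingAut : ℂ ≃+* ℂ)) (by
    intro x
    change (starRingEnd ℂ) ((φ x : ℝ) : ℂ) = ((φ x : ℝ) : ℂ)
    exact Complex.conj_ofReal _)
  let c : K ≃ₐ[F] K := χ.restrictNormal K
  have hc : ∀ z : K, algebraMap K ℂ (c z) = (starRingEnd ℂ) (algebraMap K ℂ z) := fun z =>
    χ.restrictNormal_commutes K z
  refine ⟨c, fun z => ?_, fun z hz => ?_, fun z hz => ?_⟩
  · apply (algebraMap K ℂ).injective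
    rw [hc, hc, Complex.conj_conj]
  · apply (algebraMap K ℂ).injective
    rw [hc, map_neg]
    refine conj_sq (n := 3) (by norm_num) ?_
    rw [← map_pow, hz, map_neg, map_ofNat]
    push_cast
    rfl
  · apply (algebraMap K ℂ).injective
    rw [hc, map_neg]
    refine conj_sq (n := 7) (by norm_num) ?_
    rw [← map_pow, hz, map_neg, map_ofNat]
    push_cast
    rfl

/-- `σ` fixes the seventh roots of unity -/
def Z7 {F K : Type*} [Field F] [Field K] [Algebra F K] (σ : K ≃ₐ[F] K) : Prop :=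
  ∀ z : K, z ^ 7 = 1 → σ z = z

lemma Z7.conj {F K : Type*} [Field F] [Field K] [Algebra F K] {σ : K ≃ₐ[F] K} (h : Z7 σ)
    (g : K ≃ₐ[F] K) : Z7 (g * σ * g⁻¹) := by
  intro z hz
  have h1 : (g⁻¹ z) ^ 7 = 1 := by rw [← map_pow, hz, map_one]
  have h2 : σ (g⁻¹ z) = g⁻¹ z := h _ h1
  change g (σ (g⁻¹ z)) = z
  rw [h2]
  exact g.apply_symm_apply z

private lemma agree {F K : Type*} [Field F] [Field K] [Algebra F K] {ζ : K}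
    (hζ : IsPrimitiveRoot ζ 7) {σ τ : K ≃ₐ[F] K} (h : σ ζ = τ ζ) {z : K} (hz : z ^ 7 = 1) :
    σ z = τ z := by
  obtain ⟨j, -, rfl⟩ := hζ.eq_pow_of_pow_eq_one hz
  rw [map_pow, map_pow, h]

private lemma z7_of {F K : Type*} [Field F] [Field K] [Algebra F K] {ζ : K}
    (hζ : IsPrimitiveRoot ζ 7) {σ : K ≃ₐ[F] K} (h : σ ζ = ζ) : Z7 σ := by
  intro z hz
  have := agree (σ := σ) (τ := 1) hζ (by rw [h]; rfl) hz
  simpa using this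

private lemma z7_div {F K : Type*} [Field F] [Field K] [Algebra F K] {ζ : K}
    (hζ : IsPrimitiveRoot ζ 7) {σ τ : K ≃ₐ[F] K} (h : σ ζ = τ ζ) : Z7 (τ * σ⁻¹) := by
  intro z hz
  have h1 : (σ⁻¹ z) ^ 7 = 1 := by rw [← map_pow, hz, map_one]
  have h2 := agree hζ h h1
  change τ (σ⁻¹ z) = z
  rw [← h2]
  exact σ.apply_symm_apply z

private lemma pow_app {F K : Type*} [Field F] [Field K] [Algebra F K] {ζ : K} {a : ℕ}
    {σ : K ≃ₐ[F] K} (h : σ ζ = ζ ^ a) (k : ℕ) : (σ ^ k) ζ = ζ ^ (a ^ k) := by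
  induction k with
  | zero => simp
  | succ k ih =>
    rw [pow_succ]
    change (σ ^ k) (σ ζ) = _
    rw [h, map_pow, ih, ← pow_mul, pow_succ]

theorem exists_zeta (F : Type*) {K : Type*} [Field F] [Field K] [CharZero K] [Algebra F K]
    [IsAlgClosed K] : ∃ i : K, i ^ 2 = -7 ∧ (∀ σ : K ≃ₐ[F] K, σ i = i ∨ σ i = -i) ∧
      (∀ σ : K ≃ₐ[F] K, Z7 σ → σ i = i) ∧ (∀ σ : K ≃ₐ[F] K, σ i = i → Z7 (σ ^ 3)) ∧
      (∀ σ τ : K ≃ₐ[F] K, σ i = i → τ i = i → Z7 σ ∨ ∃ k : ℕ, Z7 (τ * (σ ^ k)⁻¹)) := by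
  obtain ⟨ζ, hζ⟩ := HasEnoughRootsOfUnity.exists_primitiveRoot K 7
  have h7 : ζ ^ 7 = 1 := hζ.pow_eq_one
  have hS : 1 + ζ + ζ ^ 2 + ζ ^ 3 + ζ ^ 4 + ζ ^ 5 + ζ ^ 6 = 0 := by
    have := hζ.geom_sum_eq_zero (by norm_num)
    simpa [Finset.sum_range_succ] using this
  have hi2 : (ζ + ζ ^ 2 + ζ ^ 4 - ζ ^ 3 - ζ ^ 5 - ζ ^ 6) ^ 2 = -7 := by
    linear_combination (7 - 7 * ζ + ζ ^ 2 + ζ ^ 3 - 3 * ζ ^ 4 + ζ ^ 5 + ζ ^ 6) * hS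
  have hi0 : (ζ + ζ ^ 2 + ζ ^ 4 - ζ ^ 3 - ζ ^ 5 - ζ ^ 6) ≠ 0 := by
    intro h0
    rw [h0] at hi2
    norm_num at hi2
  have hne : (ζ + ζ ^ 2 + ζ ^ 4 - ζ ^ 3 - ζ ^ 5 - ζ ^ 6) ≠
      -(ζ + ζ ^ 2 + ζ ^ 4 - ζ ^ 3 - ζ ^ 5 - ζ ^ 6) := by
    intro h0
    apply hi0
    have h2 : (2 : K) ≠ 0 := two_ne_zero
    have h3 : (2 : K) * (ζ + ζ ^ 2 + ζ ^ 4 - ζ ^ 3 - ζ ^ 5 - ζ ^ 6) = 0 := by
      linear_combination h0
    exact (mul_eq_zero.mp h3).resolve_left h2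
  -- the action
  have hact : ∀ σ : K ≃ₐ[F] K, ∃ a : ℕ, σ ζ = ζ ^ a ∧
      ((a = 1 ∨ a = 2 ∨ a = 4) ∧ σ (ζ + ζ ^ 2 + ζ ^ 4 - ζ ^ 3 - ζ ^ 5 - ζ ^ 6) =
        ζ + ζ ^ 2 + ζ ^ 4 - ζ ^ 3 - ζ ^ 5 - ζ ^ 6 ∨
       σ (ζ + ζ ^ 2 + ζ ^ 4 - ζ ^ 3 - ζ ^ 5 - ζ ^ 6) =
        -(ζ + ζ ^ 2 + ζ ^ 4 - ζ ^ 3 - ζ ^ 5 - ζ ^ 6)) := by
    intro σ
    have h1 : (σ ζ) ^ 7 = 1 := by rw [← map_pow, h7, map_one]
    obtain ⟨a, ha, hσ⟩ := hζ.eq_pow_of_pow_eq_one h1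
    refine ⟨a, hσ.symm, ?_⟩
    simp only [map_add, map_sub, map_pow, ← hσ]
    interval_cases a
    · exfalso
      have h2 : σ ζ = 1 := by rw [← hσ, pow_zero]
      have h3 : ζ = 1 := by
        apply σ.injective
        rw [h2, map_one]
      exact hζ.ne_one (by norm_num) h3
    · left
      exact ⟨Or.inl rfl, by ring⟩
    · left
      exact ⟨Or.inr (Or.inl rfl), by
        linear_combination (ζ - ζ ^ 3 - ζ ^ 5) * h7⟩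
    · right
      linear_combination (-ζ - ζ ^ 2 - ζ ^ 4 + ζ ^ 5 - ζ ^ 8 - ζ ^ 11) * h7
    · left
      exact ⟨Or.inr (Or.inr rfl), by
        linear_combination (ζ + ζ ^ 2 - ζ ^ 3 - ζ ^ 5 - ζ ^ 6 + ζ ^ 9 - ζ ^ 10 - ζ ^ 13 - ζ ^ 17) * h7⟩
    · right
      linear_combination (-ζ - ζ ^ 2 + ζ ^ 3 - ζ ^ 4 + ζ ^ 6 - ζ ^ 8 - ζ ^ 9 - ζ ^ 11 + ζ ^ 13 - ζ ^ 16 -
        ζ ^ 18 - ζ ^ 23) * h7
    · right
      linear_combination (-ζ - ζ ^ 2 + ζ ^ 3 - ζ ^ 4 + ζ ^ 5 - ζ ^ 8 - ζ ^ 9 + ζ ^ 10 - ζ ^ 11 - ζ ^ 15 -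
        ζ ^ 16 + ζ ^ 17 - ζ ^ 22 - ζ ^ 23 - ζ ^ 29) * h7
  have hfix : ∀ σ : K ≃ₐ[F] K, σ (ζ + ζ ^ 2 + ζ ^ 4 - ζ ^ 3 - ζ ^ 5 - ζ ^ 6) =
      ζ + ζ ^ 2 + ζ ^ 4 - ζ ^ 3 - ζ ^ 5 - ζ ^ 6 →
      ∃ a : ℕ, σ ζ = ζ ^ a ∧ (a = 1 ∨ a = 2 ∨ a = 4) := by
    intro σ h
    obtain ⟨a, h1, ⟨h2, -⟩ | h2⟩ := hact σ
    · exact ⟨a, h1, h2⟩
    · rw [h] at h2
      exact absurd h2 hne
  refine ⟨ζ + ζ ^ 2 + ζ ^ 4 - ζ ^ 3 - ζ ^ 5 - ζ ^ 6, hi2, fun σ => ?_, fun σ hσ => ?_, fun σ hσ => ?_,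
    fun σ τ hσ hτ => ?_⟩
  · obtain ⟨a, -, ⟨-, h⟩ | h⟩ := hact σ
    · exact Or.inl h
    · exact Or.inr h
  · have h1 : σ ζ = ζ := hσ ζ h7
    simp only [map_add, map_sub, map_pow, h1]
  · obtain ⟨a, h1, h2⟩ := hfix σ hσ
    apply z7_of hζ
    rw [pow_app h1]
    rcases h2 with rfl | rfl | rfl
    · norm_num
    · norm_num
      linear_combination ζ * h7
    · have : (4 : ℕ) ^ 3 = 7 * 9 + 1 := by norm_num
      rw [this, pow_add, pow_mul, h7]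
      ring
  · obtain ⟨a, h1, h2⟩ := hfix σ hσ
    obtain ⟨b, h3, h4⟩ := hfix τ hτ
    rcases h2 with rfl | rfl | rfl
    · left
      exact z7_of hζ (by rw [h1, pow_one])
    · right
      rcases h4 with rfl | rfl | rfl
      · exact ⟨0, z7_div hζ (by rw [pow_app h1, h3]; norm_num)⟩
      · exact ⟨1, z7_div hζ (by rw [pow_app h1, h3]; norm_num)⟩
      · exact ⟨2, z7_div hζ (by rw [pow_app h1, h3]; norm_num)⟩
    · right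
      rcases h4 with rfl | rfl | rfl
      · exact ⟨0, z7_div hζ (by rw [pow_app h1, h3]; norm_num)⟩
      · refine ⟨2, z7_div hζ (by rw [pow_app h1, h3]; norm_num; linear_combination (ζ ^ 9 + ζ ^ 2) * h7)⟩
      · exact ⟨1, z7_div hζ (by rw [pow_app h1, h3]; norm_num)⟩

end Pool.Agent.M7
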