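import Pool.Agent.M7.FrameDef
import Pool.Agent.M7.Conj

/-! # From the seventh roots of unity to the square root of -7 (helper33)

`Z` = elements fixing the seventh roots of unity, `N` = elements fixing `i = √-7`; `Z ⊆ N`, `Z` is
normal, `σ³ ∈ Z` for `σ ∈ N`, `N/Z` is cyclic (`hcyc`).

PROOF of `red_line`. If all `g` fix `z = val x₀ y₀`: first alternative. Otherwise there is `g` with
`g z ≠ z`; `g z = val x₁ y₁` (`Frame7.gal`; `(x₁, y₁) = m g (x₀, y₀) ≠ 0` as `m g` is invertible), and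
`σ (g z) = g (g⁻¹ σ g z) = g z` for `σ ∈ Z`. So `m σ (x₀, y₀) = λ (x₀, y₀)`, `m σ (x₁, y₁) =
μ (x₁, y₁)` (`Frame7.inj`: `val u = val w` implies that `u`, `w` are proportional) and the two vectors
are linearly independent (`val x₀ y₀ ≠ val x₁ y₁` and `Frame7.smul`). For `σ, τ ∈ Z` the matrix
`m σ m τ - m τ m σ` kills both vectors, so it is 0.
PROOF of `red_commute`. Case 1: all `m σ`, `σ ∈ Z`, are scalar. Let `σ, τ ∈ N`. By `hcyc` `σ ∈ Z`
(`m σ` scalar, commutes) or `τ = ρ σ ^ k`, `ρ ∈ Z`, `m τ = m ρ (m σ) ^ k` commutes with `m σ`.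
Case 2: `σ₀ ∈ Z`, `m σ₀` not scalar. `T = m σ₀ - (tr/2)`, traceless, not 0, `T² = Δ` (`Δ = -det T`). Let
`g` be any element. `m g T (m g)⁻¹ = m (g σ₀ g⁻¹) - tr/2` commutes with `T` (both in `Z`), and it is
traceless; a traceless matrix commuting with `T ≠ 0` (traceless) is `v T`: (`T = !![p, q; r, -p]`,
`T' = !![p', q'; r', -p']` commute iff `q r' = q' r`, `p q' = p' q`, `p r' = p' r`). So
`m g T = v T m g`, `v ≠ 0`.
Case 2a: `Δ = 0`. `ker T` is a line, spanned by `(x, y)`; `T (m g (x, y)) = v⁻¹ m g T (x, y) = 0`, so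
every `g` fixes the line: first alternative (`val x y`, by `Frame7.gal`, `smul`).
Case 2b: `Δ ≠ 0`: `v² = 1` (square of `m g T = v T m g`), so `v = ± 1`. For `g ∈ N`: `g³ ∈ Z`
commutes with `T`, so `v³ = 1`, `v = 1`: `m g` commutes with `T`. Two matrices commuting with the
nonscalar `T` commute with each other (both are `u + w T`). Second alternative. -/

namespace Pool.Agent.M7

variable {F K : Type*} [Field F] [Field K] [Algebra F K]
  {m : (K ≃ₐ[F] K) →* Matrix (Fin 2) (Fin 2) (ZMod 7)} {val : ZMod 7 → ZMod 7 → K} {J : K} {i : K}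

private instance fact7r : Fact (Nat.Prime 7) := ⟨by norm_num⟩

private lemma two_ne7 : (2 : ZMod 7) ≠ 0 := by decide

/-- proportional vectors -/
private lemma prop7 {x y X Y : ZMod 7} (h : x ≠ 0 ∨ y ≠ 0) (e : X * y = x * Y) :
    ∃ k, X = k * x ∧ Y = k * y := by
  rcases h with h | h
  · refine ⟨X / x, ?_, ?_⟩
    · field_simp
    · field_simp
      linear_combination -e
  · refine ⟨Y / y, ?_, ?_⟩
    · field_simp
      linear_combination e
    · field_simp

private lemma comm_iff7 {A B : Matrix (Fin 2) (Fin 2) (ZMod 7)} : A * B = B * A ↔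
    A 0 1 * B 1 0 = B 0 1 * A 1 0 ∧ (A 0 0 - A 1 1) * B 0 1 = (B 0 0 - B 1 1) * A 0 1 ∧
      (A 0 0 - A 1 1) * B 1 0 = (B 0 0 - B 1 1) * A 1 0 := by
  constructor
  · intro h
    have h00 := congrFun (congrFun h 0) 0
    have h01 := congrFun (congrFun h 0) 1
    have h10 := congrFun (congrFun h 1) 0
    simp only [Matrix.mul_apply, Fin.sum_univ_two] at h00 h01 h10
    refine ⟨?_, ?_, ?_⟩
    · linear_combination h00
    · linear_combination h01
    · linear_combination -h10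
  · rintro ⟨h1, h2, h3⟩
    ext i j
    fin_cases i <;> fin_cases j <;> simp [Matrix.mul_apply, Fin.sum_univ_two]
    · linear_combination h1
    · linear_combination h2
    · linear_combination -h3
    · linear_combination -h1

/-- two matrices commuting with a nonscalar matrix commute -/
private lemma comm_of_comm7 {A X Y : Matrix (Fin 2) (Fin 2) (ZMod 7)}
    (hA : A 0 1 ≠ 0 ∨ A 1 0 ≠ 0 ∨ A 0 0 - A 1 1 ≠ 0) (hX : A * X = X * A) (hY : A * Y = Y * A) :
    X * Y = Y * X := by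
  rw [comm_iff7] at hX hY ⊢
  obtain ⟨a1, a2, a3⟩ := hX
  obtain ⟨b1, b2, b3⟩ := hY
  rcases hA with h | h | h
  · have e1 : X 0 1 * Y 1 0 = Y 0 1 * X 1 0 := by
      apply mul_left_cancel₀ h
      linear_combination X 0 1 * b1 - Y 0 1 * a1
    refine ⟨e1, ?_, ?_⟩
    · apply mul_left_cancel₀ h
      linear_combination (-Y 0 1) * a2 + X 0 1 * b2
    · apply mul_left_cancel₀ h
      linear_combination (-Y 1 0) * a2 + X 1 0 * b2 + (A 0 0 - A 1 1) * e1
  · have e1 : X 0 1 * Y 1 0 = Y 0 1 * X 1 0 := by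
      apply mul_left_cancel₀ h
      linear_combination (-Y 1 0) * a1 + X 1 0 * b1
    refine ⟨e1, ?_, ?_⟩
    · apply mul_left_cancel₀ h
      linear_combination (-Y 0 1) * a3 + X 0 1 * b3 - (A 0 0 - A 1 1) * e1
    · apply mul_left_cancel₀ h
      linear_combination (-Y 1 0) * a3 + X 1 0 * b3
  · refine ⟨?_, ?_, ?_⟩
    · apply mul_left_cancel₀ h
      linear_combination Y 1 0 * a2 - Y 0 1 * a3 + (X 0 0 - X 1 1) * b1
    · apply mul_left_cancel₀ h
      linear_combination (X 0 0 - X 1 1) * b2 - (Y 0 0 - Y 1 1) * a2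
    · apply mul_left_cancel₀ h
      linear_combination (X 0 0 - X 1 1) * b3 - (Y 0 0 - Y 1 1) * a3

/-- a matrix commuting with a nonscalar matrix has a proportional traceless part -/
private lemma prop_of_comm7 {A C : Matrix (Fin 2) (Fin 2) (ZMod 7)}
    (hA : A 0 1 ≠ 0 ∨ A 1 0 ≠ 0 ∨ A 0 0 - A 1 1 ≠ 0) (hC : A * C = C * A) :
    ∃ v, C 0 1 = v * A 0 1 ∧ C 1 0 = v * A 1 0 ∧ C 0 0 - C 1 1 = v * (A 0 0 - A 1 1) := by
  rw [comm_iff7] at hC
  obtain ⟨a1, a2, a3⟩ := hC
  rcases hA with h | h | h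
  · refine ⟨C 0 1 / A 0 1, ?_, ?_, ?_⟩
    · field_simp
    · field_simp
      linear_combination a1
    · field_simp
      linear_combination -a2
  · refine ⟨C 1 0 / A 1 0, ?_, ?_, ?_⟩
    · field_simp
      linear_combination -a1
    · field_simp
    · field_simp
      linear_combination -a3
  · refine ⟨(C 0 0 - C 1 1) / (A 0 0 - A 1 1), ?_, ?_, ?_⟩
    · field_simp
      linear_combination a2
    · field_simp
      linear_combination a3
    · field_simp

private lemma mul_inv7 (m : (K ≃ₐ[F] K) →* Matrix (Fin 2) (Fin 2) (ZMod 7)) (g : K ≃ₐ[F] K) :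
    m g * m g⁻¹ = 1 := by rw [← map_mul, mul_inv_cancel, map_one]

private lemma inv_mul7 (m : (K ≃ₐ[F] K) →* Matrix (Fin 2) (Fin 2) (ZMod 7)) (g : K ≃ₐ[F] K) :
    m g⁻¹ * m g = 1 := by rw [← map_mul, inv_mul_cancel, map_one]

/-- invertible matrices do not kill nonzero vectors -/
private lemma act_ne7 (m : (K ≃ₐ[F] K) →* Matrix (Fin 2) (Fin 2) (ZMod 7)) (g : K ≃ₐ[F] K)
    {x y : ZMod 7} (h : x ≠ 0 ∨ y ≠ 0) :
    m g 0 0 * x + m g 0 1 * y ≠ 0 ∨ m g 1 0 * x + m g 1 1 * y ≠ 0 := by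
  by_contra hc
  push Not at hc
  obtain ⟨h1, h2⟩ := hc
  have e := inv_mul7 m g
  have e00 := congrFun (congrFun e 0) 0
  have e01 := congrFun (congrFun e 0) 1
  have e10 := congrFun (congrFun e 1) 0
  have e11 := congrFun (congrFun e 1) 1
  simp only [Matrix.mul_apply, Fin.sum_univ_two, Matrix.one_apply_eq] at e00 e11
  rw [Matrix.one_apply_ne (by decide)] at e01 e10
  simp only [Matrix.mul_apply, Fin.sum_univ_two] at e01 e10
  have hx : x = 0 := by
    linear_combination (-x) * e00 - y * e01 + m g⁻¹ 0 0 * h1 + m g⁻¹ 0 1 * h2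
  have hy : y = 0 := by
    linear_combination (-x) * e10 - y * e11 + m g⁻¹ 1 0 * h1 + m g⁻¹ 1 1 * h2
  rcases h with h | h
  · exact h hx
  · exact h hy

theorem red_line (H : Frame7 m val J) {x₀ y₀ : ZMod 7} (h0 : x₀ ≠ 0 ∨ y₀ ≠ 0)
    (hfix : ∀ σ : K ≃ₐ[F] K, Z7 σ → σ (val x₀ y₀) = val x₀ y₀) :
    (∀ σ : K ≃ₐ[F] K, σ (val x₀ y₀) = val x₀ y₀) ∨
    ∀ σ τ : K ≃ₐ[F] K, Z7 σ → Z7 τ → m σ * m τ = m τ * m σ := by
  by_cases hall : ∀ σ : K ≃ₐ[F] K, σ (val x₀ y₀) = val x₀ y₀
  · exact Or.inl hall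
  right
  push Not at hall
  obtain ⟨g, hg⟩ := hall
  have h1 := act_ne7 m g h0
  have hgz := H.gal g x₀ y₀ h0
  set x₁ := m g 0 0 * x₀ + m g 0 1 * y₀ with hx₁
  set y₁ := m g 1 0 * x₀ + m g 1 1 * y₀ with hy₁
  have hfix1 : ∀ σ : K ≃ₐ[F] K, Z7 σ → σ (val x₁ y₁) = val x₁ y₁ := by
    intro σ hσ
    have h2 := hfix _ (hσ.conj g⁻¹)
    rw [inv_inv] at h2
    have h3 : g⁻¹ (σ (g (val x₀ y₀))) = val x₀ y₀ := h2
    have h4 := congrArg g h3
    have h5 : g (g⁻¹ (σ (g (val x₀ y₀)))) = σ (g (val x₀ y₀)) := g.apply_symm_apply _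
    rw [h5, hgz] at h4
    exact h4
  have hD : x₀ * y₁ - x₁ * y₀ ≠ 0 := by
    intro hD
    obtain ⟨k, hk1, hk2⟩ := prop7 (X := x₁) (Y := y₁) h0 (by linear_combination -hD)
    apply hg
    rw [hgz, hk1, hk2]
    apply H.smul
    rintro rfl
    rw [zero_mul] at hk1 hk2
    rcases h1 with h | h
    · exact h hk1
    · exact h hk2
  have eig : ∀ σ : K ≃ₐ[F] K, ∀ x y : ZMod 7, (x ≠ 0 ∨ y ≠ 0) → σ (val x y) = val x y →
      ∃ k, m σ 0 0 * x + m σ 0 1 * y = k * x ∧ m σ 1 0 * x + m σ 1 1 * y = k * y := by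
    intro σ x y hxy hσ
    rw [H.gal σ x y hxy] at hσ
    exact prop7 hxy (H.inj _ _ _ _ (act_ne7 m σ hxy) hxy hσ)
  intro σ τ hσ hτ
  obtain ⟨a, a1, a2⟩ := eig σ x₀ y₀ h0 (hfix σ hσ)
  obtain ⟨b, b1, b2⟩ := eig τ x₀ y₀ h0 (hfix τ hτ)
  obtain ⟨c, c1, c2⟩ := eig σ x₁ y₁ h1 (hfix1 σ hσ)
  obtain ⟨d, d1, d2⟩ := eig τ x₁ y₁ h1 (hfix1 τ hτ)
  -- both products agree on the two vectors
  generalize m σ = A at *
  generalize m τ = B at *
  have k0 : ∀ i, (A * B) i 0 * x₀ + (A * B) i 1 * y₀ = (B * A) i 0 * x₀ + (B * A) i 1 * y₀ := by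
    intro i
    fin_cases i <;> simp only [Matrix.mul_apply, Fin.sum_univ_two, Fin.zero_eta, Fin.mk_one]
    · linear_combination A 0 0 * b1 + A 0 1 * b2 - B 0 0 * a1 - B 0 1 * a2 + b * a1 - a * b1
    · linear_combination A 1 0 * b1 + A 1 1 * b2 - B 1 0 * a1 - B 1 1 * a2 + b * a2 - a * b2
  have k1 : ∀ i, (A * B) i 0 * x₁ + (A * B) i 1 * y₁ = (B * A) i 0 * x₁ + (B * A) i 1 * y₁ := by
    intro i
    fin_cases i <;> simp only [Matrix.mul_apply, Fin.sum_univ_two, Fin.zero_eta, Fin.mk_one]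
    · linear_combination A 0 0 * d1 + A 0 1 * d2 - B 0 0 * c1 - B 0 1 * c2 + d * c1 - c * d1
    · linear_combination A 1 0 * d1 + A 1 1 * d2 - B 1 0 * c1 - B 1 1 * c2 + d * c2 - c * d2
  have key : ∀ i, (A * B) i 0 = (B * A) i 0 ∧ (A * B) i 1 = (B * A) i 1 := by
    intro i
    have e0 := k0 i
    have e1 := k1 i
    constructor
    · apply mul_left_cancel₀ hD
      linear_combination y₁ * e0 - y₀ * e1
    · apply mul_left_cancel₀ hD
      linear_combination x₀ * e1 - x₁ * e0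
  ext i j
  fin_cases j
  · exact (key i).1
  · exact (key i).2

theorem red_commute (H : Frame7 m val J)
    (hsub : ∀ σ : K ≃ₐ[F] K, Z7 σ → σ i = i) (hcube : ∀ σ : K ≃ₐ[F] K, σ i = i → Z7 (σ ^ 3))
    (hcyc : ∀ σ τ : K ≃ₐ[F] K, σ i = i → τ i = i → Z7 σ ∨ ∃ k : ℕ, Z7 (τ * (σ ^ k)⁻¹))
    (hab : ∀ σ τ : K ≃ₐ[F] K, Z7 σ → Z7 τ → m σ * m τ = m τ * m σ) :
    (∃ x : K, G8 J x = 0 ∧ ∀ σ : K ≃ₐ[F] K, σ x = x) ∨
    ∀ σ τ : K ≃ₐ[F] K, σ i = i → τ i = i → m σ * m τ = m τ * m σ := by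
  by_cases hall : ∀ σ : K ≃ₐ[F] K, Z7 σ → m σ 0 1 = 0 ∧ m σ 1 0 = 0 ∧ m σ 0 0 - m σ 1 1 = 0
  · right
    have hsc : ∀ σ : K ≃ₐ[F] K, Z7 σ → ∀ B, m σ * B = B * m σ := by
      intro σ hσ B
      obtain ⟨h1, h2, h3⟩ := hall σ hσ
      rw [comm_iff7, h1, h2, h3]
      simp
    intro σ τ hσ hτ
    rcases hcyc σ τ hσ hτ with hz | ⟨k, hk⟩
    · exact hsc σ hz _
    · have e : τ = (τ * (σ ^ k)⁻¹) * σ ^ k := by group
      have e2 : m τ = m (τ * (σ ^ k)⁻¹) * m σ ^ k := by
        conv_lhs => rw [e]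
        rw [map_mul, map_pow]
      rw [e2, ← mul_assoc, ← hsc _ hk, mul_assoc, mul_assoc]
      congr 1
      exact (Commute.pow_self (m σ) k).symm.eq
  push Not at hall
  obtain ⟨σ₀, hσ₀, hns⟩ := hall
  set A := m σ₀ with hA
  have hAns : A 0 1 ≠ 0 ∨ A 1 0 ≠ 0 ∨ A 0 0 - A 1 1 ≠ 0 := by
    by_contra hc
    push Not at hc
    exact hns hc.1 hc.2.1 hc.2.2
  -- the traceless part
  obtain ⟨T, hT⟩ : ∃ T : Matrix (Fin 2) (Fin 2) (ZMod 7),
    T = (2 : ZMod 7) • A - (A 0 0 + A 1 1) • (1 : Matrix (Fin 2) (Fin 2) (ZMod 7)) := ⟨_, rfl⟩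
  have T00 : T 0 0 = A 0 0 - A 1 1 := by
    rw [hT]; simp [Matrix.sub_apply, Matrix.smul_apply]; ring
  have T01 : T 0 1 = 2 * A 0 1 := by
    rw [hT]; simp [Matrix.sub_apply, Matrix.smul_apply]
  have T10 : T 1 0 = 2 * A 1 0 := by
    rw [hT]; simp [Matrix.sub_apply, Matrix.smul_apply]
  have T11 : T 1 1 = -(A 0 0 - A 1 1) := by
    rw [hT]; simp [Matrix.sub_apply, Matrix.smul_apply]; ring
  have hT0 : T ≠ 0 := by
    intro h
    rw [h] at T00 T01 T10
    simp only [Matrix.zero_apply] at T00 T01 T10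
    rcases hAns with h1 | h1 | h1
    · exact (mul_ne_zero two_ne7 h1) T01.symm
    · exact (mul_ne_zero two_ne7 h1) T10.symm
    · exact h1 T00.symm
  have hmg : ∀ g : K ≃ₐ[F] K, m g ≠ 0 := by
    intro g h
    have := mul_inv7 m g
    rw [h, zero_mul] at this
    exact one_ne_zero this.symm
  -- conjugation
  have hgT : ∀ g : K ≃ₐ[F] K, ∃ v : ZMod 7, m g * T = v • (T * m g) := by
    intro g
    have hC := hab _ _ hσ₀ (hσ₀.conj g)
    obtain ⟨C, hCd⟩ : ∃ C, C = m (g * σ₀ * g⁻¹) := ⟨_, rfl⟩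
    rw [← hA, ← hCd] at hC
    obtain ⟨v, v1, v2, v3⟩ := prop_of_comm7 hAns hC
    have hCg : m g * A = C * m g := by
      rw [hCd, map_mul, map_mul, mul_assoc, inv_mul7, mul_one]
    have htr : C 0 0 + C 1 1 = A 0 0 + A 1 1 := by
      have h1 : C.trace = A.trace := by
        rw [hCd, map_mul, map_mul, Matrix.trace_mul_comm, ← mul_assoc, inv_mul7, one_mul]
      rw [Matrix.trace_fin_two, Matrix.trace_fin_two] at h1
      exact h1
    have hvT : (2 : ZMod 7) • C - (A 0 0 + A 1 1) • (1 : Matrix (Fin 2) (Fin 2) (ZMod 7)) =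
        v • T := by
      ext a b
      fin_cases a <;> fin_cases b
      · simp [Matrix.sub_apply, Matrix.smul_apply, T00]
        linear_combination v3 + htr
      · simp [Matrix.sub_apply, Matrix.smul_apply, T01]
        linear_combination 2 * v1
      · simp [Matrix.sub_apply, Matrix.smul_apply, T10]
        linear_combination 2 * v2
      · simp [Matrix.sub_apply, Matrix.smul_apply, T11]
        linear_combination -v3 + htr
    refine ⟨v, ?_⟩
    rw [← smul_mul_assoc, ← hvT, hT, mul_sub, sub_mul, mul_smul_comm, mul_smul_comm, mul_one,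
      smul_mul_assoc, smul_mul_assoc, one_mul, hCg]
  have hv0 : ∀ (g : K ≃ₐ[F] K) (v : ZMod 7), m g * T = v • (T * m g) → v ≠ 0 := by
    rintro g v h rfl
    rw [zero_smul] at h
    apply hT0
    have := congrArg (fun M => m g⁻¹ * M) h
    simp only [mul_zero, ← mul_assoc, inv_mul7, one_mul] at this
    exact this
  by_cases hΔ : T 0 0 * T 0 0 + T 0 1 * T 1 0 = 0
  · -- the kernel of `T` is stable
    left
    have hker : ∃ x y : ZMod 7, (x ≠ 0 ∨ y ≠ 0) ∧ T 0 0 * x + T 0 1 * y = 0 ∧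
        T 1 0 * x - T 0 0 * y = 0 ∧ ∀ X Y : ZMod 7, T 0 0 * X + T 0 1 * Y = 0 →
          T 1 0 * X - T 0 0 * Y = 0 → X * y = x * Y := by
      by_cases hq : T 0 1 = 0
      · have hp : T 0 0 = 0 := by
          rw [hq, zero_mul, add_zero] at hΔ
          exact mul_self_eq_zero.1 hΔ
        have hr : T 1 0 ≠ 0 := by
          intro hr
          apply hT0
          ext a b
          fin_cases a <;> fin_cases b
          · simpa using hp
          · simpa using hq
          · simpa using hr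
          · simp only [Fin.mk_one, Matrix.zero_apply]
            rw [T11, ← T00, hp, neg_zero]
        refine ⟨0, 1, Or.inr one_ne_zero, by rw [hq]; ring, by rw [hp]; ring, ?_⟩
        intro X Y _ h2
        rw [hp, zero_mul, sub_zero] at h2
        rcases mul_eq_zero.1 h2 with h | h
        · exact absurd h hr
        · rw [h]; ring
      · refine ⟨T 0 1, -T 0 0, Or.inl hq, by ring, by linear_combination hΔ, ?_⟩
        intro X Y h1 _
        linear_combination -h1
    obtain ⟨x, y, hxy, k1, k2, kk⟩ := hker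
    refine ⟨val x y, H.root x y hxy, ?_⟩
    intro g
    obtain ⟨v, hv⟩ := hgT g
    have hv1 := hv0 g v hv
    rw [H.gal g x y hxy]
    have e00 := congrFun (congrFun hv 0) 0
    have e01 := congrFun (congrFun hv 0) 1
    have e10 := congrFun (congrFun hv 1) 0
    have e11 := congrFun (congrFun hv 1) 1
    simp only [Matrix.mul_apply, Matrix.smul_apply, Fin.sum_univ_two, smul_eq_mul, T11, ← T00]
      at e00 e01 e10 e11
    have q1 : T 0 0 * (m g 0 0 * x + m g 0 1 * y) + T 0 1 * (m g 1 0 * x + m g 1 1 * y) = 0 := by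
      apply mul_left_cancel₀ hv1
      linear_combination (-x) * e00 - y * e01 + m g 0 0 * k1 + m g 0 1 * k2
    have q2 : T 1 0 * (m g 0 0 * x + m g 0 1 * y) - T 0 0 * (m g 1 0 * x + m g 1 1 * y) = 0 := by
      apply mul_left_cancel₀ hv1
      linear_combination (-x) * e10 - y * e11 + m g 1 0 * k1 + m g 1 1 * k2
    obtain ⟨k, hk1, hk2⟩ := prop7 hxy (kk _ _ q1 q2)
    have hne := act_ne7 m g hxy
    rw [hk1, hk2]
    apply H.smul
    rintro rfl
    rw [hk1, hk2, zero_mul, zero_mul] at hne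
    rcases hne with h | h <;> exact h rfl
  · right
    have hTT : T * T = (T 0 0 * T 0 0 + T 0 1 * T 1 0) •
        (1 : Matrix (Fin 2) (Fin 2) (ZMod 7)) := by
      ext a b
      fin_cases a <;> fin_cases b
      · simp [Matrix.mul_apply, Fin.sum_univ_two]
      · simp [Matrix.mul_apply, Fin.sum_univ_two, T11, ← T00]
        ring
      · simp [Matrix.mul_apply, Fin.sum_univ_two, T11, ← T00]
        ring
      · simp [Matrix.mul_apply, Fin.sum_univ_two, T11, ← T00]
        ring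
    have hcomA : ∀ B : Matrix (Fin 2) (Fin 2) (ZMod 7), B * T = T * B → A * B = B * A := by
      intro B hB
      rw [hT, mul_sub, sub_mul, mul_smul_comm, mul_smul_comm, mul_one, smul_mul_assoc,
        smul_mul_assoc, one_mul, sub_left_inj] at hB
      exact (smul_right_injective _ two_ne7 hB).symm
    have hTcom : ∀ B : Matrix (Fin 2) (Fin 2) (ZMod 7), A * B = B * A → B * T = T * B := by
      intro B hB
      rw [hT, mul_sub, sub_mul, mul_smul_comm, mul_smul_comm, mul_one, smul_mul_assoc,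
        smul_mul_assoc, one_mul, hB]
    have hN : ∀ g : K ≃ₐ[F] K, g i = i → A * m g = m g * A := by
      intro g hg
      apply hcomA
      obtain ⟨v, hv⟩ := hgT g
      have hv2 : v * v = 1 := by
        have h1 : m g * T * T = (v * v) • (T * T * m g) := by
          rw [hv, smul_mul_assoc, mul_assoc T (m g) T, hv, mul_smul_comm, smul_smul, ← mul_assoc]
        rw [mul_assoc, hTT, mul_smul_comm, mul_one, smul_mul_assoc, one_mul, smul_smul] at h1
        have h2 : (v * v * (T 0 0 * T 0 0 + T 0 1 * T 1 0) - (T 0 0 * T 0 0 + T 0 1 * T 1 0)) •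
            m g = 0 := by rw [sub_smul, ← h1, sub_self]
        rcases smul_eq_zero.1 h2 with h3 | h3
        · apply mul_right_cancel₀ hΔ
          rw [one_mul]
          exact sub_eq_zero.1 h3
        · exact absurd h3 (hmg g)
      have h3 : m (g ^ 3) * T = (v * v * v) • (T * m (g ^ 3)) := by
        have e : m (g ^ 3) = m g * m g * m g := by
          rw [map_pow, pow_succ, pow_two]
        rw [e]
        calc m g * m g * m g * T = m g * m g * (v • (T * m g)) := by rw [mul_assoc, hv]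
          _ = v • (m g * (m g * T) * m g) := by
              rw [mul_smul_comm]; simp only [mul_assoc]
          _ = v • (v • (m g * T * (m g * m g))) := by
              have e1 : m g * (m g * T) = v • (m g * T * m g) := by
                conv_lhs => rw [hv]
                rw [mul_smul_comm, mul_assoc]
              rw [e1, smul_mul_assoc]; simp only [mul_assoc]
          _ = (v * v * v) • (T * (m g * m g * m g)) := by
              rw [hv, smul_mul_assoc, smul_smul, smul_smul]; simp only [mul_assoc]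
      have h4 := hTcom _ (hab _ _ hσ₀ (hcube g hg))
      rw [h4] at h3
      have h5 : (v * v * v - 1) • (T * m (g ^ 3)) = 0 := by
        rw [sub_smul, ← h3, one_smul, sub_self]
      have h6 : T * m (g ^ 3) ≠ 0 := by
        intro h
        apply hT0
        have := congrArg (fun M => M * m (g ^ 3)⁻¹) h
        simp only [zero_mul, mul_assoc, mul_inv7, mul_one] at this
        exact this
      rcases smul_eq_zero.1 h5 with h7 | h7
      · rw [hv2, one_mul] at h7
        have h8 : v = 1 := sub_eq_zero.1 h7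
        rw [hv, h8, one_smul]
      · exact absurd h7 h6
    intro σ τ hσ hτ
    exact comm_of_comm7 hAns (hN σ hσ) (hN τ hτ)

end Pool.Agent.M7
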