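import Pool.Agent.M7.FrameDef
import Pool.Agent.M7.Pts7b
import Pool.Agent.M7.Eight

/-! # Stable subgroups of order 7 and roots of the octic (helper33)

PROOFS. `stable_of_fixed`: `R` with `Gof R x` (`exists_of_G8`); `C = AddSubgroup.zmultiples R` has 7
elements (`R ≠ 0`, `7 R = 0`); `Gof (σ R) (σ x)`, `σ x = x`, so `σ R = k • R` (`Gof.eq_or`),
`σ C ⊆ C`, equality as `σ` is injective and `C` finite. `fixed_of_stable`: `R ≠ 0` in `C`
(`H42M.exists_ne_zero`), `7 R = 0` (`H42M.exists_zsmul`), `Tof R t` (`exists_Tof`), `x = bb t`; for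
`Z σ`, `σ R ∈ C`, `σ R = k • R` (`H42M.exists_zsmul`), `σ R ≠ 0`, so `7 ∤ k`, `Tof.zsmul`, `Tof.unique`.
`exists_val`: the eight values `val 1 k`, `val 0 1` are distinct roots (`Frame7.inj`), `eight_prod`. -/

namespace Pool.Agent.M7

open WeierstrassCurve WeierstrassCurve.Affine Pool.Agent.H42M

theorem stable_of_fixed {F K : Type*} [Field F] [Field K] [CharZero K] [IsAlgClosed K]
    [DecidableEq K] [Algebra F K] {W : WeierstrassCurve F}
    [(WeierstrassCurve.Affine.baseChange W K).IsElliptic] {j : F}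
    (hj : JRel (-27 * (WeierstrassCurve.Affine.baseChange W K).c₄)
      (-54 * (WeierstrassCurve.Affine.baseChange W K).c₆) (algebraMap F K j))
    (h0 : j ≠ 0) (h1 : j ≠ 1728) {x : K} (hx : G8 (algebraMap F K (j - 1728)) x = 0)
    (hσ : ∀ σ : K ≃ₐ[F] K, σ x = x) :
    ∃ C : AddSubgroup (WeierstrassCurve.Affine.baseChange W K).Point, Nat.card C = 7 ∧
      ∀ σ : K ≃ₐ[F] K, C.map (act W σ) = C := by
  have h0' : algebraMap F K j ≠ 0 := fun h => h0 ((map_eq_zero _).mp h)
  have h1' : algebraMap F K j ≠ 1728 := by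
    intro h
    apply h1
    apply (algebraMap F K).injective
    rw [h, map_ofNat]
  have hx' : G8 (algebraMap F K j - 1728) x = 0 := by
    rw [← hx, map_sub, map_ofNat]
  obtain ⟨R, hR⟩ := exists_of_G8 hj h0' h1' hx'
  have hR' := hR
  obtain ⟨t, ht, -⟩ := hR'
  have hR0 : R ≠ 0 := ht.ne_zero
  have h7 : (7 : ℕ) • R = 0 := by
    have h := ht.tor
    rw [← h]
    norm_cast
  have hcard : ∀ Q : (WeierstrassCurve.Affine.baseChange W K).Point, Q ≠ 0 → (7 : ℕ) • Q = 0 →
      Nat.card (AddSubgroup.zmultiples Q) = 7 := by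
    intro Q hQ0 hQ7
    have : Fact (Nat.Prime 7) := ⟨by norm_num⟩
    rw [Nat.card_zmultiples]
    exact addOrderOf_eq_prime hQ7 hQ0
  refine ⟨AddSubgroup.zmultiples R, hcard R hR0 h7, fun σ => ?_⟩
  have hσR : Gof (act W σ R) x := by
    have h := act_Gof σ hR
    rwa [hσ σ] at h
  obtain ⟨k, hk⟩ := Gof.eq_or hj h0' h1' hR hσR
  rw [AddMonoidHom.map_zmultiples]
  have hle : AddSubgroup.zmultiples (act W σ R) ≤ AddSubgroup.zmultiples R := by
    rw [AddSubgroup.zmultiples_le, hk]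
    exact AddSubgroup.zsmul_mem_zmultiples R k
  have : Finite (AddSubgroup.zmultiples R) := by
    apply Nat.finite_of_card_ne_zero
    rw [hcard R hR0 h7]
    norm_num
  apply AddSubgroup.eq_of_le_of_card_ge hle
  rw [hcard R hR0 h7, hcard (act W σ R)]
  · exact fun h => hR0 ((map_eq_zero_iff _ (act_injective σ)).mp h)
  · rw [← map_nsmul, h7, map_zero]

theorem fixed_of_stable {F K : Type*} [Field F] [Field K] [CharZero K] [DecidableEq K]
    [Algebra F K] {W : WeierstrassCurve F} {j : F}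
    (hj : JRel (-27 * (WeierstrassCurve.Affine.baseChange W K).c₄)
      (-54 * (WeierstrassCurve.Affine.baseChange W K).c₆) (algebraMap F K j))
    (Z : (K ≃ₐ[F] K) → Prop)
    (C : AddSubgroup (WeierstrassCurve.Affine.baseChange W K).Point) (hC : Nat.card C = 7)
    (hst : ∀ σ, Z σ → C.map (act W σ) = C) :
    ∃ x : K, G8 (algebraMap F K (j - 1728)) x = 0 ∧ ∀ σ, Z σ → σ x = x := by
  obtain ⟨R, hRC, hR0⟩ := exists_ne_zero (by norm_num) hC
  have h7 : (7 : ℤ) • R = 0 := by
    obtain ⟨r, -, -, -, h5⟩ := exists_zsmul (by norm_num) hC hRC hR0 hRC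
    exact_mod_cast h5
  obtain ⟨t, ht⟩ := exists_Tof hR0 h7
  have hG : Gof R (bb t) := ⟨t, ht, rfl⟩
  refine ⟨bb t, ?_, fun σ hσ => ?_⟩
  · have h := Gof.root hj hG
    rw [← h, map_sub, map_ofNat]
  · have hmem : act W σ R ∈ C := by
      have h1 : act W σ R ∈ C.map (act W σ) := AddSubgroup.mem_map_of_mem _ hRC
      rwa [hst σ hσ] at h1
    obtain ⟨r, hr0, hr1, hr2, -⟩ := exists_zsmul (by norm_num) hC hRC hR0 hmem
    have hr3 : ¬ (7 : ℤ) ∣ r := by
      intro hd
      have hr4 : r = 0 := by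
        push_cast at hr1
        omega
      rw [hr4, zero_zsmul] at hr2
      exact hR0 ((map_eq_zero_iff _ (act_injective σ)).mp hr2)
    have ha := act_Tof σ ht
    rw [hr2] at ha
    have hu : σ t = t := Tof.unique ha (ht.zsmul hr3)
    unfold bb
    simp only [map_add, map_sub, map_mul, map_pow, map_ofNat, hu]

theorem exists_val {F K : Type*} [Field F] [Field K] [CharZero K] [Algebra F K]
    {m : (K ≃ₐ[F] K) →* Matrix (Fin 2) (Fin 2) (ZMod 7)} {val : ZMod 7 → ZMod 7 → K} {J : K}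
    (H : Frame7 m val J) {z : K} (hz : G8 J z = 0) :
    ∃ x y : ZMod 7, (x ≠ 0 ∨ y ≠ 0) ∧ z = val x y := by
  let v : Fin 8 → K := fun i => if (i : ℕ) < 7 then val 1 ((i : ℕ) : ZMod 7) else val 0 1
  have hne : (1 : ZMod 7) ≠ 0 := by decide
  have hv : Function.Injective v := by
    intro i k hik
    simp only [v] at hik
    by_cases hi : (i : ℕ) < 7 <;> by_cases hk : (k : ℕ) < 7
    · rw [if_pos hi, if_pos hk] at hik
      have h1 := H.inj _ _ _ _ (Or.inl hne) (Or.inl hne) hik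
      rw [one_mul, one_mul, ZMod.natCast_eq_natCast_iff] at h1
      have h2 : (k : ℕ) % 7 = (i : ℕ) % 7 := h1
      rw [Nat.mod_eq_of_lt hk, Nat.mod_eq_of_lt hi] at h2
      exact Fin.ext h2.symm
    · rw [if_pos hi, if_neg hk] at hik
      have h1 := H.inj _ _ _ _ (Or.inl hne) (Or.inr hne) hik
      rw [mul_one, zero_mul] at h1
      exact absurd h1 hne
    · rw [if_neg hi, if_pos hk] at hik
      have h1 := H.inj _ _ _ _ (Or.inr hne) (Or.inl hne) hik
      rw [mul_one, zero_mul] at h1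
      exact absurd h1.symm hne
    · apply Fin.ext
      have := i.2
      have := k.2
      omega
  have hr : ∀ i, G8 J (v i) = 0 := by
    intro i
    simp only [v]
    split_ifs
    · exact H.root _ _ (Or.inl hne)
    · exact H.root _ _ (Or.inr hne)
  have hp := eight_prod hv hr z
  rw [hz] at hp
  obtain ⟨i, -, hi⟩ := Finset.prod_eq_zero_iff.mp hp.symm
  have hi' : z = v i := sub_eq_zero.mp hi
  simp only [v] at hi'
  split_ifs at hi'
  · exact ⟨_, _, Or.inl hne, hi'⟩
  · exact ⟨_, _, Or.inr hne, hi'⟩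

end Pool.Agent.M7
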