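import Pool.Agent.H42M.ModMain

/-! # The condition at 3 (helper33, from helper42) -/

namespace Pool.Agent.M7

open WeierstrassCurve WeierstrassCurve.Affine Pool.Agent.H42M

theorem three_cases {F K : Type*} [Field F] [CharZero F] [Field K] [Algebra F K] [IsGalois F K]
    [IsAlgClosed K] [DecidableEq K]
    (c : K ≃ₐ[F] K) (hcc : ∀ z, c (c z) = z) (hc3 : ∀ z : K, z ^ 2 = -3 → c z = -z)
    (W : WeierstrassCurve F) [W.IsElliptic]
    (hab : ∀ σ τ : K ≃ₐ[F] K, (∀ z : K, z ^ 2 = -3 → σ z = z ∧ τ z = z) →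
      ∀ R : (WeierstrassCurve.Affine.baseChange W K).Point, R + R = -R →
        act W σ (act W τ R) = act W τ (act W σ R)) :
    (∃ x : F, 3 * x ^ 4 + 6 * (-27 * W.c₄) * x ^ 2 + 12 * (-54 * W.c₆) * x -
      (-27 * W.c₄) ^ 2 = 0) ∨
    ∃ u v : F, 4 * (-54 * W.c₆) = 2 * u * v - u ^ 3 - 2 * (-27 * W.c₄) * u ∧
      (-27 * W.c₄) ^ 2 + 6 * (-27 * W.c₄) * v + 3 * u ^ 2 * v - 3 * v ^ 2 = 0 := by
  have : CharZero K := charZero_of_injective_algebraMap (algebraMap F K).injective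
  have hEll : (WeierstrassCurve.Affine.baseChange W K).IsElliptic := by
    rw [WeierstrassCurve.isElliptic_iff]
    have h1 : (WeierstrassCurve.Affine.baseChange W K).Δ = algebraMap F K W.Δ := W.map_Δ _
    rw [h1]
    exact W.isUnit_Δ.map _
  have hc4 : (WeierstrassCurve.Affine.baseChange W K).c₄ = algebraMap F K W.c₄ := W.map_c₄ _
  have hc6 : (WeierstrassCurve.Affine.baseChange W K).c₆ = algebraMap F K W.c₆ := W.map_c₆ _
  have hfix : ∀ z : K, (∀ σ : K ≃ₐ[F] K, σ z = z) → ∃ a : F, algebraMap F K a = z := fun z hz =>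
    (InfiniteGalois.mem_range_algebraMap_iff_fixed z).mpr hz
  have hroot : ∀ {X : K}, Psi (WeierstrassCurve.Affine.baseChange W K) X →
      (∀ σ : K ≃ₐ[F] K, σ X = X) → ∃ x : F, 3 * x ^ 4 + 6 * (-27 * W.c₄) * x ^ 2 +
        12 * (-54 * W.c₆) * x - (-27 * W.c₄) ^ 2 = 0 := by
    intro X hX hσ
    obtain ⟨a, rfl⟩ := hfix X hσ
    refine ⟨a, ?_⟩
    unfold Psi at hX
    rw [hc4, hc6] at hX
    apply (algebraMap F K).injective
    simp only [map_add, map_mul, map_sub, map_pow, map_neg, map_ofNat, map_zero]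
    exact hX
  obtain ⟨X₁, X₂, hne, hX₁, hX₂, h⟩ := abelian_cases (disc_ne_zero W) c hcc hc3 hab
  rcases h with h | h | h
  · exact Or.inl (hroot hX₁ h)
  · exact Or.inl (hroot hX₂ h)
  · right
    obtain ⟨u, hu⟩ := hfix (X₁ + X₂) (fun σ => by
      rcases h σ with ⟨h1, h2⟩ | ⟨h1, h2⟩
      · rw [map_add, h1, h2]
      · rw [map_add, h1, h2, add_comm])
    obtain ⟨v, hv⟩ := hfix (X₁ * X₂) (fun σ => by
      rcases h σ with ⟨h1, h2⟩ | ⟨h1, h2⟩
      · rw [map_mul, h1, h2]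
      · rw [map_mul, h1, h2, mul_comm])
    unfold Psi at hX₁ hX₂
    rw [hc4, hc6] at hX₁ hX₂
    obtain ⟨hk3, hk4⟩ := sym3 hne hX₁ hX₂
    rw [← hu, ← hv] at hk3 hk4
    refine ⟨u, v, ?_, ?_⟩
    · have h0 : 3 * (4 * (-54 * W.c₆)) = 3 * (2 * u * v - u ^ 3 - 2 * (-27 * W.c₄) * u) := by
        apply (algebraMap F K).injective
        simpa only [map_add, map_mul, map_sub, map_pow, map_neg, map_ofNat, map_zero] using hk3
      exact mul_left_cancel₀ three_ne_zero h0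
    · apply (algebraMap F K).injective
      simpa only [map_add, map_mul, map_sub, map_pow, map_neg, map_ofNat, map_zero] using hk4

end Pool.Agent.M7
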