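import Pool.Agent.M7.Basic

/-! # The curve `X₀(21)` (helper33)

`t` is a point of `X₀(7)`, `x` the coordinate of a subgroup of order 3 of the curve with
`c₄ = uu t * aa t`, `c₆ = uu t * bb t`.

PROOF of `b3_f`. `N = -(t + 5) x³ + (t + 1) U x² + U (5 t³ + 50 t² + 130 t + 49) x +
U (3 t⁵ + 57 t⁴ + 399 t³ + 1191 t² + 1281 t - 357)`, `U = uu t`, `f = N/(576 U)`. Then
`N⁴ - t N³ (576 U) - 3 t N² (576 U)² - 7 t N (576 U)³ + t² (576 U)⁴` is a multiple of the quartic of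
`hx` (verified by computer algebra; the cofactor has degree 8 in `x`, 20 in `t`, 117 terms, obtained
by division in `x`; it is printed in `Pool/Agent/M7/cofactor.txt`).
PROOF of `b3_pts`. `f ≠ 0` as `t ≠ 0`. `v = (2 t - f (f² + 3 f + 7))/f` satisfies
`v² = f⁴ + 6 f³ + 19 f² + 42 f + 49`. `x₀ = (14 (v + 7) + 42 f)/f²`, `X = x₀ - 2`,
`Y = (196 (v + 7) + 588 f + 140 f²)/f³ + 3 x₀ + 42` satisfy `Y² = X (X + 9) (X + 16)`
(`= (x₀ - 2) (x₀ + 7) (x₀ + 14)`). Elimination of `v` (as `14 v = x₀ f² - 42 f - 98`, divide by `f²`):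
`(x₀² - 196) f² - 84 (x₀ + 14) f - 196 (x₀ + 10) = 0`. `X = 0`: `(2 f + 7)² = 0`; `X = -9`:
`(f + 2)² = 0`; `X = -16`: `784 = 0`; `X = 12`: `f = -2`; `X = -12`: `f (2 f + 7) = 0`. So `f = -2`,
`t² + 10 t + 16 = 0`, or `f = -7/2`, `t² + 245/8 t + 2401/16 = 0`.
The values of `j`: `j t = uu t * aa t ^ 3`. -/

namespace Pool.Agent.M7

variable {F : Type*} [Field F] [CharZero F]

omit [CharZero F] in
lemma b3_keyT {t x : F}
    (hx : x ^ 4 - 6 * ((t ^ 2 + 13 * t + 49) * (t ^ 2 + 5 * t + 1)) * x ^ 2 -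
      8 * ((t ^ 2 + 13 * t + 49) * (t ^ 4 + 14 * t ^ 3 + 63 * t ^ 2 + 70 * t - 7)) * x -
      3 * ((t ^ 2 + 13 * t + 49) * (t ^ 2 + 5 * t + 1)) ^ 2 = 0) :
    (-(t + 5) * x ^ 3 + (t + 1) * (t ^ 2 + 13 * t + 49) * x ^ 2 +
      (t ^ 2 + 13 * t + 49) * (5 * t ^ 3 + 50 * t ^ 2 + 130 * t + 49) * x +
      (t ^ 2 + 13 * t + 49) * (3 * t ^ 5 + 57 * t ^ 4 + 399 * t ^ 3 + 1191 * t ^ 2 + 1281 * t - 357)) ^ 4 -
    t * (-(t + 5) * x ^ 3 + (t + 1) * (t ^ 2 + 13 * t + 49) * x ^ 2 +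
      (t ^ 2 + 13 * t + 49) * (5 * t ^ 3 + 50 * t ^ 2 + 130 * t + 49) * x +
      (t ^ 2 + 13 * t + 49) * (3 * t ^ 5 + 57 * t ^ 4 + 399 * t ^ 3 + 1191 * t ^ 2 + 1281 * t - 357)) ^ 3 *
      (576 * (t ^ 2 + 13 * t + 49)) -
    3 * t * (-(t + 5) * x ^ 3 + (t + 1) * (t ^ 2 + 13 * t + 49) * x ^ 2 +
      (t ^ 2 + 13 * t + 49) * (5 * t ^ 3 + 50 * t ^ 2 + 130 * t + 49) * x +
      (t ^ 2 + 13 * t + 49) * (3 * t ^ 5 + 57 * t ^ 4 + 399 * t ^ 3 + 1191 * t ^ 2 + 1281 * t - 357)) ^ 2 *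
      (576 * (t ^ 2 + 13 * t + 49)) ^ 2 -
    7 * t * (-(t + 5) * x ^ 3 + (t + 1) * (t ^ 2 + 13 * t + 49) * x ^ 2 +
      (t ^ 2 + 13 * t + 49) * (5 * t ^ 3 + 50 * t ^ 2 + 130 * t + 49) * x +
      (t ^ 2 + 13 * t + 49) * (3 * t ^ 5 + 57 * t ^ 4 + 399 * t ^ 3 + 1191 * t ^ 2 + 1281 * t - 357)) *
      (576 * (t ^ 2 + 13 * t + 49)) ^ 3 + t ^ 2 * (576 * (t ^ 2 + 13 * t + 49)) ^ 4 = 0 := by
  linear_combination (x ^ 8 * t ^ 4 + 20 * x ^ 8 * t ^ 3 + 150 * x ^ 8 * t ^ 2 + 500 * x ^ 8 * t + 625 * x ^ 8 - 4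
      * x ^ 7 * t ^ 6 - 116 * x ^ 7 * t ^ 5 - 1388 * x ^ 7 * t ^ 4 - 8616 * x ^ 7 * t ^ 3 - 28540
      * x ^ 7 * t ^ 2 - 45700 * x ^ 7 * t - 24500 * x ^ 7 - 8 * x ^ 6 * t ^ 8 - 304 * x ^ 6 * t ^
      7 - 5000 * x ^ 6 * t ^ 6 - 46304 * x ^ 6 * t ^ 5 - 262528 * x ^ 6 * t ^ 4 - 924128 * x ^ 6 *
      t ^ 3 - 1929944 * x ^ 6 * t ^ 2 - 2053840 * x ^ 6 * t - 656600 * x ^ 6 + 28 * x ^ 5 * t ^ 10
      + 1316 * x ^ 5 * t ^ 9 + 27552 * x ^ 5 * t ^ 8 + 335996 * x ^ 5 * t ^ 7 + 2621284 * x ^ 5 *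
      t ^ 6 + 13529664 * x ^ 5 * t ^ 5 + 46172084 * x ^ 5 * t ^ 4 + 101138188 * x ^ 5 * t ^ 3 +
      133556064 * x ^ 5 * t ^ 2 + 96050164 * x ^ 5 * t + 32770220 * x ^ 5 + 50 * x ^ 4 * t ^ 12 +
      2800 * x ^ 4 * t ^ 11 + 71200 * x ^ 4 * t ^ 10 + 1083288 * x ^ 4 * t ^ 9 + 10935776 * x ^ 4
      * t ^ 8 + 76732592 * x ^ 4 * t ^ 7 + 380737628 * x ^ 4 * t ^ 6 + 1330401584 * x ^ 4 * t ^ 5
      + 3187816736 * x ^ 4 * t ^ 4 + 4936778424 * x ^ 4 * t ^ 3 + 4378078048 * x ^ 4 * t ^ 2 +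
      1692542320 * x ^ 4 * t + 146139266 * x ^ 4 - 44 * x ^ 3 * t ^ 14 - 2860 * x ^ 3 * t ^ 13 -
      85580 * x ^ 3 * t ^ 12 - 1555808 * x ^ 3 * t ^ 11 - 19107232 * x ^ 3 * t ^ 10 - 166815968 *
      x ^ 3 * t ^ 9 - 1061398104 * x ^ 3 * t ^ 8 - 4967929176 * x ^ 3 * t ^ 7 - 17082436056 * x ^
      3 * t ^ 6 - 42784272256 * x ^ 3 * t ^ 5 - 77210952320 * x ^ 3 * t ^ 4 - 99906951424 * x ^ 3
      * t ^ 3 - 92567810524 * x ^ 3 * t ^ 2 - 56797267100 * x ^ 3 * t - 14639098684 * x ^ 3 - 144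
      * x ^ 2 * t ^ 16 - 10656 * x ^ 2 * t ^ 15 - 366768 * x ^ 2 * t ^ 14 - 7774128 * x ^ 2 * t ^
      13 - 113250672 * x ^ 2 * t ^ 12 - 1198185264 * x ^ 2 * t ^ 11 - 9484395984 * x ^ 2 * t ^ 10
      - 57003286320 * x ^ 2 * t ^ 9 - 261173990736 * x ^ 2 * t ^ 8 - 907320226320 * x ^ 2 * t ^ 7
      - 2353636607760 * x ^ 2 * t ^ 6 - 4434020410320 * x ^ 2 * t ^ 5 - 5794968850848 * x ^ 2 * t
      ^ 4 - 4874894400816 * x ^ 2 * t ^ 3 - 2320798217472 * x ^ 2 * t ^ 2 - 468122163264 * x ^ 2 *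
      t + 39168646272 * x ^ 2 - 108 * x * t ^ 18 - 8964 * x * t ^ 17 - 348840 * x * t ^ 16 -
      8441172 * x * t ^ 15 - 142012872 * x * t ^ 14 - 1759399812 * x * t ^ 13 - 16582470660 * x *
      t ^ 12 - 121095797256 * x * t ^ 11 - 691086123504 * x * t ^ 10 - 3084284200968 * x * t ^ 9 -
      10688393592720 * x * t ^ 8 - 28291687757640 * x * t ^ 7 - 55494973335924 * x * t ^ 6 -
      76297007984148 * x * t ^ 5 - 65238037231752 * x * t ^ 4 - 22733655924420 * x * t ^ 3 +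
      10884596660280 * x * t ^ 2 + 11167259013036 * x * t + 2184876049860 * x - 27 * t ^ 20 - 2484
      * t ^ 19 - 107838 * t ^ 18 - 2932956 * t ^ 17 - 55950561 * t ^ 16 - 794134152 * t ^ 15 -
      8679934944 * t ^ 14 - 74580663600 * t ^ 13 - 509615264367 * t ^ 12 - 2782087429860 * t ^ 11
      - 12113928638118 * t ^ 10 - 41712398383140 * t ^ 9 - 111574404818415 * t ^ 8 -
      224225929857168 * t ^ 7 - 316517051181312 * t ^ 6 - 262368692293896 * t ^ 5 - 24697522248129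
      * t ^ 4 + 191642873701860 * t ^ 3 + 157969475586594 * t ^ 2 + 8028636470316 * t -
      13000012496667) * hx

lemma b3_f {t x : F} (hu : uu t ≠ 0)
    (hx : x ^ 4 - 6 * (uu t * aa t) * x ^ 2 - 8 * (uu t * bb t) * x - 3 * (uu t * aa t) ^ 2 = 0) :
    ∃ f : F, f ^ 4 - t * f ^ 3 - 3 * t * f ^ 2 - 7 * t * f + t ^ 2 = 0 := by
  unfold uu aa bb at hx
  unfold uu at hu
  have key := b3_keyT hx
  have hD : (576 * (t ^ 2 + 13 * t + 49) : F) ≠ 0 := mul_ne_zero (by norm_num) hu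
  generalize 576 * (t ^ 2 + 13 * t + 49) = D at key hD
  generalize (-(t + 5) * x ^ 3 + (t + 1) * (t ^ 2 + 13 * t + 49) * x ^ 2 +
      (t ^ 2 + 13 * t + 49) * (5 * t ^ 3 + 50 * t ^ 2 + 130 * t + 49) * x +
      (t ^ 2 + 13 * t + 49) * (3 * t ^ 5 + 57 * t ^ 4 + 399 * t ^ 3 + 1191 * t ^ 2 + 1281 * t -
        357)) = N at key
  refine ⟨N / D, ?_⟩
  have e : (N / D) ^ 4 - t * (N / D) ^ 3 - 3 * t * (N / D) ^ 2 - 7 * t * (N / D) + t ^ 2 =
      (N ^ 4 - t * N ^ 3 * D - 3 * t * N ^ 2 * D ^ 2 - 7 * t * N * D ^ 3 + t ^ 2 * D ^ 4) /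
        D ^ 4 := by
    field_simp
  rw [e, key, zero_div]

lemma b3_pts (hp : Pts21 F) {t f : F} (ht : t ≠ 0)
    (hf : f ^ 4 - t * f ^ 3 - 3 * t * f ^ 2 - 7 * t * f + t ^ 2 = 0) :
    t = -2 ∨ t = -8 ∨ t = -49 / 8 ∨ t = -49 / 2 := by
  have hf0 : f ≠ 0 := by
    rintro rfl
    apply ht
    have h1 : t ^ 2 = 0 := by linear_combination hf
    exact pow_eq_zero_iff two_ne_zero |>.1 h1
  obtain ⟨v, hv⟩ : ∃ v : F, v * f = 2 * t - f * (f ^ 2 + 3 * f + 7) :=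
    ⟨(2 * t - f * (f ^ 2 + 3 * f + 7)) / f, div_mul_cancel₀ _ hf0⟩
  have hv2 : v ^ 2 = f ^ 4 + 6 * f ^ 3 + 19 * f ^ 2 + 42 * f + 49 := by
    apply mul_right_cancel₀ (pow_ne_zero 2 hf0)
    linear_combination (v * f + 2 * t - f * (f ^ 2 + 3 * f + 7)) * hv + 4 * hf
  obtain ⟨x₀, hx0⟩ : ∃ x₀ : F, x₀ * f ^ 2 = 14 * (v + 7) + 42 * f :=
    ⟨(14 * (v + 7) + 42 * f) / f ^ 2, div_mul_cancel₀ _ (pow_ne_zero 2 hf0)⟩
  obtain ⟨Y, hY⟩ : ∃ Y : F, Y * f ^ 3 = 196 * (v + 7) + 588 * f + 140 * f ^ 2 +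
      (3 * x₀ + 42) * f ^ 3 :=
    ⟨(196 * (v + 7) + 588 * f + 140 * f ^ 2 + (3 * x₀ + 42) * f ^ 3) / f ^ 3,
      div_mul_cancel₀ _ (pow_ne_zero 3 hf0)⟩
  have hcurve : Y ^ 2 = (x₀ - 2) * ((x₀ - 2) + 9) * ((x₀ - 2) + 16) := by
    apply mul_right_cancel₀ (pow_ne_zero 6 hf0)
    have hY' : Y * f ^ 3 = 14 * (14 * (v + 7) + 42 * f) + 140 * f ^ 2 +
        3 * (14 * (v + 7) + 42 * f) * f + 42 * f ^ 3 := by
      linear_combination hY + 3 * f * hx0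
    have e1 : Y ^ 2 * f ^ 6 = (Y * f ^ 3) ^ 2 := by ring
    have e2 : (x₀ - 2) * ((x₀ - 2) + 9) * ((x₀ - 2) + 16) * f ^ 6 =
        (x₀ * f ^ 2 - 2 * f ^ 2) * (x₀ * f ^ 2 + 7 * f ^ 2) * (x₀ * f ^ 2 + 14 * f ^ 2) := by ring
    rw [e1, e2, hY', hx0]
    linear_combination (-2744 * v - 1960 * f ^ 2 - 8232 * f - 19208) * hv2
  have hel : (x₀ ^ 2 - 196) * f ^ 2 - 84 * (x₀ + 14) * f - 196 * (x₀ + 10) = 0 := by
    apply (mul_eq_zero.mp _).resolve_left (pow_ne_zero 2 hf0)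
    have h14 : 14 * v = x₀ * f ^ 2 - 42 * f - 98 := by linear_combination -hx0
    linear_combination (-(14 * v + (x₀ * f ^ 2 - 42 * f - 98))) * h14 + 196 * hv2
  have hcase : f = -2 ∨ f = -7 / 2 := by
    have h784 : (784 : F) ≠ 0 := by norm_num
    have h48 : (-48 : F) ≠ 0 := by norm_num
    have h147 : (-147 : F) ≠ 0 := by norm_num
    rcases hp _ _ hcurve with h | h | h | h | h
    · right
      have hx : x₀ = 2 := by linear_combination h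
      rw [hx] at hel
      have h1 : (-48 : F) * (2 * f + 7) ^ 2 = 0 := by linear_combination hel
      have h2 := pow_eq_zero_iff two_ne_zero |>.1 ((mul_eq_zero.mp h1).resolve_left h48)
      linear_combination h2 / 2
    · left
      have hx : x₀ = -7 := by linear_combination h
      rw [hx] at hel
      have h1 : (-147 : F) * (f + 2) ^ 2 = 0 := by linear_combination hel
      have h2 := pow_eq_zero_iff two_ne_zero |>.1 ((mul_eq_zero.mp h1).resolve_left h147)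
      linear_combination h2
    · exfalso
      have hx : x₀ = -14 := by linear_combination h
      rw [hx] at hel
      apply h784
      linear_combination hel
    · left
      have hx : x₀ = 14 := by linear_combination h
      rw [hx] at hel
      linear_combination -hel / 2352
    · right
      have hx : x₀ = -10 := by linear_combination h
      rw [hx] at hel
      have h1 : (-48 * f) * (2 * f + 7) = 0 := by linear_combination hel
      have h2 := (mul_eq_zero.mp h1).resolve_left (mul_ne_zero h48 hf0)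
      linear_combination h2 / 2
  rcases hcase with rfl | rfl
  · have h1 : (t + 2) * (t + 8) = 0 := by linear_combination hf
    rcases mul_eq_zero.mp h1 with h2 | h2
    · left; linear_combination h2
    · right; left; linear_combination h2
  · have h1 : (8 * t + 49) * (2 * t + 49) = 0 := by linear_combination 16 * hf
    rcases mul_eq_zero.mp h1 with h2 | h2
    · right; right; left; linear_combination h2 / 8
    · right; right; right; linear_combination h2 / 2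

theorem coreB3 (hp : Pts21 F) {t M j X : F} (hu : uu t ≠ 0) (hM : M ≠ 0)
    (hj : j * t = uu t * aa t ^ 3) {c₄ c₆ : F} (h4 : c₄ = uu t * aa t * M ^ 2)
    (h6 : c₆ = uu t * bb t * M ^ 3)
    (hX : 3 * X ^ 4 + 6 * (-27 * c₄) * X ^ 2 + 12 * (-54 * c₆) * X - (-27 * c₄) ^ 2 = 0) :
    j = 3375 / 2 ∨ j = -140625 / 8 ∨ j = -1159088625 / 2097152 ∨ j = -189613868625 / 128 := by
  have ht : t ≠ 0 := by
    rintro rfl
    simp [uu, aa] at hj
  obtain ⟨x, rfl⟩ : ∃ x : F, X = 3 * M * x :=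
    ⟨X / (3 * M), by field_simp⟩
  obtain ⟨f, hf⟩ := b3_f (x := x) hu (by
    apply (mul_eq_zero.mp _).resolve_left (mul_ne_zero (show (243 : F) ≠ 0 by norm_num)
      (pow_ne_zero 4 hM))
    rw [h4, h6] at hX
    linear_combination hX)
  rcases b3_pts hp ht hf with rfl | rfl | rfl | rfl
  · left
    unfold uu aa at hj
    linear_combination -hj / 2
  · right; left
    unfold uu aa at hj
    linear_combination -hj / 8
  · right; right; left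
    unfold uu aa at hj
    linear_combination -8 * hj / 49
  · right; right; right
    unfold uu aa at hj
    linear_combination -2 * hj / 49

end Pool.Agent.M7
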