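import Pool.Agent.M7.Basic

/-! # The curve `X(d7)`: a factor of degree 2 of the octic (helper33)

`X² + α X + β` divides `G8 J` and its discriminant is `-7 δ²`.

PROOF. `A = α²`. `hQ` is `H = 0` with `H = 7 J⁴ + 70 β J³ - 63 β² J² + 14 β³ J - β⁴ + 63 A β J² -
42 A β² J + 6 A β³ + 14 A² β J - 5 A² β² + A³ β`. `hPP`: `α P₁ = J⁴`.
Let `M = A - 3 β + 6 J`, `De = J - β`. If `De = 0`: `H = J (A + 3 J)³`, so `A = -3 J`;
in the real embedding `J < 0` (`A = α² ≥ 0`, `J ≠ 0`), `A - 4 β = -7 J > 0`, but `A - 4 β = -7 δ² ≤ 0`.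
If `De ≠ 0`: `m = M/De`, `c = m³ - 4 m² + 3 m + 1`; identities (`H` as a factor)
`β (M³ - 4 M² De + 3 M De² + De³) + 7 J De³ = H`,
`A (M³ - 4 M² De + 3 M De² + De³) De - J (M⁴ - 10 M³ De + 27 M² De² - 10 M De³ - 27 De⁴) =
 (-A - 3 J) H`,
`(A - 4 β) (M³ - 4 M² De + 3 M De² + De³) De - J (M² - 5 M De + De²)² = (-A + 4 β - 7 J) H`.
So `β c = -7 J` (`c ≠ 0`), `A c = J (m⁴ - 10 m³ + 27 m² - 10 m - 27)`,
`-7 δ² c = J (m² - 5 m + 1)²`. `y = α (m² - 5 m + 1)/δ` satisfies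
`y² = -7 (m⁴ - 10 m³ + 27 m² - 10 m - 27)` (`y² δ² = A (m² - 5 m + 1)²`, multiply by `J`).
With `m = 5/2 + u`: `y² = -7 u⁴ + 147/2 u² + 49/16`. If `u ≠ 0`, `x = 7 (4 y + 7 + 84 u²)/(8 u²)`,
`y₃ = (49/4 (y + 7/4) + 1029/4 u²)/u³` satisfy `y₃² = x (x² - 147 x + 5488)`, so `x = 0`,
`4 y = -7 - 84 u²`, `16 y² = 49 (1 + 12 u²)²`, `448 u⁴ = 0` contradiction. So `m = 5/2`, `c = -7/8`,
`β = 8 J`, `A = J/2`, `hPP` reads `α (1431/8) J³ = J⁴`, `α = 8 J/1431`, `α² = J/2` gives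
`J = 1431²/128 = 2047761/128`. -/

namespace Pool.Agent.M7

variable {F : Type*} [Field F] [CharZero F]

/-- the rational points of the genus one curve -/
lemma algD_pts (hp : Pts3 F) {m y : F}
    (hy : y ^ 2 = -7 * (m ^ 4 - 10 * m ^ 3 + 27 * m ^ 2 - 10 * m - 27)) : m = 5 / 2 := by
  by_contra hm
  obtain ⟨u, hu⟩ : ∃ u, u = m - 5 / 2 := ⟨_, rfl⟩
  have hu0 : u ≠ 0 := by rw [hu]; exact sub_ne_zero.2 hm
  have hm' : m = u + 5 / 2 := by rw [hu]; ring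
  rw [hm'] at hy
  have hy' : 16 * y ^ 2 = -112 * u ^ 4 + 1176 * u ^ 2 + 49 := by rw [hy]; ring
  obtain ⟨Z, hZ⟩ : ∃ Z, Z = 4 * y + 7 + 84 * u ^ 2 := ⟨_, rfl⟩
  have key : Z ^ 2 - 14 * Z - 168 * Z * u ^ 2 + 7168 * u ^ 4 = 0 := by
    rw [hZ]
    linear_combination hy'
  have h := hp (7 * Z / (8 * u ^ 2)) (49 / 16 * Z / u ^ 3) (by
    have h1 : (49 / 16 * Z / u ^ 3) ^ 2 - 7 * Z / (8 * u ^ 2) * ((7 * Z / (8 * u ^ 2)) ^ 2 -
        147 * (7 * Z / (8 * u ^ 2)) + 5488) =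
        -(343 * Z / (512 * u ^ 6)) * (Z ^ 2 - 14 * Z - 168 * Z * u ^ 2 + 7168 * u ^ 4) := by
      field_simp
      ring
    rw [key, mul_zero] at h1
    exact sub_eq_zero.1 h1)
  have h7 : (7 : F) ≠ 0 := by norm_num
  have h8 : (8 : F) ≠ 0 := by norm_num
  have hZ0 : Z = 0 := by
    rw [div_eq_zero_iff] at h
    rcases h with h | h
    · exact (mul_eq_zero.1 h).resolve_left h7
    · exact absurd h (mul_ne_zero h8 (pow_ne_zero 2 hu0))
  rw [hZ0] at key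
  have h4 : (7168 : F) * u ^ 4 = 0 := by linear_combination key
  have h71 : (7168 : F) ≠ 0 := by norm_num
  exact hu0 (pow_eq_zero_iff (by norm_num) |>.1 ((mul_eq_zero.1 h4).resolve_left h71))

theorem coreD (hp : Pts3 F) (φ : F →+* ℝ) {J α β δ : F} (hJ : J ≠ 0) (hδ : δ ≠ 0)
    (hd : α ^ 2 - 4 * β = -7 * δ ^ 2)
    (hPP : -α ^ 7 + 6 * α ^ 5 * β - 14 * α ^ 5 * J - 10 * α ^ 3 * β ^ 2 + 56 * α ^ 3 * β * J -
      63 * α ^ 3 * J ^ 2 + 4 * α * β ^ 3 - 42 * α * β ^ 2 * J + 126 * α * β * J ^ 2 -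
      70 * α * J ^ 3 - J ^ 4 = 0)
    (hQ : -α ^ 6 * β + 5 * α ^ 4 * β ^ 2 - 14 * α ^ 4 * β * J - 6 * α ^ 2 * β ^ 3 +
      42 * α ^ 2 * β ^ 2 * J - 63 * α ^ 2 * β * J ^ 2 + β ^ 4 - 14 * β ^ 3 * J +
      63 * β ^ 2 * J ^ 2 - 70 * β * J ^ 3 - 7 * J ^ 4 = 0) :
    J = 2047761 / 128 := by
  have h7 : (7 : F) ≠ 0 := by norm_num
  by_cases hDe : J - β = 0
  · exfalso
    have hβ : β = J := by linear_combination -hDe
    subst hβ
    have h1 : β * (α ^ 2 + 3 * β) ^ 3 = 0 := by linear_combination -hQ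
    have h2 : α ^ 2 + 3 * β = 0 :=
      pow_eq_zero_iff (by norm_num) |>.1 ((mul_eq_zero.1 h1).resolve_left hJ)
    have h3 : β = δ ^ 2 := by
      have : 7 * (β - δ ^ 2) = 0 := by linear_combination h2 - hd
      have := (mul_eq_zero.1 this).resolve_left h7
      linear_combination this
    have h4 : φ α ^ 2 + 3 * φ β = 0 := by
      have := congrArg φ h2
      rw [map_add, map_mul, map_pow, map_ofNat, map_zero] at this
      exact this
    have h5 : φ β = φ δ ^ 2 := by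
      have := congrArg φ h3
      simpa using this
    have h6 : φ β ≠ 0 := by
      intro h
      exact hJ ((map_eq_zero φ).1 h)
    have h7 : φ β = 0 := by nlinarith [sq_nonneg (φ α), sq_nonneg (φ δ)]
    exact h6 h7
  · obtain ⟨De, hDe'⟩ : ∃ De, De = J - β := ⟨_, rfl⟩
    obtain ⟨M, hM⟩ : ∃ M, M = α ^ 2 - 3 * β + 6 * J := ⟨_, rfl⟩
    have hDe0 : De ≠ 0 := by rw [hDe']; exact hDe
    obtain ⟨D, hD⟩ : ∃ D, D = M ^ 3 - 4 * M ^ 2 * De + 3 * M * De ^ 2 + De ^ 3 := ⟨_, rfl⟩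
    have I1 : β * D + 7 * J * De ^ 3 = 0 := by
      rw [hD, hM, hDe']
      linear_combination -hQ
    have I2 : α ^ 2 * D * De = J * (M ^ 4 - 10 * M ^ 3 * De + 27 * M ^ 2 * De ^ 2 -
        10 * M * De ^ 3 - 27 * De ^ 4) := by
      rw [hD, hM, hDe']
      linear_combination (α ^ 2 + 3 * J) * hQ
    have I3 : -7 * δ ^ 2 * D * De = J * (M ^ 2 - 5 * M * De + De ^ 2) ^ 2 := by
      rw [← hd, hD, hM, hDe']
      linear_combination (α ^ 2 - 4 * β + 7 * J) * hQ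
    have I4 : α ^ 2 * (M ^ 2 - 5 * M * De + De ^ 2) ^ 2 = -7 * δ ^ 2 * (M ^ 4 - 10 * M ^ 3 * De +
        27 * M ^ 2 * De ^ 2 - 10 * M * De ^ 3 - 27 * De ^ 4) := by
      apply mul_left_cancel₀ hJ
      linear_combination (-α ^ 2) * I3 - 7 * δ ^ 2 * I2
    have hm : M / De = 5 / 2 := by
      apply algD_pts hp (y := α * ((M / De) ^ 2 - 5 * (M / De) + 1) / δ)
      have e1 : (α * ((M / De) ^ 2 - 5 * (M / De) + 1) / δ) ^ 2 =
          α ^ 2 * (M ^ 2 - 5 * M * De + De ^ 2) ^ 2 / (δ ^ 2 * De ^ 4) := by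
        field_simp
      have e2 : -7 * ((M / De) ^ 4 - 10 * (M / De) ^ 3 + 27 * (M / De) ^ 2 - 10 * (M / De) - 27) =
          -7 * δ ^ 2 * (M ^ 4 - 10 * M ^ 3 * De + 27 * M ^ 2 * De ^ 2 - 10 * M * De ^ 3 -
            27 * De ^ 4) / (δ ^ 2 * De ^ 4) := by
        field_simp
      rw [e1, e2, I4]
    have hM2 : M = 5 / 2 * De := by
      rw [div_eq_iff hDe0] at hm
      exact hm
    have hβ : β = 8 * J := by
      have h1 : D = -7 / 8 * De ^ 3 := by rw [hD, hM2]; ring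
      rw [h1] at I1
      have h2 : 7 * De ^ 3 * (β - 8 * J) = 0 := by linear_combination (-8) * I1
      have h3 := (mul_eq_zero.1 h2).resolve_left (mul_ne_zero h7 (pow_ne_zero 3 hDe0))
      linear_combination h3
    have hA : α ^ 2 = J / 2 := by
      rw [hDe', hM, hβ] at hM2
      linear_combination hM2
    have h3 : α ^ 3 = J / 2 * α := by rw [← hA]; ring
    have h5 : α ^ 5 = J ^ 2 / 4 * α := by
      have : α ^ 5 = (α ^ 2) ^ 2 * α := by ring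
      rw [this, hA]; ring
    have h77 : α ^ 7 = J ^ 3 / 8 * α := by
      have : α ^ 7 = (α ^ 2) ^ 3 * α := by ring
      rw [this, hA]; ring
    rw [h77, h5, h3, hβ] at hPP
    have h8 : J ^ 3 * (1431 * α - 8 * J) = 0 := by linear_combination 8 * hPP
    have h9 := (mul_eq_zero.1 h8).resolve_left (pow_ne_zero 3 hJ)
    have h10 : J * (2047761 - 128 * J) = 0 := by
      have e1 : (1431 * α) ^ 2 = (8 * J) ^ 2 := by
        rw [show 1431 * α = 8 * J by linear_combination h9]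
      have e2 : (1431 * α) ^ 2 = 2047761 * (J / 2) := by rw [mul_pow, hA]; norm_num
      rw [e2] at e1
      linear_combination 2 * e1
    have h11 := (mul_eq_zero.1 h10).resolve_left hJ
    rw [eq_div_iff (by norm_num)]
    linear_combination -h11

end Pool.Agent.M7
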