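import Pool.Agent.M7.Basic

/-! # The curve `X(e7)`: rational points (helper33)

PROOF. Let `g = 2 τ⁴ - 14 τ³ + 21 τ² + 28 τ + 7`, `y² = 7 g`. Suppose `τ ≠ 0`. Then
`x = (14 y + 98 + 196 τ - 49 τ²)/τ²`, `y₄ = (-686 τ³ + 2058 τ² + 196 τ y + 4116 τ + 196 y + 1372)/τ³`
satisfy `y₄² = x (x² + 294 x - 343)` (`τ⁶`-multiple of the difference `=
(9604 τ² - 38416 τ - 2744 y - 19208) (y² - 7 g)`). By `Pts4` `x = 0`, `2 y = 7 τ² - 28 τ - 14`, and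
`4 y² = 28 g` gives `7 τ⁴ = 0`, contradiction. -/

namespace Pool.Agent.M7

variable {F : Type*} [Field F] [CharZero F]

/-- the rational points of the genus one curve -/
lemma algE_pts (hp : Pts4 F) {τ y : F}
    (hy : y ^ 2 = 7 * (2 * τ ^ 4 - 14 * τ ^ 3 + 21 * τ ^ 2 + 28 * τ + 7)) : τ = 0 := by
  by_contra hτ
  have h2 : τ ^ 2 ≠ 0 := pow_ne_zero 2 hτ
  have h3 : τ ^ 3 ≠ 0 := pow_ne_zero 3 hτ
  have key : (-686 * τ ^ 3 + 2058 * τ ^ 2 + 196 * τ * y + 4116 * τ + 196 * y + 1372) ^ 2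
      - ((14 * y + 98 + 196 * τ - 49 * τ ^ 2) ^ 3
        + 294 * (14 * y + 98 + 196 * τ - 49 * τ ^ 2) ^ 2 * τ ^ 2
        - 343 * (14 * y + 98 + 196 * τ - 49 * τ ^ 2) * τ ^ 4) = 0 := by
    have : (-686 * τ ^ 3 + 2058 * τ ^ 2 + 196 * τ * y + 4116 * τ + 196 * y + 1372) ^ 2
      - ((14 * y + 98 + 196 * τ - 49 * τ ^ 2) ^ 3
        + 294 * (14 * y + 98 + 196 * τ - 49 * τ ^ 2) ^ 2 * τ ^ 2
        - 343 * (14 * y + 98 + 196 * τ - 49 * τ ^ 2) * τ ^ 4)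
      = (9604 * τ ^ 2 - 38416 * τ - 2744 * y - 19208)
        * (y ^ 2 - 7 * (2 * τ ^ 4 - 14 * τ ^ 3 + 21 * τ ^ 2 + 28 * τ + 7)) := by ring
    rw [this, hy, sub_self, mul_zero]
  have hx := hp ((14 * y + 98 + 196 * τ - 49 * τ ^ 2) / τ ^ 2)
    ((-686 * τ ^ 3 + 2058 * τ ^ 2 + 196 * τ * y + 4116 * τ + 196 * y + 1372) / τ ^ 3) (by
      field_simp
      linear_combination key)
  have hX : 14 * y + 98 + 196 * τ - 49 * τ ^ 2 = 0 := by
    rcases div_eq_zero_iff.mp hx with h | h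
    · exact h
    · exact absurd h h2
  have h7 : (7 : F) * (2 * y - (7 * τ ^ 2 - 28 * τ - 14)) = 0 := by linear_combination hX
  have h2y : 2 * y = 7 * τ ^ 2 - 28 * τ - 14 := by
    have := (mul_eq_zero.mp h7).resolve_left (by norm_num)
    exact sub_eq_zero.mp this
  have h4 : (7 : F) * τ ^ 4 = 0 := by
    have e : (2 * y) ^ 2 = 28 * (2 * τ ^ 4 - 14 * τ ^ 3 + 21 * τ ^ 2 + 28 * τ + 7) := by
      linear_combination 4 * hy
    rw [h2y] at e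
    linear_combination -e
  have := (mul_eq_zero.mp h4).resolve_left (by norm_num)
  exact pow_ne_zero 4 hτ this

end Pool.Agent.M7
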