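import Pool.Agent.M7.AlgE1
import Pool.Agent.M7.AlgE2

/-! # The curve `X(e7)`: a factor of degree 4 of the octic (helper33)

Here `G8 J` is the product of `X⁴ + α X³ + β X² + γ X + δ` and `X⁴ - α X³ + β' X² + γ' X + δ'`.

PROOF. Put `A = α²`, `B = (β + β')/2 = (A + 14 J)/2`, `v = (β - β')/2`, `V = v²`, `w = (γ - γ')/2`,
`D = (δ + δ')/2`, `z = (δ - δ')/2`; by `e5` `γ + γ' = 2 α v`.
Case `α = 0`: `γ' = -γ`, `B = 7 J`, `e3`: `v w = 0`, `e1`: `2 w z = J⁴`, so `w ≠ 0`, `v = 0`;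
`e4`: `2 D = 63 J² - 49 J²`, `D = 7 J²`, `e0`: `z² = D² + 7 J⁴ = 56 J⁴`, so `z / (2 J²)` is a square
root of 14, contradiction.
Case `α ≠ 0`: `ω = w/α`. `e4`: `2 D = 63 J² + 2 A ω - B² + V`. `e3` (divide by `2 α`):
`z = v (B - ω)`. `e2`: `V (A + 4 ω - 14 J) = 2 (A ω² + 70 J³ - B (63 J² + 2 A ω - B²))` (E1).
`e0`: `D² - V (B - ω)² + 7 J⁴ = 0` (E2). `e1`: `2 α v (D - ω (B - ω)) = -J⁴` (E3).
With `L = A + 4 ω - 14 J`, `R` the right side of (E1), `L² (E2)` becomes, inserting `V L = R`,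
`-(1/16) F1 Q4 = 0` (verified by computer algebra) where
`F1 = 16 ω² - (6 A + 168 J) ω + A² + 42 A J + 504 J²`,
`Q4 = A⁴ - 2 A³ ω - 36 A² ω² + 8 A ω³ + 14 A³ J + 280 A² ω J - 168 A ω² J - 560 A² J² + 784 A ω J²
 - 1008 A J³ - 224 ω J³ + 672 J⁴`.
(a) `F1 = 0`: `16 F1 = (16 ω - 3 A - 84 J)² + 7 (A + 12 J)²`, so (real embedding) `A = -12 J`,
`ω = 3 J`. Then (E1) reads `-14 J V = -56 J³`, `V = 4 J²`; `2 D = 63 J² - 72 J² - J² + 4 J²`,
`D = -3 J²`; (E3): `6 α v J² = -J⁴`, so `36 A V = J⁴`, `-1728 J³ = J⁴`, `J = -1728`, contradiction.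
(b) `Q4 = 0`. Let `N = 8 ω J - 40 A J + 10 A ω - A²`, `De = 8 J² - 8 A J + 2 A ω - A²`.
If `De = 0`: `8 A³ Q4 = -64 A (A - 2 J)² (A² + 3 A J + 4 J²)²` (mod `2 A ω = A² + 8 A J - 8 J²`); `A ≠ 0`,
`A² + 3 A J + 4 J² ≠ 0` (definite), so `A = 2 J`, `ω = 3 J`; then (E1) is `0 = 0`, `B = 8 J`,
`2 D = 11 J² + V`, (E2): `V² - 78 V J² + 149 J⁴ = 0`, `(V - 39 J²)² = 7 (14 J²)²`: 7 is a square.
If `De ≠ 0`: `τ = N/De`, `c = τ³ - 7 τ² + 7 τ + 7`. Identities (`Q4` as a factor):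
`A (N³ - 7 N² De + 7 N De² + 7 De³) - 28 J (N - 3 De) De² = (-8 A³ - 8 A² J + 16 A J² + 64 J³) Q4`,
`ω (N³ - 7 N² De + 7 N De² + 7 De³) De - J (N⁴ - 28 N² De² + 42 N De³ + 21 De⁴) = C Q4` with
`C = 8 A⁴ ω - 36 A⁴ J - 16 A³ ω² + 152 A³ ω J - 328 A³ J² + 96 A² ω² J - 880 A² ω J² + 2048 A² J³ +
 256 A ω² J² - 1472 A ω J³ + 1600 A J⁴ + 128 ω² J³ - 256 ω J⁴ - 128 J⁵`.
So `A c = 28 (τ - 3) J`, `ω c = (τ⁴ - 28 τ² + 42 τ + 21) J`. `c ≠ 0` (else `τ = 3`, but `c(3) = -8`).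
`c L = 2 (2 τ² - 7 τ + 7) (τ² - 7) J`, not 0 as 7 is no square and `2 τ² - 7 τ + 7` is definite.
(E1) gives `V c² = 28 g J²`, `g = 2 τ⁴ - 14 τ³ + 21 τ² + 28 τ + 7`
(identity: `c³ R = 28 g (c L) J²`-form after inserting `A`, `ω`). `y = v c / (2 J)`: `y² = 7 g`.
By `algE_pts` (AlgE2) `τ = 0`, so `A = -12 J`, `ω = 3 J`, and (a) applies. (Proof of `algE_pts`: if `τ ≠ 0`,
`x = (14 y + 98 + 196 τ - 49 τ²)/τ²`, `y₄ = (-686 τ³ + 2058 τ² + 196 τ y + 4116 τ + 196 y + 1372)/τ³`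
satisfy `y₄² = x (x² + 294 x - 343)` (`τ⁶`-multiple of the difference `=
(9604 τ² - 38416 τ - 2744 y - 19208) (y² - 7 g)`). By `Pts4` `x = 0`, `2 y = 7 τ² - 28 τ - 14`, and
`4 y² = 28 g` gives `7 τ⁴ = 0`, contradiction. -/


namespace Pool.Agent.M7

variable {F : Type*} [Field F] [CharZero F]

/-- the common end of the two cases -/
private lemma coreE_end {J α ω v : F} (hJ : J ≠ 0) (hJ' : J ≠ -1728) (hA : α ^ 2 = -12 * J)
    (hω : ω = 3 * J)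
    (h1 : v ^ 2 * (α ^ 2 + 4 * ω - 14 * J) = 2 * (α ^ 2 * ω ^ 2 + 70 * J ^ 3 -
      (α ^ 2 + 14 * J) / 2 * (63 * J ^ 2 + 2 * α ^ 2 * ω - ((α ^ 2 + 14 * J) / 2) ^ 2)))
    (h3 : 2 * α * v * ((63 * J ^ 2 + 2 * α ^ 2 * ω - ((α ^ 2 + 14 * J) / 2) ^ 2 + v ^ 2) / 2 -
      ω * ((α ^ 2 + 14 * J) / 2 - ω)) = -J ^ 4) : False := by
  rw [hA, hω] at h1 h3
  have hV : v ^ 2 = 4 * J ^ 2 := by
    have h4 : (-14 * J) * v ^ 2 = (-14 * J) * (4 * J ^ 2) := by linear_combination h1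
    exact mul_left_cancel₀ (mul_ne_zero (by norm_num) hJ) h4
  rw [hV] at h3
  have h5 : J ^ 2 * (6 * (α * v)) = J ^ 2 * (-J ^ 2) := by linear_combination h3
  have h6 : 6 * (α * v) = -J ^ 2 := mul_left_cancel₀ (pow_ne_zero 2 hJ) h5
  have h7 : 36 * (α ^ 2 * v ^ 2) = J ^ 4 := by linear_combination (6 * (α * v) - J ^ 2) * h6
  rw [hA, hV] at h7
  have h8 : J ^ 3 * J = J ^ 3 * (-1728) := by linear_combination -h7
  exact hJ' (mul_left_cancel₀ (pow_ne_zero 3 hJ) h8)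

theorem coreE (hp : Pts4 F) (φ : F →+* ℝ) (h7 : ∀ z : F, z ^ 2 ≠ 7) (h14 : ∀ z : F, z ^ 2 ≠ 14)
    {J α β γ δ β' γ' δ' : F} (hJ : J ≠ 0) (hJ' : J ≠ -1728)
    (e6 : β + β' - α ^ 2 = 14 * J) (e5 : γ + γ' + α * β' - α * β = 0)
    (e4 : δ + δ' + α * γ' - α * γ + β * β' = 63 * J ^ 2)
    (e3 : α * δ' - α * δ + β * γ' + γ * β' = 0)
    (e2 : β * δ' + β' * δ + γ * γ' = 70 * J ^ 3)
    (e1 : γ * δ' + γ' * δ = -J ^ 4) (e0 : δ * δ' = -7 * J ^ 4) : False := by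
  obtain ⟨v, hv⟩ : ∃ v : F, v = (β - β') / 2 := ⟨_, rfl⟩
  obtain ⟨w, hw⟩ : ∃ w : F, w = (γ - γ') / 2 := ⟨_, rfl⟩
  obtain ⟨D, hD⟩ : ∃ D : F, D = (δ + δ') / 2 := ⟨_, rfl⟩
  obtain ⟨z, hz⟩ : ∃ z : F, z = (δ - δ') / 2 := ⟨_, rfl⟩
  obtain ⟨B, hB⟩ : ∃ B : F, B = (α ^ 2 + 14 * J) / 2 := ⟨_, rfl⟩
  have b1 : β = B + v := by
    rw [hB, hv]
    linear_combination (1 / 2) * e6
  have b2 : β' = B - v := by
    rw [hB, hv]
    linear_combination (1 / 2) * e6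
  have g1 : γ = α * v + w := by
    rw [hv, hw]
    linear_combination (1 / 2) * e5
  have g2 : γ' = α * v - w := by
    rw [hv, hw]
    linear_combination (1 / 2) * e5
  have d1 : δ = D + z := by
    rw [hD, hz]
    ring
  have d2 : δ' = D - z := by
    rw [hD, hz]
    ring
  clear hv hw hD hz
  subst b1 b2 g1 g2 d1 d2
  have f4 : 2 * D = 63 * J ^ 2 + 2 * α * w - B ^ 2 + v ^ 2 := by linear_combination e4
  have f3 : -2 * α * z + 2 * α * v * B - 2 * v * w = 0 := by linear_combination e3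
  have f2 : 2 * B * D - 2 * v * z + α ^ 2 * v ^ 2 - w ^ 2 = 70 * J ^ 3 := by linear_combination e2
  have f1 : 2 * α * v * D - 2 * w * z = -J ^ 4 := by linear_combination e1
  have f0 : D ^ 2 - z ^ 2 = -7 * J ^ 4 := by linear_combination e0
  clear e0 e1 e2 e3 e4 e5 e6
  have hJ4 : J ^ 4 ≠ 0 := pow_ne_zero 4 hJ
  by_cases hα : α = 0
  · subst hα
    have i1 : 2 * w * z = J ^ 4 := by linear_combination -f1
    have hw0 : w ≠ 0 := by
      rintro rfl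
      apply hJ4
      rw [← i1]
      ring
    have i2 : w * v = w * 0 := by linear_combination (-1 / 2) * f3
    have i3 : v = 0 := mul_left_cancel₀ hw0 i2
    subst i3
    have i4 : B = 7 * J := by
      rw [hB]
      ring
    subst i4
    have i5 : D = 7 * J ^ 2 := by linear_combination (1 / 2) * f4
    subst i5
    have i6 : z ^ 2 = 56 * J ^ 4 := by linear_combination -f0
    apply h14 (z / (2 * J ^ 2))
    rw [div_pow, i6]
    field_simp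
    ring
  · obtain ⟨ω, rfl⟩ : ∃ ω : F, w = α * ω := ⟨w / α, by field_simp⟩
    have i1 : z = v * (B - ω) := by
      have : (2 * α) * z = (2 * α) * (v * (B - ω)) := by linear_combination -f3
      exact mul_left_cancel₀ (mul_ne_zero two_ne_zero hα) this
    subst i1
    have i2 : D = (63 * J ^ 2 + 2 * α ^ 2 * ω - B ^ 2 + v ^ 2) / 2 := by
      linear_combination (1 / 2) * f4
    subst i2
    subst hB
    have h1 : v ^ 2 * (α ^ 2 + 4 * ω - 14 * J) = 2 * (α ^ 2 * ω ^ 2 + 70 * J ^ 3 -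
        (α ^ 2 + 14 * J) / 2 * (63 * J ^ 2 + 2 * α ^ 2 * ω - ((α ^ 2 + 14 * J) / 2) ^ 2)) := by
      linear_combination 2 * f2
    have h2 : ((63 * J ^ 2 + 2 * α ^ 2 * ω - ((α ^ 2 + 14 * J) / 2) ^ 2 + v ^ 2) / 2) ^ 2 -
        v ^ 2 * ((α ^ 2 + 14 * J) / 2 - ω) ^ 2 + 7 * J ^ 4 = 0 := by
      linear_combination f0
    have h3 : 2 * α * v * ((63 * J ^ 2 + 2 * α ^ 2 * ω - ((α ^ 2 + 14 * J) / 2) ^ 2 + v ^ 2) / 2 -
        ω * ((α ^ 2 + 14 * J) / 2 - ω)) = -J ^ 4 := by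
      linear_combination f1
    have hA : α ^ 2 ≠ 0 := pow_ne_zero 2 hα
    rcases algE_elim hA h1 h2 with h4 | h4
    · -- `F1 = 0`
      have k1 : (16 * ω - 3 * α ^ 2 - 84 * J) ^ 2 + 7 * (α ^ 2 + 12 * J) ^ 2 = 0 := by
        linear_combination 16 * h4
      have k2 : φ (16 * ω - 3 * α ^ 2 - 84 * J) ^ 2 + 7 * φ (α ^ 2 + 12 * J) ^ 2 = 0 := by
        have := congrArg φ k1
        rw [map_add, map_pow, map_mul, map_pow, map_zero, map_ofNat] at this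
        exact this
      have k3 : φ (α ^ 2 + 12 * J) ^ 2 = 0 := by
        nlinarith [sq_nonneg (φ (16 * ω - 3 * α ^ 2 - 84 * J)), sq_nonneg (φ (α ^ 2 + 12 * J))]
      have k4 : φ (16 * ω - 3 * α ^ 2 - 84 * J) ^ 2 = 0 := by
        rw [k3] at k2
        linarith
      have k5 : α ^ 2 + 12 * J = 0 := (map_eq_zero φ).mp (pow_eq_zero_iff two_ne_zero |>.mp k3)
      have k6 : 16 * ω - 3 * α ^ 2 - 84 * J = 0 :=
        (map_eq_zero φ).mp (pow_eq_zero_iff two_ne_zero |>.mp k4)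
      have k7 : α ^ 2 = -12 * J := by linear_combination k5
      have k8 : ω = 3 * J := by linear_combination (1 / 16) * k6 + (3 / 16) * k5
      exact coreE_end hJ hJ' k7 k8 h1 h3
    · -- `Q4 = 0`
      obtain ⟨τ, c, hc, hc0, hAc, hωc, hVc⟩ := algE_tau φ h7 hA hJ h1 h2 h4
      have k1 : (v * c / (2 * J)) ^ 2 =
          7 * (2 * τ ^ 4 - 14 * τ ^ 3 + 21 * τ ^ 2 + 28 * τ + 7) := by
        rw [div_pow, mul_pow, hVc]
        field_simp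
        ring
      have k2 := algE_pts hp k1
      subst k2
      have k3 : c = 7 := by
        rw [hc]
        ring
      subst k3
      have k7 : α ^ 2 = -12 * J := by linear_combination (1 / 7) * hAc
      have k8 : ω = 3 * J := by linear_combination (1 / 7) * hωc
      exact coreE_end hJ hJ' k7 k8 h1 h3

end Pool.Agent.M7
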