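import Pool.Agent.M7.Basic

/-! # The curve `X(e7)`: elimination and parametrisation (helper33)

The proofs of `algE_elim` and `algE_tau` are parts of the PROOF in the header of
`Pool/Agent/M7/AlgE.lean` (the paragraphs before (a), and (b)). -/

namespace Pool.Agent.M7

variable {F : Type*} [Field F] [CharZero F]

/-- elimination of `V` -/
lemma algE_elim {A w V J : F} (hA : A ≠ 0)
    (h1 : V * (A + 4 * w - 14 * J) = 2 * (A * w ^ 2 + 70 * J ^ 3 -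
      (A + 14 * J) / 2 * (63 * J ^ 2 + 2 * A * w - ((A + 14 * J) / 2) ^ 2)))
    (h2 : ((63 * J ^ 2 + 2 * A * w - ((A + 14 * J) / 2) ^ 2 + V) / 2) ^ 2 -
      V * ((A + 14 * J) / 2 - w) ^ 2 + 7 * J ^ 4 = 0) :
    16 * w ^ 2 - (6 * A + 168 * J) * w + A ^ 2 + 42 * A * J + 504 * J ^ 2 = 0 ∨
    A ^ 4 - 2 * A ^ 3 * w - 36 * A ^ 2 * w ^ 2 + 8 * A * w ^ 3 + 14 * A ^ 3 * J +
      280 * A ^ 2 * w * J - 168 * A * w ^ 2 * J - 560 * A ^ 2 * J ^ 2 + 784 * A * w * J ^ 2 -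
      1008 * A * J ^ 3 - 224 * w * J ^ 3 + 672 * J ^ 4 = 0 := by
  rw [← mul_eq_zero]
  linear_combination (-16 * (A + 4 * w - 14 * J) ^ 2) * h2 +
    (16 * ((2 * (63 * J ^ 2 + 2 * A * w - ((A + 14 * J) / 2) ^ 2) * (A + 4 * w - 14 * J) +
      V * (A + 4 * w - 14 * J) + 2 * (A * w ^ 2 + 70 * J ^ 3 -
      (A + 14 * J) / 2 * (63 * J ^ 2 + 2 * A * w - ((A + 14 * J) / 2) ^ 2))) / 4 -
      (A + 4 * w - 14 * J) * ((A + 14 * J) / 2 - w) ^ 2)) * h1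

lemma algE_def1 (φ : F →+* ℝ) {A J : F} (hJ : J ≠ 0) : A ^ 2 + 3 * A * J + 4 * J ^ 2 ≠ 0 := by
  intro h
  have h1 := congrArg φ h
  simp only [map_add, map_mul, map_pow, map_ofNat, map_zero] at h1
  have h2 : φ J ≠ 0 := (map_ne_zero φ).mpr hJ
  have h3 : 0 < φ J ^ 2 := by positivity
  nlinarith [sq_nonneg (2 * φ A + 3 * φ J)]

lemma algE_def2 (φ : F →+* ℝ) (τ : F) : 2 * τ ^ 2 - 7 * τ + 7 ≠ 0 := by
  intro h
  have h1 := congrArg φ h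
  simp only [map_add, map_sub, map_mul, map_pow, map_ofNat, map_zero] at h1
  nlinarith [sq_nonneg (4 * φ τ - 7)]

/-- the denominator does not vanish -/
lemma algE_den (φ : F →+* ℝ) (h7 : ∀ z : F, z ^ 2 ≠ 7) {A w V J : F} (hA : A ≠ 0) (hJ : J ≠ 0)
    (h2 : ((63 * J ^ 2 + 2 * A * w - ((A + 14 * J) / 2) ^ 2 + V) / 2) ^ 2 -
      V * ((A + 14 * J) / 2 - w) ^ 2 + 7 * J ^ 4 = 0)
    (h3 : A ^ 4 - 2 * A ^ 3 * w - 36 * A ^ 2 * w ^ 2 + 8 * A * w ^ 3 + 14 * A ^ 3 * J +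
      280 * A ^ 2 * w * J - 168 * A * w ^ 2 * J - 560 * A ^ 2 * J ^ 2 + 784 * A * w * J ^ 2 -
      1008 * A * J ^ 3 - 224 * w * J ^ 3 + 672 * J ^ 4 = 0) :
    8 * J ^ 2 - 8 * A * J + 2 * A * w - A ^ 2 ≠ 0 := by
  intro hD
  have e1 : 64 * A * ((A - 2 * J) * (A ^ 2 + 3 * A * J + 4 * J ^ 2)) ^ 2 = 0 := by
    linear_combination (512 * A * J ^ 4 - 128 * A ^ 2 * J ^ 2 * w + 768 * A ^ 2 * J ^ 3 -
      544 * A ^ 3 * J * w + 1408 * A ^ 3 * J ^ 2 + 32 * A ^ 3 * w ^ 2 + 336 * A ^ 4 * J -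
      128 * A ^ 4 * w - 72 * A ^ 5) * hD - (8 * A ^ 3) * h3
  have e2 : (A - 2 * J) * (A ^ 2 + 3 * A * J + 4 * J ^ 2) = 0 := by
    rcases mul_eq_zero.mp e1 with h | h
    · rcases mul_eq_zero.mp h with h | h
      · norm_num at h
      · exact absurd h hA
    · exact (pow_eq_zero_iff two_ne_zero).mp h
  have e3 : A - 2 * J = 0 := (mul_eq_zero.mp e2).resolve_right (algE_def1 φ hJ)
  have e4 : A = 2 * J := sub_eq_zero.mp e3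
  subst e4
  have e5 : w = 3 * J := by
    have : (4 * J) * (w - 3 * J) = 0 := by linear_combination hD
    rcases mul_eq_zero.mp this with h | h
    · rcases mul_eq_zero.mp h with h | h
      · norm_num at h
      · exact absurd h hJ
    · exact sub_eq_zero.mp h
  subst e5
  apply h7 ((V - 39 * J ^ 2) / (14 * J ^ 2))
  have hJ2 : (14 * J ^ 2) ^ 2 ≠ 0 := by
    apply pow_ne_zero
    exact mul_ne_zero (by norm_num) (pow_ne_zero 2 hJ)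
  rw [div_pow, div_eq_iff hJ2]
  linear_combination 4 * h2

/-- the two conditions in the case `Q4 = 0` -/
lemma algE_tau (φ : F →+* ℝ) (h7 : ∀ z : F, z ^ 2 ≠ 7) {A w V J : F} (hA : A ≠ 0) (hJ : J ≠ 0)
    (h1 : V * (A + 4 * w - 14 * J) = 2 * (A * w ^ 2 + 70 * J ^ 3 -
      (A + 14 * J) / 2 * (63 * J ^ 2 + 2 * A * w - ((A + 14 * J) / 2) ^ 2)))
    (h2 : ((63 * J ^ 2 + 2 * A * w - ((A + 14 * J) / 2) ^ 2 + V) / 2) ^ 2 -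
      V * ((A + 14 * J) / 2 - w) ^ 2 + 7 * J ^ 4 = 0)
    (h3 : A ^ 4 - 2 * A ^ 3 * w - 36 * A ^ 2 * w ^ 2 + 8 * A * w ^ 3 + 14 * A ^ 3 * J +
      280 * A ^ 2 * w * J - 168 * A * w ^ 2 * J - 560 * A ^ 2 * J ^ 2 + 784 * A * w * J ^ 2 -
      1008 * A * J ^ 3 - 224 * w * J ^ 3 + 672 * J ^ 4 = 0) :
    ∃ τ c : F, c = τ ^ 3 - 7 * τ ^ 2 + 7 * τ + 7 ∧ c ≠ 0 ∧ A * c = 28 * (τ - 3) * J ∧
      w * c = (τ ^ 4 - 28 * τ ^ 2 + 42 * τ + 21) * J ∧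
      V * c ^ 2 = 28 * (2 * τ ^ 4 - 14 * τ ^ 3 + 21 * τ ^ 2 + 28 * τ + 7) * J ^ 2 := by
  have hD := algE_den φ h7 hA hJ h2 h3
  obtain ⟨D, hDe⟩ : ∃ D, D = 8 * J ^ 2 - 8 * A * J + 2 * A * w - A ^ 2 := ⟨_, rfl⟩
  obtain ⟨N, hNe⟩ : ∃ N, N = 8 * w * J - 40 * A * J + 10 * A * w - A ^ 2 := ⟨_, rfl⟩
  rw [← hDe] at hD
  obtain ⟨τ, hτ⟩ : ∃ τ, τ = N / D := ⟨_, rfl⟩
  have hN : N = τ * D := by rw [hτ]; field_simp
  have i1 : A * (N ^ 3 - 7 * N ^ 2 * D + 7 * N * D ^ 2 + 7 * D ^ 3) -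
      28 * J * (N - 3 * D) * D ^ 2 = 0 := by
    have e : A * (N ^ 3 - 7 * N ^ 2 * D + 7 * N * D ^ 2 + 7 * D ^ 3) -
      28 * J * (N - 3 * D) * D ^ 2 = (-8 * A ^ 3 - 8 * A ^ 2 * J + 16 * A * J ^ 2 + 64 * J ^ 3) *
      (A ^ 4 - 2 * A ^ 3 * w - 36 * A ^ 2 * w ^ 2 + 8 * A * w ^ 3 + 14 * A ^ 3 * J +
      280 * A ^ 2 * w * J - 168 * A * w ^ 2 * J - 560 * A ^ 2 * J ^ 2 + 784 * A * w * J ^ 2 -
      1008 * A * J ^ 3 - 224 * w * J ^ 3 + 672 * J ^ 4) := by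
      rw [hNe, hDe]; ring
    rw [e, h3, mul_zero]
  have i2 : w * (N ^ 3 - 7 * N ^ 2 * D + 7 * N * D ^ 2 + 7 * D ^ 3) * D -
      J * (N ^ 4 - 28 * N ^ 2 * D ^ 2 + 42 * N * D ^ 3 + 21 * D ^ 4) = 0 := by
    have e : w * (N ^ 3 - 7 * N ^ 2 * D + 7 * N * D ^ 2 + 7 * D ^ 3) * D -
      J * (N ^ 4 - 28 * N ^ 2 * D ^ 2 + 42 * N * D ^ 3 + 21 * D ^ 4) =
      (8 * A ^ 4 * w - 36 * A ^ 4 * J - 16 * A ^ 3 * w ^ 2 + 152 * A ^ 3 * w * J -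
      328 * A ^ 3 * J ^ 2 + 96 * A ^ 2 * w ^ 2 * J - 880 * A ^ 2 * w * J ^ 2 +
      2048 * A ^ 2 * J ^ 3 + 256 * A * w ^ 2 * J ^ 2 - 1472 * A * w * J ^ 3 + 1600 * A * J ^ 4 +
      128 * w ^ 2 * J ^ 3 - 256 * w * J ^ 4 - 128 * J ^ 5) *
      (A ^ 4 - 2 * A ^ 3 * w - 36 * A ^ 2 * w ^ 2 + 8 * A * w ^ 3 + 14 * A ^ 3 * J +
      280 * A ^ 2 * w * J - 168 * A * w ^ 2 * J - 560 * A ^ 2 * J ^ 2 + 784 * A * w * J ^ 2 -
      1008 * A * J ^ 3 - 224 * w * J ^ 3 + 672 * J ^ 4) := by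
      rw [hNe, hDe]; ring
    rw [e, h3, mul_zero]
  rw [hN] at i1 i2
  have hAc : A * (τ ^ 3 - 7 * τ ^ 2 + 7 * τ + 7) = 28 * (τ - 3) * J := by
    apply mul_right_cancel₀ (pow_ne_zero 3 hD)
    linear_combination i1
  have hwc : w * (τ ^ 3 - 7 * τ ^ 2 + 7 * τ + 7) = (τ ^ 4 - 28 * τ ^ 2 + 42 * τ + 21) * J := by
    apply mul_right_cancel₀ (pow_ne_zero 4 hD)
    linear_combination i2
  obtain ⟨c, hc⟩ : ∃ c, c = τ ^ 3 - 7 * τ ^ 2 + 7 * τ + 7 := ⟨_, rfl⟩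
  rw [← hc] at hAc hwc
  have hc0 : c ≠ 0 := by
    intro h0
    rw [h0, mul_zero] at hAc
    have h4 : τ - 3 = 0 := by
      rcases mul_eq_zero.mp hAc.symm with h | h
      · rcases mul_eq_zero.mp h with h | h
        · norm_num at h
        · exact h
      · exact absurd h hJ
    have h5 : τ = 3 := sub_eq_zero.mp h4
    rw [h5, h0] at hc
    norm_num at hc
  refine ⟨τ, c, hc, hc0, hAc, hwc, ?_⟩
  have hL : c * (A + 4 * w - 14 * J) = 2 * (2 * τ ^ 2 - 7 * τ + 7) * (τ ^ 2 - 7) * J := by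
    have e : c * (A + 4 * w - 14 * J) = A * c + 4 * (w * c) - 14 * c * J := by ring
    rw [e, hAc, hwc, hc]
    ring
  have hL0 : c * (A + 4 * w - 14 * J) ≠ 0 := by
    rw [hL]
    refine mul_ne_zero (mul_ne_zero (mul_ne_zero two_ne_zero (algE_def2 φ τ)) ?_) hJ
    intro h
    exact h7 τ (sub_eq_zero.mp h)
  apply mul_right_cancel₀ hL0
  have e1 : V * c ^ 2 * (c * (A + 4 * w - 14 * J)) = 2 * ((A * c) * (w * c) ^ 2 + 70 * (J * c) ^ 3 -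
      ((A * c) + 14 * (J * c)) / 2 * (63 * (J * c) ^ 2 + 2 * (A * c) * (w * c) -
        (((A * c) + 14 * (J * c)) / 2) ^ 2)) := by
    linear_combination c ^ 3 * h1
  rw [e1, hL, hAc, hwc, hc]
  ring

end Pool.Agent.M7
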