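import Pool.Agent.M7.Basic

/-! # The curve `X(s3, b7)` (helper33)

`t` is a point of `X₀(7)`, `m` with `m³ = j`, `m² + 12 m + 144 = g²` a point of `X(s3)`.

PROOF. `a = aa t ≠ 0` (as `j ≠ 0`), `κ = m/a`: `κ³ t = j t/a³ = uu t` (`hκ`). `g ≠ 0`
(`m² + 12 m + 144` is positive in the real embedding). `w = bb t/g`: `bb t² = t (j - 1728) =
t (m - 12) g²`, so `w² = t (κ a - 12)`, `w ≠ 0` as `j ≠ 1728`.
`S = κ³ - 13`: `t² - S t + 49 = 0`, `(2 t - S)² = S² - 196 = (κ³ - 27) (κ³ + 1)`; in the real embedding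
(`κ² + 3 κ + 9`, `κ² - κ + 1` positive) `(κ - 3) (κ + 1) ≥ 0`: `κ ≥ 3` or `κ ≤ -1` (`hreal`).
`n = 7 (κ⁴ - 6 κ³ - 18 κ² + 4 κ - 12)`, `h₂ = κ³ - κ² - 2 κ - 6`, `q = κ⁴ + 2 κ³ + 7 κ² - 6 κ + 9`.
Identities modulo `hκ`: `n² t² = 49 (κ a - 12) (κ (2401 + 245 t + t²) - 12 t²)`; so with `w' = n/w`:
`w'² = n²/(t (κ a - 12)) = 49 (κ (2401 + 245 t + t²) - 12 t²)/t³`, and
`w² + w'² = κ (S³ - 147 S + 5 S² - 490 + S) - 12 S`,
`w² + w'² - 2 n = h₂² q` (identity in `κ`). So `(w - w')² = h₂² q`.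
`h₂ ≠ 0`: otherwise (real embedding) `2 < κ < 3` (for `κ ≥ 3`: `h₂ = (κ - 3) (κ² + 2 κ + 4) + 6 > 0`; for
`κ ≤ -1`: `h₂ = κ (κ - 2) (κ + 1) - 6 < 0`). `s = (w - w')/h₂`, `s² = q`.
`s3_pts`: `κ ≠ 0`, `x₀ = (6 (s + 3) - 6 κ)/κ²`, `X = x₀ - 6`,
`Y = (36 (s + 3) - 36 κ + 36 κ²)/κ³ - x₀ + 6` satisfy `Y² = X (X + 9) (X + 16) =
(x₀ - 6) (x₀ + 3) (x₀ + 10)`; elimination of `s` (`6 s = x₀ κ² + 6 κ - 18`, divide by `κ²`):
`(x₀² - 36) κ² + 12 (x₀ - 6) κ - 36 (x₀ + 6) = 0`. `X = 0`: `-432 = 0`; `X = -9`: `(κ + 2)² = 0`;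
`X = -16`: `(2 κ - 3)² = 0`; `X = 12`: `(2 κ - 3) (κ + 2) = 0`; `X = -12`: `κ = 0`. So `κ = -2` or
`κ = 3/2`; `κ = 3/2` contradicts `hreal`.
`κ = -2`: `t² + 21 t + 49 = 0`, `s = (2 t + 21)/7`, `s² = 5`, `a = -16 (t + 3)`, `m = 32 (t + 3)`,
`j = m³ = 32768 (t + 3)³ = -58982400 + 26378240 s` with `t = (7 s - 21)/2`. -/

namespace Pool.Agent.M7

variable {F : Type*} [Field F] [CharZero F]

lemma s3_pts (hp : Pts21 F) {k s : F} (hk : k ≠ 0)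
    (hs : s ^ 2 = k ^ 4 + 2 * k ^ 3 + 7 * k ^ 2 - 6 * k + 9) : k = -2 ∨ k = 3 / 2 := by
  have key : ((36 * (s + 3) - 36 * k + 36 * k ^ 2 - (6 * (s + 3) - 6 * k) * k + 6 * k ^ 3) /
      k ^ 3) ^ 2 = (6 * (s + 3) - 6 * k - 6 * k ^ 2) / k ^ 2 *
      ((6 * (s + 3) - 6 * k - 6 * k ^ 2) / k ^ 2 + 9) *
      ((6 * (s + 3) - 6 * k - 6 * k ^ 2) / k ^ 2 + 16) := by
    have e1 : (6 * (s + 3) - 6 * k - 6 * k ^ 2) / k ^ 2 + 9 =
        (6 * (s + 3) - 6 * k - 6 * k ^ 2 + 9 * k ^ 2) / k ^ 2 := by field_simp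
    have e2 : (6 * (s + 3) - 6 * k - 6 * k ^ 2) / k ^ 2 + 16 =
        (6 * (s + 3) - 6 * k - 6 * k ^ 2 + 16 * k ^ 2) / k ^ 2 := by field_simp
    rw [e1, e2, div_pow, div_mul_div_comm, div_mul_div_comm, ← pow_mul]
    have e3 : k ^ 2 * k ^ 2 * k ^ 2 = k ^ (3 * 2) := by ring
    rw [e3]
    congr 1
    linear_combination (-216 * k ^ 2 + 216 * k - 216 * s - 648) * hs
  have hk2 : k ^ 2 ≠ 0 := pow_ne_zero 2 hk
  have h6 : ∀ c : F, (6 * (s + 3) - 6 * k - 6 * k ^ 2) / k ^ 2 = c →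
      6 * s = (c + 6) * k ^ 2 + 6 * k - 18 := by
    intro c hc
    rw [div_eq_iff hk2] at hc
    linear_combination hc
  have hz : ∀ x z : F, x * z = 0 → x ≠ 0 → z = 0 := fun x z h hx => (mul_eq_zero.1 h).resolve_left hx
  have n27 : (27 : F) ≠ 0 := by norm_num
  rcases hp _ _ key with h | h | h | h | h
  · exfalso
    have h1 := h6 _ h
    have h2 : (12 * 36 : F) * k ^ 2 = 0 := by
      linear_combination (6 * s + ((0 + 6) * k ^ 2 + 6 * k - 18)) * h1 - 36 * hs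
    rcases mul_eq_zero.1 h2 with h3 | h3
    · norm_num at h3
    · exact hk2 h3
  · left
    have h1 := h6 _ h
    have h2 : k ^ 2 * (27 * (k + 2) ^ 2) = 0 := by
      linear_combination (6 * s + ((-9 + 6) * k ^ 2 + 6 * k - 18)) * h1 - 36 * hs
    have h3 := hz _ _ (hz _ _ h2 hk2) n27
    have h4 := pow_eq_zero_iff (two_ne_zero) |>.1 h3
    linear_combination h4
  · right
    have h1 := h6 _ h
    have h2 : k ^ 2 * (16 * (2 * k - 3) ^ 2) = 0 := by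
      linear_combination -(6 * s + ((-16 + 6) * k ^ 2 + 6 * k - 18)) * h1 + 36 * hs
    have h3 := hz _ _ (hz _ _ h2 hk2) (by norm_num)
    have h4 := pow_eq_zero_iff (two_ne_zero) |>.1 h3
    linear_combination h4 / 2
  · have h1 := h6 _ h
    have h2 : k ^ 2 * (144 * ((2 * k - 3) * (k + 2))) = 0 := by
      linear_combination -(6 * s + ((12 + 6) * k ^ 2 + 6 * k - 18)) * h1 + 36 * hs
    have h3 := hz _ _ (hz _ _ h2 hk2) (by norm_num)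
    rcases mul_eq_zero.1 h3 with h4 | h4
    · right; linear_combination h4 / 2
    · left; linear_combination h4
  · exfalso
    have h1 := h6 _ h
    have h2 : k ^ 2 * (144 * k) = 0 := by
      linear_combination (6 * s + ((-12 + 6) * k ^ 2 + 6 * k - 18)) * h1 - 36 * hs
    have h3 := hz _ _ (hz _ _ h2 hk2) (by norm_num)
    exact hk h3

/-- the real embedding: `κ ≥ 3` or `κ ≤ -1` -/
lemma s3_real {κ τ : ℝ} (hk : κ ^ 3 * τ = uu τ) : 3 ≤ κ ∨ κ ≤ -1 := by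
  unfold uu at hk
  by_contra hcon
  push Not at hcon
  obtain ⟨h3, h1⟩ := hcon
  have h4 : (2 * τ - (κ ^ 3 - 13)) ^ 2 = (κ - 3) * (κ + 1) * ((κ ^ 2 + 3 * κ + 9) * (κ ^ 2 - κ + 1)) := by
    linear_combination (-4) * hk
  have h5 : 0 < (κ ^ 2 + 3 * κ + 9) * (κ ^ 2 - κ + 1) := by
    have h6 : 0 < κ ^ 2 + 3 * κ + 9 := by nlinarith [sq_nonneg (2 * κ + 3)]
    have h7 : 0 < κ ^ 2 - κ + 1 := by nlinarith [sq_nonneg (2 * κ - 1)]
    exact mul_pos h6 h7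
  have h6 : (κ - 3) * (κ + 1) < 0 := mul_neg_of_neg_of_pos (by linarith) (by linarith)
  have h7 := mul_neg_of_neg_of_pos h6 h5
  have h8 := sq_nonneg (2 * τ - (κ ^ 3 - 13))
  linarith

lemma map_uu' (φ : F →+* ℝ) (t : F) : φ (uu t) = uu (φ t) := by
  simp only [uu, map_add, map_mul, map_pow, map_ofNat]

/-- the element `s` -/
lemma s3_s (φ : F →+* ℝ) {k t w : F} (hw : w ≠ 0) (hk : k ^ 3 * t = uu t)
    (hwt : w ^ 2 = t * (k * aa t - 12)) :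
    ∃ s : F, s ^ 2 = k ^ 4 + 2 * k ^ 3 + 7 * k ^ 2 - 6 * k + 9 := by
  have hr : 3 ≤ φ k ∨ φ k ≤ -1 := by
    apply s3_real (τ := φ t)
    rw [← map_uu', ← hk, map_mul, map_pow]
  have hh : k ^ 3 - k ^ 2 - 2 * k - 6 ≠ 0 := by
    intro h
    have h1 : (φ k) ^ 3 - (φ k) ^ 2 - 2 * φ k - 6 = 0 := by
      have := congrArg φ h
      simpa only [map_sub, map_mul, map_pow, map_ofNat, map_zero] using this
    rcases hr with h2 | h2
    · nlinarith [mul_nonneg (sub_nonneg.2 h2) (by nlinarith : (0 : ℝ) ≤ φ k ^ 2 + 2 * φ k + 4)]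
    · have h3 : 0 ≤ φ k * (φ k - 2) := mul_nonneg_of_nonpos_of_nonpos (by linarith) (by linarith)
      have h4 : φ k * (φ k - 2) * (φ k + 1) ≤ 0 := mul_nonpos_of_nonneg_of_nonpos h3 (by linarith)
      nlinarith
  refine ⟨(w ^ 2 - 7 * (k ^ 4 - 6 * k ^ 3 - 18 * k ^ 2 + 4 * k - 12)) /
    (w * (k ^ 3 - k ^ 2 - 2 * k - 6)), ?_⟩
  rw [div_pow, div_eq_iff (pow_ne_zero 2 (mul_ne_zero hw hh)), mul_pow, hwt]
  unfold uu at hk
  unfold aa
  linear_combination (-k ^ 8 * t ^ 2 - 5 * k ^ 8 * t - k ^ 8 + 12 * k ^ 7 - k ^ 5 * t ^ 3 +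
    16 * k ^ 5 * t ^ 2 + 55 * k ^ 5 * t - 224 * k ^ 5 + 12 * k ^ 4 * t - 252 * k ^ 4 -
    k ^ 2 * t ^ 4 + 3 * k ^ 2 * t ^ 3 - 17 * k ^ 2 * t ^ 2 + 120 * k ^ 2 * t - 448 * k ^ 2 +
    24 * k * t ^ 2 - 36 * k * t + 96 * k - 144) * hk

theorem coreS3 (hp : Pts21 F) (φ : F →+* ℝ) {t m g j : F} (h0 : j ≠ 0) (h1728 : j ≠ 1728)
    (hj : j * t = uu t * aa t ^ 3) (hm : m ^ 3 = j) (hg : g ^ 2 = m ^ 2 + 12 * m + 144) :
    ∃ s : F, s ^ 2 = 5 ∧ j = -58982400 + 26378240 * s := by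
  have ht : t ≠ 0 := by
    rintro rfl
    simp [uu, aa] at hj
  have ha : aa t ≠ 0 := by
    intro h
    rw [h, zero_pow three_ne_zero, mul_zero] at hj
    exact (mul_ne_zero h0 ht) hj
  have hm0 : m ≠ 0 := by
    rintro rfl
    exact h0 (by rw [← hm]; ring)
  have hg0 : g ≠ 0 := by
    rintro rfl
    have h1 := congrArg φ hg
    simp only [map_add, map_mul, map_pow, map_zero, map_ofNat] at h1
    nlinarith [sq_nonneg (φ m + 6)]
  have hκ : (m / aa t) ^ 3 * t = uu t := by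
    rw [div_pow, div_mul_eq_mul_div, div_eq_iff (pow_ne_zero 3 ha), hm, hj]
  have hbb : bb t ^ 2 = t * (m - 12) * g ^ 2 := by
    rw [← uu_aa_bb, ← hj, hg, ← hm]; ring
  have hw0 : bb t / g ≠ 0 := by
    apply div_ne_zero _ hg0
    intro hb
    rw [hb, zero_pow two_ne_zero] at hbb
    rcases mul_eq_zero.1 hbb.symm with h | h
    · rcases mul_eq_zero.1 h with h | h
      · exact ht h
      · apply h1728
        rw [← hm]
        have : m = 12 := by linear_combination h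
        rw [this]; norm_num
    · exact (pow_ne_zero 2 hg0) h
  have hwt : (bb t / g) ^ 2 = t * (m / aa t * aa t - 12) := by
    rw [div_mul_cancel₀ _ ha, div_pow, div_eq_iff (pow_ne_zero 2 hg0), hbb]
  obtain ⟨s, hs⟩ := s3_s φ hw0 hκ hwt
  rcases s3_pts hp (div_ne_zero hm0 ha) hs with h | h
  · rw [div_eq_iff ha] at h
    rw [h] at hm
    rw [div_pow, h, mul_pow, mul_div_assoc, div_self (pow_ne_zero 3 ha), mul_one] at hκ
    unfold uu at hκ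
    have ht2 : t ^ 2 + 21 * t + 49 = 0 := by linear_combination -hκ
    refine ⟨(2 * t + 21) / 7, ?_, ?_⟩
    · field_simp
      linear_combination 4 * ht2
    · rw [← hm]
      unfold aa
      linear_combination (-8 * t ^ 4 + 48 * t ^ 3 - 1240 * t ^ 2 + 22448 * t - 411272) * ht2
  · exfalso
    have hr : 3 ≤ φ (m / aa t) ∨ φ (m / aa t) ≤ -1 := by
      apply s3_real (τ := φ t)
      rw [← map_uu', ← hκ, map_mul, map_pow]
    rw [h, map_div₀, map_ofNat, map_ofNat] at hr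
    rcases hr with h | h <;> norm_num at h

/-- from the pair of subgroups of order 3 (as in `H42M.split`) -/
theorem coreS3' (hp : Pts21 F) (φ : F →+* ℝ) {A B t j u v : F} (h0 : j ≠ 0) (h1728 : j ≠ 1728)
    (hj : j * t = uu t * aa t ^ 3) (hAB : JRel A B j)
    (r1 : 4 * B = 2 * u * v - u ^ 3 - 2 * A * u)
    (r2 : A ^ 2 + 6 * A * v + 3 * u ^ 2 * v - 3 * v ^ 2 = 0) :
    ∃ s : F, s ^ 2 = 5 ∧ j = -58982400 + 26378240 * s := by
  obtain ⟨hdisc, hjr⟩ := hAB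
  have hz3 : (3 * u ^ 2 + 4 * A) ^ 3 = 16 * (4 * A ^ 3 + 27 * B ^ 2) := by
    linear_combination 36 * u ^ 2 * r2 - 27 * (4 * B + (2 * u * v - u ^ 3 - 2 * A * u)) * r1
  have hz : 3 * u ^ 2 + 4 * A ≠ 0 := by
    intro h0
    rw [h0] at hz3
    apply hdisc
    linear_combination -hz3 / 16
  obtain ⟨m, hm⟩ : ∃ m : F, m * (3 * u ^ 2 + 4 * A) = 48 * A := ⟨_, div_mul_cancel₀ _ hz⟩
  obtain ⟨g, hg⟩ : ∃ g : F, g * (3 * u ^ 2 + 4 * A) = 36 * (2 * v - 2 * A - u ^ 2) :=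
    ⟨_, div_mul_cancel₀ _ hz⟩
  have hm3 : m ^ 3 * (4 * A ^ 3 + 27 * B ^ 2) = 6912 * A ^ 3 := by
    have h1 : (m * (3 * u ^ 2 + 4 * A)) ^ 3 = (48 * A) ^ 3 := by rw [hm]
    rw [mul_pow, hz3] at h1
    linear_combination h1 / 16
  have hmj : m ^ 3 = j := by
    apply mul_right_cancel₀ hdisc
    rw [hm3, hjr]
  have hgg : g ^ 2 = m ^ 2 + 12 * m + 144 := by
    rw [← sub_eq_zero]
    apply (mul_eq_zero.mp _).resolve_left (pow_ne_zero 2 hz)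
    linear_combination (g * (3 * u ^ 2 + 4 * A) + 36 * (2 * v - 2 * A - u ^ 2)) * hg -
      (m * (3 * u ^ 2 + 4 * A) + 48 * A + 12 * (3 * u ^ 2 + 4 * A)) * hm - 1728 * r2
  exact coreS3 hp φ h0 h1728 hj hmj hgg

end Pool.Agent.M7
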