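import Mathlib

/-! # Elliptic curves and the prime 7: definitions (helper33)

Plan of the project `M7` (problem MP_326854_nt). Let `F` be a totally real field of odd narrow class
number in which `(7)` is an odd power of a prime ideal and which does not contain the cubic subfield
of the seventh roots of unity. Theorem A: if the Galois group of `F(ζ₇)` does not act absolutely
irreducibly on `E[7]`, then `E` has a Galois stable subgroup of order 7 or
`j(E) ∈ {0, 1728, 2268945/128}`. Theorem B: if moreover `(3)` is an odd power of a prime ideal and the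
Galois group of `F(ζ₃)` does not act absolutely irreducibly on `E[3]`, then `j(E)` is one of seven
rational numbers or the `j`-invariant of a curve with complex multiplication by the maximal order of
discriminant -35.

* `aa`, `bb`, `uu`: with `t` the coordinate of `X₀(7)`, `j t = uu aa ^ 3`, `(j - 1728) t = bb ^ 2`.
* `G8 J x`: the polynomial whose eight roots are the values `x = bb t`, `J = j - 1728`. -/

namespace Pool.Agent.M7

def uu {K : Type*} [Field K] (t : K) : K := t ^ 2 + 13 * t + 49

def aa {K : Type*} [Field K] (t : K) : K := t ^ 2 + 5 * t + 1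

def bb {K : Type*} [Field K] (t : K) : K := t ^ 4 + 14 * t ^ 3 + 63 * t ^ 2 + 70 * t - 7

lemma uu_aa_bb {K : Type*} [Field K] (t : K) : uu t * aa t ^ 3 - 1728 * t = bb t ^ 2 := by
  unfold uu aa bb; ring

/-- the octic polynomial -/
def G8 {K : Type*} [Field K] (J x : K) : K :=
  x ^ 8 + 14 * J * x ^ 6 + 63 * J ^ 2 * x ^ 4 + 70 * J ^ 3 * x ^ 2 - J ^ 4 * x - 7 * J ^ 4

/-- `j` is the `j`-invariant of the curve `y ^ 2 = x ^ 3 + A * x + B` -/
def JRel {F : Type*} [Field F] (A B j : F) : Prop :=
  4 * A ^ 3 + 27 * B ^ 2 ≠ 0 ∧ j * (4 * A ^ 3 + 27 * B ^ 2) = 6912 * A ^ 3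

/-- the affine points of `y ^ 2 = x (x ^ 2 - 147 x + 5488)` (conductor 49) -/
def Pts3 (F : Type*) [Field F] : Prop :=
  ∀ x y : F, y ^ 2 = x * (x ^ 2 - 147 * x + 5488) → x = 0

/-- the affine points of `y ^ 2 = x (x ^ 2 + 294 x - 343)` (conductor 49) -/
def Pts4 (F : Type*) [Field F] : Prop :=
  ∀ x y : F, y ^ 2 = x * (x ^ 2 + 294 * x - 343) → x = 0

/-- the affine points of `Y ^ 2 = X (X + 9) (X + 16)` (conductor 21) -/
def Pts21 (F : Type*) [Field F] : Prop :=
  ∀ X Y : F, Y ^ 2 = X * (X + 9) * (X + 16) → X = 0 ∨ X = -9 ∨ X = -16 ∨ X = 12 ∨ X = -12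

end Pool.Agent.M7
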