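import Pool.Agent.H42M.Points

/-! # The hypotheses on the field, and places above 7 (helper33)

PROOFS. `v7`: `Nonsplit F 7` gives `P`, `k`; as in the proof of `H42M.parity_fix`: for `v` with
`v 7 < 1`, `v.asIdeal = P` and `v.valuation F 7 = exp (-k)`, `k` odd, not a square
(`even_of_isSquare_exp`). `exists_v7`: `P` itself (it is not 0 and contains 7 as `k` is odd, so
positive). `sq_ne_seven`: `t² = 7`, `v` above 7: `v 7 = (v t)²` is a square. `sq_ne_fourteen`: `v 2 = 1`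
(`1 = 7 - 3 * 2`) so `v 14 = v 7`. `kap_ne`, `mm_ne`: `x³ - 196 x² + 10976 x - 153664 =
-21952 (ω³ + ω² - 2 ω - 1)` with `ω = 2 - x/28`; with `ω = 2 - 196/x`:
`x³ (ω³ + ω² - 2 ω - 1) = 7 (x³ - 392 x² + 38416 x - 1075648)`. -/

namespace Pool.Agent.M7

open NumberField IsDedekindDomain WithZero Pool.Agent.H42M

structure Hyp7 (F : Type*) [Field F] [NumberField F] : Prop where
  odd : Odd (classNumber F)
  pos : ∀ u : (𝓞 F)ˣ, (∀ φ : F →+* ℝ, 0 < φ ((u : 𝓞 F) : F)) → IsSquare u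
  prim : ∀ u : (𝓞 F)ˣ, (∃ a : 𝓞 F, (4 : 𝓞 F) ∣ (u : 𝓞 F) - a ^ 2) → IsSquare u
  seven : Nonsplit F 7
  cub : ∀ x : F, x ^ 3 + x ^ 2 - 2 * x - 1 ≠ 0
  real : Nonempty (F →+* ℝ)

variable {F : Type*} [Field F] [NumberField F]

lemma hyp7_mk [IsTotallyReal F] (hodd : Odd (classNumber F))
    (hpos : ∀ u : (𝓞 F)ˣ, (∀ φ : F →+* ℝ, 0 < φ ((u : 𝓞 F) : F)) → IsSquare u)
    (h7 : Nonsplit F 7) (hcub : ∀ x : F, x ^ 3 + x ^ 2 - 2 * x - 1 ≠ 0) : Hyp7 F :=
  { odd := hodd
    pos := hpos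
    prim := isSquare_of_primary hodd hpos
    seven := h7
    cub := hcub
    real := exists_real F }

private lemma exists_place {n : ℕ} (hn : n ≠ 0) (hns : Nonsplit F n) :
    ∃ (w : HeightOneSpectrum (𝓞 F)) (k : ℕ), Odd k ∧ w.valuation F (n : F) = exp (-(k : ℤ)) ∧
      ∀ v : HeightOneSpectrum (𝓞 F), v.valuation F (n : F) < 1 → v = w := by
  classical
  obtain ⟨P, hP, k, hk, hspan⟩ := hns
  have hn0 : (n : 𝓞 F) ≠ 0 := by exact_mod_cast hn
  have hspan0 : (Ideal.span {(n : 𝓞 F)} : Ideal (𝓞 F)) ≠ ⊥ := by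
    rw [Ne, Ideal.span_singleton_eq_bot]; exact hn0
  have hPb : P ≠ ⊥ := by
    rintro rfl
    rw [hspan] at hspan0
    apply hspan0
    obtain ⟨m, rfl⟩ := hk
    rw [← Ideal.zero_eq_bot, zero_pow (by omega)]
  set w : HeightOneSpectrum (𝓞 F) := ⟨P, hP, hPb⟩ with hw
  have hval : ∀ v : HeightOneSpectrum (𝓞 F), v.valuation F (n : F) = v.intValuation (n : 𝓞 F) := by
    intro v
    have h1 : (n : F) = algebraMap (𝓞 F) F (n : 𝓞 F) := by simp
    rw [h1]; exact v.valuation_of_algebraMap (K := F) _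
  have huniq : ∀ v : HeightOneSpectrum (𝓞 F), v.valuation F (n : F) < 1 → v = w := by
    intro v hv
    rw [hval, HeightOneSpectrum.intValuation_lt_one_iff_dvd, hspan] at hv
    have h1 := v.prime.dvd_of_dvd_pow hv
    have h2 : P = v.asIdeal :=
      (hP.isMaximal hPb).eq_of_le v.isPrime.ne_top (Ideal.dvd_iff_le.mp h1)
    exact HeightOneSpectrum.ext h2.symm
  have hwval : w.valuation F (n : F) = exp (-(k : ℤ)) := by
    rw [hval, w.intValuation_if_neg hn0, hspan]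
    congr 2
    rw [Associates.mk_pow, Associates.count_pow (Associates.mk_ne_zero.mpr hPb)
      w.associates_irreducible]
    have h1 : (Associates.mk w.asIdeal).count (Associates.mk P).factors = 1 :=
      Associates.count_self w.associates_irreducible
    rw [h1, mul_one]
  exact ⟨w, k, hk, hwval, huniq⟩

lemma v7 (h7 : Nonsplit F 7) (v : HeightOneSpectrum (𝓞 F)) (hv : v.valuation F (7 : F) < 1) :
    ¬ IsSquare (v.valuation F (7 : F)) := by
  obtain ⟨w, k, hk, hw, huniq⟩ := exists_place (by norm_num) h7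
  simp only [Nat.cast_ofNat] at hw huniq
  rw [huniq v hv, hw]
  intro h
  have h1 := even_of_isSquare_exp h
  rw [even_neg, Int.even_coe_nat] at h1
  exact (Nat.not_even_iff_odd.mpr hk) h1

lemma exists_v7 (h7 : Nonsplit F 7) :
    ∃ v : HeightOneSpectrum (𝓞 F), v.valuation F (7 : F) < 1 := by
  obtain ⟨w, k, hk, hw, -⟩ := exists_place (by norm_num) h7
  simp only [Nat.cast_ofNat] at hw
  refine ⟨w, ?_⟩
  rw [hw, ← exp_zero, exp_lt_exp]
  have := hk.pos
  omega

lemma sq_ne_seven (h7 : Nonsplit F 7) (t : F) : t ^ 2 ≠ 7 := by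
  intro ht
  obtain ⟨v, hv⟩ := exists_v7 h7
  apply v7 h7 v hv
  rw [← ht, map_pow, pow_two]
  exact ⟨_, rfl⟩

lemma sq_ne_fourteen (h7 : Nonsplit F 7) (t : F) : t ^ 2 ≠ 14 := by
  intro ht
  obtain ⟨v, hv⟩ := exists_v7 h7
  apply v7 h7 v hv
  have h2le : v.valuation F (2 : F) ≤ 1 := by exact_mod_cast V_nat_le (v.valuation F) 2
  have h3le : v.valuation F (3 : F) ≤ 1 := by exact_mod_cast V_nat_le (v.valuation F) 3
  have h2 : v.valuation F (2 : F) = 1 := by
    by_contra hne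
    have hlt : v.valuation F (2 : F) < 1 := lt_of_le_of_ne h2le hne
    have h6 : v.valuation F (3 * 2 : F) < 1 := by
      rw [map_mul]
      calc v.valuation F (3 : F) * v.valuation F (2 : F) ≤ 1 * v.valuation F (2 : F) := by gcongr
        _ < 1 := by rwa [one_mul]
    have h1 : v.valuation F (7 - 3 * 2 : F) < 1 := (v.valuation F).map_sub_lt hv h6
    rw [show (7 - 3 * 2 : F) = 1 by norm_num, map_one] at h1
    exact lt_irrefl _ h1
  have h14 : v.valuation F (14 : F) = v.valuation F (7 : F) := by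
    rw [show (14 : F) = 2 * 7 by norm_num, map_mul, h2, one_mul]
  rw [← h14, ← ht, map_pow, pow_two]
  exact ⟨_, rfl⟩

lemma kap_ne (hc : ∀ x : F, x ^ 3 + x ^ 2 - 2 * x - 1 ≠ 0) (x : F) :
    x ^ 3 - 196 * x ^ 2 + 10976 * x - 153664 ≠ 0 := by
  intro h
  apply hc (2 - x / 28)
  linear_combination -h / 21952

lemma mm_ne (hc : ∀ x : F, x ^ 3 + x ^ 2 - 2 * x - 1 ≠ 0) (x : F) :
    x ^ 3 - 392 * x ^ 2 + 38416 * x - 1075648 ≠ 0 := by
  intro h
  have hx : x ≠ 0 := by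
    rintro rfl
    norm_num at h
  apply hc (2 - 196 / x)
  field_simp
  linear_combination 7 * h

end Pool.Agent.M7
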