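import Pool.Agent.H42M.Val2

/-! # Local lemmas at 2 for the curve of conductor 21 (helper33)

PROOFS: in the header of `Pool/Agent/M7/Loc.lean` (`even_two_21`, `even_X_21`, `sqMod_21`,
`sqMod_mul`); adaptations of `H42M.even_two`, `H42M.even_X_of_point`, `H42M.sqMod_E2'` (in
`Pool/Agent/H42M/Val.lean`, `Desc.lean`). -/

namespace Pool.Agent.M7

open WithZero Pool.Agent.H42M

variable {K : Type*} [Field K] (V : Valuation K ℤᵐ⁰)

lemma even_two_21 {X Y : K} (hY : Y ≠ 0) (e : Y ^ 2 = X * (X + 9) * (X + 16))
    (h2 : V (2 : K) < 1) (h20 : V (2 : K) ≠ 0) : IsSquare (V (X + 16)) := by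
  have h16 : V (16 : K) < 1 := by
    rw [V_sixteen_eq]; exact pow_lt_one₀ zero_le h2 (by norm_num)
  have h4 : V (4 : K) < 1 := by
    rw [V_four_eq]; exact pow_lt_one₀ zero_le h2 (by norm_num)
  have h9 : V (9 : K) = 1 := by exact_mod_cast V_odd V (n := 9) (by decide) h2
  have h3 : V (3 : K) = 1 := by exact_mod_cast V_odd V (n := 3) (by decide) h2
  have h6 : V (6 : K) = V 2 := by
    have : (6 : K) = 2 * 3 := by norm_num
    rw [this, map_mul, h3, mul_one]
  have hX0 : X ≠ 0 := by
    rintro rfl; apply hY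
    have : Y ^ 2 = 0 := by rw [e]; ring
    exact pow_eq_zero_iff (two_ne_zero) |>.mp this
  have hX16 : X + 16 ≠ 0 := by
    intro h; apply hY; rw [h] at e; simpa using e
  have hV : V X * V (X + 9) * V (X + 16) = V Y ^ 2 := by
    rw [← map_mul, ← map_mul, ← e, map_pow]
  have hX0' : V X ≠ 0 := (V.ne_zero_iff).mpr hX0
  by_cases hc : V X ≤ V 16
  · rcases hc.lt_or_eq with hc | hc
    · rw [add_left V rfl hc, V_sixteen_eq]
      exact ⟨V 2 ^ 2, by rw [← pow_add]⟩
    · have h1 : V (X + 9) = 1 := add_left V h9 (hc ▸ h16)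
      rw [h1, mul_one, hc, V_sixteen_eq] at hV
      refine isSquare_of_mul (a := V (X + 16)) (b := V 2 ^ 2) (y := V Y) (pow_ne_zero _ h20) ?_
      rw [← hV, mul_comm, ← pow_mul]
  · push Not at hc
    have h1 : V (X + 16) = V X := add_right V rfl hc
    rw [h1]
    by_cases hc1 : V X < 1
    swap
    · push Not at hc1
      rcases hc1.eq_or_lt with hc1 | hc1
      · rw [← hc1]; exact ⟨1, by simp⟩
      · have h3 : V (X + 9) = V X := add_right V rfl (by rwa [h9])
        rw [h1, h3] at hV
        refine isSquare_of_pow_three (g := V X) (h := V Y) hX0' ?_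
        rw [← hV, pow_succ, pow_two]
    · by_contra hns
      set b : K := 144 / X with hb
      have hab : X * b = 144 := by rw [hb]; field_simp
      have h144 : V (144 : K) = V 16 := by
        have : (144 : K) = 16 * 9 := by norm_num
        rw [this, map_mul, h9, mul_one]
      have hab' : V X * V b = V 16 := by rw [← map_mul, hab, h144]
      have hb0' : V b ≠ 0 := by
        intro h; rw [h, mul_zero, V_sixteen_eq] at hab'
        exact pow_ne_zero _ h20 hab'.symm
      set g : K := Y / X with hg
      have hgg : (g - 3) * (g + 3) = X + b + 16 := by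
        have : g ^ 2 = X + b + 25 := by
          rw [hg, hb, div_pow, e]; field_simp; ring
        linear_combination this
      have key : ∀ a c : K, V a ≠ 0 → V a * V c = V 16 → V c ≤ V a → ¬ IsSquare (V a) →
          V 16 < V a → (g - 3) * (g + 3) = a + c + 16 → False := by
        intro a c ha0 hac hle hnsa h16a hgac
        have h4a : V 4 < V a := by
          by_contra hlt
          push Not at hlt
          rcases hlt.lt_or_eq with hlt | hlt
          · have h5 : V c < V 4 := hle.trans_lt hlt
            have h6 : V a * V c < V 4 * V 4 := mul_lt_mul'' hlt h5 zero_le zero_le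
            rw [hac, V_sixteen_eq, V_four_eq, ← pow_add] at h6
            exact lt_irrefl _ h6
          · apply hnsa
            rw [hlt, V_four_eq]
            exact ⟨V 2, pow_two _⟩
        have hca : V c < V a := by
          rcases hle.lt_or_eq with h | h
          · exact h
          · exfalso
            rw [h, V_sixteen_eq] at hac
            have h5 : V 4 * V 4 < V a * V a := mul_lt_mul'' h4a h4a zero_le zero_le
            rw [hac, V_four_eq, ← pow_add] at h5
            exact lt_irrefl _ h5
        have hs : V (a + c + 16) = V a := by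
          refine add_right V (add_right V rfl hca) h16a
        have hgV : V (g - 3) * V (g + 3) = V a := by rw [← map_mul, hgac, hs]
        by_cases ht : V 2 < V (g - 3)
        · have h7 : V (g + 3) = V (g - 3) := by
            have : g + 3 = (g - 3) + 6 := by ring
            rw [this]; exact add_right V rfl (by rw [h6]; exact ht)
          rw [h7] at hgV
          exact hnsa ⟨V (g - 3), hgV.symm⟩
        · push Not at ht
          have h7 : V (g + 3) ≤ V 2 := by
            have : g + 3 = (g - 3) + 6 := by ring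
            rw [this]; exact (V.map_add _ _).trans (max_le ht h6.le)
          have h8 : V (g - 3) * V (g + 3) ≤ V 2 * V 2 := mul_le_mul' ht h7
          rw [hgV, ← pow_two, ← V_four_eq] at h8
          exact absurd h8 (not_le.mpr h4a)
      have hb16 : V 16 < V b := by
        by_contra hlt
        push Not at hlt
        have : V X * V b < 1 * V 16 := by
          calc V X * V b ≤ V X * V 16 := by gcongr
            _ < 1 * V 16 := by
              gcongr
              rw [V_sixteen_eq]; exact pow_pos (zero_lt_iff.mpr h20) 4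
        rw [hab', one_mul] at this
        exact lt_irrefl _ this
      rcases le_total (V b) (V X) with h | h
      · exact key X b hX0' hab' h hns hc hgg
      · refine key b X hb0' (by rw [mul_comm, hab']) h ?_ hb16 (by rw [hgg]; ring)
        rintro ⟨z, hz⟩
        apply hns
        refine isSquare_of_mul (a := V X) (b := z) (y := V 4) ?_ ?_
        · rintro rfl; rw [mul_zero] at hz; exact hb0' hz
        · rw [pow_two, ← hz, hab', V_four_eq, V_sixteen_eq, ← pow_mul]

lemma even_X_21 {X Y : K} (hY : Y ≠ 0) (e : Y ^ 2 = X * (X + 9) * (X + 16))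
    (h20 : V (2 : K) ≠ 0) (h3 : V (3 : K) = 1) : IsSquare (V X) := by
  have h9 : V (9 : K) = 1 := by
    have : (9 : K) = 3 * 3 := by norm_num
    rw [this, map_mul, h3, one_mul]
  by_cases h2 : V (2 : K) < 1
  · rcases lt_trichotomy (V X) 1 with h | h | h
    · have h1 : V (X + 9) = 1 := add_left V h9 h
      obtain ⟨t, ht⟩ := even_two_21 V hY e h2 h20
      have hX16 : X + 16 ≠ 0 := by
        intro h; apply hY; rw [h] at e; simpa using e
      have hV : V X * V (X + 9) * V (X + 16) = V Y ^ 2 := by
        rw [← map_mul, ← map_mul, ← e, map_pow]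
      rw [h1, mul_one, ht] at hV
      refine isSquare_of_mul (b := t) (y := V Y) ?_ (by rw [pow_two, hV])
      rintro rfl
      rw [mul_zero] at ht
      exact hX16 ((V.zero_iff).mp ht)
    · rw [h]; exact ⟨1, by simp⟩
    · have h16 : V (16 : K) ≤ 1 := by exact_mod_cast V_int_le V 16
      have h1 : V (X + 16) = V X := add_right V rfl (h16.trans_lt h)
      have h3 : V (X + 9) = V X := add_right V rfl (by rwa [h9])
      have hV : V X * V (X + 9) * V (X + 16) = V Y ^ 2 := by
        rw [← map_mul, ← map_mul, ← e, map_pow]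
      rw [h1, h3] at hV
      refine isSquare_of_pow_three (g := V X) (h := V Y) ?_ ?_
      · intro h0; rw [h0] at h; exact absurd h (by simp)
      · rw [← hV, pow_succ, pow_two]
  · have h21 : V (2 : K) = 1 := le_antisymm (by exact_mod_cast V_int_le V 2) (not_lt.mp h2)
    refine even_of_units V (c := X) (d₂ := 9) (d₃ := 16) (y := Y) h9 ?_ e.symm
    rw [V_sixteen_eq, h21, one_pow]

lemma sqMod_21 {X r s δ ε : K} (hX : X ≠ 0) (hX9 : X + 9 ≠ 0) (hr0 : r ≠ 0)
    (hr : X + 16 = δ * r ^ 2) (hs : X * (X + 9) = δ * s ^ 2) (hδ : V δ = 1)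
    (hδε : V (δ - ε) ≤ V 4) (hε : ε * ε = 1) (h2 : V (2 : K) < 1) : SqModFour V (ε * X) := by
  have hs0 : s ≠ 0 := by
    rintro rfl
    have : X * (X + 9) = 0 := by rw [hs]; ring
    rcases mul_eq_zero.mp this with h | h
    · exact hX h
    · exact hX9 h
  have hVr : V r ≠ 0 := (V.ne_zero_iff).mpr hr0
  have hVε : V ε = 1 := by
    have h1 : V ε ^ 2 = 1 := by rw [← map_pow, pow_two, hε, map_one]
    exact (pow_eq_one_iff_of_nonneg zero_le two_ne_zero).mp h1
  have hVεδ : V (ε * δ - 1) ≤ V 4 := by
    have h1 : ε * δ - 1 = ε * (δ - ε) := by linear_combination (1 : K) * hε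
    rw [h1, map_mul, hVε, one_mul]; exact hδε
  by_cases h : V 2 < V r
  · refine ⟨r, hr0, ?_⟩
    have h1 : ε * X / r ^ 2 - 1 = (ε * δ - 1) + -(ε * (16 / r ^ 2)) := by
      have : X = δ * r ^ 2 - 16 := by linear_combination hr
      rw [this]; field_simp; ring
    rw [h1]
    refine (V.map_add _ _).trans (max_le hVεδ ?_)
    rw [Valuation.map_neg, map_mul, hVε, one_mul, map_div₀, map_pow, V_sixteen_eq, V_four_eq]
    rw [div_le_iff₀ (pow_pos (zero_lt_iff.mpr hVr) 2)]
    calc V (2 : K) ^ 4 = V 2 ^ 2 * V 2 ^ 2 := by rw [← pow_add]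
      _ ≤ V 2 ^ 2 * V r ^ 2 := by gcongr
  · push Not at h
    have hVX : V X ≤ V 4 := by
      have : X = δ * r ^ 2 - 16 := by linear_combination hr
      rw [this]
      refine (V.map_sub _ _).trans (max_le ?_ ?_)
      · rw [map_mul, hδ, one_mul, map_pow, V_four_eq]; gcongr
      · rw [V_sixteen_eq, V_four_eq]
        exact pow_le_pow_of_le_one zero_le h2.le (by norm_num)
    refine ⟨s / (X + 9), div_ne_zero hs0 hX9, ?_⟩
    have hδ0 : δ ≠ 0 := by
      rintro rfl; rw [map_zero] at hδ; exact zero_ne_one hδ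
    have h1 : ε * X / (s / (X + 9)) ^ 2 - 1 = (ε * δ - 1) + ε * δ * (X + 8) := by
      have h3 : ε * X / (s / (X + 9)) ^ 2 = ε * (X * (X + 9)) * (X + 9) / s ^ 2 := by
        field_simp
      rw [h3, hs]
      field_simp
      ring
    rw [h1]
    refine (V.map_add _ _).trans (max_le hVεδ ?_)
    rw [map_mul, map_mul, hVε, hδ, one_mul, one_mul]
    refine (V.map_add _ _).trans (max_le hVX ?_)
    have : (8 : K) = 4 * 2 := by norm_num
    rw [this, map_mul]
    calc V (4 : K) * V 2 ≤ V 4 * 1 := by gcongr
      _ = V 4 := mul_one _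

lemma sqMod_mul {n : ℤ} (hn : (4 : ℤ) ∣ n - 1) {c : K} (h : SqModFour V c) :
    SqModFour V ((n : K) * c) := by
  obtain ⟨s, hs, h⟩ := h
  obtain ⟨k, hk⟩ := hn
  refine ⟨s, hs, ?_⟩
  have hk' : (n : K) - 1 = 4 * k := by exact_mod_cast congrArg (fun z : ℤ => (z : K)) hk
  have h1 : (n : K) * c / s ^ 2 - 1 = (n : K) * (c / s ^ 2 - 1) + 4 * k := by
    rw [← hk']; ring
  rw [h1]
  refine (V.map_add _ _).trans (max_le ?_ ?_)
  · rw [map_mul]
    calc V (n : K) * V (c / s ^ 2 - 1) ≤ 1 * V 4 := by gcongr; exact V_int_le V n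
      _ = V 4 := one_mul _
  · rw [map_mul]
    calc V (4 : K) * V (k : K) ≤ V 4 * 1 := by gcongr; exact V_int_le V k
      _ = V 4 := mul_one _

end Pool.Agent.M7
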