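import Pool.Agent.M7.Loc
import Pool.Agent.M7.Loc21
import Pool.Agent.M7.Hyp

/-! # Classes modulo squares on the three curves (helper33)

Tools: `H42M.parity_fix`, `H42M.isSquare_of_pos`, `H42M.isSquare_of_sqMod`, `H42M.even_of_units`,
`H42M.V_two_ne`; compare `H42M.E2_class`, `H42M.E2_X`, `H42M.E1_class`, `H42M.not_isSquare_neg_one`.

PROOFS. `E3_class`: `V x` is a square for all `v` with `v 7 = 1`: `v 2 < 1`: `even_two_E3`; `v 2 = 1`:
`even_of_b` with `b = 5488 = 2 ^ 4 * 7 ^ 3`. `parity_fix (n := 7)` gives `δ = 1, 7` with all values of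
`δ x` squares. `x > 0` in all real embeddings as `x² - 147 x + 5488 > 0` and `y² > 0`.
`E4_class`: `V x` is a square for all `v` with `v 7 = 1` (`even_of_b`, `b = -343`). `δ = 1, 7` by
`parity_fix`; `δ = 1`: `isSquare_of_sqMod` with `sqMod_E4`. `δ = 7`: `-7 x`, all values squares
(`v (-1) = 1`), `sqMod_mul (n := -7)`.
`C21_class`: `c = X + 16`, `c (c - 16) (c - 7)`: `even_of_units` for `v 2 = 1`, `v 7 = 1`;
`even_two_21` for `v 2 < 1`; `X + 16 > 0` in all real embeddings.
`C21_X`: `X + 16 = d r²`, `d = 1, 7`, `ε = 1, -1`. By `parity_fix (n := 3)` and `even_X_21` there is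
`δ₃ = 1, 3` with all values of `δ₃ X` squares. `X (X + 9) = d (Y/(r d))²`. `sqMod_21`; for `δ₃ = 3` use
`-3 ε X` and `sqMod_mul (n := -3)`. -/

namespace Pool.Agent.M7

open NumberField IsDedekindDomain WithZero Pool.Agent.H42M

variable {F : Type*} [Field F] [NumberField F]

private lemma cls_le (v : HeightOneSpectrum (𝓞 F)) (n : ℤ) : v.valuation F (n : F) ≤ 1 :=
  V_int_le (v.valuation F) n

/-- all values of `δ * c` are squares for `δ = 1` or `δ = n` -/
private lemma cls_fix {n : ℕ} (hn : n ≠ 0) (hns : Nonsplit F n) {c : F} (hc : c ≠ 0)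
    (h : ∀ v : HeightOneSpectrum (𝓞 F), v.valuation F (n : F) = 1 → IsSquare (v.valuation F c)) :
    (∀ v : HeightOneSpectrum (𝓞 F), IsSquare (v.valuation F c)) ∨
    (∀ v : HeightOneSpectrum (𝓞 F), IsSquare (v.valuation F ((n : F) * c))) := by
  obtain ⟨δ, hδ, h1, h2⟩ := parity_fix hn hns hc
  have key : ∀ v : HeightOneSpectrum (𝓞 F), IsSquare (v.valuation F (δ * c)) := by
    intro v
    have hle : v.valuation F (n : F) ≤ 1 := by exact_mod_cast cls_le v (n : ℤ)
    rcases hle.lt_or_eq with hv | hv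
    · exact h1 v hv
    · rw [map_mul, h2 v hv, one_mul]
      exact h v hv
  rcases hδ with rfl | rfl
  · left
    intro v
    have := key v
    rwa [one_mul] at this
  · right
    exact key

lemma E3_class (H : Hyp7 F) {x y : F} (hy : y ≠ 0)
    (e : y ^ 2 = x * (x ^ 2 - 147 * x + 5488)) : IsSquare x ∨ IsSquare (7 * x) := by
  have hx : x ≠ 0 := by
    rintro rfl; apply hy
    have : y ^ 2 = 0 := by rw [e]; ring
    exact pow_eq_zero_iff (two_ne_zero) |>.mp this
  have hpos : ∀ φ : F →+* ℝ, 0 < φ x := by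
    intro φ
    have h1 : (φ y) ^ 2 = φ x * ((φ x) ^ 2 - 147 * φ x + 5488) := by
      rw [← map_pow, e, map_mul, map_add, map_sub, map_mul, map_pow, map_ofNat, map_ofNat]
    have h2 : 0 < (φ y) ^ 2 := by
      have : φ y ≠ 0 := (map_ne_zero φ).mpr hy
      positivity
    have h3 : 0 < (φ x) ^ 2 - 147 * φ x + 5488 := by
      nlinarith [sq_nonneg (2 * φ x - 147)]
    rw [h1] at h2
    exact (pos_iff_pos_of_mul_pos h2).mpr h3
  rcases cls_fix (n := 7) (by norm_num) H.seven hx (fun v h7 => by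
    have h7' : v.valuation F (7 : F) = 1 := by exact_mod_cast h7
    by_cases h2 : v.valuation F (2 : F) < 1
    · exact even_two_E3 _ hy e h2 (V_two_ne v)
    · have h21 : v.valuation F (2 : F) = 1 :=
        le_antisymm (by exact_mod_cast cls_le v 2) (not_lt.mp h2)
      refine even_of_b (v.valuation F) (x := x) (y := y) (a := -147) (b := 5488)
        (by exact_mod_cast cls_le v (-147)) ?_ hx (by rw [e]; ring)
      have : (5488 : F) = 2 ^ 4 * 7 ^ 3 := by norm_num
      rw [this, map_mul, map_pow, map_pow, h21, h7', one_pow, one_pow, one_mul]) with h | h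
  · exact Or.inl (isSquare_of_pos H.odd H.pos hx h hpos)
  · right
    have h' : ∀ v : HeightOneSpectrum (𝓞 F), IsSquare (v.valuation F (7 * x)) := by
      exact_mod_cast h
    refine isSquare_of_pos H.odd H.pos (mul_ne_zero (by norm_num) hx) h' fun φ => ?_
    rw [map_mul, map_ofNat]
    exact mul_pos (by norm_num) (hpos φ)

lemma E4_class (H : Hyp7 F) {x y : F} (hy : y ≠ 0)
    (e : y ^ 2 = x * (x ^ 2 + 294 * x - 343)) : IsSquare x ∨ IsSquare (-7 * x) := by
  have hx : x ≠ 0 := by
    rintro rfl; apply hy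
    have : y ^ 2 = 0 := by rw [e]; ring
    exact pow_eq_zero_iff (two_ne_zero) |>.mp this
  rcases cls_fix (n := 7) (by norm_num) H.seven hx (fun v h7 => by
    have h7' : v.valuation F (7 : F) = 1 := by exact_mod_cast h7
    refine even_of_b (v.valuation F) (x := x) (y := y) (a := 294) (b := -343)
      (by exact_mod_cast cls_le v 294) ?_ hx (by rw [e]; ring)
    have : (343 : F) = 7 ^ 3 := by norm_num
    rw [Valuation.map_neg, this, map_pow, h7', one_pow]) with h | h
  · exact Or.inl (isSquare_of_sqMod H.odd H.prim hx h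
      (fun v hv => sqMod_E4 _ hy e hv (V_two_ne v)))
  · right
    have h' : ∀ v : HeightOneSpectrum (𝓞 F), IsSquare (v.valuation F (7 * x)) := by
      exact_mod_cast h
    refine isSquare_of_sqMod H.odd H.prim (mul_ne_zero (by norm_num) hx) (fun v => ?_)
      (fun v hv => ?_)
    · rw [neg_mul, Valuation.map_neg]
      exact h' v
    · have := sqMod_mul (v.valuation F) (n := -7) (by decide) (sqMod_E4 _ hy e hv (V_two_ne v))
      push_cast at this
      exact this

lemma C21_class (H : Hyp7 F) {X Y : F} (hY : Y ≠ 0) (e : Y ^ 2 = X * (X + 9) * (X + 16)) :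
    IsSquare (X + 16) ∨ IsSquare (7 * (X + 16)) := by
  have hX16 : X + 16 ≠ 0 := by
    intro h; apply hY; rw [h] at e; simpa using e
  have hpos : ∀ φ : F →+* ℝ, 0 < φ (X + 16) := by
    intro φ
    have h1 : (φ Y) ^ 2 = φ X * (φ X + 9) * (φ X + 16) := by
      rw [← map_pow, e, map_mul, map_mul, map_add, map_add, map_ofNat, map_ofNat]
    have h2 : 0 < (φ Y) ^ 2 := by
      have : φ Y ≠ 0 := (map_ne_zero φ).mpr hY
      positivity
    rw [map_add, map_ofNat]
    by_contra h3
    push Not at h3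
    rw [h1] at h2
    nlinarith [mul_nonneg (show 0 ≤ -(φ X) by linarith) (show 0 ≤ -(φ X + 9) by linarith)]
  rcases cls_fix (n := 7) (by norm_num) H.seven hX16 (fun v h7 => by
    have h7' : v.valuation F (7 : F) = 1 := by exact_mod_cast h7
    by_cases h2 : v.valuation F (2 : F) < 1
    · exact even_two_21 _ hY e h2 (V_two_ne v)
    · have h21 : v.valuation F (2 : F) = 1 :=
        le_antisymm (by exact_mod_cast cls_le v 2) (not_lt.mp h2)
      refine even_of_units _ (c := X + 16) (d₂ := -16) (d₃ := -7) (y := Y) ?_ ?_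
        (by rw [e]; ring)
      · rw [Valuation.map_neg, V_sixteen_eq, h21, one_pow]
      · rw [Valuation.map_neg, h7']) with h | h
  · exact Or.inl (isSquare_of_pos H.odd H.pos hX16 h hpos)
  · right
    have h' : ∀ v : HeightOneSpectrum (𝓞 F), IsSquare (v.valuation F (7 * (X + 16))) := by
      exact_mod_cast h
    refine isSquare_of_pos H.odd H.pos (mul_ne_zero (by norm_num) hX16) h' fun φ => ?_
    rw [map_mul, map_ofNat]
    exact mul_pos (by norm_num) (hpos φ)

lemma C21_X (H : Hyp7 F) (h3 : Nonsplit F 3) {X Y : F} (hY : Y ≠ 0)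
    (e : Y ^ 2 = X * (X + 9) * (X + 16)) {d ε : ℤ} (hd : (d = 1 ∧ ε = 1) ∨ (d = 7 ∧ ε = -1))
    {r : F} (hr : X + 16 = (d : F) * r ^ 2) : IsSquare ((ε : F) * X) ∨ IsSquare (-3 * (ε : F) * X) := by
  have hX0 : X ≠ 0 := by
    rintro rfl; apply hY
    have : Y ^ 2 = 0 := by rw [e]; ring
    exact pow_eq_zero_iff (two_ne_zero) |>.mp this
  have hX9 : X + 9 ≠ 0 := by
    intro h; apply hY; rw [h] at e; simpa using e
  have hX16 : X + 16 ≠ 0 := by
    intro h; apply hY; rw [h] at e; simpa using e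
  have hr0 : r ≠ 0 := by
    rintro rfl; apply hX16; rw [hr]; ring
  have hd0 : (d : F) ≠ 0 := by
    intro h; apply hX16; rw [hr, h]; ring
  have hε : ε * ε = 1 := by
    rcases hd with ⟨-, rfl⟩ | ⟨-, rfl⟩ <;> norm_num
  have hdo : Odd d := by
    rcases hd with ⟨rfl, -⟩ | ⟨rfl, -⟩ <;> decide
  have hdε : (4 : ℤ) ∣ d - ε := by
    rcases hd with ⟨rfl, rfl⟩ | ⟨rfl, rfl⟩ <;> norm_num
  have hεF : (ε : F) * ε = 1 := by exact_mod_cast congrArg (fun z : ℤ => (z : F)) hε
  have hε0 : (ε : F) ≠ 0 := left_ne_zero_of_mul_eq_one hεF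
  have hVε : ∀ v : HeightOneSpectrum (𝓞 F), v.valuation F (ε : F) = 1 := by
    intro v
    apply eq_one_of_sq
    rw [← map_pow, pow_two, hεF, map_one]
  have hs : X * (X + 9) = (d : F) * (Y / (r * d)) ^ 2 := by
    rw [div_pow, e, hr]; field_simp
  have hmod : ∀ v : HeightOneSpectrum (𝓞 F), v.valuation F (2 : F) < 1 →
      SqModFour (v.valuation F) ((ε : F) * X) := by
    intro v hv
    refine sqMod_21 _ hX0 hX9 hr0 hr hs (V_odd _ hdo hv) ?_ hεF hv
    obtain ⟨k, hk⟩ := hdε
    have hk' : (d : F) - ε = 4 * (k : F) := by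
      exact_mod_cast congrArg (fun z : ℤ => (z : F)) hk
    rw [hk', map_mul]
    calc v.valuation F (4 : F) * v.valuation F (k : F) ≤ v.valuation F 4 * 1 := by
          gcongr; exact V_int_le _ k
      _ = v.valuation F 4 := mul_one _
  rcases cls_fix (n := 3) (by norm_num) h3 hX0 (fun v h3v => by
    have h3' : v.valuation F (3 : F) = 1 := by exact_mod_cast h3v
    exact even_X_21 _ hY e (V_two_ne v) h3') with h | h
  · left
    refine isSquare_of_sqMod H.odd H.prim (mul_ne_zero hε0 hX0) (fun v => ?_) hmod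
    rw [map_mul, hVε v, one_mul]
    exact h v
  · right
    have h' : ∀ v : HeightOneSpectrum (𝓞 F), IsSquare (v.valuation F (3 * X)) := by
      exact_mod_cast h
    refine isSquare_of_sqMod H.odd H.prim
      (mul_ne_zero (mul_ne_zero (by norm_num) hε0) hX0) (fun v => ?_) (fun v hv => ?_)
    · have e1 : -3 * (ε : F) * X = -((ε : F) * (3 * X)) := by ring
      rw [e1, Valuation.map_neg, map_mul, hVε v, one_mul]
      exact h' v
    · have := sqMod_mul (v.valuation F) (n := -3) (by decide) (hmod v hv)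
      push_cast at this
      rw [mul_assoc]
      exact this

theorem C21_all (H : Hyp7 F) (h3 : Nonsplit F 3) {X Y : F} (hY : Y ≠ 0)
    (e : Y ^ 2 = X * (X + 9) * (X + 16)) :
    (IsSquare (X + 16) ∧ IsSquare X) ∨ (IsSquare (X + 16) ∧ IsSquare (-3 * X)) ∨
    (IsSquare (7 * (X + 16)) ∧ IsSquare (-X)) ∨ (IsSquare (7 * (X + 16)) ∧ IsSquare (3 * X)) := by
  rcases C21_class H hY e with ⟨t, ht⟩ | ⟨t, ht⟩
  · have h := C21_X H h3 hY e (d := 1) (ε := 1) (Or.inl ⟨rfl, rfl⟩) (r := t)
      (by push_cast; linear_combination ht)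
    rcases h with h | h
    · left
      refine ⟨⟨t, ht⟩, ?_⟩
      simpa using h
    · right; left
      refine ⟨⟨t, ht⟩, ?_⟩
      simpa using h
  · have h := C21_X H h3 hY e (d := 7) (ε := -1) (Or.inr ⟨rfl, rfl⟩) (r := t / 7)
      (by push_cast; field_simp; linear_combination ht)
    rcases h with h | h
    · right; right; left
      refine ⟨⟨t, ht⟩, ?_⟩
      simpa using h
    · right; right; right
      refine ⟨⟨t, ht⟩, ?_⟩
      simpa using h

end Pool.Agent.M7
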