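import Pool.Agent.M7.FrameDef
import Pool.Agent.M7.Eight

/-! # Elements fixing the square root of -7 act by even permutations (helper33)

PROOF of `even7`. Let `m σ = !![a, b; g, a]`, invertible, so `D = a² - b g ≠ 0`. Suppose
`D = 3, 5, 6`. Let `v : Fin 8 → K`, `v k = val 1 k` for `k < 7`, `v 7 = val 0 1`; injective by
`Frame7.inj`. `σ (val 1 k) = val (a + b k) (g + a k)`, `σ (val 0 1) = val b a`, and
`val x y = val 1 (y / x)` for `x ≠ 0`, `val 0 y = val 0 1`. So `σ (v k) = v (π k)` for the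
permutation `π = perm a b g` of `Fin 8`. `sign π = -1` for all `a b g` with `b g ∈ {3, 5, 6}`,
`a² - b g ∈ {3, 5, 6}` (finite check: `π` is an 8-cycle; by `decide` on a function-valued definition
`f a b g : Fin 8 → Fin 8`, whose inverse is `f a (-b) (-g)`). `sign_of_perm` gives `σ i = -i`, so
`i = 0`, contradiction. (Other ways to organise the finite check: `g = b r`, `r ∈ {3, 5, 6}`, and the
permutation depends only on `r` and `b / a`.) -/

namespace Pool.Agent.M7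

private def e7pt (k : Fin 8) : ZMod 7 × ZMod 7 := if k = 7 then (0, 1) else (1, ((k : ℕ) : ZMod 7))

private def e7idx (x y : ZMod 7) : Fin 8 :=
  if x = 0 then 7 else ⟨(y * x ^ 5).val, lt_trans (ZMod.val_lt _) (by norm_num)⟩

private def e7fn (c r : ZMod 7) (k : Fin 8) : Fin 8 :=
  e7idx (c * (e7pt k).1 + (e7pt k).2) (r * (e7pt k).1 + c * (e7pt k).2)

private def e7inv (c r : ZMod 7) (k : Fin 8) : Fin 8 :=
  e7idx (c * (e7pt k).1 - (e7pt k).2) (-r * (e7pt k).1 + c * (e7pt k).2)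

private theorem e7inj : ∀ k l : Fin 8, (e7pt k).1 * (e7pt l).2 = (e7pt l).1 * (e7pt k).2 → k = l := by
  decide

private theorem e7pt_ne : ∀ k : Fin 8, (e7pt k).1 ≠ 0 ∨ (e7pt k).2 ≠ 0 := by decide

private theorem e7key : ∀ c r : ZMod 7, (r = 3 ∨ r = 5 ∨ r = 6) →
    (c ^ 2 - r = 3 ∨ c ^ 2 - r = 5 ∨ c ^ 2 - r = 6) →
    ∃ π : Equiv.Perm (Fin 8), (∀ k, π k = e7fn c r k) ∧ Equiv.Perm.sign π = -1 := by
  intro c r hr hc
  have hl : Function.LeftInverse (e7inv c r) (e7fn c r) := by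
    unfold Function.LeftInverse
    revert c r
    decide
  have hri : Function.RightInverse (e7inv c r) (e7fn c r) := by
    clear hl
    unfold Function.RightInverse Function.LeftInverse
    revert c r
    decide
  refine ⟨⟨e7fn c r, e7inv c r, hl, hri⟩, fun _ => rfl, ?_⟩
  revert c r
  decide

private theorem e7red : ∀ a b g : ZMod 7, (b * g = 3 ∨ b * g = 5 ∨ b * g = 6) →
    ¬ (a ^ 2 - b * g = 1 ∨ a ^ 2 - b * g = 2 ∨ a ^ 2 - b * g = 4) → a ^ 2 - b * g ≠ 0 →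
    (g * b ^ 5 = 3 ∨ g * b ^ 5 = 5 ∨ g * b ^ 5 = 6) ∧
    ((a * b ^ 5) ^ 2 - g * b ^ 5 = 3 ∨ (a * b ^ 5) ^ 2 - g * b ^ 5 = 5 ∨ (a * b ^ 5) ^ 2 - g * b ^ 5 = 6) ∧
    b ≠ 0 := by
  decide

variable {F K : Type*} [Field F] [Field K] [CharZero K] [Algebra F K]
  {m : (K ≃ₐ[F] K) →* Matrix (Fin 2) (Fin 2) (ZMod 7)} {val : ZMod 7 → ZMod 7 → K} {J : F} {i : K}

theorem even7 (hJ : J ≠ 0) (hJ' : J ≠ -1728) (H : Frame7 m val (algebraMap F K J))
    (hi : i ^ 2 = -7) (σ : K ≃ₐ[F] K) (hσ : σ i = i) (h : m σ 0 0 = m σ 1 1)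
    (hd : m σ 0 1 * m σ 1 0 = 3 ∨ m σ 0 1 * m σ 1 0 = 5 ∨ m σ 0 1 * m σ 1 0 = 6) :
    m σ 0 0 ^ 2 - m σ 0 1 * m σ 1 0 = 1 ∨ m σ 0 0 ^ 2 - m σ 0 1 * m σ 1 0 = 2 ∨
      m σ 0 0 ^ 2 - m σ 0 1 * m σ 1 0 = 4 := by
  have hdet : m σ 0 0 ^ 2 - m σ 0 1 * m σ 1 0 ≠ 0 := by
    intro h0
    have h1 : m σ * m σ⁻¹ = 1 := by rw [← map_mul]; simp
    have h2 : (m σ).det * (m σ⁻¹).det = 1 := by rw [← Matrix.det_mul, h1, Matrix.det_one]
    have h3 : (m σ).det = 0 := by
      rw [Matrix.det_fin_two, ← h, ← h0]; ring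
    rw [h3, zero_mul] at h2
    exact absurd h2 (by decide)
  by_contra hcon
  obtain ⟨hr, hc, hb⟩ := e7red _ _ _ hd hcon hdet
  obtain ⟨π, hπ, hsgn⟩ := e7key _ _ hr hc
  generalize ha' : m σ 0 0 = a at *
  generalize hb' : m σ 0 1 = b at *
  generalize hg' : m σ 1 0 = g at *
  have hb1 : b ^ 6 = 1 := by
    clear hπ hc hr hcon hdet hd hb'
    revert b
    decide
  obtain ⟨v, hv⟩ : ∃ v : Fin 8 → K, v = fun k => val (e7pt k).1 (e7pt k).2 := ⟨_, rfl⟩
  have hidx : ∀ x y : ZMod 7, (x ≠ 0 ∨ y ≠ 0) → val x y = v (e7idx x y) := by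
    intro x y hxy
    rw [hv]
    unfold e7idx
    by_cases hx : x = 0
    · have hy : y ≠ 0 := hxy.resolve_left (not_not.2 hx)
      have := H.smul y 0 1 hy
      rw [mul_zero, mul_one] at this
      simp only [hx, if_true]
      exact this
    · have := H.smul x 1 (y * x ^ 5) hx
      have e : x * (y * x ^ 5) = y := by
        have : x ^ 6 = 1 := by
          clear this hxy
          revert x
          decide
        calc x * (y * x ^ 5) = y * x ^ 6 := by ring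
          _ = y := by rw [this, mul_one]
      rw [mul_one, e] at this
      simp only [hx, if_false]
      have e2 : ∀ t : ZMod 7, e7pt ⟨t.val, lt_trans (ZMod.val_lt _) (by norm_num)⟩ = (1, t) := by
        decide
      rw [e2, this]
  have hinj : Function.Injective v := by
    intro k l hkl
    rw [hv] at hkl
    exact e7inj k l (H.inj _ _ _ _ (e7pt_ne k) (e7pt_ne l) hkl)
  have hroot : ∀ k, G8 (algebraMap F K J) (v k) = 0 := by
    intro k
    rw [hv]
    exact H.root _ _ (e7pt_ne k)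
  have hperm : ∀ k, σ (v k) = v (π k) := by
    intro k
    have hne : (a * b ^ 5) * (e7pt k).1 + (e7pt k).2 ≠ 0 ∨
        (g * b ^ 5) * (e7pt k).1 + (a * b ^ 5) * (e7pt k).2 ≠ 0 := by
      have : ∀ c r : ZMod 7, (c ^ 2 - r = 3 ∨ c ^ 2 - r = 5 ∨ c ^ 2 - r = 6) → ∀ k : Fin 8,
          c * (e7pt k).1 + (e7pt k).2 ≠ 0 ∨ r * (e7pt k).1 + c * (e7pt k).2 ≠ 0 := by
        decide
      exact this _ _ hc k
    rw [hπ k]
    unfold e7fn
    rw [← hidx _ _ hne, ← H.smul b _ _ hb, hv]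
    simp only
    rw [H.gal σ _ _ (e7pt_ne k), ha', hb', hg', ← h]
    congr 1
    · linear_combination (-(a * (e7pt k).1)) * hb1
    · linear_combination (-(g * (e7pt k).1) - a * (e7pt k).2) * hb1
  have h1 := sign_of_perm hJ hJ' hinj hroot hi σ π hperm
  rw [hσ, hsgn] at h1
  have h2 : (2 : K) * i = 0 := by
    push_cast at h1
    linear_combination h1
  have h3 : i = 0 := (mul_eq_zero.mp h2).resolve_left two_ne_zero
  rw [h3] at hi
  norm_num at hi

end Pool.Agent.M7
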