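import Pool.Agent.M7.Step
import Pool.Agent.H42M.Main

/-! # Finiteness (helper33) -/

namespace Pool.Agent.M7

open NumberField WeierstrassCurve WeierstrassCurve.Affine Height Pool.Agent.H42M
open Pool.Agent.H7.Vojta

variable {F : Type*} [Field F] [NumberField F] [DecidableEq F]

theorem finite_of_step' (W : WeierstrassCurve ℚ) [W.IsElliptic] (G₀ : AddSubgroup (W⁄F).Point)
    (h4 : ∀ T ∈ G₀, (4 : ℤ) • T = 0)
    (step : ∀ P : (W⁄F).Point, ∃ T ∈ G₀, ∃ Q, P + T = Q + Q) :
    ∀ P : (W⁄F).Point, ∃ n : ℕ, Odd n ∧ n • P ∈ G₀ := by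
  obtain ⟨C, -, hC⟩ := exists_parallelogram W
  obtain ⟨q, hq, hq0, hqn⟩ := exists_canonical (G := (W⁄F).Point) (h := naive)
    (c := C * totalWeight F) (fun x y => hC F x y) (fun x => naive_nonneg x)
  refine (finite_of_descent G₀ h4 step hq hq0 fun c => ?_).2
  refine (finite_naive_le (W⁄F) (c + C * totalWeight F)).subset fun P hP => ?_
  have h1 := hqn P
  rw [abs_le] at h1
  have h2 : q P ≤ c := hP
  have h3 : naive P ≤ c + C * totalWeight F := by linarith
  exact h3

instance : E3.IsElliptic := by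
  rw [WeierstrassCurve.isElliptic_iff]
  rw [isUnit_iff_ne_zero]
  simp [E3, WeierstrassCurve.Δ, WeierstrassCurve.b₂, WeierstrassCurve.b₄, WeierstrassCurve.b₆,
    WeierstrassCurve.b₈]
  norm_num

instance : E4.IsElliptic := by
  rw [WeierstrassCurve.isElliptic_iff]
  rw [isUnit_iff_ne_zero]
  simp [E4, WeierstrassCurve.Δ, WeierstrassCurve.b₂, WeierstrassCurve.b₄, WeierstrassCurve.b₆,
    WeierstrassCurve.b₈]
  norm_num

lemma Half.four_TT {W : Affine F} {a b : F} (H : Half W a b) {T : W.Point} (hT : T ∈ H.TT) :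
    (4 : ℤ) • T = 0 := by
  rcases H.mem_TT.mp hT with rfl | rfl
  · simp
  · have h := H.two_zero
    have h5 : (4 : ℤ) • Point.some 0 0 H.nonsingular_zero =
        (Point.some 0 0 H.nonsingular_zero + Point.some 0 0 H.nonsingular_zero) +
          (Point.some 0 0 H.nonsingular_zero + Point.some 0 0 H.nonsingular_zero) := by
      rw [show (4 : ℤ) = 2 + 2 by norm_num, add_zsmul, two_zsmul]
    rw [h5, h, add_zero]

/-- if there are no points of odd order then all points are in `TT` -/
lemma Half.all_TT {W : Affine F} {a b : F} (H : Half W a b)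
    (hn : ∀ P : W.Point, ∃ n : ℕ, Odd n ∧ n • P ∈ H.TT)
    (hodd : ∀ (P : W.Point) (n : ℕ), Odd n → n • P = 0 → P = 0) {x y : F}
    (h : W.Nonsingular x y) : x = 0 := by
  obtain ⟨n, hn, hP⟩ := hn (Point.some x y h)
  rcases H.mem_TT.mp hP with h1 | h1
  · exact absurd (hodd _ n hn h1) (Point.some_ne_zero _)
  · have h2 : n • (Point.some x y h + Point.some 0 0 H.nonsingular_zero) = 0 := by
      obtain ⟨k, rfl⟩ := hn
      have h3 : (2 * k + 1) • Point.some 0 0 H.nonsingular_zero =
          Point.some 0 0 H.nonsingular_zero := by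
        rw [add_nsmul, mul_comm, mul_nsmul, two_nsmul]
        have h4 : k • Point.some 0 0 H.nonsingular_zero + k • Point.some 0 0 H.nonsingular_zero = 0 := by
          rw [← nsmul_add, H.two_zero, nsmul_zero]
        rw [h4, zero_add, one_nsmul]
      rw [nsmul_add, h1, h3, H.two_zero]
    have h5 := hodd _ n hn h2
    have h6 := eq_neg_of_add_eq_zero_left h5
    rw [neg_eq_of_add_eq_zero_right H.two_zero] at h6
    exact (Point.some.inj h6).1

end Pool.Agent.M7
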