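import Pool.Agent.M7.Basic

/-! # The isogenies of degree 7 and 2 between curves of conductor 49 (helper33)

`fiso x = x M²/(49 κ²)` with `κ = kap x`, `M = mm x`, is the isogeny of degree 7 from
`y² = x (x² - 147 x + 5488)` to `y² = c (c² + 21 c + 112)`; doubling on the first curve is
`x ↦ x' = u²/(4 x q)`, `u = x² - 5488`, `q = x² - 147 x + 5488`.

PROOF of `fiso_double`. Put `w = 4 x q`,
`S = x⁶ - 196 x⁵ + 16464 x⁴ - 1075648 x³ + 90354432 x² - 5903156224 x + 165288374272`,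
`W = u⁶ - 392 u⁴ w + 38416 u² w² - 1075648 w³`. Polynomial identities in `x` (checked by computer
algebra): `u⁶ - 196 u⁴ w + 10976 u² w² - 153664 w³ = κ M S`, `x² M⁴ - 112 (49 κ²)² = u W`,
`x² M⁴ + 21 x M² (49 κ²) + 112 (49 κ²)² = q S²`.
As `x' w = u²`: `kap x' * w³ = κ M S` (so `M, S ≠ 0` by `hk'`), `mm x' * w³ = W`, hence
`fiso x' = u² W²/(w * 49 κ² M² S²)`, `fiso² - 112 = u W/(49 κ²)²`,
`fiso² + 21 fiso + 112 = q S²/(49 κ²)²`, and the claim is a monomial identity.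
PROOF of `fiso_pos`: `x > 0`. PROOF of `phi_double`: `x₃ = (x² + 294 x - 343)/(4 x)`,
`x₃² - 147 x₃ + 5488 = ((x² + 343)/(4 x))²`. -/

namespace Pool.Agent.M7

variable {F : Type*} [Field F]

def kap (x : F) : F := x ^ 3 - 196 * x ^ 2 + 10976 * x - 153664

def mm (x : F) : F := x ^ 3 - 392 * x ^ 2 + 38416 * x - 1075648

def fiso (x : F) : F := x * mm x ^ 2 / (49 * kap x ^ 2)

/-- the sextic `S` of the header -/
private def isoS (x : F) : F :=
  x ^ 6 - 196 * x ^ 5 + 16464 * x ^ 4 - 1075648 * x ^ 3 + 90354432 * x ^ 2 - 5903156224 * x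
    + 165288374272

/-- the polynomial `W` of the header -/
private def isoW (u w : F) : F :=
  u ^ 6 - 392 * u ^ 4 * w + 38416 * u ^ 2 * w ^ 2 - 1075648 * w ^ 3

private lemma iso_id1 (x : F) :
    (x ^ 2 - 5488) ^ 6 - 196 * (x ^ 2 - 5488) ^ 4 * (4 * (x * (x ^ 2 - 147 * x + 5488)))
      + 10976 * (x ^ 2 - 5488) ^ 2 * (4 * (x * (x ^ 2 - 147 * x + 5488))) ^ 2
      - 153664 * (4 * (x * (x ^ 2 - 147 * x + 5488))) ^ 3 = kap x * mm x * isoS x := by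
  unfold kap mm isoS; ring

private lemma iso_id2 (x : F) :
    x ^ 2 * mm x ^ 4 - 112 * (49 * kap x ^ 2) ^ 2 =
      (x ^ 2 - 5488) * isoW (x ^ 2 - 5488) (4 * (x * (x ^ 2 - 147 * x + 5488))) := by
  unfold isoW kap mm; ring

private lemma iso_id3 (x : F) :
    x ^ 2 * mm x ^ 4 + 21 * x * mm x ^ 2 * (49 * kap x ^ 2) + 112 * (49 * kap x ^ 2) ^ 2 =
      (x ^ 2 - 147 * x + 5488) * isoS x ^ 2 := by
  unfold kap mm isoS; ring

lemma fiso_double [CharZero F] {x x' : F} (hx : x ≠ 0) (hq : x ^ 2 - 147 * x + 5488 ≠ 0)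
    (hk : kap x ≠ 0) (hk' : kap x' ≠ 0)
    (h : x' * (4 * (x * (x ^ 2 - 147 * x + 5488))) = (x ^ 2 - 5488) ^ 2) :
    fiso x' * (4 * (fiso x * (fiso x ^ 2 + 21 * fiso x + 112))) = (fiso x ^ 2 - 112) ^ 2 := by
  have h4 : (4 : F) ≠ 0 := by norm_num
  have h49 : (49 : F) ≠ 0 := by norm_num
  have i1 := iso_id1 x
  have i2 := iso_id2 x
  have i3 := iso_id3 x
  have hw : 4 * (x * (x ^ 2 - 147 * x + 5488)) ≠ 0 := mul_ne_zero h4 (mul_ne_zero hx hq)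
  have hwq : 4 * (x * (x ^ 2 - 147 * x + 5488)) = 4 * x * (x ^ 2 - 147 * x + 5488) := by ring
  generalize hu : x ^ 2 - 5488 = u at *
  generalize hw' : 4 * (x * (x ^ 2 - 147 * x + 5488)) = w at *
  generalize hqq : x ^ 2 - 147 * x + 5488 = q at *
  have hK : kap x' * w ^ 3 = kap x * mm x * isoS x := by
    rw [← i1]
    have : kap x' * w ^ 3 = (x' * w) ^ 3 - 196 * (x' * w) ^ 2 * w + 10976 * (x' * w) * w ^ 2
        - 153664 * w ^ 3 := by unfold kap; ring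
    rw [this, h]; ring
  have hM : mm x' * w ^ 3 = isoW u w := by
    have : mm x' * w ^ 3 = (x' * w) ^ 3 - 392 * (x' * w) ^ 2 * w + 38416 * (x' * w) * w ^ 2
        - 1075648 * w ^ 3 := by unfold mm; ring
    rw [this, h]; unfold isoW; ring
  have hne : kap x * mm x * isoS x ≠ 0 := by
    rw [← hK]; exact mul_ne_zero hk' (pow_ne_zero 3 hw)
  have hm : mm x ≠ 0 := fun h0 => hne (by rw [h0]; ring)
  have hS : isoS x ≠ 0 := fun h0 => hne (by rw [h0]; ring)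
  have hD : 49 * kap x ^ 2 ≠ 0 := mul_ne_zero h49 (pow_ne_zero 2 hk)
  have e1 : fiso x ^ 2 - 112 = u * isoW u w / (49 * kap x ^ 2) ^ 2 := by
    rw [← i2]; unfold fiso; field_simp
  have e2 : fiso x ^ 2 + 21 * fiso x + 112 = q * isoS x ^ 2 / (49 * kap x ^ 2) ^ 2 := by
    rw [← i3]; unfold fiso; field_simp
  have e3 : fiso x' = u ^ 2 * isoW u w ^ 2 / (w * (49 * (kap x * mm x * isoS x) ^ 2)) := by
    rw [← hK, ← hM, ← h]; unfold fiso; field_simp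
  rw [e1, e2, e3]
  unfold fiso
  rw [hwq]
  generalize kap x = k at *
  generalize mm x = m at *
  generalize isoS x = S at *
  have hx4 : 4 * x * q ≠ 0 := mul_ne_zero (mul_ne_zero h4 hx) hq
  generalize isoW u w = W
  field_simp

lemma fiso_ne [CharZero F] {x : F} (hx : x ≠ 0) (hk : kap x ≠ 0) (hm : mm x ≠ 0) : fiso x ≠ 0 := by
  unfold fiso
  exact div_ne_zero (mul_ne_zero hx (pow_ne_zero 2 hm)) (mul_ne_zero (by norm_num)
    (pow_ne_zero 2 hk))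

lemma fiso_pos [CharZero F] (φ : F →+* ℝ) {x : F} (hx : 0 < φ x) (hk : kap x ≠ 0) (hm : mm x ≠ 0) :
    0 < φ (fiso x) := by
  unfold fiso
  rw [map_div₀, map_mul, map_mul, map_pow, map_pow, map_ofNat]
  have h1 : φ (kap x) ≠ 0 := (map_ne_zero φ).mpr hk
  have h2 : φ (mm x) ≠ 0 := (map_ne_zero φ).mpr hm
  positivity

/-- the isogeny of degree 2 and doubling -/
lemma phi_double [CharZero F] {x x' : F} (hx : x ≠ 0) (hx' : x' ≠ 0)
    (hq : x ^ 2 + 294 * x - 343 ≠ 0) (hq' : x ^ 2 + 343 ≠ 0)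
    (h : x' * (4 * (x * (x ^ 2 + 294 * x - 343))) = (x ^ 2 + 343) ^ 2) :
    (x' ^ 2 + 294 * x' - 343) / (4 * x') * (4 * ((x ^ 2 + 294 * x - 343) / (4 * x) *
      (((x ^ 2 + 294 * x - 343) / (4 * x)) ^ 2 - 147 * ((x ^ 2 + 294 * x - 343) / (4 * x)) +
        5488))) = (((x ^ 2 + 294 * x - 343) / (4 * x)) ^ 2 - 5488) ^ 2 := by
  have h4 : (4 : F) ≠ 0 := by norm_num
  have hw : 4 * (x * (x ^ 2 + 294 * x - 343)) ≠ 0 := mul_ne_zero h4 (mul_ne_zero hx hq)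
  have hx'e : x' = (x ^ 2 + 343) ^ 2 / (4 * (x * (x ^ 2 + 294 * x - 343))) := by
    rw [eq_div_iff hw]; exact h
  have i1 : ((x ^ 2 + 294 * x - 343) / (4 * x)) ^ 2 - 147 * ((x ^ 2 + 294 * x - 343) / (4 * x)) + 5488
      = (x ^ 2 + 343) ^ 2 / (4 * x) ^ 2 := by
    field_simp
    ring
  have i2 : (x ^ 2 + 343) ^ 4 + 1176 * (x * (x ^ 2 + 294 * x - 343)) * (x ^ 2 + 343) ^ 2
      - 5488 * (x * (x ^ 2 + 294 * x - 343)) ^ 2
      = ((x ^ 2 + 294 * x - 343) ^ 2 - 5488 * (4 * x) ^ 2) ^ 2 := by ring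
  have i3 : ((x ^ 2 + 294 * x - 343) / (4 * x)) ^ 2 - 5488
      = ((x ^ 2 + 294 * x - 343) ^ 2 - 5488 * (4 * x) ^ 2) / (4 * x) ^ 2 := by
    field_simp
  rw [i1, i3, div_pow, ← i2, hx'e]
  generalize x ^ 2 + 294 * x - 343 = p at *
  generalize x ^ 2 + 343 = P at *
  field_simp
  ring

end Pool.Agent.M7
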