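import Pool.Agent.M7.Hyp
import Pool.Agent.H42M.NoOdd

/-! # No periodic points of doubling on `y ^ 2 = c (c ^ 2 + 21 c + 112)` (helper33)

Compare `Pool/Agent/H42M/NoOdd.lean`. `q = c² + 21 c + 112`, `n = c² - 112`, doubling is
`c ↦ n²/(4 c q)`.

PROOF of `le_of_periodic7` (write `c = c 0`, suppose `V q < V n`).
(1) `V 7 < 1`: `V 2 = V 3 = 1`, `V 112 = V 7`, `V 21 = V 7`. `V 7 ≠ V c ^ 2` by `h7`. If
`V 7 < V c ^ 2` then `V (21 c) < V c ^ 2` (`V 7 < V c`: clear if `1 ≤ V c`, otherwise `V c ^ 2 < V c`), so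
`V q = V c ^ 2 = V n`. If `V c ^ 2 < V 7` then `V c < 1`, `V (21 c) < V 7`, `V q = V 7 = V n`.
(2) `V 7 = 1`, `V 2 = 1`: `V 112 = 1`. `V c > 1`: `V q = V c ^ 2 = V n`. `V c < 1`: `V q = 1 ≥ V n`.
`V c = 1`: `V q < 1`. `V n = 1`: otherwise `n - q = -7 (3 c + 32)` gives `V (3 c + 32) < 1`, and
`9 n = (3 c + 32) (3 c - 32) + 16` gives `V 16 < 1`. So `V (c 1) * V q = 1`, `V (c 1) > 1`.
(3) `V 7 = 1`, `V 2 < 1`: `V 112 = V 16`, `V 21 = 1`. `V c > 1`: `V q = V c ^ 2 = V n`. `V c = 1`:
`V n = 1`, `V (c 1) * V 4 * V q = 1`, `V (c 1) > 1`. `V 16 < V c < 1`: `V q = V c` (`V (c + 21) = 1`),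
`V n ≤ V c`. `V c ≤ V 16`: `V n = V 16`, `V q ≤ V 16`, `V (c 1) * V 4 * V c * V q = V 16 ^ 2`,
`V (c 1) > 1`.
In the cases with `V (c 1) > 1`: `V (c k) > 1` implies `V n = V q = V (c k) ^ 2`,
`V (c (k + 1)) * V 4 = V (c k)`, so `V (c (k + 1)) > 1`; contradiction to `c (m * 2) = c 0`,
`V (c 0) ≤ 1`. (If `V 2 = V 7 = 1` or `V 2 < 1` the hypothesis `h7` is not used.)
PROOF of `no_periodic7`. As `H42M.no_periodic`, with `σ = n/q`, integral and in all real embeddings
(`c > 0`) of absolute value less than 1; `n ≠ 0` since `c 1 ≠ 0`, `q ≠ 0` (real embedding). -/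

namespace Pool.Agent.M7

open WithZero NumberField IsDedekindDomain Pool.Agent.H42M

section local_

variable {K : Type*} [Field K] [CharZero K] (V : Valuation K ℤᵐ⁰)

omit [CharZero K] in
private lemma oe_mul_eq_one {a b : ℤᵐ⁰} (ha : a ≤ 1) (hb : b ≤ 1) (h : a * b = 1) :
    a = 1 ∧ b = 1 := by
  constructor
  · apply le_antisymm ha
    rw [← h]
    calc a * b ≤ a * 1 := by gcongr
      _ = a := mul_one a
  · apply le_antisymm hb
    rw [← h]
    calc a * b ≤ 1 * b := by gcongr
      _ = b := one_mul b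

private lemma oe_gt_one {x y z : ℤᵐ⁰} (hz : z ≠ 0) (h : x * y = z) (hy : y < z) : 1 < x := by
  by_contra hle
  push Not at hle
  have : z ≤ y := by
    rw [← h]
    calc x * y ≤ 1 * y := by gcongr
      _ = y := one_mul y
  exact absurd hy (not_lt.mpr this)

omit [CharZero K] in
private lemma oe_six (h7 : V (7 : K) < 1) : V (2 : K) = 1 ∧ V (3 : K) = 1 := by
  have l2 : V (2 : K) ≤ 1 := by exact_mod_cast V_nat_le V 2
  have l3 : V (3 : K) ≤ 1 := by exact_mod_cast V_nat_le V 3
  apply oe_mul_eq_one l2 l3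
  rw [← map_mul]
  have h1 : (2 * 3 : K) = 7 + -1 := by norm_num
  rw [h1]
  exact add_left V (by rw [Valuation.map_neg, map_one]) h7

private lemma oe_pole {c : ℕ → K}
    (hrec : ∀ k, c (k + 1) * (4 * (c k * (c k ^ 2 + 21 * c k + 112))) = (c k ^ 2 - 112) ^ 2)
    {k : ℕ} (h : 1 < V (c k)) : 1 < V (c (k + 1)) ∧ V (c k ^ 2 + 21 * c k + 112) = V (c k) ^ 2 ∧
      V (c k ^ 2 - 112) = V (c k) ^ 2 := by
  have l21 : V (21 : K) ≤ 1 := by exact_mod_cast V_nat_le V 21
  have l112 : V (112 : K) ≤ 1 := by exact_mod_cast V_nat_le V 112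
  have l4 : V (4 : K) ≤ 1 := by exact_mod_cast V_nat_le V 4
  set β := V (c k) with hβ
  have hβ0 : 0 < β := zero_lt_one.trans h
  have hβ2 : 1 < β ^ 2 := one_lt_pow₀ h two_ne_zero
  have e1 : V (c k ^ 2 + 21 * c k) = β ^ 2 := by
    refine add_right V (by rw [map_pow]) ?_
    rw [map_mul, ← hβ, pow_two]
    calc V (21 : K) * β ≤ 1 * β := by gcongr
      _ < β * β := by
        gcongr
  have e2 : V (c k ^ 2 + 21 * c k + 112) = β ^ 2 := add_right V e1 (l112.trans_lt hβ2)
  have e3 : V (c k ^ 2 - 112) = β ^ 2 := by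
    rw [sub_eq_add_neg]
    refine add_right V (by rw [map_pow]) ?_
    rw [Valuation.map_neg]
    exact l112.trans_lt hβ2
  refine ⟨?_, e2, e3⟩
  have e4 := congrArg V (hrec k)
  rw [map_mul, map_mul, map_mul, map_pow, e2, e3, ← hβ] at e4
  have e5 : β * β * β ≠ 0 := by positivity
  have e6 : V (c (k + 1)) * V 4 * (β * β * β) = β * (β * β * β) := by
    calc V (c (k + 1)) * V 4 * (β * β * β) = V (c (k + 1)) * (V 4 * (β * β ^ 2)) := by
          rw [pow_two]; ac_rfl
      _ = (β ^ 2) ^ 2 := e4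
      _ = β * (β * β * β) := by rw [pow_two, pow_two]; ac_rfl
  have e7 := mul_right_cancel₀ e5 e6
  by_contra hle
  push Not at hle
  have e8 : β ≤ 1 := by
    rw [← e7]
    exact mul_le_one' hle l4
  exact absurd h (not_lt.mpr e8)

lemma le_of_periodic7
    (h7 : V (7 : K) < 1 → ¬ IsSquare (V (7 : K))) {c : ℕ → K} (hc : ∀ k, c k ≠ 0)
    (hq : ∀ k, c k ^ 2 + 21 * c k + 112 ≠ 0)
    (hrec : ∀ k, c (k + 1) * (4 * (c k * (c k ^ 2 + 21 * c k + 112))) = (c k ^ 2 - 112) ^ 2)
    {m : ℕ} (hm : 0 < m) (hper : ∀ k, c (k + m) = c k) :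
    V (c 0 ^ 2 - 112) ≤ V (c 0 ^ 2 + 21 * c 0 + 112) := by
  by_contra hlt
  push Not at hlt
  have l2 : V (2 : K) ≤ 1 := by exact_mod_cast V_nat_le V 2
  have l7 : V (7 : K) ≤ 1 := by exact_mod_cast V_nat_le V 7
  have l21 : V (21 : K) ≤ 1 := by exact_mod_cast V_nat_le V 21
  have l9 : V (9 : K) ≤ 1 := by exact_mod_cast V_nat_le V 9
  have l32 : V (32 : K) ≤ 1 := by exact_mod_cast V_nat_le V 32
  have l3 : V (3 : K) ≤ 1 := by exact_mod_cast V_nat_le V 3
  have l112 : V (112 : K) ≤ 1 := by exact_mod_cast V_nat_le V 112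
  have l4 : V (4 : K) ≤ 1 := by exact_mod_cast V_nat_le V 4
  have e112 : V (112 : K) = V 2 ^ 4 * V 7 := by rw [← map_pow, ← map_mul]; norm_num
  have ha1 : V (c 0) ≤ 1 := by
    by_contra h
    push Not at h
    obtain ⟨-, h2, h3⟩ := oe_pole V hrec h
    rw [h2, h3] at hlt
    exact lt_irrefl _ hlt
  have hc1 : ¬ 1 < V (c 1) := by
    intro h
    have hall : ∀ k, 1 < V (c (1 + k)) := by
      intro k
      induction k with
      | zero => exact h
      | succ k ih => exact (oe_pole V hrec ih).1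
    have h3 := hper 0
    rw [zero_add] at h3
    obtain ⟨k, hk⟩ : ∃ k, m = 1 + k := ⟨m - 1, by omega⟩
    rw [hk] at h3
    have h4 := hall k
    rw [h3] at h4
    exact absurd h4 (not_lt.mpr ha1)
  have hrV := congrArg V (hrec 0)
  rw [map_mul, map_mul, map_mul, map_pow, zero_add] at hrV
  have ha0 : V (c 0) ≠ 0 := (V.ne_zero_iff).mpr (hc 0)
  have haz : 0 < V (c 0) := zero_lt_iff.mpr ha0
  have hQ0 : V (c 0 ^ 2 + 21 * c 0 + 112) ≠ 0 := (V.ne_zero_iff).mpr (hq 0)
  have h20 : V (2 : K) ≠ 0 := (V.ne_zero_iff).mpr (by norm_num)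
  have h2z : 0 < V (2 : K) := zero_lt_iff.mpr h20
  have h70 : V (7 : K) ≠ 0 := (V.ne_zero_iff).mpr (by norm_num)
  have h7z : 0 < V (7 : K) := zero_lt_iff.mpr h70
  have hN : V (c 0 ^ 2 - 112) ≤ 1 := by
    refine (V.map_sub _ _).trans (max_le ?_ l112)
    rw [map_pow]
    exact pow_le_one₀ zero_le ha1
  rcases lt_or_eq_of_le l7 with h7lt | h7eq
  · -- `V 7 < 1`
    obtain ⟨v2, v3⟩ := oe_six V h7lt
    have v112 : V (112 : K) = V 7 := by rw [e112, v2, one_pow, one_mul]
    have v21 : V (21 : K) = V 7 := by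
      have : (21 : K) = 3 * 7 := by norm_num
      rw [this, map_mul, v3, one_mul]
    have hns := h7 h7lt
    rcases lt_trichotomy (V (7 : K)) (V (c 0) ^ 2) with h | h | h
    · have e1 : V (c 0 ^ 2 + 21 * c 0) = V (c 0) ^ 2 := by
        refine add_right V (by rw [map_pow]) ?_
        rw [map_mul, v21]
        calc V (7 : K) * V (c 0) ≤ V 7 * 1 := by gcongr
          _ = V 7 := mul_one _
          _ < V (c 0) ^ 2 := h
      have e2 : V (c 0 ^ 2 + 21 * c 0 + 112) = V (c 0) ^ 2 :=
        add_right V e1 (by rw [v112]; exact h)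
      have e3 : V (c 0 ^ 2 - 112) = V (c 0) ^ 2 := by
        rw [sub_eq_add_neg]
        refine add_right V (by rw [map_pow]) ?_
        rw [Valuation.map_neg, v112]
        exact h
      rw [e2, e3] at hlt
      exact lt_irrefl _ hlt
    · exact hns ⟨V (c 0), by rw [h, pow_two]⟩
    · have ha : V (c 0) < 1 := by
        rcases lt_or_eq_of_le ha1 with h1 | h1
        · exact h1
        · rw [h1, one_pow] at h
          exact absurd h7lt (not_lt.mpr h.le)
      have e1 : V (c 0 ^ 2 + 21 * c 0) < V 7 := by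
        refine (V.map_add _ _).trans_lt (max_lt (by rw [map_pow]; exact h) ?_)
        rw [map_mul, v21]
        calc V (7 : K) * V (c 0) < V 7 * 1 := by gcongr
          _ = V 7 := mul_one _
      have e2 : V (c 0 ^ 2 + 21 * c 0 + 112) = V 7 := add_left V v112 e1
      have e3 : V (c 0 ^ 2 - 112) = V 7 := by
        rw [sub_eq_add_neg]
        exact add_left V (by rw [Valuation.map_neg, v112]) (by rw [map_pow]; exact h)
      rw [e2, e3] at hlt
      exact lt_irrefl _ hlt
  · rcases lt_or_eq_of_le l2 with h2lt | h2eq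
    · -- `V 2 < 1`
      have v21 : V (21 : K) = 1 := by
        have := V_odd V (n := 21) (by decide) h2lt
        exact_mod_cast this
      have v112 : V (112 : K) = V 2 ^ 4 := by rw [e112, h7eq, mul_one]
      have v4 : V (4 : K) < 1 := by
        rw [V_four_eq]
        exact pow_lt_one₀ zero_le h2lt two_ne_zero
      have t4 : V (2 : K) ^ 4 < 1 := pow_lt_one₀ zero_le h2lt (by norm_num)
      have t40 : V (2 : K) ^ 4 ≠ 0 := pow_ne_zero 4 h20
      have t4z : 0 < V (2 : K) ^ 4 := zero_lt_iff.mpr t40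
      rcases lt_or_eq_of_le ha1 with ha | ha
      · have e21 : V (c 0 + 21) = 1 := add_left V v21 ha
        have e1 : V (c 0 ^ 2 + 21 * c 0) = V (c 0) := by
          have : c 0 ^ 2 + 21 * c 0 = c 0 * (c 0 + 21) := by ring
          rw [this, map_mul, e21, mul_one]
        have ha2 : V (c 0) ^ 2 ≤ V (c 0) := by
          rw [pow_two]
          calc V (c 0) * V (c 0) ≤ V (c 0) * 1 := by gcongr
            _ = V (c 0) := mul_one _
        rcases lt_or_ge (V (2 : K) ^ 4) (V (c 0)) with h | h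
        · have e2 : V (c 0 ^ 2 + 21 * c 0 + 112) = V (c 0) :=
            add_right V e1 (by rw [v112]; exact h)
          have e3 : V (c 0 ^ 2 - 112) ≤ V (c 0) := by
            refine (V.map_sub _ _).trans (max_le (by rw [map_pow]; exact ha2) ?_)
            rw [v112]; exact h.le
          rw [e2] at hlt
          exact absurd hlt (not_lt.mpr e3)
        · have e3 : V (c 0 ^ 2 - 112) = V 2 ^ 4 := by
            rw [sub_eq_add_neg]
            refine add_left V (by rw [Valuation.map_neg, v112]) ?_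
            rw [map_pow, pow_two]
            calc V (c 0) * V (c 0) < V (c 0) * 1 := by gcongr
              _ = V (c 0) := mul_one _
              _ ≤ V 2 ^ 4 := h
          rw [e3] at hlt hrV
          apply hc1
          refine oe_gt_one (z := (V 2 ^ 4) ^ 2) (pow_ne_zero 2 t40) hrV ?_
          calc V 4 * (V (c 0) * V (c 0 ^ 2 + 21 * c 0 + 112))
              ≤ 1 * (V 2 ^ 4 * V (c 0 ^ 2 + 21 * c 0 + 112)) := by gcongr
            _ = V 2 ^ 4 * V (c 0 ^ 2 + 21 * c 0 + 112) := one_mul _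
            _ < V 2 ^ 4 * V 2 ^ 4 := by gcongr
            _ = (V 2 ^ 4) ^ 2 := by rw [pow_two (V (2 : K) ^ 4)]
      · have e3 : V (c 0 ^ 2 - 112) = 1 := by
          rw [sub_eq_add_neg]
          refine add_right V (by rw [map_pow, ha, one_pow]) ?_
          rw [Valuation.map_neg, v112]
          exact t4
        rw [e3] at hlt hrV
        apply hc1
        refine oe_gt_one (z := (1 : ℤᵐ⁰) ^ 2) (by simp) hrV ?_
        rw [ha, one_mul, one_pow]
        calc V 4 * V (c 0 ^ 2 + 21 * c 0 + 112)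
            ≤ 1 * V (c 0 ^ 2 + 21 * c 0 + 112) := by gcongr
          _ = V (c 0 ^ 2 + 21 * c 0 + 112) := one_mul _
          _ < 1 := hlt
    · -- `V 2 = V 7 = 1`
      have v112 : V (112 : K) = 1 := by rw [e112, h7eq, h2eq, one_pow, one_mul]
      have v4 : V (4 : K) = 1 := by rw [V_four_eq, h2eq, one_pow]
      have v16 : V (16 : K) = 1 := by rw [V_sixteen_eq, h2eq, one_pow]
      rcases lt_or_eq_of_le ha1 with ha | ha
      · have e1 : V (c 0 ^ 2 + 21 * c 0) < 1 := by
          refine (V.map_add _ _).trans_lt (max_lt ?_ ?_)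
          · rw [map_pow]; exact pow_lt_one₀ zero_le ha two_ne_zero
          · rw [map_mul]
            calc V (21 : K) * V (c 0) ≤ 1 * V (c 0) := by gcongr
              _ = V (c 0) := one_mul _
              _ < 1 := ha
        have e2 : V (c 0 ^ 2 + 21 * c 0 + 112) = 1 := add_left V v112 e1
        rw [e2] at hlt
        exact absurd hlt (not_lt.mpr hN)
      · have hQ1 : V (c 0 ^ 2 + 21 * c 0 + 112) < 1 := hlt.trans_le hN
        have hN1 : V (c 0 ^ 2 - 112) = 1 := by
          rcases lt_or_eq_of_le hN with h | h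
          · exfalso
            have h1 : V (7 * (3 * c 0 + 32)) < 1 := by
              have : (7 * (3 * c 0 + 32) : K) = (c 0 ^ 2 + 21 * c 0 + 112) - (c 0 ^ 2 - 112) := by
                ring
              rw [this]
              exact (V.map_sub _ _).trans_lt (max_lt hQ1 h)
            rw [map_mul, h7eq, one_mul] at h1
            have h2 : V (3 * c 0 - 32) ≤ 1 := by
              refine (V.map_sub _ _).trans (max_le ?_ l32)
              rw [map_mul, ha, mul_one]
              exact l3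
            have h3 : V (16 : K) < 1 := by
              have : (16 : K) = 9 * (c 0 ^ 2 - 112) - (3 * c 0 + 32) * (3 * c 0 - 32) := by ring
              rw [this]
              refine (V.map_sub _ _).trans_lt (max_lt ?_ ?_)
              · rw [map_mul]
                calc V (9 : K) * V (c 0 ^ 2 - 112) ≤ 1 * V (c 0 ^ 2 - 112) := by gcongr
                  _ = V (c 0 ^ 2 - 112) := one_mul _
                  _ < 1 := h
              · rw [map_mul]
                calc V (3 * c 0 + 32) * V (3 * c 0 - 32) ≤ V (3 * c 0 + 32) * 1 := by gcongr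
                  _ = V (3 * c 0 + 32) := mul_one _
                  _ < 1 := h1
            rw [v16] at h3
            exact lt_irrefl _ h3
          · exact h
        rw [hN1] at hrV
        apply hc1
        refine oe_gt_one (z := (1 : ℤᵐ⁰) ^ 2) (by simp) hrV ?_
        rw [ha, one_mul, one_pow, v4, one_mul]
        exact hQ1

end local_

theorem no_periodic7 {F : Type*} [Field F] [NumberField F] [IsTotallyReal F] (h7 : Nonsplit F 7)
    {c : ℕ → F} (hc : ∀ k, c k ≠ 0)
    (hrec : ∀ k, c (k + 1) * (4 * (c k * (c k ^ 2 + 21 * c k + 112))) = (c k ^ 2 - 112) ^ 2)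
    (hpos : ∀ φ : F →+* ℝ, 0 < φ (c 0)) {m : ℕ} (hm : 0 < m) (hper : ∀ k, c (k + m) = c k) :
    False := by
  have hposk : ∀ k, ∀ φ : F →+* ℝ, 0 < φ (c k) := by
    intro k
    induction k with
    | zero => exact hpos
    | succ k ih =>
      intro φ
      have h1 := ih φ
      have h2 := congrArg φ (hrec k)
      simp only [map_mul, map_add, map_sub, map_pow, map_ofNat] at h2
      have h3 : 0 < 4 * (φ (c k) * (φ (c k) ^ 2 + 21 * φ (c k) + 112)) := by positivity
      have h4 : 0 ≤ φ (c (k + 1)) * (4 * (φ (c k) * (φ (c k) ^ 2 + 21 * φ (c k) + 112))) := by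
        rw [h2]; positivity
      have h5 : 0 ≤ φ (c (k + 1)) := nonneg_of_mul_nonneg_left h4 h3
      exact lt_of_le_of_ne h5 ((map_ne_zero φ).mpr (hc (k + 1))).symm
  obtain ⟨φ₀⟩ : Nonempty (F →+* ℝ) := exists_real F
  have hq : ∀ k, c k ^ 2 + 21 * c k + 112 ≠ 0 := by
    intro k h0
    have h1 := congrArg φ₀ h0
    simp only [map_mul, map_add, map_pow, map_ofNat, map_zero] at h1
    have h2 := hposk k φ₀
    have h3 : 0 < φ₀ (c k) ^ 2 + 21 * φ₀ (c k) + 112 := by positivity
    exact h3.ne' h1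
  have hn : c 0 ^ 2 - 112 ≠ 0 := by
    intro h0
    have h1 := hrec 0
    rw [h0] at h1
    have h2 : c (0 + 1) * (4 * (c 0 * (c 0 ^ 2 + 21 * c 0 + 112))) ≠ 0 :=
      mul_ne_zero (hc _) (mul_ne_zero (by norm_num) (mul_ne_zero (hc 0) (hq 0)))
    apply h2; rw [h1]; ring
  set σ : F := (c 0 ^ 2 - 112) / (c 0 ^ 2 + 21 * c 0 + 112) with hσ
  have hσ0 : σ ≠ 0 := div_ne_zero hn (hq 0)
  obtain ⟨z, hz⟩ := HeightOneSpectrum.mem_integers_of_valuation_le_one (R := 𝓞 F) F σ (fun v => by
    rw [hσ, map_div₀]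
    exact div_le_one_of_le₀ (le_of_periodic7 (v.valuation F) (v7 h7 v) hc hq hrec hm hper) zero_le)
  have hz0 : z ≠ 0 := by
    rintro rfl; rw [map_zero] at hz; exact hσ0 hz.symm
  -- real places
  have hreal : ∀ w : InfinitePlace F, w (algebraMap (𝓞 F) F z) < 1 := by
    intro w
    rw [hz]
    set φ := InfinitePlace.embedding_of_isReal (IsTotallyReal.isReal w) with hφ
    have hw : ∀ x : F, w x = |φ x| := fun x => by
      rw [hφ, ← InfinitePlace.norm_embedding_of_isReal (IsTotallyReal.isReal w), Real.norm_eq_abs]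
    have hp := hpos φ
    rw [hσ, map_div₀, hw, hw]
    simp only [map_mul, map_add, map_sub, map_pow, map_ofNat]
    have h7 : 0 < φ (c 0) ^ 2 + 21 * φ (c 0) + 112 := by positivity
    rw [abs_of_pos h7, div_lt_one h7, abs_lt]
    constructor <;> nlinarith
  obtain ⟨w⟩ : Nonempty (InfinitePlace F) := inferInstance
  have h1 := InfinitePlace.one_le_of_lt_one (w := w) hz0 (fun w' _ => hreal w')
  exact absurd (hreal w) (not_lt.mpr h1)

end Pool.Agent.M7
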