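import Pool.Agent.M7.Fin
import Pool.Agent.M7.OddE1
import Pool.Agent.M7.Iso

/-! # No points of odd order on the two curves of conductor 49 (helper33) -/

namespace Pool.Agent.M7

open NumberField WeierstrassCurve WeierstrassCurve.Affine Pool.Agent.H42M

section

variable {F : Type*} [Field F] [NumberField F] [DecidableEq F]

/-- the orbit of a point of odd order under doubling -/
lemma Half.orbit {W : Affine F} {a b : F} (H : Half W a b)
    {P : W.Point} {n : ℕ} (hn : Odd n) (hP : n • P = 0) (hP0 : P ≠ 0) :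
    ∃ (x y : ℕ → F) (m : ℕ), 0 < m ∧ (∀ k, y k ≠ 0) ∧
      (∀ k, y k ^ 2 = x k * (x k ^ 2 + a * x k + b)) ∧
      (∀ k, x (k + 1) * (4 * y k ^ 2) = (x k ^ 2 - b) ^ 2) ∧
      (∀ k, x (k + m) = x k) := by
  have hcop : ∀ k : ℕ, Nat.Coprime (2 ^ k) n := fun k =>
    Nat.Coprime.pow_left k (Nat.coprime_two_left.mpr hn)
  have hk0 : ∀ k : ℕ, 2 ^ k • P ≠ 0 := by
    intro k hk
    have h1 := addOrderOf_dvd_of_nsmul_eq_zero hk
    have h2 := addOrderOf_dvd_of_nsmul_eq_zero hP
    have h3 := Nat.dvd_gcd h1 h2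
    rw [hcop k, Nat.dvd_one] at h3
    exact hP0 (AddMonoid.addOrderOf_eq_one_iff.mp h3)
  have hex : ∀ k : ℕ, ∃ (x y : F) (h : W.Nonsingular x y), 2 ^ k • P = Point.some x y h := by
    intro k
    rcases h : (2 ^ k • P) with _ | ⟨x, y, h'⟩
    · exact absurd h (hk0 k)
    · exact ⟨x, y, h', rfl⟩
  choose x y h hxy using hex
  have hdbl : ∀ k, Point.some (x k) (y k) (h k) + Point.some (x k) (y k) (h k) =
      Point.some (x (k + 1)) (y (k + 1)) (h (k + 1)) := by
    intro k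
    rw [← hxy, ← hxy, ← add_nsmul]
    congr 1
    rw [pow_succ]; ring
  have hy : ∀ k, y k ≠ 0 := by
    intro k hyk
    have h1 : Point.some (x k) (y k) (h k) + Point.some (x k) (y k) (h k) = 0 := by
      refine Point.add_self_of_Y_eq ?_
      rw [negY, H.a₁, H.a₃, hyk]; ring
    rw [hdbl, ← hxy] at h1
    exact hk0 _ h1
  have hm : 0 < Nat.totient n := Nat.totient_pos.mpr hn.pos
  have hpow : 2 ^ Nat.totient n ≡ 1 [MOD n] :=
    Nat.ModEq.pow_totient (Nat.coprime_two_left.mpr hn)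
  have hper : ∀ k, 2 ^ (k + Nat.totient n) • P = 2 ^ k • P := by
    intro k
    have h1 : 1 ≤ 2 ^ Nat.totient n := Nat.one_le_two_pow
    obtain ⟨j, hj⟩ := (Nat.modEq_iff_dvd' h1).mp hpow.symm
    have h2 : 2 ^ (k + Nat.totient n) = 2 ^ k + 2 ^ k * j * n := by
      rw [pow_add]
      have : 2 ^ Nat.totient n = n * j + 1 := by omega
      rw [this]; ring
    rw [h2, add_nsmul, mul_nsmul P (2 ^ k * j) n]
    have h4 : n • ((2 ^ k * j) • P) = 0 := by
      rw [nsmul_left_comm, hP, nsmul_zero]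
    rw [h4, add_zero]
  refine ⟨x, y, Nat.totient n, hm, hy, fun k => H.eq (h k), fun k => ?_, fun k => ?_⟩
  · obtain ⟨x', y', h', hadd, h3⟩ := H.double (h k) (hy k)
    rw [hdbl, Point.some.injEq] at hadd
    rw [hadd.1]
    exact h3
  · have hsome : Point.some (x (k + Nat.totient n)) (y (k + Nat.totient n))
      (h (k + Nat.totient n)) = Point.some (x k) (y k) (h k) := by
        rw [← hxy, ← hxy, hper]
    rw [Point.some.injEq] at hsome
    exact hsome.1

end

section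

variable {F : Type*} [Field F] [NumberField F]

/-- no positive periodic sequences -/
lemma no_periodic_E3 [IsTotallyReal F] (H : Hyp7 F) {x : ℕ → F} {m : ℕ} (hm : 0 < m)
    (hx : ∀ k, x k ≠ 0) (hq : ∀ k, x k ^ 2 - 147 * x k + 5488 ≠ 0)
    (hrec : ∀ k, x (k + 1) * (4 * (x k * (x k ^ 2 - 147 * x k + 5488))) = (x k ^ 2 - 5488) ^ 2)
    (hpos : ∀ φ : F →+* ℝ, 0 < φ (x 0)) (hper : ∀ k, x (k + m) = x k) : False := by
  have hk : ∀ k, kap (x k) ≠ 0 := fun k => kap_ne H.cub (x k)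
  have hmm : ∀ k, mm (x k) ≠ 0 := fun k => mm_ne H.cub (x k)
  refine no_periodic7 (F := F) H.seven (c := fun k => fiso (x k))
    (fun k => fiso_ne (hx k) (hk k) (hmm k)) (fun k => ?_)
    (fun φ => fiso_pos φ (hpos φ) (hk 0) (hmm 0)) hm (fun k => by simp only [hper])
  exact fiso_double (hx k) (hq k) (hk k) (hk (k + 1)) (hrec k)

variable [DecidableEq F]

theorem odd3 [IsTotallyReal F] (H : Hyp7 F) {P : (E3⁄F).Point} {n : ℕ} (hn : Odd n)
    (hP : n • P = 0) : P = 0 := by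
  by_contra hP0
  obtain ⟨x, y, m, hm, hy, he, hrec, hper⟩ := half_E3.orbit hn hP hP0
  have he' : ∀ k, y k ^ 2 = x k * (x k ^ 2 - 147 * x k + 5488) := fun k => by
    rw [he k]; ring
  have h0 : ∀ k, x k * (x k ^ 2 - 147 * x k + 5488) ≠ 0 := fun k => by
    rw [← he']; exact pow_ne_zero 2 (hy k)
  refine no_periodic_E3 H hm (x := x) (fun k => left_ne_zero_of_mul (h0 k))
    (fun k => right_ne_zero_of_mul (h0 k)) (fun k => ?_) (fun φ => ?_) hper
  · rw [← he', hrec k]
  · have h1 := congrArg φ (he' 0)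
    rw [map_pow, map_mul, map_add, map_sub, map_pow, map_mul, map_ofNat, map_ofNat] at h1
    have h2 : φ (y 0) ≠ 0 := (map_ne_zero φ).mpr (hy 0)
    have h3 : 0 < φ (y 0) ^ 2 := by positivity
    rw [h1] at h3
    have h4 : 0 < φ (x 0) ^ 2 - 147 * φ (x 0) + 5488 := by
      nlinarith [sq_nonneg (φ (x 0) - 147 / 2)]
    exact (pos_iff_pos_of_mul_pos h3).mpr h4

theorem odd4 [IsTotallyReal F] (H : Hyp7 F) {P : (E4⁄F).Point} {n : ℕ} (hn : Odd n)
    (hP : n • P = 0) : P = 0 := by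
  by_contra hP0
  obtain ⟨x, y, m, hm, hy, he, hrec, hper⟩ := half_E4.orbit hn hP hP0
  have he' : ∀ k, y k ^ 2 = x k * (x k ^ 2 + 294 * x k - 343) := fun k => by
    rw [he k]; ring
  have h0 : ∀ k, x k * (x k ^ 2 + 294 * x k - 343) ≠ 0 := fun k => by
    rw [← he']; exact pow_ne_zero 2 (hy k)
  have hx : ∀ k, x k ≠ 0 := fun k => left_ne_zero_of_mul (h0 k)
  have hq : ∀ k, x k ^ 2 + 294 * x k - 343 ≠ 0 := fun k => right_ne_zero_of_mul (h0 k)
  obtain ⟨φ₀⟩ := H.real
  have hs : ∀ k, x k ^ 2 + 343 ≠ 0 := by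
    intro k h1
    have h2 := congrArg φ₀ h1
    rw [map_add, map_pow, map_ofNat, map_zero] at h2
    nlinarith [sq_nonneg (φ₀ (x k))]
  have h4 : (4 : F) ≠ 0 := by norm_num
  set X : ℕ → F := fun k => (x k ^ 2 + 294 * x k - 343) / (4 * x k) with hX
  have hX0 : ∀ k, X k ≠ 0 := fun k => div_ne_zero (hq k) (mul_ne_zero h4 (hx k))
  have hXy : ∀ k, X k * (2 * x k) ^ 2 = y k ^ 2 := by
    intro k
    have := hx k
    rw [he' k, hX]
    field_simp
    ring
  refine no_periodic_E3 H hm (x := X) hX0 (fun k h1 => ?_) (fun k => ?_) (fun φ => ?_)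
    (fun k => by simp only [hX, hper])
  · have h2 : (X k ^ 2 - 147 * X k + 5488) * (4 * x k) ^ 2 = (x k ^ 2 + 343) ^ 2 := by
      have := hx k
      rw [hX]
      field_simp
      ring
    rw [h1, zero_mul] at h2
    exact pow_ne_zero 2 (hs k) h2.symm
  · exact phi_double (hx k) (hx (k + 1)) (hq k) (hs k) (by rw [← he', hrec k]; ring)
  · have h1 := congrArg φ (hXy 0)
    rw [map_mul, map_pow, map_pow, map_mul, map_ofNat] at h1
    have h2 : φ (y 0) ≠ 0 := (map_ne_zero φ).mpr (hy 0)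
    have h3 : 0 < φ (y 0) ^ 2 := by positivity
    have h5 : φ (x 0) ≠ 0 := (map_ne_zero φ).mpr (hx 0)
    rw [← h1] at h3
    exact (pos_iff_pos_of_mul_pos h3).mpr (by positivity)

end

/-- the points of `y² = x (x² - 147 x + 5488)` -/
theorem pts3 {F : Type*} [Field F] [NumberField F] [IsTotallyReal F] (H : Hyp7 F) :
    ∀ x y : F, y ^ 2 = x * (x ^ 2 - 147 * x + 5488) → x = 0 := by
  classical
  intro x y h
  refine half_E3.all_TT (finite_of_step' E3 _ (fun T hT => half_E3.four_TT hT) (step3 H))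
    (fun P n hn hP => odd3 H hn hP) (x := x) (y := y) (half_E3.nonsingular (by rw [h]; ring))

/-- the points of `y² = x (x² + 294 x - 343)` -/
theorem pts4 {F : Type*} [Field F] [NumberField F] [IsTotallyReal F] (H : Hyp7 F) :
    ∀ x y : F, y ^ 2 = x * (x ^ 2 + 294 * x - 343) → x = 0 := by
  classical
  intro x y h
  refine half_E4.all_TT (finite_of_step' E4 _ (fun T hT => half_E4.four_TT hT) (step4 H))
    (fun P n hn hP => odd4 H hn hP) (x := x) (y := y) (half_E4.nonsingular (by rw [h]; ring))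

end Pool.Agent.M7
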