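import Pool.Agent.H42M.NoOdd

/-! # No periodic points of doubling on `Y ^ 2 = c (c + 9) (c + 16)` (helper33)

PROOF. Copy `Pool/Agent/H42M/NoOdd.lean` with `(25, 16, 20, 5, 4, 40, 400, 1600, 100)` replaced by
`(9, 16, 12, 3, 4, 24, 144, 576, 36)`: doubling is `c ↦ (c² - 144)²/(4 c (c + 9) (c + 16))`.
Suppose `ε = V (c 0 + 12) < V (c 0 - 12)`. Then `V (c 0 - 12) = V 24`, `V (c 0) = V 12`,
`V (c 0 + 9) = V 3` (`c + 9 = (c + 12) - 3`), `V (c 0 + 16) = V 4`, `4 * 12 * 3 * 4 = 24²`, so
`V (c 1) = ε² < V 576`; `V (c 1 + 9) = V 9`, `V (c 1 + 16) = V 16`, `V (c 1² - 144) = V 144`,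
`V (c 2) V (c 1) = V 36`; `V (c 2) ≤ 1` would give `V 576 ≤ V 36 ≤ V (c 1)`; so `V (c 2) > 1` and the
pole persists. -/

namespace Pool.Agent.M7

open WithZero NumberField IsDedekindDomain Pool.Agent.H42M

lemma le_of_periodic21 {K : Type*} [Field K] [CharZero K] (V : Valuation K ℤᵐ⁰) {c : ℕ → K}
    (hc : ∀ k, c k * (c k + 9) * (c k + 16) ≠ 0)
    (hrec : ∀ k, c (k + 1) * (4 * (c k * (c k + 9) * (c k + 16))) = (c k ^ 2 - 144) ^ 2)
    {m : ℕ} (hm : 0 < m) (hper : ∀ k, c (k + m) = c k) :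
    V (c 0 - 12) ≤ V (c 0 + 12) := by
  by_contra hlt
  push Not at hlt
  have n4 : V (4 : K) ≠ 0 := (V.ne_zero_iff).mpr (by norm_num)
  have n1600 : 0 < V (576 : K) := zero_lt_iff.mpr ((V.ne_zero_iff).mpr (by norm_num))
  have l4 : V (4 : K) ≤ 1 := by exact_mod_cast V_nat_le V 4
  have l16 : V (16 : K) ≤ 1 := by exact_mod_cast V_nat_le V 16
  have l20 : V (12 : K) ≤ 1 := by exact_mod_cast V_nat_le V 12
  have l25 : V (9 : K) ≤ 1 := by exact_mod_cast V_nat_le V 9
  have l400 : V (144 : K) ≤ 1 := by exact_mod_cast V_nat_le V 144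
  have l1600 : V (576 : K) ≤ 1 := by exact_mod_cast V_nat_le V 576
  have l40_20 : V (24 : K) ≤ V 12 := by
    have := V_mul_le V (K := K) 12 2; norm_num at this; exact this
  have l40_5 : V (24 : K) ≤ V 3 := by
    have := V_mul_le V (K := K) 3 8; norm_num at this; exact this
  have l40_4 : V (24 : K) ≤ V 4 := by
    have := V_mul_le V (K := K) 4 6; norm_num at this; exact this
  have l40 : V (24 : K) ≤ 1 := by exact_mod_cast V_nat_le V 24
  have l1600_25 : V (576 : K) ≤ V 9 := by
    have := V_mul_le V (K := K) 9 64; norm_num at this; exact this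
  have l1600_16 : V (576 : K) ≤ V 16 := by
    have := V_mul_le V (K := K) 16 36; norm_num at this; exact this
  have l1600_400 : V (576 : K) ≤ V 144 := by
    have := V_mul_le V (K := K) 144 4; norm_num at this; exact this
  -- step 0
  set ε := V (c 0 + 12) with hε
  have h40 : V (c 0 - 12) = V 24 := by
    have h1 : (24 : K) = (c 0 + 12) + -(c 0 - 12) := by ring
    rw [h1]
    have h2 := add_left V (a := c 0 + 12) (b := -(c 0 - 12)) (g := V (c 0 - 12))
      (Valuation.map_neg _ _) hlt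
    exact h2.symm
  rw [h40] at hlt
  have hA : V (c 0) = V 12 := by
    have h1 : c 0 = (c 0 + 12) + -12 := by ring
    rw [h1]
    exact add_left V (Valuation.map_neg _ _) (hlt.trans_le l40_20)
  have hB : V (c 0 + 9) = V 3 := by
    have h1 : c 0 + 9 = (c 0 + 12) + -3 := by ring
    rw [h1]
    exact add_left V (Valuation.map_neg _ _) (hlt.trans_le l40_5)
  have hC : V (c 0 + 16) = V 4 := by
    have h1 : c 0 + 16 = (c 0 + 12) + 4 := by ring
    rw [h1]
    exact add_left V rfl (hlt.trans_le l40_4)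
  have h1 : V (c 1) = ε ^ 2 := by
    have h2 := congrArg V (hrec 0)
    rw [map_mul, map_mul, map_mul, map_mul, hA, hB, hC, map_pow,
      show c 0 ^ 2 - 144 = (c 0 - 12) * (c 0 + 12) by ring, map_mul, h40, mul_pow] at h2
    have h3 : V (4 : K) * (V 12 * V 3 * V 4) = V 24 ^ 2 := by
      rw [← map_mul, ← map_mul, ← map_mul, ← map_pow]; norm_num
    rw [h3, mul_comm] at h2
    have h4 : V (24 : K) ^ 2 ≠ 0 := by
      rw [← map_pow]; exact (V.ne_zero_iff).mpr (by norm_num)
    exact mul_left_cancel₀ h4 h2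
  -- step 1
  have hε2 : V (c 1) < V 576 := by
    rw [h1, show (576 : K) = 24 ^ 2 by norm_num, map_pow]
    exact pow_lt_pow_left₀ hlt zero_le two_ne_zero
  have hB1 : V (c 1 + 9) = V 9 := add_left V rfl (hε2.trans_le l1600_25)
  have hC1 : V (c 1 + 16) = V 16 := add_left V rfl (hε2.trans_le l1600_16)
  have hD1 : V (c 1 ^ 2 - 144) = V 144 := by
    rw [sub_eq_add_neg]
    refine add_left V (Valuation.map_neg _ _) ?_
    rw [map_pow, pow_two]
    calc V (c 1) * V (c 1) ≤ V (c 1) * 1 := by gcongr; exact (hε2.trans_le l1600).le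
      _ < V 144 := by rw [mul_one]; exact hε2.trans_le l1600_400
  have h2 : 1 < V (c 2) := by
    by_contra hle
    push Not at hle
    have h3 := congrArg V (hrec 1)
    rw [map_mul, map_mul, map_mul, map_mul, hB1, hC1, map_pow, hD1] at h3
    have h4 : V (144 : K) ^ 2 ≤ V (c 1) := by
      rw [← h3]
      calc V (c (1 + 1)) * (V 4 * (V (c 1) * V 9 * V 16))
          ≤ 1 * (1 * (V (c 1) * 1 * 1)) := by gcongr
        _ = V (c 1) := by simp
    have h6 : V (144 : K) ^ 2 = V 576 * V 36 := by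
      rw [← map_pow, ← map_mul]; norm_num
    have h7 : V (c (1 + 1)) * (V 4 * (V (c 1) * V 9 * V 16)) = V (c (1 + 1)) * V (c 1) * V 576 := by
      have : V (576 : K) = V 4 * V 9 * V 16 := by rw [← map_mul, ← map_mul]; norm_num
      rw [this]; ac_rfl
    rw [h7, h6, mul_comm (V (576 : K)) (V 36)] at h3
    have h8 := mul_right_cancel₀ n1600.ne' h3
    -- `V (c 2) * V (c 1) = V 36`
    have h9 : V (36 : K) ≤ V (c 1) := by
      rw [← h8]
      calc V (c (1 + 1)) * V (c 1) ≤ 1 * V (c 1) := by gcongr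
        _ = V (c 1) := one_mul _
    have h10 : V (576 : K) ≤ V 36 := by
      have := V_mul_le V (K := K) 36 16; norm_num at this; exact this
    exact absurd (h10.trans h9) (not_le.mpr hε2)
  -- the pole persists
  have hpole : ∀ k, 1 < V (c (2 + k)) := by
    intro k
    induction k with
    | zero => exact h2
    | succ k ih =>
      set β := V (c (2 + k)) with hβ
      have hβ0 : 0 < β := zero_lt_one.trans ih
      have e1 : V (c (2 + k) + 9) = β := add_right V rfl (l25.trans_lt ih)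
      have e2 : V (c (2 + k) + 16) = β := add_right V rfl (l16.trans_lt ih)
      have e3 : V (c (2 + k) ^ 2 - 144) = β ^ 2 := by
        rw [sub_eq_add_neg]
        refine add_right V (by rw [map_pow]) ?_
        rw [Valuation.map_neg]
        exact l400.trans_lt (one_lt_pow₀ ih two_ne_zero)
      have e4 := congrArg V (hrec (2 + k))
      rw [map_mul, map_mul, map_mul, map_mul, map_pow, e1, e2, e3, ← hβ] at e4
      have e5 : β * β * β ≠ 0 := by positivity
      have e6 : V (c (2 + k + 1)) * V 4 * (β * β * β) = β * (β * β * β) := by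
        calc V (c (2 + k + 1)) * V 4 * (β * β * β) = V (c (2 + k + 1)) * (V 4 * (β * β * β)) := by
              rw [mul_assoc]
          _ = (β ^ 2) ^ 2 := e4
          _ = β * (β * β * β) := by rw [pow_two, pow_two]; ac_rfl
      have e7 := mul_right_cancel₀ e5 e6
      by_contra hle
      push Not at hle
      have e8 : β ≤ 1 := by
        rw [← e7]
        exact mul_le_one' hle l4
      exact absurd ih (not_lt.mpr e8)
  -- contradiction with periodicity
  have hper2 : ∀ j, c (m * j) = c 0 := by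
    intro j
    induction j with
    | zero => simp
    | succ j ih => rw [Nat.mul_succ, hper, ih]
  have h3 := hper2 2
  obtain ⟨k, hk⟩ : ∃ k, m * 2 = 2 + k := ⟨m * 2 - 2, by omega⟩
  rw [hk] at h3
  have h4 := hpole k
  rw [h3, hA] at h4
  exact absurd h4 (not_lt.mpr l20)

theorem no_periodic21 {F : Type*} [Field F] [NumberField F] [IsTotallyReal F] {c Y : ℕ → F}
    (hY : ∀ k, Y k ≠ 0) (hcY : ∀ k, Y k ^ 2 = c k * (c k + 9) * (c k + 16))
    (hrec : ∀ k, c (k + 1) * (4 * Y k ^ 2) = (c k ^ 2 - 144) ^ 2)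
    {m : ℕ} (hm : 0 < m) (hper : ∀ k, c (k + m) = c k) : False := by
  have hc : ∀ k, c k * (c k + 9) * (c k + 16) ≠ 0 := fun k => by
    rw [← hcY]; exact pow_ne_zero _ (hY k)
  have hc0 : ∀ k, c k ≠ 0 := fun k => left_ne_zero_of_mul (left_ne_zero_of_mul (hc k))
  have hrec' : ∀ k, c (k + 1) * (4 * (c k * (c k + 9) * (c k + 16))) = (c k ^ 2 - 144) ^ 2 :=
    fun k => by rw [← hcY, hrec]
  have hne : c 0 ^ 2 - 144 ≠ 0 := by
    intro h0
    have h1 := hrec 0
    rw [h0] at h1
    have h2 : c (0 + 1) * (4 * Y 0 ^ 2) ≠ 0 :=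
      mul_ne_zero (hc0 _) (mul_ne_zero (by norm_num) (pow_ne_zero _ (hY 0)))
    apply h2; rw [h1]; ring
  have hp20 : c 0 + 12 ≠ 0 := by
    intro h0; apply hne; linear_combination (c 0 - 12) * h0
  have hm20 : c 0 - 12 ≠ 0 := by
    intro h0; apply hne; linear_combination (c 0 + 12) * h0
  set σ : F := (c 0 - 12) / (c 0 + 12) with hσ
  have hσ0 : σ ≠ 0 := div_ne_zero hm20 hp20
  obtain ⟨z, hz⟩ := HeightOneSpectrum.mem_integers_of_valuation_le_one (R := 𝓞 F) F σ (fun v => by
    rw [hσ, map_div₀]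
    exact div_le_one_of_le₀ (le_of_periodic21 (v.valuation F) hc hrec' hm hper) zero_le)
  have hz0 : z ≠ 0 := by
    rintro rfl; rw [map_zero] at hz; exact hσ0 hz.symm
  -- real places
  have hreal : ∀ w : InfinitePlace F, w (algebraMap (𝓞 F) F z) < 1 := by
    intro w
    rw [hz]
    set φ := InfinitePlace.embedding_of_isReal (IsTotallyReal.isReal w) with hφ
    have hw : ∀ x : F, w x = |φ x| := fun x => by
      rw [hφ, ← InfinitePlace.norm_embedding_of_isReal (IsTotallyReal.isReal w), Real.norm_eq_abs]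
    have hpos : 0 < φ (c 0) := by
      obtain ⟨j, hj⟩ : ∃ j, m = j + 1 := ⟨m - 1, by omega⟩
      have h1 := hper 0
      rw [zero_add, hj] at h1
      have h2 := congrArg φ (hrec j)
      rw [h1, map_mul, map_mul, map_pow, map_pow, map_ofNat] at h2
      have h3 : φ (Y j) ≠ 0 := (map_ne_zero φ).mpr (hY j)
      have h4 : 0 < 4 * φ (Y j) ^ 2 := by positivity
      have h5 : 0 ≤ φ (c 0) * (4 * φ (Y j) ^ 2) := by rw [h2]; positivity
      have h6 : 0 ≤ φ (c 0) := nonneg_of_mul_nonneg_left h5 h4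
      exact lt_of_le_of_ne h6 ((map_ne_zero φ).mpr (hc0 0)).symm
    rw [hσ, map_div₀, hw, hw, map_sub, map_add, map_ofNat]
    have h7 : 0 < |φ (c 0) + 12| := abs_pos.mpr (by linarith)
    rw [div_lt_one h7, abs_of_pos (show 0 < φ (c 0) + 12 by linarith), abs_lt]
    constructor <;> linarith
  obtain ⟨w⟩ : Nonempty (InfinitePlace F) := inferInstance
  have h1 := InfinitePlace.one_le_of_lt_one (w := w) hz0 (fun w' _ => hreal w')
  exact absurd (hreal w) (not_lt.mpr h1)

end Pool.Agent.M7
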