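import Pool.Agent.M7.Step21
import Pool.Agent.M7.NoOdd21

/-! # The points of the curve of conductor 21 (helper33) -/

namespace Pool.Agent.M7

open NumberField WeierstrassCurve WeierstrassCurve.Affine Pool.Agent.H42M

section

variable {F : Type*} [Field F] [NumberField F] [DecidableEq F]

theorem odd21 [IsTotallyReal F] {P : (E21⁄F).Point} {n : ℕ} (hn : Odd n) (hP : n • P = 0) :
    P = 0 := by
  by_contra hP0
  obtain ⟨x, y, m, hm, hy, he, hrec, -, hper, -⟩ := orbit full_E21 hn hP hP0
  refine no_periodic21 (F := F) (c := fun k => (x k - 75) / 9) (Y := fun k => y k / 27)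
    (fun k => div_ne_zero (hy k) (by norm_num)) (fun k => ?_) (fun k => ?_) hm
    (fun k => by simp only [hper])
  · simp only [div_pow, he]; ring
  · have h1 := hrec k
    simp only [div_pow]
    have h2 : (x (k + 1) - 75) / 9 * (4 * (y k ^ 2 / 27 ^ 2)) =
        ((x (k + 1) - 75) * (4 * y k ^ 2)) / 6561 := by ring
    rw [h2, h1]
    ring

theorem four_E21 [IsTotallyReal F] (H : Hyp7 F) (h3 : Nonsplit F 3) (P : (E21⁄F).Point) :
    (4 : ℤ) • P = 0 := by
  obtain ⟨-, h2⟩ := finite_of_step E21 (step21 H h3)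
  obtain ⟨n, hn, hP⟩ := h2 P
  exact four_smul hn (mem_G0.mp hP).2 fun Q hQ => odd21 hn hQ

end

/-- the points of `Y² = X (X + 9) (X + 16)` -/
theorem pts21 {F : Type*} [Field F] [NumberField F] [IsTotallyReal F] (H : Hyp7 F)
    (h3 : Nonsplit F 3) :
    ∀ X Y : F, Y ^ 2 = X * (X + 9) * (X + 16) →
      X = 0 ∨ X = -9 ∨ X = -16 ∨ X = 12 ∨ X = -12 := by
  classical
  intro X Y hXY
  have h : (E21⁄F).Nonsingular (9 * X + 75) (27 * Y) :=
    full_E21.nonsingular (by linear_combination 729 * hXY)
  obtain ⟨φ⟩ := H.real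
  rcases halves full_E21 h (four_E21 H h3 _) with hy | h1 | h2 | h4
  · have hY0 : Y = 0 := by linear_combination hy / 27
    rw [hY0, zero_pow two_ne_zero] at hXY
    rcases mul_eq_zero.mp hXY.symm with h5 | h5
    · rcases mul_eq_zero.mp h5 with h5 | h5
      · exact Or.inl h5
      · exact Or.inr (Or.inl (by linear_combination h5))
    · exact Or.inr (Or.inr (Or.inl (by linear_combination h5)))
  · -- `(X + 9)² = -63`
    exfalso
    have h5 : (X + 9) ^ 2 = -63 := by linear_combination h1 / 81
    have h6 := congrArg φ h5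
    rw [map_pow, map_neg, map_ofNat] at h6
    nlinarith [sq_nonneg (φ (X + 9))]
  · -- `(X + 16)² = 112`
    exfalso
    have h5 : (X + 16) ^ 2 = 112 := by linear_combination h2 / 81
    have h6 : Y ^ 2 = (X + 16) * (224 - 23 * (X + 16)) := by
      rw [hXY]
      linear_combination (X + 16) * h5
    have h7 := congrArg φ h5
    have h8 := congrArg φ h6
    rw [map_pow, map_ofNat] at h7
    rw [map_pow, map_mul, map_sub, map_mul, map_ofNat, map_ofNat] at h8
    set z := φ (X + 16) with hz
    have h9 : 0 ≤ z * (224 - 23 * z) := by rw [← h8]; positivity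
    nlinarith [sq_nonneg (z - 10)]
  · have h5 : (X - 12) * (X + 12) = 0 := by linear_combination h4 / 81
    rcases mul_eq_zero.mp h5 with h5 | h5
    · exact Or.inr (Or.inr (Or.inr (Or.inl (by linear_combination h5))))
    · exact Or.inr (Or.inr (Or.inr (Or.inr (by linear_combination h5))))

end Pool.Agent.M7
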