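import Pool.Agent.M7.Mat7
import Pool.Agent.M7.Frame7
import Pool.Agent.M7.Red7
import Pool.Agent.M7.OutD
import Pool.Agent.M7.OutE
import Pool.Agent.M7.Stab7
import Pool.Agent.M7.Pts7c
import Pool.Agent.M7.Three
import Pool.Agent.M7.AlgB3
import Pool.Agent.M7.AlgS3
import Pool.Agent.M7.Odd34
import Pool.Agent.M7.Pts21

/-! # Assembly (helper33) -/

namespace Pool.Agent.M7

open NumberField WeierstrassCurve WeierstrassCurve.Affine Pool.Agent.H42M

section general

variable {F K : Type*} [Field F] [CharZero F] [Field K] [CharZero K] [IsAlgClosed K]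
  [DecidableEq K] [Algebra F K] [IsGalois F K]

lemma jrel (W : WeierstrassCurve F) [W.IsElliptic] : JRel (-27 * W.c₄) (-54 * W.c₆) W.j := by
  refine ⟨disc_ne_zero W, ?_⟩
  have hrel := W.c_relation
  have hj : W.j * W.Δ = W.c₄ ^ 3 := by
    rw [WeierstrassCurve.j, ← W.coe_Δ', mul_comm, ← mul_assoc, Units.mul_inv, one_mul]
  linear_combination (78732 * W.j) * hrel - 136048896 * hj

lemma JRel.map {A B j : F} (h : JRel A B j) :
    JRel (algebraMap F K A) (algebraMap F K B) (algebraMap F K j) := by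
  obtain ⟨h1, h2⟩ := h
  refine ⟨fun h3 => h1 ?_, ?_⟩
  · apply (algebraMap F K).injective
    simpa only [map_add, map_mul, map_pow, map_ofNat, map_zero] using h3
  · have := congrArg (algebraMap F K) h2
    simpa only [map_add, map_mul, map_pow, map_ofNat] using this

/-- Theorem A: the Galois group of `F(ζ₇)` does not act absolutely irreducibly on `E[7]`. -/
theorem theoremA (hp3 : Pts3 F) (hp4 : Pts4 F) (φ : F →+* ℝ) (h7 : ∀ z : F, z ^ 2 ≠ 7)
    (h14 : ∀ z : F, z ^ 2 ≠ 14) (c : K ≃ₐ[F] K) (hcc : ∀ z, c (c z) = z)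
    (hc7 : ∀ z : K, z ^ 2 = -7 → c z = -z) (W : WeierstrassCurve F) [W.IsElliptic]
    (hirr : (∃ C : AddSubgroup (WeierstrassCurve.Affine.baseChange W K).Point, Nat.card C = 7 ∧
        ∀ σ : K ≃ₐ[F] K, Z7 σ → C.map (act W σ) = C) ∨
      ∀ σ τ : K ≃ₐ[F] K, Z7 σ → Z7 τ →
        ∀ R : (WeierstrassCurve.Affine.baseChange W K).Point, (7 : ℤ) • R = 0 →
          act W σ (act W τ R) = act W τ (act W σ R)) :
    (∃ C : AddSubgroup (WeierstrassCurve.Affine.baseChange W K).Point, Nat.card C = 7 ∧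
      ∀ σ : K ≃ₐ[F] K, C.map (act W σ) = C) ∨
    W.j = 0 ∨ W.j = 1728 ∨ W.j = 2268945 / 128 := by
  by_cases h0 : W.j = 0
  · exact Or.inr (Or.inl h0)
  by_cases h1 : W.j = 1728
  · exact Or.inr (Or.inr (Or.inl h1))
  have hEll : (WeierstrassCurve.Affine.baseChange W K).IsElliptic := by
    rw [WeierstrassCurve.isElliptic_iff]
    have h1 : (WeierstrassCurve.Affine.baseChange W K).Δ = algebraMap F K W.Δ := W.map_Δ _
    rw [h1]
    exact W.isUnit_Δ.map _
  have hc4 : (WeierstrassCurve.Affine.baseChange W K).c₄ = algebraMap F K W.c₄ := W.map_c₄ _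
  have hc6 : (WeierstrassCurve.Affine.baseChange W K).c₆ = algebraMap F K W.c₆ := W.map_c₆ _
  have hj : JRel (-27 * (WeierstrassCurve.Affine.baseChange W K).c₄)
      (-54 * (WeierstrassCurve.Affine.baseChange W K).c₆) (algebraMap F K W.j) := by
    have h2 := (jrel W).map (K := K)
    rw [map_mul, map_mul, map_neg, map_neg, map_ofNat, map_ofNat] at h2
    rw [hc4, hc6]
    exact h2
  have hJ : W.j - 1728 ≠ 0 := sub_ne_zero.mpr h1
  have hJ' : W.j - 1728 ≠ -1728 := by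
    intro h2
    apply h0
    linear_combination h2
  obtain ⟨i, hi, hii, hsub, hcube, hcyc⟩ := exists_zeta F (K := K)
  obtain ⟨m, val, H, hmc, hcomm⟩ := frame7 (W := W) hj h0 h1 c hcc hc7
  have hc2 : c * c = 1 := by
    ext z
    exact hcc z
  have hstab : ∀ {x : K}, G8 (algebraMap F K (W.j - 1728)) x = 0 →
      (∀ σ : K ≃ₐ[F] K, σ x = x) →
      ∃ C : AddSubgroup (WeierstrassCurve.Affine.baseChange W K).Point, Nat.card C = 7 ∧
        ∀ σ : K ≃ₐ[F] K, C.map (act W σ) = C := fun hx hσ => stable_of_fixed hj h0 h1 hx hσ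
  -- the elements of `Z7` commute or there is a stable subgroup
  have hZ : (∃ C : AddSubgroup (WeierstrassCurve.Affine.baseChange W K).Point, Nat.card C = 7 ∧
      ∀ σ : K ≃ₐ[F] K, C.map (act W σ) = C) ∨
      ∀ σ τ : K ≃ₐ[F] K, Z7 σ → Z7 τ → m σ * m τ = m τ * m σ := by
    rcases hirr with ⟨C, hC, hst⟩ | hab
    · obtain ⟨x, hx, hσ⟩ := fixed_of_stable hj Z7 C hC hst
      obtain ⟨x₀, y₀, hne, rfl⟩ := exists_val H hx
      rcases red_line H hne hσ with h2 | h2
      · exact Or.inl (hstab (H.root x₀ y₀ hne) h2)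
      · exact Or.inr h2
    · exact Or.inr fun σ τ hσ hτ => hcomm σ τ (hab σ τ hσ hτ)
  rcases hZ with hZ | hZ
  · exact Or.inl hZ
  rcases red_commute H hsub hcube hcyc hZ with ⟨x, hx, hσ⟩ | hN
  · exact Or.inl (hstab hx hσ)
  rcases outcome_of_commute hJ hJ' H hi hii c hc2 hmc (hc7 i hi) hN with
    ⟨x, hx, hσ⟩ | ⟨x, x', hne, hx, hx', hσ⟩ | ⟨S, T, hS, hT, hST, hxS, hxT, hσ⟩
  · exact Or.inl (hstab hx hσ)
  · right; right; right
    have h2 := outD hp3 φ hJ hi hne hx hx' hσ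
    linear_combination h2
  · exact (outE hp4 φ h7 h14 hJ hJ' hS hT hST hxS hxT hσ).elim

/-- Theorem B -/
theorem theoremB (hp21 : Pts21 F) (φ : F →+* ℝ) (c : K ≃ₐ[F] K)
    (hcc : ∀ z, c (c z) = z) (hc3 : ∀ z : K, z ^ 2 = -3 → c z = -z) (W : WeierstrassCurve F)
    [W.IsElliptic]
    (C : AddSubgroup (WeierstrassCurve.Affine.baseChange W K).Point) (hC : Nat.card C = 7)
    (hst : ∀ σ : K ≃ₐ[F] K, C.map (act W σ) = C)
    (hab : ∀ σ τ : K ≃ₐ[F] K, (∀ z : K, z ^ 2 = -3 → σ z = z ∧ τ z = z) →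
      ∀ R : (WeierstrassCurve.Affine.baseChange W K).Point, R + R = -R →
        act W σ (act W τ R) = act W τ (act W σ R)) :
    W.j = 0 ∨ W.j = 1728 ∨ W.j = 3375 / 2 ∨ W.j = -140625 / 8 ∨
      W.j = -1159088625 / 2097152 ∨ W.j = -189613868625 / 128 ∨
      ∃ s : F, s ^ 2 = 5 ∧ W.j = -58982400 + 26378240 * s := by
  by_cases h0 : W.j = 0
  · exact Or.inl h0
  by_cases h1 : W.j = 1728
  · exact Or.inr (Or.inl h1)
  have hu : ∀ t : F, uu t ≠ 0 := by
    intro t ht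
    have h2 := congrArg φ ht
    unfold uu at h2
    rw [map_add, map_add, map_mul, map_pow, map_ofNat, map_ofNat, map_zero] at h2
    nlinarith [sq_nonneg (φ t + 13 / 2)]
  obtain ⟨t, M, hM, hjt, h4, h6⟩ := borel7 hC hst (jrel W) hu
  rcases three_cases c hcc hc3 W hab with ⟨x, hx⟩ | ⟨u, v, r1, r2⟩
  · rcases coreB3 hp21 (hu t) hM hjt h4 h6 hx with h | h | h | h
    · exact Or.inr (Or.inr (Or.inl h))
    · exact Or.inr (Or.inr (Or.inr (Or.inl h)))
    · exact Or.inr (Or.inr (Or.inr (Or.inr (Or.inl h))))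
    · exact Or.inr (Or.inr (Or.inr (Or.inr (Or.inr (Or.inl h)))))
  · exact Or.inr (Or.inr (Or.inr (Or.inr (Or.inr (Or.inr
      (coreS3' hp21 φ h0 h1 hjt (jrel W) r1 r2))))))

end general

open scoped Classical in
/-- the main theorem -/
theorem main {F : Type*} [Field F] [NumberField F] [IsTotallyReal F]
    (hclass : Odd (classNumber F))
    (hunits : ∀ u : (𝓞 F)ˣ, (∀ φ : F →+* ℝ, 0 < φ (algebraMap (𝓞 F) F u)) → IsSquare u)
    (h7 : ∃ P : Ideal (𝓞 F), P.IsPrime ∧ ∃ k : ℕ, Odd k ∧ Ideal.span {(7 : 𝓞 F)} = P ^ k)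
    (hcub : ∀ x : F, x ^ 3 + x ^ 2 - 2 * x - 1 ≠ 0)
    (W : WeierstrassCurve F) [W.IsElliptic]
    (hirr : (∃ C : AddSubgroup (W⁄(AlgebraicClosure F)).Point, Nat.card C = 7 ∧
        ∀ σ : AlgebraicClosure F ≃ₐ[F] AlgebraicClosure F,
          (∀ z : AlgebraicClosure F, z ^ 7 = 1 → σ z = z) →
          C.map (Point.map (W' := W) (σ : AlgebraicClosure F →ₐ[F] AlgebraicClosure F)) = C) ∨
      ∀ σ τ : AlgebraicClosure F ≃ₐ[F] AlgebraicClosure F,
        (∀ z : AlgebraicClosure F, z ^ 7 = 1 → σ z = z ∧ τ z = z) →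
        ∀ R : (W⁄(AlgebraicClosure F)).Point, 7 • R = 0 →
          Point.map (W' := W) (σ : AlgebraicClosure F →ₐ[F] AlgebraicClosure F)
            (Point.map (W' := W) (τ : AlgebraicClosure F →ₐ[F] AlgebraicClosure F) R) =
          Point.map (W' := W) (τ : AlgebraicClosure F →ₐ[F] AlgebraicClosure F)
            (Point.map (W' := W) (σ : AlgebraicClosure F →ₐ[F] AlgebraicClosure F) R)) :
    ((∃ C : AddSubgroup (W⁄(AlgebraicClosure F)).Point, Nat.card C = 7 ∧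
        ∀ σ : AlgebraicClosure F ≃ₐ[F] AlgebraicClosure F,
          C.map (Point.map (W' := W) (σ : AlgebraicClosure F →ₐ[F] AlgebraicClosure F)) = C) ∨
      W.j = 0 ∨ W.j = 1728 ∨ W.j = 2268945 / 128) ∧
    ((∃ P : Ideal (𝓞 F), P.IsPrime ∧ ∃ k : ℕ, Odd k ∧ Ideal.span {(3 : 𝓞 F)} = P ^ k) →
      (∀ σ τ : AlgebraicClosure F ≃ₐ[F] AlgebraicClosure F,
        (∀ z : AlgebraicClosure F, z ^ 2 = -3 → σ z = z ∧ τ z = z) →
        ∀ R : (W⁄(AlgebraicClosure F)).Point, 3 • R = 0 →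
          Point.map (W' := W) (σ : AlgebraicClosure F →ₐ[F] AlgebraicClosure F)
            (Point.map (W' := W) (τ : AlgebraicClosure F →ₐ[F] AlgebraicClosure F) R) =
          Point.map (W' := W) (τ : AlgebraicClosure F →ₐ[F] AlgebraicClosure F)
            (Point.map (W' := W) (σ : AlgebraicClosure F →ₐ[F] AlgebraicClosure F) R)) →
      W.j = 0 ∨ W.j = 1728 ∨ W.j = 2268945 / 128 ∨ W.j = 3375 / 2 ∨ W.j = -140625 / 8 ∨
        W.j = -1159088625 / 2097152 ∨ W.j = -189613868625 / 128 ∨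
        ∃ s : F, s ^ 2 = 5 ∧ W.j = -58982400 + 26378240 * s) := by
  have H : Hyp7 F := hyp7_mk hclass hunits (by exact_mod_cast h7) hcub
  obtain ⟨φ⟩ := exists_real F
  obtain ⟨c, hcc, hc3, hc7⟩ := exists_conj7 (K := AlgebraicClosure F) φ
  have hA := theoremA (K := AlgebraicClosure F) (pts3 H) (pts4 H) φ (sq_ne_seven H.seven)
    (sq_ne_fourteen H.seven) c hcc hc7 W (by
      rcases hirr with ⟨C, hC, hst⟩ | hab
      · exact Or.inl ⟨C, hC, fun σ hσ => hst σ hσ⟩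
      · refine Or.inr fun σ τ hσ hτ R hR => hab σ τ (fun z hz => ⟨hσ z hz, hτ z hz⟩) R ?_
        rw [← natCast_zsmul]
        exact_mod_cast hR)
  refine ⟨hA, fun h3 hab => ?_⟩
  rcases hA with ⟨C, hC, hst⟩ | h | h | h
  · have hB := theoremB (K := AlgebraicClosure F) (pts21 H (by exact_mod_cast h3)) φ c hcc hc3 W
      C hC hst (fun σ τ h R hR => hab σ τ h R (by
        rw [show (3 : ℕ) • R = R + R + R by abel, hR, neg_add_cancel]))
    rcases hB with h | h | h | h | h | h | h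
    · exact Or.inl h
    · exact Or.inr (Or.inl h)
    · exact Or.inr (Or.inr (Or.inr (Or.inl h)))
    · exact Or.inr (Or.inr (Or.inr (Or.inr (Or.inl h))))
    · exact Or.inr (Or.inr (Or.inr (Or.inr (Or.inr (Or.inl h)))))
    · exact Or.inr (Or.inr (Or.inr (Or.inr (Or.inr (Or.inr (Or.inl h))))))
    · exact Or.inr (Or.inr (Or.inr (Or.inr (Or.inr (Or.inr (Or.inr h))))))
  · exact Or.inl h
  · exact Or.inr (Or.inl h)
  · exact Or.inr (Or.inr (Or.inl h))

end Pool.Agent.M7
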