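import Mathlib

/-! # Addition and halving on curves with one rational point of order 2 (helper33)

Compare `Pool/Agent/H42M/Law.lean` (proofs of the same kind for three points of order 2).

PROOFS. `nonsingular`: `y ≠ 0` clear (`2 y ≠ 0`); if `y = 0` then `x = 0` or `x² + a x + b = 0`, the
derivative `3 x² + 2 a x + b` is `b` resp. `x (2 x + a)`, not 0 (`a² - 4 b ≠ 0`, `b ≠ 0`).
`addT`: `Point.add_of_X_ne`, slope `y/x`, `x₃ = y²/x² - a - x = b/x`.
`half`: `x = r²`, `s² = a + 2 r² + 2 y/r` given as `hy : 2 y = r (s² - a - 2 r²)`. Put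
`X = (s² - a + 2 r s)/2`, `Y = s X`. From `H.eq` (divide by `r²`): `4 (r⁴ + a r² + b) = (s² - a - 2 r²)²`,
so `X ((s² - a) - X) = b`, `X ≠ 0`, `X² + a X + b = s² X`, `Y² = X (X² + a X + b)`. The slope at
`(X, Y)` is `(3 X² + 2 a X + b)/(2 Y) = X (2 X + a + s²)/(2 s X) = r + s`; `addX = (r + s)² - a - 2 X =
r²`, `addY = y`.
`double`: slope `(3 x² + 2 a x + b)/(2 y)`; `x' (4 y²) = (3 x² + 2 a x + b)² - (a + 2 x) 4 y² =
(x² - b)²`. -/

namespace Pool.Agent.M7

open WeierstrassCurve WeierstrassCurve.Affine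

variable {K : Type*} [Field K]

/-- `W` is the curve `y ^ 2 = x (x ^ 2 + a x + b)` -/
structure Half (W : Affine K) (a b : K) : Prop where
  a₁ : W.a₁ = 0
  a₂ : W.a₂ = a
  a₃ : W.a₃ = 0
  a₄ : W.a₄ = b
  a₆ : W.a₆ = 0
  hb : b ≠ 0
  hd : a ^ 2 - 4 * b ≠ 0
  two : (2 : K) ≠ 0

lemma Half.eq {W : Affine K} {a b : K} (H : Half W a b) {x y : K}
    (h : W.Nonsingular x y) : y ^ 2 = x * (x ^ 2 + a * x + b) := by
  have h1 := (W.equation_iff x y).mp h.1
  rw [H.a₁, H.a₂, H.a₃, H.a₄, H.a₆] at h1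
  linear_combination h1

lemma Half.nonsingular {W : Affine K} {a b : K} (H : Half W a b) {x y : K}
    (h : y ^ 2 = x * (x ^ 2 + a * x + b)) : W.Nonsingular x y := by
  rw [W.nonsingular_iff, W.equation_iff, H.a₁, H.a₂, H.a₃, H.a₄, H.a₆]
  refine ⟨by linear_combination h, ?_⟩
  by_cases hy : y = 0
  · left
    intro h0
    rw [hy] at h h0
    have h1 : x * (x ^ 2 + a * x + b) = 0 := by rw [← h]; ring
    have h2 : 3 * x ^ 2 + 2 * a * x + b = 0 := by linear_combination -h0
    rcases mul_eq_zero.mp h1 with h1 | h1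
    · rw [h1] at h2
      exact H.hb (by linear_combination h2)
    · have h3 : x * (2 * x + a) = 0 := by linear_combination h2 - h1
      rcases mul_eq_zero.mp h3 with h3 | h3
      · rw [h3] at h1
        exact H.hb (by linear_combination h1)
      · exact H.hd (by linear_combination (2 * x + a) * h3 - 4 * h1)
  · right
    intro h0
    apply hy
    have h1 : 2 * y = 0 := by linear_combination h0
    exact (mul_eq_zero.mp h1).resolve_left H.two

lemma Half.nonsingular_zero {W : Affine K} {a b : K} (H : Half W a b) : W.Nonsingular 0 0 :=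
  H.nonsingular (by ring)

variable [DecidableEq K]

lemma Half.two_zero {W : Affine K} {a b : K} (H : Half W a b) :
    Point.some 0 0 H.nonsingular_zero + Point.some 0 0 H.nonsingular_zero = 0 := by
  refine Point.add_of_Y_eq rfl ?_
  rw [negY, H.a₁, H.a₃]
  ring

lemma Half.addT {W : Affine K} {a b : K} (H : Half W a b) {x y : K} (h : W.Nonsingular x y)
    (hx : x ≠ 0) : ∃ (y' : K) (h' : W.Nonsingular (b / x) y'),
      Point.some x y h + Point.some 0 0 H.nonsingular_zero = Point.some (b / x) y' h' := by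
  have e1 := H.eq h
  have hX : W.addX x 0 (W.slope x 0 y 0) = b / x := by
    have hsl : W.slope x 0 y 0 * x = y := by
      rw [slope_of_X_ne hx, sub_zero, sub_zero, div_mul_cancel₀ _ hx]
    rw [addX, H.a₁, H.a₂, eq_div_iff hx]
    set l := W.slope x 0 y 0
    apply mul_left_cancel₀ hx
    linear_combination (l * x + y) * hsl + e1
  have hadd := Point.add_of_X_ne (h₁ := h) (h₂ := H.nonsingular_zero) hx
  refine ⟨W.addY x 0 y (W.slope x 0 y 0), hX ▸ nonsingular_add h H.nonsingular_zero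
    (fun hxy => hx hxy.1), ?_⟩
  rw [hadd, Point.some.injEq]
  exact ⟨hX, rfl⟩

lemma Half.half {W : Affine K} {a b : K} (H : Half W a b) {x y r s : K} (h : W.Nonsingular x y)
    (hx : x = r ^ 2) (hr : r ≠ 0) (hs : s ≠ 0) (hy : 2 * y = r * (s ^ 2 - a - 2 * r ^ 2)) :
    ∃ Q : W.Point, Point.some x y h = Q + Q := by
  have e1 := H.eq h
  have h2 := H.two
  obtain ⟨X, hX⟩ : ∃ X, 2 * X = s ^ 2 - a + 2 * r * s :=
    ⟨(s ^ 2 - a + 2 * r * s) / 2, by field_simp⟩
  have h4 : (4 : K) ≠ 0 := by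
    have : (4 : K) = 2 * 2 := by norm_num
    rw [this]; exact mul_ne_zero h2 h2
  have hb : b = X * (s ^ 2 - a - X) := by
    have h5 : (4 * r ^ 2) * (b - X * (s ^ 2 - a - X)) = 0 := by
      subst hx
      linear_combination (-4 : K) * e1 + (2 * y + r * (s ^ 2 - a - 2 * r ^ 2)) * hy
        + (r ^ 2 * (2 * X - 2 * (s ^ 2 - a) + s ^ 2 - a + 2 * r * s)) * hX
    have h6 := (mul_eq_zero.mp h5).resolve_left (mul_ne_zero h4 (pow_ne_zero 2 hr))
    linear_combination h6
  have hX0 : X ≠ 0 := by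
    intro h0
    exact H.hb (by rw [hb, h0]; ring)
  set Y := s * X with hY
  have hY0 : Y ≠ 0 := mul_ne_zero hs hX0
  have h0 : W.Nonsingular X Y := H.nonsingular (by rw [hY, hb]; ring)
  have hne : Y ≠ W.negY X Y := by
    intro h1
    rw [negY, H.a₁, H.a₃] at h1
    have h2 : 2 * Y = 0 := by linear_combination h1
    exact hY0 ((mul_eq_zero.mp h2).resolve_left H.two)
  have hsl : W.slope X X Y Y = r + s := by
    rw [slope_of_Y_ne rfl hne, negY, H.a₁, H.a₂, H.a₃, H.a₄]
    have h2 : Y - (-Y - 0 * X - 0) = 2 * Y := by ring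
    rw [h2, div_eq_iff (mul_ne_zero H.two hY0), hY, hb]
    linear_combination X * hX
  have hX1 : W.addX X X (W.slope X X Y Y) = x := by
    rw [hsl, addX, H.a₁, H.a₂, hx]
    linear_combination (-1 : K) * hX
  have hY1 : W.addY X X Y (W.slope X X Y Y) = y := by
    rw [addY, negAddY, hX1, hsl, negY, H.a₁, H.a₃, hY, hx]
    have h7 : 2 * (-((r + s) * (r ^ 2 - X) + s * X) - 0 * r ^ 2 - 0 - y) = 0 := by
      linear_combination r * hX - hy
    have h8 := (mul_eq_zero.mp h7).resolve_left h2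
    linear_combination h8
  refine ⟨Point.some X Y h0, ?_⟩
  rw [Point.add_self_of_Y_ne hne, Point.some.injEq]
  exact ⟨hX1.symm, hY1.symm⟩

lemma Half.double {W : Affine K} {a b : K} (H : Half W a b) {x y : K} (h : W.Nonsingular x y)
    (hy : y ≠ 0) : ∃ (x' y' : K) (h' : W.Nonsingular x' y'),
      Point.some x y h + Point.some x y h = Point.some x' y' h' ∧
      x' * (4 * y ^ 2) = (x ^ 2 - b) ^ 2 := by
  have e1 := H.eq h
  have hne : y ≠ W.negY x y := by
    intro h1
    rw [negY, H.a₁, H.a₃] at h1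
    have h2 : 2 * y = 0 := by linear_combination h1
    exact hy ((mul_eq_zero.mp h2).resolve_left H.two)
  refine ⟨_, _, _, Point.add_self_of_Y_ne hne, ?_⟩
  have h2y : 2 * y ≠ 0 := mul_ne_zero H.two hy
  have hsl : W.slope x x y y * (2 * y) = 3 * x ^ 2 + 2 * a * x + b := by
    rw [slope_of_Y_ne rfl hne, negY, H.a₁, H.a₂, H.a₃, H.a₄]
    have h2 : y - (-y - 0 * x - 0) = 2 * y := by ring
    rw [h2, div_mul_cancel₀ _ h2y]
    ring
  rw [addX, H.a₁, H.a₂]
  set l := W.slope x x y y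
  linear_combination (l * (2 * y) + (3 * x ^ 2 + 2 * a * x + b)) * hsl - 4 * (a + 2 * x) * e1

end Pool.Agent.M7
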