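import Pool.Agent.H42M.Val2

/-! # Local lemmas at 2 for the curves of conductor 49 and 21 (helper33)

`V` is a valuation with values in `ℤᵐ⁰`. Everything is an adaptation of
`Pool/Agent/H42M/Val.lean`, `Val2.lean`, `Desc.lean` (`even_two`, `sqMod_E1`, `even_X_of_point`,
`sqMod_E2'`); tools `V_odd`, `V_four_eq`, `V_sixteen_eq`, `add_left`, `add_right`, `isSquare_of_mul`,
`isSquare_of_pow_three`.

PROOFS. `even_of_b`: `V x < 1`: `V (x² + a x + b) = 1`, so `V x = V y ^ 2`; `V x = 1` clear;
`V x > 1`: `V (x² + a x + b) = V x ^ 2`, `V x ^ 3 = V y ^ 2`.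
`even_two_E3`: `5488 = 16 * 343`, `V 343 = 1`, `c = 5488/x`, `V x * V c = V 16`. `V x ≥ 1`: as in
`even_of_b`. `V x ≤ V 16`: `V x = V 16 = V 2 ^ 4` clear; `V x < V 16`: `V c > 1`,
`(y/x)² = x - 147 + c` has value `V c`, so `V c`, and `V x = V 2 ^ 4 / V c`, are squares.
`V 16 < V x < 1`: also `V 16 < V c < 1`; `g = y/x`: `(g - 1) (g + 1) = x + c - 148`,
`V 148 = V 4`. By symmetry `V c ≤ V x` (the claims for `x` and `c` are equivalent). Suppose `V x` is no
square. Then `V 4 < V x` (`V 16 = V x V c ≤ V x ^ 2`, and `V x = V 4` is a square), `V c < V x`, so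
`V (x + c - 148) = V x`. If `V 2 < V (g - 1)` then `V (g + 1) = V (g - 1)` and `V x` is a square;
otherwise `V x = V (g - 1) V (g + 1) ≤ V 2 ^ 2`, contradiction.
`sqMod_E4`: `x² + 294 x - 343 = (x + 147)² - 64 * 343`. If `V 4 ≤ V (x + 147)`: `s = y/(x + 147)`,
`ε = 64 * 343/(x + 147)²`, `V ε ≤ V 4`, `x/s² = 1/(1 - ε)`. If `V (x + 147) < V 4`: `s = 1`,
`x - 1 = (x + 147) - 148`.
`even_two_21`: as `even_two`, with `c = 144/X`, `g = Y/X`, `g² = (X + 9) (X + 16)/X = X + c + 25`,
`(g - 3) (g + 3) = X + c + 16`, `V 9 = 1`, `V 6 = V 2`.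
`even_X_21`: away from 3, as `even_X_of_point`.
`sqMod_21`: as `sqMod_E2'` with `X + 9` in place of `X + 1`:
case `V r ≤ V 2`: `ε X/(s/(X + 9))² - 1 = ε δ (X + 9) - 1 = (ε δ - 1) + ε δ (X + 8)`.
`sqMod_mul`: `n c/s² - 1 = n (c/s² - 1) + (n - 1)`. -/

namespace Pool.Agent.M7

open WithZero Pool.Agent.H42M

variable {K : Type*} [Field K] (V : Valuation K ℤᵐ⁰)

lemma even_of_b {x y a b : K} (ha : V a ≤ 1) (hb : V b = 1) (hx : x ≠ 0)
    (e : y ^ 2 = x * (x ^ 2 + a * x + b)) : IsSquare (V x) := by
  have hV : V x * V (x ^ 2 + a * x + b) = V y ^ 2 := by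
    rw [← map_mul, ← e, map_pow]
  have hx0 : V x ≠ 0 := (V.ne_zero_iff).mpr hx
  have hax : V (a * x) ≤ V x := by
    rw [map_mul]
    calc V a * V x ≤ 1 * V x := by gcongr
      _ = V x := one_mul _
  rcases lt_trichotomy (V x) 1 with h | h | h
  · have h1 : V (x ^ 2 + a * x) < 1 := by
      refine (V.map_add _ _).trans_lt (max_lt ?_ (hax.trans_lt h))
      rw [map_pow]
      exact pow_lt_one₀ zero_le h two_ne_zero
    rw [add_left V hb h1, mul_one] at hV
    exact ⟨V y, by rw [hV, pow_two]⟩
  · rw [h]; exact ⟨1, by simp⟩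
  · have h2 : V x < V x ^ 2 := by
      rw [pow_two]
      calc V x = 1 * V x := (one_mul _).symm
        _ < V x * V x := by
          exact mul_lt_mul_of_pos_right h (zero_lt_iff.mpr hx0)
    have h1 : V (x ^ 2 + a * x + b) = V x ^ 2 := by
      refine add_right V (add_right V (map_pow _ _ _) (hax.trans_lt h2)) ?_
      rw [hb]; exact h.trans h2
    rw [h1] at hV
    refine isSquare_of_pow_three (g := V x) (h := V y) hx0 ?_
    rw [← hV, pow_succ' (V x) 2]

lemma even_two_E3 {x y : K} (hy : y ≠ 0) (e : y ^ 2 = x * (x ^ 2 - 147 * x + 5488))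
    (h2 : V (2 : K) < 1) (h20 : V (2 : K) ≠ 0) : IsSquare (V x) := by
  have h16 : V (16 : K) < 1 := by
    rw [V_sixteen_eq]; exact pow_lt_one₀ zero_le h2 (by norm_num)
  have h4 : V (4 : K) < 1 := by
    rw [V_four_eq]; exact pow_lt_one₀ zero_le h2 (by norm_num)
  have h160 : V (16 : K) ≠ 0 := by rw [V_sixteen_eq]; exact pow_ne_zero _ h20
  have h147 : V (147 : K) = 1 := by exact_mod_cast V_odd V (n := 147) (by decide) h2
  have h343 : V (343 : K) = 1 := by exact_mod_cast V_odd V (n := 343) (by decide) h2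
  have h37 : V (37 : K) = 1 := by exact_mod_cast V_odd V (n := 37) (by decide) h2
  have h148 : V (148 : K) = V 4 := by
    have : (148 : K) = 4 * 37 := by norm_num
    rw [this, map_mul, h37, mul_one]
  have h5488 : V (5488 : K) = V 16 := by
    have : (5488 : K) = 16 * 343 := by norm_num
    rw [this, map_mul, h343, mul_one]
  have hx : x ≠ 0 := by
    rintro rfl; apply hy
    have : y ^ 2 = 0 := by rw [e]; ring
    exact pow_eq_zero_iff (two_ne_zero) |>.mp this
  have hx0 : V x ≠ 0 := (V.ne_zero_iff).mpr hx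
  have hV : V x * V (x ^ 2 - 147 * x + 5488) = V y ^ 2 := by
    rw [← map_mul, ← e, map_pow]
  have hxpos : 0 < V x := zero_lt_iff.mpr hx0
  set b : K := 5488 / x with hb
  have hxb : x * b = 5488 := by rw [hb]; field_simp
  have hVb : V x * V b = V 16 := by rw [← map_mul, hxb, h5488]
  have hb0' : V b ≠ 0 := by
    intro h; rw [h, mul_zero] at hVb; exact h160 hVb.symm
  set g : K := y / x with hg
  have hg2 : g ^ 2 = x - 147 + b := by
    rw [hg, hb, div_pow, e]; field_simp
  by_cases hc1 : V x < 1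
  swap
  · push Not at hc1
    rcases hc1.eq_or_lt with h | h
    · rw [← h]; exact ⟨1, by simp⟩
    · have h2' : V x < V x ^ 2 := by
        rw [pow_two]
        calc V x = 1 * V x := (one_mul _).symm
          _ < V x * V x := mul_lt_mul_of_pos_right h hxpos
      have h1 : V (x ^ 2 - 147 * x + 5488) = V x ^ 2 := by
        rw [sub_eq_add_neg]
        refine add_right V (add_right V (map_pow _ _ _) ?_) ?_
        · rw [Valuation.map_neg, map_mul, h147, one_mul]; exact h2'
        · rw [h5488]; exact h16.trans (h.trans h2')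
      rw [h1] at hV
      refine isSquare_of_pow_three (g := V x) (h := V y) hx0 ?_
      rw [← hV, pow_succ' (V x) 2]
  by_cases hc : V x ≤ V 16
  · rcases hc.lt_or_eq with hc | hc
    · -- `V b > 1`
      have hb1 : 1 < V b := by
        by_contra hlt
        push Not at hlt
        have : V x * V b ≤ V x * 1 := by gcongr
        rw [hVb, mul_one] at this
        exact absurd hc (not_lt.mpr this)
      have h3 : V (x - 147 + b) = V b := by
        refine add_left V rfl ?_
        refine (V.map_sub _ _).trans_lt (max_lt (hc1.trans hb1) ?_)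
        rw [h147]; exact hb1
      have h5 : V g ^ 2 = V b := by rw [← map_pow, hg2, h3]
      refine isSquare_of_mul (a := V x) (b := V g) (y := V 2 ^ 2) ?_ ?_
      · intro h0; rw [h0, zero_pow two_ne_zero] at h5; exact hb0' h5.symm
      · rw [h5, hVb, V_sixteen_eq, ← pow_mul]
    · rw [hc, V_sixteen_eq]; exact ⟨V 2 ^ 2, by rw [← pow_add]⟩
  · push Not at hc
    by_contra hns
    have hgg : (g - 1) * (g + 1) = x + b - 148 := by linear_combination hg2
    have key : ∀ a c : K, V a ≠ 0 → V a * V c = V 16 → V c ≤ V a → ¬ IsSquare (V a) →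
        (g - 1) * (g + 1) = a + c - 148 → False := by
      intro a c ha0 hac hle hnsa hgac
      have h4a : V 4 < V a := by
        by_contra hlt
        push Not at hlt
        rcases hlt.lt_or_eq with hlt | hlt
        · have h5 : V c < V 4 := hle.trans_lt hlt
          have h6 : V a * V c < V 4 * V 4 := mul_lt_mul'' hlt h5 zero_le zero_le
          rw [hac, V_sixteen_eq, V_four_eq, ← pow_add] at h6
          exact lt_irrefl _ h6
        · apply hnsa
          rw [hlt, V_four_eq]
          exact ⟨V 2, pow_two _⟩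
      have hca : V c < V a := by
        rcases hle.lt_or_eq with h | h
        · exact h
        · exfalso
          rw [h, V_sixteen_eq] at hac
          have h5 : V 4 * V 4 < V a * V a := mul_lt_mul'' h4a h4a zero_le zero_le
          rw [hac, V_four_eq, ← pow_add] at h5
          exact lt_irrefl _ h5
      have hs : V (a + c - 148) = V a := by
        rw [sub_eq_add_neg]
        refine add_right V (add_right V rfl hca) ?_
        rw [Valuation.map_neg, h148]; exact h4a
      have hgV : V (g - 1) * V (g + 1) = V a := by rw [← map_mul, hgac, hs]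
      by_cases ht : V 2 < V (g - 1)
      · have h7 : V (g + 1) = V (g - 1) := by
          have : g + 1 = (g - 1) + 2 := by ring
          rw [this]; exact add_right V rfl ht
        rw [h7] at hgV
        exact hnsa ⟨V (g - 1), hgV.symm⟩
      · push Not at ht
        have h7 : V (g + 1) ≤ V 2 := by
          have : g + 1 = (g - 1) + 2 := by ring
          rw [this]; exact (V.map_add _ _).trans (max_le ht le_rfl)
        have h8 : V (g - 1) * V (g + 1) ≤ V 2 * V 2 := mul_le_mul' ht h7
        rw [hgV, ← pow_two, ← V_four_eq] at h8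
        exact absurd h8 (not_le.mpr h4a)
    rcases le_total (V b) (V x) with h | h
    · exact key x b hx0 hVb h hns hgg
    · refine key b x hb0' (by rw [mul_comm, hVb]) h ?_ (by rw [hgg]; ring)
      rintro ⟨z, hz⟩
      apply hns
      refine isSquare_of_mul (a := V x) (b := z) (y := V 4) ?_ ?_
      · rintro rfl; rw [mul_zero] at hz; exact hb0' hz
      · rw [pow_two, ← hz, hVb, V_four_eq, V_sixteen_eq, ← pow_mul]

lemma sqMod_E4 {x y : K} (hy : y ≠ 0) (e : y ^ 2 = x * (x ^ 2 + 294 * x - 343))
    (h2 : V (2 : K) < 1) (h20 : V (2 : K) ≠ 0) : SqModFour V x := by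
  have hx : x ≠ 0 := by
    rintro rfl; apply hy
    have : y ^ 2 = 0 := by rw [e]; ring
    exact pow_eq_zero_iff (two_ne_zero) |>.mp this
  have h4 := V_four_lt V h2
  have h343 : V (343 : K) = 1 := by exact_mod_cast V_odd V (n := 343) (by decide) h2
  have h37 : V (37 : K) = 1 := by exact_mod_cast V_odd V (n := 37) (by decide) h2
  by_cases h : V 4 ≤ V (x + 147)
  · have h17 : x + 147 ≠ 0 := by
      intro h0; rw [h0, map_zero, V_four_eq] at h
      exact pow_ne_zero 2 h20 (le_zero_iff.mp h)
    have hV17 : V (x + 147) ≠ 0 := (V.ne_zero_iff).mpr h17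
    have hD : x ^ 2 + 294 * x - 343 ≠ 0 := by
      intro h0; apply hy
      rw [h0, mul_zero] at e
      exact pow_eq_zero_iff (two_ne_zero) |>.mp e
    refine ⟨y / (x + 147), div_ne_zero hy h17, ?_⟩
    set ε : K := 64 * 343 / (x + 147) ^ 2 with hε
    have hVε : V ε ≤ V 4 := by
      rw [hε, map_div₀, map_pow, map_mul, h343, mul_one,
        div_le_iff₀ (pow_pos (zero_lt_iff.mpr hV17) 2)]
      have h64 : V (64 : K) = V 4 * V 4 ^ 2 := by rw [← map_pow, ← map_mul]; norm_num
      rw [h64]
      gcongr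
    have hV1 : V (1 - ε) = 1 := by
      rw [sub_eq_add_neg]
      exact add_right V (map_one V) (by rw [Valuation.map_neg]; exact hVε.trans_lt h4)
    have h1e : 1 - ε ≠ 0 := by
      intro h0; rw [h0, map_zero] at hV1; exact zero_ne_one hV1
    have h3 : (1 - ε) * (x + 147) ^ 2 = x ^ 2 + 294 * x - 343 := by
      rw [hε]; field_simp; ring
    have h1 : x / (y / (x + 147)) ^ 2 = 1 / (1 - ε) := by
      rw [div_pow, e, ← h3]
      field_simp
    have h8 : 1 / (1 - ε) - 1 = ε / (1 - ε) := by field_simp; ring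
    rw [h1, h8, map_div₀, hV1, div_one]
    exact hVε
  · push Not at h
    refine ⟨1, one_ne_zero, ?_⟩
    have h1 : x / 1 ^ 2 - 1 = (x + 147) - 4 * 37 := by ring
    rw [h1]
    refine (V.map_sub _ _).trans (max_le h.le ?_)
    rw [map_mul, h37, mul_one]

end Pool.Agent.M7
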