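import Pool.Agent.M7.Rel

/-! # Coordinates of points of order 7: algebra, second part (helper33)

PROOFS: in the header of `Pool/Agent/M7/Rel.lean` (`root`, `c4c6`, `inj`, `exists_rel`). -/

namespace Pool.Agent.M7

variable {K : Type*} [Field K] [CharZero K]

private lemma r2_disc (d l : K) : 4 * (-27 * pc4 d * l ^ 2) ^ 3 + 27 * (-54 * pc6 d * l ^ 3) ^ 2 =
    -136048896 * l ^ 6 * (d ^ 2 - d) ^ 7 * (d ^ 3 - 8 * d ^ 2 + 5 * d + 1) := by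
  unfold pc4 pc6; ring

private lemma r2_uu {d t : K} (ht : t * (d ^ 2 - d) = d ^ 3 - 8 * d ^ 2 + 5 * d + 1) :
    uu t * (d ^ 2 - d) ^ 2 = (d ^ 2 - d + 1) ^ 3 := by
  have h1 : uu t * (d ^ 2 - d) ^ 2 = (t * (d ^ 2 - d)) ^ 2 + 13 * (t * (d ^ 2 - d)) * (d ^ 2 - d) +
      49 * (d ^ 2 - d) ^ 2 := by unfold uu; ring
  rw [h1, ht]; ring

private lemma r2_aa {d t : K} (ht : t * (d ^ 2 - d) = d ^ 3 - 8 * d ^ 2 + 5 * d + 1) :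
    aa t * (d ^ 2 - d) ^ 2 =
      d ^ 6 - 11 * d ^ 5 + 30 * d ^ 4 - 15 * d ^ 3 - 10 * d ^ 2 + 5 * d + 1 := by
  have h1 : aa t * (d ^ 2 - d) ^ 2 = (t * (d ^ 2 - d)) ^ 2 + 5 * (t * (d ^ 2 - d)) * (d ^ 2 - d) +
      (d ^ 2 - d) ^ 2 := by unfold aa; ring
  rw [h1, ht]; ring

private lemma r2_bb {d t : K} (ht : t * (d ^ 2 - d) = d ^ 3 - 8 * d ^ 2 + 5 * d + 1) :
    bb t * (d ^ 2 - d) ^ 4 = -pc6 d := by
  have h1 : bb t * (d ^ 2 - d) ^ 4 = (t * (d ^ 2 - d)) ^ 4 +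
      14 * (t * (d ^ 2 - d)) ^ 3 * (d ^ 2 - d) + 63 * (t * (d ^ 2 - d)) ^ 2 * (d ^ 2 - d) ^ 2 +
      70 * (t * (d ^ 2 - d)) * (d ^ 2 - d) ^ 3 - 7 * (d ^ 2 - d) ^ 4 := by unfold bb; ring
  rw [h1, ht]; unfold pc6; ring

private lemma r2_uuaa {d t : K} (ht : t * (d ^ 2 - d) = d ^ 3 - 8 * d ^ 2 + 5 * d + 1) :
    uu t * aa t ^ 3 * (d ^ 2 - d) ^ 8 = pc4 d ^ 3 := by
  have h1 : uu t * aa t ^ 3 * (d ^ 2 - d) ^ 8 =
      (uu t * (d ^ 2 - d) ^ 2) * (aa t * (d ^ 2 - d) ^ 2) ^ 3 := by ring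
  rw [h1, r2_uu ht, r2_aa ht]; unfold pc4; ring

private lemma r2_e {d : K} (hd : d ≠ 0) (hd1 : d ≠ 1) : d ^ 2 - d ≠ 0 := by
  have h1 : d * (d - 1) ≠ 0 := mul_ne_zero hd (sub_ne_zero.mpr hd1)
  intro h0
  exact h1 (by linear_combination h0)

theorem Rel7.root {A B X₁ X₂ X₃ j : K} (hj : JRel A B j) (h : Rel7 A B X₁ X₂ X₃) :
    tf X₁ X₂ X₃ ≠ 0 ∧ j * tf X₁ X₂ X₃ = uu (tf X₁ X₂ X₃) * aa (tf X₁ X₂ X₃) ^ 3 := by
  obtain ⟨d, l, hd, hd1, hl, e1, e2, e3, eA, eB, -⟩ := h.param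
  have he := r2_e hd hd1
  have ht : tf X₁ X₂ X₃ * (d ^ 2 - d) = d ^ 3 - 8 * d ^ 2 + 5 * d + 1 := by
    rw [e1, e2, e3]; exact tf_param hd hd1 hl
  obtain ⟨hj1, hj2⟩ := hj
  rw [eA, eB, r2_disc] at hj1
  rw [eA, eB, r2_disc] at hj2
  set t := tf X₁ X₂ X₃ with hT
  have hn : d ^ 3 - 8 * d ^ 2 + 5 * d + 1 ≠ 0 := fun h0 => hj1 (by rw [h0]; ring)
  refine ⟨fun h0 => hn (by rw [← ht, h0]; ring), ?_⟩
  apply mul_right_cancel₀ (pow_ne_zero 8 he)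
  rw [r2_uuaa ht]
  have h6 : (136048896 : K) * l ^ 6 ≠ 0 := mul_ne_zero (by norm_num) (pow_ne_zero 6 hl)
  apply mul_left_cancel₀ h6
  have h7 : j * t * (d ^ 2 - d) ^ 8 = j * (d ^ 2 - d) ^ 7 * (d ^ 3 - 8 * d ^ 2 + 5 * d + 1) := by
    rw [← ht]; ring
  rw [h7]
  linear_combination -hj2

theorem Rel7.c4c6 {A B X₁ X₂ X₃ : K} (h : Rel7 A B X₁ X₂ X₃) (hu : uu (tf X₁ X₂ X₃) ≠ 0) :
    mf X₁ X₂ X₃ ≠ 0 ∧
    A = -27 * (uu (tf X₁ X₂ X₃) * aa (tf X₁ X₂ X₃) * mf X₁ X₂ X₃ ^ 2) ∧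
    B = -54 * (uu (tf X₁ X₂ X₃) * bb (tf X₁ X₂ X₃) * mf X₁ X₂ X₃ ^ 3) := by
  obtain ⟨d, l, hd, hd1, hl, e1, e2, e3, eA, eB, -⟩ := h.param
  have he := r2_e hd hd1
  have ht : tf X₁ X₂ X₃ * (d ^ 2 - d) = d ^ 3 - 8 * d ^ 2 + 5 * d + 1 := by
    rw [e1, e2, e3]; exact tf_param hd hd1 hl
  have hg : d ^ 2 - d + 1 ≠ 0 := by
    intro h0
    have h1 := r2_uu ht
    rw [h0] at h1
    have h2 : uu (tf X₁ X₂ X₃) * (d ^ 2 - d) ^ 2 = 0 := by rw [h1]; ring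
    exact (mul_ne_zero hu (pow_ne_zero 2 he)) h2
  have hm : mf X₁ X₂ X₃ * (d ^ 2 - d + 1) = -(l * (d ^ 2 - d) ^ 2) := by
    have hD : (36 : K) * ((X₂ - X₁) ^ 2 - (X₂ - X₁) * (X₃ - X₁) + (X₃ - X₁) ^ 2) ≠ 0 := by
      have : (36 : K) * ((X₂ - X₁) ^ 2 - (X₂ - X₁) * (X₃ - X₁) + (X₃ - X₁) ^ 2) =
          36 ^ 3 * (l * (d ^ 2 - d)) ^ 2 * (d ^ 2 - d + 1) := by rw [e1, e2, e3]; ring
      rw [this]
      exact mul_ne_zero (mul_ne_zero (by norm_num) (pow_ne_zero 2 (mul_ne_zero hl he))) hg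
    unfold mf
    rw [div_mul_eq_mul_div, div_eq_iff hD, e1, e2, e3]
    ring
  have hm0 : mf X₁ X₂ X₃ ≠ 0 := by
    intro h0
    rw [h0, zero_mul] at hm
    have : l * (d ^ 2 - d) ^ 2 ≠ 0 := mul_ne_zero hl (pow_ne_zero 2 he)
    exact this (by linear_combination hm)
  refine ⟨hm0, ?_, ?_⟩
  · have hc : (d ^ 2 - d) ^ 4 * (d ^ 2 - d + 1) ^ 2 ≠ 0 :=
      mul_ne_zero (pow_ne_zero _ he) (pow_ne_zero _ hg)
    apply mul_right_cancel₀ hc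
    have h1 : -27 * (uu (tf X₁ X₂ X₃) * aa (tf X₁ X₂ X₃) * mf X₁ X₂ X₃ ^ 2) *
        ((d ^ 2 - d) ^ 4 * (d ^ 2 - d + 1) ^ 2) =
        -27 * ((uu (tf X₁ X₂ X₃) * (d ^ 2 - d) ^ 2) * (aa (tf X₁ X₂ X₃) * (d ^ 2 - d) ^ 2) *
          (mf X₁ X₂ X₃ * (d ^ 2 - d + 1)) ^ 2) := by ring
    rw [h1, r2_uu ht, r2_aa ht, hm, eA]
    unfold pc4; ring
  · have hc : (d ^ 2 - d) ^ 6 * (d ^ 2 - d + 1) ^ 3 ≠ 0 :=
      mul_ne_zero (pow_ne_zero _ he) (pow_ne_zero _ hg)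
    apply mul_right_cancel₀ hc
    have h1 : -54 * (uu (tf X₁ X₂ X₃) * bb (tf X₁ X₂ X₃) * mf X₁ X₂ X₃ ^ 3) *
        ((d ^ 2 - d) ^ 6 * (d ^ 2 - d + 1) ^ 3) =
        -54 * ((uu (tf X₁ X₂ X₃) * (d ^ 2 - d) ^ 2) * (bb (tf X₁ X₂ X₃) * (d ^ 2 - d) ^ 4) *
          (mf X₁ X₂ X₃ * (d ^ 2 - d + 1)) ^ 3) := by ring
    rw [h1, r2_uu ht, r2_bb ht, hm, eB]
    ring

private lemma r2_AB {A B j : K} (hj : JRel A B j) (h0 : j ≠ 0) (h1 : j ≠ 1728) :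
    A ≠ 0 ∧ B ≠ 0 := by
  obtain ⟨hj1, hj2⟩ := hj
  constructor
  · rintro rfl
    have : j * (27 * B ^ 2) = 0 := by linear_combination hj2
    rcases mul_eq_zero.mp this with h | h
    · exact h0 h
    · exact hj1 (by linear_combination h)
  · rintro rfl
    have : (j - 1728) * (4 * A ^ 3) = 0 := by linear_combination hj2
    rcases mul_eq_zero.mp this with h | h
    · exact h1 (by linear_combination h)
    · exact hj1 (by linear_combination h)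

private lemma r2_inj {A B X₁ X₂ X₃ Y₁ Y₂ Y₃ d : K} (hA : A ≠ 0) (hB : B ≠ 0)
    (h : Rel7 A B X₁ X₂ X₃) (h' : Rel7 A B Y₁ Y₂ Y₃) (hX : X₂ - X₁ = d * (X₃ - X₁))
    (hY : Y₂ - Y₁ = d * (Y₃ - Y₁)) : Y₁ = X₁ := by
  obtain ⟨d1, l, hd, hd1, hl, e1, e2, e3, eA, eB, eX⟩ := h.param
  obtain ⟨d2, l', hd', hd1', hl', e1', e2', e3', eA', eB', eY⟩ := h'.param
  have hq : X₃ - X₁ ≠ 0 := sub_ne_zero.mpr h.ne₁₃.symm
  have hq' : Y₃ - Y₁ ≠ 0 := sub_ne_zero.mpr h'.ne₁₃.symm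
  have k1 : d1 = d := mul_right_cancel₀ hq (by rw [← eX, hX])
  have k2 : d2 = d := mul_right_cancel₀ hq' (by rw [← eY, hY])
  subst k1
  subst k2
  have p4 : pc4 d2 ≠ 0 := fun h0 => hA (by rw [eA, h0]; ring)
  have p6 : pc6 d2 ≠ 0 := fun h0 => hB (by rw [eB, h0]; ring)
  have l2 : l ^ 2 = l' ^ 2 := by
    apply mul_left_cancel₀ (mul_ne_zero (by norm_num : (-27 : K) ≠ 0) p4)
    rw [← eA, ← eA']
  have l3 : l ^ 3 = l' ^ 3 := by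
    apply mul_left_cancel₀ (mul_ne_zero (by norm_num : (-54 : K) ≠ 0) p6)
    rw [← eB, ← eB']
  have ll : l = l' := by
    apply mul_right_cancel₀ (pow_ne_zero 2 hl')
    calc l * l' ^ 2 = l * l ^ 2 := by rw [l2]
      _ = l ^ 3 := by ring
      _ = l' ^ 3 := l3
      _ = l' * l' ^ 2 := by ring
  rw [e1, e1', ll]

theorem Rel7.inj {A B X₁ X₂ X₃ Y₁ Y₂ Y₃ j : K} (hj : JRel A B j) (h0 : j ≠ 0) (h1 : j ≠ 1728)
    (h : Rel7 A B X₁ X₂ X₃) (h' : Rel7 A B Y₁ Y₂ Y₃) (ht : tf X₁ X₂ X₃ = tf Y₁ Y₂ Y₃) :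
    Y₁ = X₁ ∨ Y₁ = X₂ ∨ Y₁ = X₃ := by
  obtain ⟨hA, hB⟩ := r2_AB hj h0 h1
  obtain ⟨d, l, hd, hd1, hl, e1, e2, e3, eA, eB, eX⟩ := h.param
  obtain ⟨d', l', hd', hd1', hl', e1', e2', e3', eA', eB', eY⟩ := h'.param
  have t1 : tf X₁ X₂ X₃ * (d ^ 2 - d) = d ^ 3 - 8 * d ^ 2 + 5 * d + 1 := by
    rw [e1, e2, e3]; exact tf_param hd hd1 hl
  have t2 : tf X₁ X₂ X₃ * (d' ^ 2 - d') = d' ^ 3 - 8 * d' ^ 2 + 5 * d' + 1 := by
    rw [ht, e1', e2', e3']; exact tf_param hd' hd1' hl'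
  have hfac : (d' - d) * ((d * d' - (d - 1)) * ((1 - d) * d' - 1)) = 0 := by
    linear_combination (d ^ 2 - d) * t2 - (d' ^ 2 - d') * t1
  rcases mul_eq_zero.mp hfac with h2 | h2
  · left
    have : d' = d := by linear_combination h2
    subst this
    exact r2_inj hA hB h h' eX eY
  · right
    rcases mul_eq_zero.mp h2 with h3 | h3
    · left
      refine r2_inj hA hB h.rot h' (d := d') ?_ eY
      have hc : d * (X₃ - X₂) = d * (d' * (X₁ - X₂)) := by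
        linear_combination (X₁ - X₂) * (-1) * h3 - eX
      exact mul_left_cancel₀ hd hc
    · right
      refine r2_inj hA hB h.rot.rot h' (d := d') ?_ eY
      have hc : (1 - d) * (X₁ - X₃) = (1 - d) * (d' * (X₂ - X₃)) := by
        linear_combination (X₂ - X₃) * (-1) * h3 - eX
      exact mul_left_cancel₀ (sub_ne_zero.mpr hd1.symm) hc

theorem exists_rel [IsAlgClosed K] {A B j t : K} (hj : JRel A B j) (h0 : j ≠ 0) (h1 : j ≠ 1728)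
    (ht : j * t = uu t * aa t ^ 3) : ∃ X₁ X₂ X₃ : K, Rel7 A B X₁ X₂ X₃ ∧ tf X₁ X₂ X₃ = t ∧
    4 * X₂ * (X₁ ^ 3 + A * X₁ + B) = X₁ ^ 4 - 2 * A * X₁ ^ 2 - 8 * B * X₁ + A ^ 2 ∧
    4 * X₃ * (X₂ ^ 3 + A * X₂ + B) = X₂ ^ 4 - 2 * A * X₂ ^ 2 - 8 * B * X₂ + A ^ 2 ∧
    X₁ ^ 3 + A * X₁ + B ≠ 0 ∧ X₂ ^ 3 + A * X₂ + B ≠ 0 := by
  obtain ⟨hA, hB⟩ := r2_AB hj h0 h1
  -- a root of the cubic
  obtain ⟨d, hroot⟩ : ∃ d : K, d ^ 3 - (8 + t) * d ^ 2 + (5 + t) * d + 1 = 0 := by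
    have hdeg : (Polynomial.X ^ 3 - Polynomial.C (8 + t) * Polynomial.X ^ 2 +
        Polynomial.C (5 + t) * Polynomial.X + Polynomial.C 1 : Polynomial K).degree = 3 := by
      compute_degree!
    obtain ⟨d, hd⟩ := IsAlgClosed.exists_root (Polynomial.X ^ 3 - Polynomial.C (8 + t) *
      Polynomial.X ^ 2 + Polynomial.C (5 + t) * Polynomial.X + Polynomial.C 1 : Polynomial K)
      (by rw [hdeg]; norm_num)
    refine ⟨d, ?_⟩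
    simpa [Polynomial.IsRoot] using hd
  have hd : d ≠ 0 := by
    rintro rfl
    have : (1 : K) = 0 := by linear_combination hroot
    exact one_ne_zero this
  have hd1 : d ≠ 1 := by
    rintro rfl
    have : (1 : K) = 0 := by linear_combination -hroot
    exact one_ne_zero this
  have he := r2_e hd hd1
  have hn : t * (d ^ 2 - d) = d ^ 3 - 8 * d ^ 2 + 5 * d + 1 := by linear_combination -hroot
  have ht0 : t ≠ 0 := by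
    rintro rfl
    have : (49 : K) = 0 := by
      unfold uu aa at ht
      linear_combination -ht
    norm_num at this
  have p4 : pc4 d ^ 3 = (d ^ 2 - d) ^ 8 * (j * t) := by rw [← r2_uuaa hn, ht]; ring
  have p6 : pc6 d ^ 2 = (d ^ 2 - d) ^ 8 * ((j - 1728) * t) := by
    have h2 := uu_aa_bb t
    have h3 : pc6 d ^ 2 = (bb t * (d ^ 2 - d) ^ 4) ^ 2 := by rw [r2_bb hn]; ring
    rw [h3]
    linear_combination -(d ^ 2 - d) ^ 8 * h2 - (d ^ 2 - d) ^ 8 * ht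
  have hp4 : pc4 d ≠ 0 := by
    intro h2
    rw [h2] at p4
    have : (d ^ 2 - d) ^ 8 * (j * t) ≠ 0 := mul_ne_zero (pow_ne_zero _ he) (mul_ne_zero h0 ht0)
    exact this (by rw [← p4]; ring)
  have hp6 : pc6 d ≠ 0 := by
    intro h2
    rw [h2] at p6
    have : (d ^ 2 - d) ^ 8 * ((j - 1728) * t) ≠ 0 :=
      mul_ne_zero (pow_ne_zero _ he) (mul_ne_zero (sub_ne_zero.mpr h1) ht0)
    exact this (by rw [← p6]; ring)
  have hrel : -27 * B ^ 2 * pc4 d ^ 3 = 4 * A ^ 3 * pc6 d ^ 2 := by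
    rw [p4, p6]
    linear_combination (-(d ^ 2 - d) ^ 8 * t) * hj.2
  set l := B * pc4 d / (2 * A * pc6 d) with hl
  have hl0 : l ≠ 0 := div_ne_zero (mul_ne_zero hB hp4) (mul_ne_zero (mul_ne_zero two_ne_zero hA) hp6)
  have eA : A = -27 * pc4 d * l ^ 2 := by
    rw [hl]
    field_simp
    linear_combination -hrel
  have eB : B = -54 * pc6 d * l ^ 3 := by
    rw [hl]
    field_simp
    linear_combination -2 * hrel
  have hR := Rel7.of_param hd hd1 hl0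
  rw [← eA, ← eB] at hR
  have hd2 : d - 1 ≠ 0 := sub_ne_zero.mpr hd1
  refine ⟨_, _, _, hR, ?_, ?_, ?_, ?_, ?_⟩
  · exact mul_right_cancel₀ he (by rw [tf_param hd hd1 hl0, hn])
  · rw [eA, eB]; unfold pc4 pc6 pb2; ring
  · rw [eA, eB]; unfold pc4 pc6 pb2; ring
  · have : (3 * l * pb2 d) ^ 3 + A * (3 * l * pb2 d) + B = 11664 * l ^ 3 * d ^ 4 * (d - 1) ^ 2 := by
      rw [eA, eB]; unfold pc4 pc6 pb2; ring
    rw [this]
    exact mul_ne_zero (mul_ne_zero (mul_ne_zero (by norm_num) (pow_ne_zero _ hl0))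
      (pow_ne_zero _ hd)) (pow_ne_zero _ hd2)
  · have : (l * (36 * (d ^ 3 - d ^ 2) + 3 * pb2 d)) ^ 3 +
        A * (l * (36 * (d ^ 3 - d ^ 2) + 3 * pb2 d)) + B =
        11664 * l ^ 3 * d ^ 6 * (d - 1) ^ 4 := by
      rw [eA, eB]; unfold pc4 pc6 pb2; ring
    rw [this]
    exact mul_ne_zero (mul_ne_zero (mul_ne_zero (by norm_num) (pow_ne_zero _ hl0))
      (pow_ne_zero _ hd)) (pow_ne_zero _ hd2)

end Pool.Agent.M7
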