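import Pool.Agent.M7.Sum
import Pool.Agent.M7.Rel2
import Pool.Agent.H42M.ModAb

/-! # Points of order 7 and points of `X₀(7)` (helper33)

`Tof R t`: the point `R ≠ 0` satisfies `7 R = 0` and `t` is the coordinate on `X₀(7)` of the
subgroup generated by `R`. Compare `Pool/Agent/S5N/Pts5.lean` (the same for 5).

PROOFS. `exists_Tof`: `X₁, X₂, X₃` the coordinates of `R, 2 R, 4 R` (not 0); pairwise distinct:
`Xof.eq_or` (`2 R = ± R`, `4 R = ± 2 R`, `4 R = ± R` imply `R = 0` with `7 R = 0`). `s₁`: `Xof_sum` for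
`R`, `2 R`: `R - 2 R = -R` has coordinate `X₁`, `R + 2 R = 3 R = -4 R` has coordinate `X₃`. `s₂`: `2 R`,
`4 R`: `2 R - 4 R = -2 R`, `6 R = -R`. `s₃`: `4 R`, `8 R = R`: `4 R - R = 3 R = -4 R`,
`5 R = -2 R`; note `Xof_sum` for `P = 4 R`, `Q = R`: `P + Q = 5 R = -(2 R)`, `P - Q = 3 R = -(4 R)`:
`(X₂ + X₃) (X₃ - X₁)² = …`. `unique`: `Xof.unique`. `neg`: `Xof.neg`. `double`: `(X₂, X₃, X₁)`, `8 R = R`,
`tf_rot`, `Rel7.rot`. `root`: `Rel7.root`. `eq_or`: `Rel7.inj`: the coordinate of `R'` is that of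
`R`, `2 R` or `4 R`; `Xof.eq_or`.
`exists_of_root`: `exists_rel`; `R` with coordinate `X₁` (`exists_point`); `Xof_add_self_ne`,
`Xof_dup`: `2 R` has coordinate `X₂`, `4 R` has coordinate `X₃`. `2 R ≠ ± R` (`X₁ ≠ X₂`), so
`3 R ≠ 0`, with coordinate `X₃'`; `Xof_sum` for `2 R`, `R` (`2 R - R = R`): `(X₃' + X₁) (X₂ - X₁)²`
`= … = (X₁ + X₃) (X₁ - X₂)²` by `s₁`, so `X₃' = X₃`. `Xof.eq_or`: `4 R = ± 3 R`, so `7 R = 0` (or
`R = 0`, excluded). `act_Tof`: `act_Xof` and `σ` fixes the coefficients.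
`Gof.root`: with `J = j - 1728`: `x = bb t`, `x² = J t` (`uu_aa_bb`), and
`t⁴ G8 J x = x⁸ (bb t - x)` modulo `x² = J t`. `Gof.eq_or`: `x ≠ 0`, `J ≠ 0`: `t = x²/J`.
`exists_of_G8`: `x ≠ 0` (`G8 J 0 = -7 J⁴`); `t = x²/J`; `t⁴ G8 J x = x⁸ (bb t - x)` gives `bb t = x`, so
`(j - 1728) t = bb t ^ 2`, `j t = uu t * aa t ^ 3`.
`borel7`: `R ≠ 0` in `C` (`H42M.exists_ne_zero`), `7 R = 0` (`H42M.exists_zsmul`), `X₁, X₂, X₃` as in
`exists_Tof`. `σ R = k • R` with `7 ∤ k` (`H42M.exists_zsmul`), so `k ≡ ± 1, ± 2, ± 4 mod 7` and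
`(σ X₁, σ X₂, σ X₃)`, the coordinates of `σ R, 2 σ R, 4 σ R`, is a rotation of `(X₁, X₂, X₃)`; by
`tf_rot`, `mf_rot` `σ` fixes `tf X₁ X₂ X₃` and `mf X₁ X₂ X₃`, which are therefore images of `t, M` in `F`.
`Rel7.c4c6` and `Rel7.root` over `K`, injectivity of `algebraMap F K`. -/

namespace Pool.Agent.M7

open WeierstrassCurve WeierstrassCurve.Affine Pool.Agent.H42M

section Points

variable {K : Type*} [Field K] [DecidableEq K] {W : Affine K}

private lemma zero_of {M : Type*} [AddCommGroup M] {R : M} (h7 : (7 : ℤ) • R = 0) {k : ℤ}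
    (hk : ¬ (7 : ℤ) ∣ k) (h : k • R = 0) : R = 0 := by
  have hp : Prime (7 : ℤ) := by norm_num
  obtain ⟨a, b, hab⟩ := (hp.coprime_iff_not_dvd).mpr hk
  calc R = (a * 7 + b * k) • R := by rw [hab, one_smul]
    _ = a • ((7 : ℤ) • R) + b • (k • R) := by module
    _ = 0 := by rw [h7, h, smul_zero, smul_zero, add_zero]

private lemma rel_of_Xof [CharZero K] {R : W.Point} {X₁ X₂ X₃ : K} (h7 : (7 : ℤ) • R = 0)
    (h1 : Xof R X₁) (h2 : Xof (R + R) X₂) (h3 : Xof (R + R + (R + R)) X₃) :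
    Rel7 (-27 * W.c₄) (-54 * W.c₆) X₁ X₂ X₃ := by
  have hR := h1.ne_zero
  have ne₁₂ : X₁ ≠ X₂ := by
    rintro rfl
    rcases h1.eq_or h2 with h | h
    · refine hR (zero_of h7 (k := 1) (by norm_num) ?_)
      linear_combination (norm := module) -h
    · refine hR (zero_of h7 (k := 3) (by norm_num) ?_)
      linear_combination (norm := module) h
  have ne₂₃ : X₂ ≠ X₃ := by
    rintro rfl
    rcases h2.eq_or h3 with h | h
    · refine hR (zero_of h7 (k := 2) (by norm_num) ?_)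
      linear_combination (norm := module) -h
    · refine hR (zero_of h7 (k := 6) (by norm_num) ?_)
      linear_combination (norm := module) h
  have ne₁₃ : X₁ ≠ X₃ := by
    rintro rfl
    rcases h1.eq_or h3 with h | h
    · refine hR (zero_of h7 (k := 3) (by norm_num) ?_)
      linear_combination (norm := module) -h
    · refine hR (zero_of h7 (k := 5) (by norm_num) ?_)
      linear_combination (norm := module) h
  have a1 : Xof (R + (R + R)) X₃ := by
    have e : R + (R + R) = -(R + R + (R + R)) := by linear_combination (norm := module) h7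
    rw [e]
    exact h3.neg
  have a2 : Xof (R - (R + R)) X₁ := by
    have e : R - (R + R) = -R := by module
    rw [e]
    exact h1.neg
  have b1 : Xof (R + R + (R + R + (R + R))) X₁ := by
    have e : R + R + (R + R + (R + R)) = -R := by linear_combination (norm := module) h7
    rw [e]
    exact h1.neg
  have b2 : Xof (R + R - (R + R + (R + R))) X₂ := by
    have e : R + R - (R + R + (R + R)) = -(R + R) := by module
    rw [e]
    exact h2.neg
  have c1 : Xof (R + R + (R + R) + R) X₂ := by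
    have e : R + R + (R + R) + R = -(R + R) := by linear_combination (norm := module) h7
    rw [e]
    exact h2.neg
  have c2 : Xof (R + R + (R + R) - R) X₃ := by
    have e : R + R + (R + R) - R = -(R + R + (R + R)) := by
      linear_combination (norm := module) h7
    rw [e]
    exact h3.neg
  have s1 := Xof_sum h1 h2 ne₁₂ a1 a2
  have s2 := Xof_sum h2 h3 ne₂₃ b1 b2
  have s3 := Xof_sum h3 h1 ne₁₃.symm c1 c2
  refine ⟨ne₁₂, ne₂₃, ne₁₃, ?_, ?_, ?_⟩
  · linear_combination s1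
  · linear_combination s2
  · linear_combination s3

/-- `t` is the point of `X₀(7)` given by the point `R` of order 7 -/
def Tof (R : W.Point) (t : K) : Prop :=
  ∃ X₁ X₂ X₃ : K, Xof R X₁ ∧ Xof (R + R) X₂ ∧ Xof (R + R + (R + R)) X₃ ∧ (7 : ℤ) • R = 0 ∧
    Rel7 (-27 * W.c₄) (-54 * W.c₆) X₁ X₂ X₃ ∧ t = tf X₁ X₂ X₃

/-- the root of the octic given by the point `R` of order 7 -/
def Gof (R : W.Point) (x : K) : Prop := ∃ t, Tof R t ∧ x = bb t

theorem exists_Tof [CharZero K] {R : W.Point} (hR : R ≠ 0) (h7 : (7 : ℤ) • R = 0) :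
    ∃ t, Tof R t := by
  have h2 : R + R ≠ 0 := fun h => hR (zero_of h7 (k := 2) (by norm_num)
    (by linear_combination (norm := module) h))
  have h4 : R + R + (R + R) ≠ 0 := fun h => hR (zero_of h7 (k := 4) (by norm_num)
    (by linear_combination (norm := module) h))
  obtain ⟨X₁, a1⟩ := exists_Xof hR
  obtain ⟨X₂, a2⟩ := exists_Xof h2
  obtain ⟨X₃, a3⟩ := exists_Xof h4
  exact ⟨_, X₁, X₂, X₃, a1, a2, a3, h7, rel_of_Xof h7 a1 a2 a3, rfl⟩

theorem Tof.unique {R : W.Point} {t t' : K} (h : Tof R t) (h' : Tof R t') : t = t' := by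
  obtain ⟨X₁, X₂, X₃, a1, a2, a3, -, -, rfl⟩ := h
  obtain ⟨Y₁, Y₂, Y₃, b1, b2, b3, -, -, rfl⟩ := h'
  rw [a1.unique b1, a2.unique b2, a3.unique b3]

theorem Tof.neg {R : W.Point} {t : K} (h : Tof R t) : Tof (-R) t := by
  obtain ⟨X₁, X₂, X₃, a1, a2, a3, a4, a5, rfl⟩ := h
  refine ⟨X₁, X₂, X₃, a1.neg, ?_, ?_, ?_, a5, rfl⟩
  · rw [← neg_add]
    exact a2.neg
  · rw [← neg_add, ← neg_add]
    exact a3.neg
  · rw [smul_neg, a4, neg_zero]

theorem Tof.double {R : W.Point} {t : K} (h : Tof R t) : Tof (R + R) t := by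
  obtain ⟨X₁, X₂, X₃, a1, a2, a3, a4, a5, rfl⟩ := h
  refine ⟨X₂, X₃, X₁, a2, a3, ?_, ?_, a5.rot, (tf_rot a5).symm⟩
  · have e : R + R + (R + R) + (R + R + (R + R)) = R := by
      linear_combination (norm := module) a4
    rw [e]
    exact a1
  · rw [smul_add, a4, add_zero]

theorem Tof.zsmul {R : W.Point} {t : K} (h : Tof R t) {k : ℤ} (hk : ¬ (7 : ℤ) ∣ k) :
    Tof (k • R) t := by
  have h7 : (7 : ℤ) • R = 0 := by
    obtain ⟨X₁, X₂, X₃, a1, a2, a3, a4, -⟩ := h
    exact a4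
  have hk7 : k • R = (k % 7) • R := by
    conv_lhs => rw [← Int.mul_ediv_add_emod k 7]
    linear_combination (norm := module) (k / 7) • h7
  have h0 : 0 ≤ k % 7 := Int.emod_nonneg _ (by norm_num)
  have h1 : k % 7 < 7 := Int.emod_lt_of_pos _ (by norm_num)
  have h2 : k % 7 ≠ 0 := fun h => hk (Int.dvd_of_emod_eq_zero h)
  rw [hk7]
  have h3 : k % 7 = 1 ∨ k % 7 = 2 ∨ k % 7 = 3 ∨ k % 7 = 4 ∨ k % 7 = 5 ∨ k % 7 = 6 := by omega
  rcases h3 with h3 | h3 | h3 | h3 | h3 | h3 <;> rw [h3]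
  · rw [one_smul]
    exact h
  · have e : (2 : ℤ) • R = R + R := by module
    rw [e]
    exact h.double
  · have e : (3 : ℤ) • R = -(R + R + (R + R)) := by linear_combination (norm := module) h7
    rw [e]
    exact h.double.double.neg
  · have e : (4 : ℤ) • R = R + R + (R + R) := by module
    rw [e]
    exact h.double.double
  · have e : (5 : ℤ) • R = -(R + R) := by linear_combination (norm := module) h7
    rw [e]
    exact h.double.neg
  · have e : (6 : ℤ) • R = -R := by linear_combination (norm := module) h7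
    rw [e]
    exact h.neg

theorem Tof.root [CharZero K] {j : K} (hj : JRel (-27 * W.c₄) (-54 * W.c₆) j) {R : W.Point}
    {t : K} (h : Tof R t) : t ≠ 0 ∧ j * t = uu t * aa t ^ 3 := by
  obtain ⟨X₁, X₂, X₃, a1, a2, a3, a4, a5, rfl⟩ := h
  exact Rel7.root hj a5

theorem Tof.eq_or [CharZero K] {j : K} (hj : JRel (-27 * W.c₄) (-54 * W.c₆) j) (h0 : j ≠ 0)
    (h1 : j ≠ 1728) {R R' : W.Point} {t : K} (h : Tof R t) (h' : Tof R' t) :
    ∃ k : ℤ, R' = k • R := by
  obtain ⟨X₁, X₂, X₃, a1, a2, a3, a4, a5, a6⟩ := h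
  obtain ⟨Y₁, Y₂, Y₃, b1, b2, b3, b4, b5, b6⟩ := h'
  rcases Rel7.inj hj h0 h1 a5 b5 (a6.symm.trans b6) with h2 | h2 | h2
  · rw [h2] at b1
    rcases b1.eq_or a1 with h | h
    · exact ⟨1, by rw [h]; module⟩
    · exact ⟨-1, by rw [h]; module⟩
  · rw [h2] at b1
    rcases b1.eq_or a2 with h | h
    · exact ⟨2, by rw [h]; module⟩
    · exact ⟨-2, by rw [h]; module⟩
  · rw [h2] at b1
    rcases b1.eq_or a3 with h | h
    · exact ⟨4, by rw [h]; module⟩
    · exact ⟨-4, by rw [h]; module⟩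

lemma Tof.ne_zero {R : W.Point} {t : K} (h : Tof R t) : R ≠ 0 := by
  obtain ⟨X₁, X₂, X₃, a1, -⟩ := h
  exact a1.ne_zero

lemma Tof.tor {R : W.Point} {t : K} (h : Tof R t) : (7 : ℤ) • R = 0 := by
  obtain ⟨X₁, X₂, X₃, a1, a2, a3, a4, -⟩ := h
  exact a4

end Points

section Gal

variable {F K : Type*} [Field F] [Field K] [DecidableEq K] [Algebra F K] {W : WeierstrassCurve F}

theorem act_Tof (σ : K ≃ₐ[F] K) {R : (WeierstrassCurve.Affine.baseChange W K).Point} {t : K}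
    (h : Tof R t) : Tof (act W σ R) (σ t) := by
  have hc4 : (WeierstrassCurve.Affine.baseChange W K).c₄ = algebraMap F K W.c₄ := W.map_c₄ _
  have hc6 : (WeierstrassCurve.Affine.baseChange W K).c₆ = algebraMap F K W.c₆ := W.map_c₆ _
  obtain ⟨X₁, X₂, X₃, a1, a2, a3, a4, ⟨r1, r2, r3, r4, r5, r6⟩, rfl⟩ := h
  refine ⟨σ X₁, σ X₂, σ X₃, act_Xof σ a1, ?_, ?_, ?_, ⟨?_, ?_, ?_, ?_, ?_, ?_⟩, ?_⟩
  · rw [← map_add]
    exact act_Xof σ a2
  · rw [← map_add, ← map_add]
    exact act_Xof σ a3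
  · rw [← map_zsmul, a4, map_zero]
  · exact fun h => r1 (σ.injective h)
  · exact fun h => r2 (σ.injective h)
  · exact fun h => r3 (σ.injective h)
  · rw [hc4, hc6] at r4 ⊢
    have := congrArg σ r4
    simpa only [map_add, map_mul, map_sub, map_pow, map_neg, map_ofNat, AlgEquiv.commutes] using this
  · rw [hc4, hc6] at r5 ⊢
    have := congrArg σ r5
    simpa only [map_add, map_mul, map_sub, map_pow, map_neg, map_ofNat, AlgEquiv.commutes] using this
  · rw [hc4, hc6] at r6 ⊢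
    have := congrArg σ r6
    simpa only [map_add, map_mul, map_sub, map_pow, map_neg, map_ofNat, AlgEquiv.commutes] using this
  · unfold tf
    simp only [map_add, map_mul, map_sub, map_pow, map_ofNat, map_div₀]

theorem act_Gof (σ : K ≃ₐ[F] K) {R : (WeierstrassCurve.Affine.baseChange W K).Point} {x : K}
    (h : Gof R x) : Gof (act W σ R) (σ x) := by
  obtain ⟨t, h1, rfl⟩ := h
  refine ⟨σ t, act_Tof σ h1, ?_⟩
  unfold bb
  simp only [map_add, map_sub, map_mul, map_pow, map_ofNat]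

end Gal

end Pool.Agent.M7
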