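import Pool.Agent.M7.Basic

/-! # Coordinates of points of order 7: algebra (helper33)

`X₁, X₂, X₃` are the coordinates of `P, 2 P, 4 P`, `7 P = 0`, on `y² = x³ + A x + B`.
`p = X₂ - X₁`, `q = X₃ - X₁`, `d = p/q`: the curve is `y² + (1 - c) x y - b y = x³ - b x²` with
`b = d³ - d²`, `c = d² - d`, the points have coordinates `0, b, c`.
`pb2, pc4, pc6`: its invariants `b₂, c₄, c₆`. ALL the following identities are checked by computer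
algebra. With `e = d² - d`, `g = d² - d + 1`, `n = d³ - 8 d² + 5 d + 1`:
`n² + 13 n e + 49 e² = g³`; `pc4 = g (n² + 5 n e + e²)`;
`pc6 = -(n⁴ + 14 n³ e + 63 n² e² + 70 n e³ - 7 e⁴)`; `pc4³ - pc6² = 1728 d⁷ (d - 1)⁷ n`.

Write `e = d² - d`, `g = d² - d + 1`, `n = d³ - 8 d² + 5 d + 1`, `h = n² + 5 n e + e²` (`pc4 = g h`).
PROOFS. `param`: `d = p/q ≠ 0, 1`, `l = q/(36 e)`, so `p = 36 l d e`, `q = 36 l e`. With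
`Sᵢ = (right side - left side of sᵢ)`, `X₂ = X₁ + p`, `X₃ = X₁ + q`:
`q (S₁ - S₃) - (p - q) (S₂ - S₁) = -(12 p q (p - q) X₁ - ((q² + p q - p²)² - 4 p² q (p - q)))`, and
`(q² + p q - p²)² - 4 p² q (p - q) = (36 l e)⁴ pb2 d`, `12 p q (p - q) = 12 (36 l e)³ e`, so
`X₁ = 3 l pb2 d`. `S₁ - S₃ = 0` then gives `A` (coefficient `2 (p - q)`), `S₁ = 0` gives `B`.
`of_param`: polynomial identities in `d, l`; the `Xᵢ` are distinct since `d, d - 1, l ≠ 0`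
(`X₂ - X₃ = 36 l d (d - 1)²`).
`tf_param`: `p q (p - q) = (36 l)³ d⁴ (d - 1)⁴`. `tf_rot`, `mf_rot`: `p q (p - q)`, `p² - p q + q²` and
the numerator of `tf` do not change under `(p, q) ↦ (q - p, -p)`.
`root`: `t e = n`. `e² uu t = g³`, `e² aa t = h`, so `e⁸ (uu t) (aa t)³ = pc4³`;
`4 A³ + 27 B² = -78732 l⁶ (pc4³ - pc6²) = -136048896 l⁶ e⁷ n`, `6912 A³ = -136048896 l⁶ pc4³`, so
`j e⁷ n = pc4³`. `t ≠ 0`: `n ≠ 0` as the discriminant is not 0.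
`c4c6`: `uu t ≠ 0` means `g ≠ 0`; `p² - p q + q² = (36 l e)² g`, `mf = -l e²/g`; `e⁴ bb t = -pc6`,
`uu aa mf² = (g³/e²) (h/e²) l² e⁴/g² = pc4 l²`, `uu bb mf³ = (g³/e²) (-pc6/e⁴) (-l³ e⁶/g³) = pc6 l³`.
`inj`: `t e = n` is the cubic `d³ - (8 + t) d² + (5 + t) d + 1 = 0` in `d`; its roots are `d`,
`(d - 1)/d`, `1/(1 - d)`, and the parameter of `(X₂, X₃, X₁)` is `(d - 1)/d`. So after rotating
`d = d'`; then `pc4 l² = pc4 l'²`, `pc6 l³ = pc6 l'³`, `pc4, pc6 ≠ 0` (`A, B ≠ 0` since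
`j ≠ 0, 1728`), so `l = l'`.
`exists_rel`: take a root `d` of the cubic (`IsAlgClosed`), `d ≠ 0, 1`. `t ≠ 0`
(`uu 0 * aa 0 ^ 3 = 49`), so `n ≠ 0`. `e⁸ j t = pc4³`, `e⁸ (j - 1728) t = pc6²` (`uu_aa_bb`), so
`pc4, pc6 ≠ 0`; `A, B ≠ 0`. `l = B pc4/(2 A pc6)`: as `A³ (54 pc6)² = B² (-27 pc4)³`
(`27 j B² = -4 (j - 1728) A³`), `A = -27 pc4 l²`, `B = -54 pc6 l³`. Then `of_param`, and
`Xᵢ³ + A Xᵢ + B = 11664 l³ d⁴ (d - 1)²`, `11664 l³ d⁶ (d - 1)⁴` for `i = 1, 2`. -/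

namespace Pool.Agent.M7

variable {K : Type*} [Field K]

structure Rel7 (A B X₁ X₂ X₃ : K) : Prop where
  ne₁₂ : X₁ ≠ X₂
  ne₂₃ : X₂ ≠ X₃
  ne₁₃ : X₁ ≠ X₃
  s₁ : (X₁ + X₃) * (X₁ - X₂) ^ 2 = 2 * (X₁ * X₂ + A) * (X₁ + X₂) + 4 * B
  s₂ : (X₂ + X₁) * (X₂ - X₃) ^ 2 = 2 * (X₂ * X₃ + A) * (X₂ + X₃) + 4 * B
  s₃ : (X₃ + X₂) * (X₃ - X₁) ^ 2 = 2 * (X₃ * X₁ + A) * (X₃ + X₁) + 4 * B

/-- the coordinate of `X₀(7)` -/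
def tf (X₁ X₂ X₃ : K) : K :=
  ((X₂ - X₁) ^ 3 - 8 * (X₂ - X₁) ^ 2 * (X₃ - X₁) + 5 * (X₂ - X₁) * (X₃ - X₁) ^ 2 +
    (X₃ - X₁) ^ 3) / ((X₂ - X₁) * (X₃ - X₁) * (X₂ - X₃))

/-- the modular form of weight 1 (up to a constant) -/
def mf (X₁ X₂ X₃ : K) : K :=
  -((X₂ - X₁) * (X₃ - X₁) * (X₂ - X₃)) /
    (36 * ((X₂ - X₁) ^ 2 - (X₂ - X₁) * (X₃ - X₁) + (X₃ - X₁) ^ 2))

def pb2 (d : K) : K := d ^ 4 - 6 * d ^ 3 + 3 * d ^ 2 + 2 * d + 1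

def pc4 (d : K) : K := (d ^ 2 - d + 1) *
  (d ^ 6 - 11 * d ^ 5 + 30 * d ^ 4 - 15 * d ^ 3 - 10 * d ^ 2 + 5 * d + 1)

def pc6 (d : K) : K := -d ^ 12 + 18 * d ^ 11 - 117 * d ^ 10 + 354 * d ^ 9 - 570 * d ^ 8 +
  486 * d ^ 7 - 273 * d ^ 6 + 222 * d ^ 5 - 174 * d ^ 4 + 46 * d ^ 3 + 15 * d ^ 2 - 6 * d - 1

lemma Rel7.rot {A B X₁ X₂ X₃ : K} (h : Rel7 A B X₁ X₂ X₃) : Rel7 A B X₂ X₃ X₁ where
  ne₁₂ := h.ne₂₃
  ne₂₃ := h.ne₁₃.symm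
  ne₁₃ := h.ne₁₂.symm
  s₁ := h.s₂
  s₂ := h.s₃
  s₃ := h.s₁

lemma tf_rot {A B X₁ X₂ X₃ : K} (h : Rel7 A B X₁ X₂ X₃) : tf X₂ X₃ X₁ = tf X₁ X₂ X₃ := by
  unfold tf
  congr 1 <;> ring

lemma mf_rot (X₁ X₂ X₃ : K) : mf X₂ X₃ X₁ = mf X₁ X₂ X₃ := by
  unfold mf
  congr 1 <;> ring

variable [CharZero K]

lemma Rel7.param {A B X₁ X₂ X₃ : K} (h : Rel7 A B X₁ X₂ X₃) : ∃ d l : K, d ≠ 0 ∧ d ≠ 1 ∧ l ≠ 0 ∧
    X₁ = 3 * l * pb2 d ∧ X₂ = l * (36 * (d ^ 3 - d ^ 2) + 3 * pb2 d) ∧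
    X₃ = l * (36 * (d ^ 2 - d) + 3 * pb2 d) ∧ A = -27 * pc4 d * l ^ 2 ∧ B = -54 * pc6 d * l ^ 3 ∧
    X₂ - X₁ = d * (X₃ - X₁) := by
  have hp : X₂ - X₁ ≠ 0 := sub_ne_zero.mpr h.ne₁₂.symm
  have hq : X₃ - X₁ ≠ 0 := sub_ne_zero.mpr h.ne₁₃.symm
  have hpq : X₂ - X₃ ≠ 0 := sub_ne_zero.mpr h.ne₂₃
  obtain ⟨d, hd⟩ : ∃ d, d * (X₃ - X₁) = X₂ - X₁ := ⟨(X₂ - X₁) / (X₃ - X₁), by field_simp⟩
  have hd0 : d ≠ 0 := by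
    rintro rfl
    exact hp (by rw [← hd]; ring)
  have hd1 : d ≠ 1 := by
    rintro rfl
    exact hpq (by linear_combination -hd)
  have he : d ^ 2 - d ≠ 0 := by
    have h1 : d * (d - 1) ≠ 0 := mul_ne_zero hd0 (sub_ne_zero.mpr hd1)
    intro h0
    exact h1 (by linear_combination h0)
  have h36 : (36 : K) ≠ 0 := by norm_num
  obtain ⟨l, hl⟩ : ∃ l, 36 * l * (d ^ 2 - d) = X₃ - X₁ :=
    ⟨(X₃ - X₁) / (36 * (d ^ 2 - d)), by field_simp⟩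
  have hl0 : l ≠ 0 := by
    rintro rfl
    exact hq (by rw [← hl]; ring)
  have e3 : X₃ = X₁ + 36 * l * (d ^ 2 - d) := by linear_combination -hl
  have e2 : X₂ = X₁ + 36 * l * (d ^ 2 - d) * d := by
    rw [← hl] at hd
    linear_combination -hd
  have s1 := h.s₁
  have s2 := h.s₂
  have s3 := h.s₃
  clear h hl hd hp hq hpq
  subst e3
  subst e2
  have e1 : X₁ = 3 * l * pb2 d := by
    have h12 : 12 * (36 * l * (d ^ 2 - d)) ^ 3 * (d ^ 2 - d) ≠ 0 :=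
      mul_ne_zero (mul_ne_zero (by norm_num) (pow_ne_zero _ (mul_ne_zero (mul_ne_zero h36 hl0) he))) he
    apply mul_left_cancel₀ h12
    unfold pb2
    linear_combination (36 * l * (d ^ 2 - d)) * (s1 - s3) -
      (36 * l * (d ^ 2 - d) * d - 36 * l * (d ^ 2 - d)) * (s2 - s1)
  subst e1
  have eA : A = -27 * pc4 d * l ^ 2 := by
    have h2 : 2 * (36 * l * (d ^ 2 - d) * (d - 1)) ≠ 0 :=
      mul_ne_zero (by norm_num) (mul_ne_zero (mul_ne_zero (mul_ne_zero h36 hl0) he)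
        (sub_ne_zero.mpr hd1))
    apply mul_left_cancel₀ h2
    unfold pc4
    unfold pb2 at s1 s3
    linear_combination s3 - s1
  subst eA
  refine ⟨d, l, hd0, hd1, hl0, rfl, by ring, by ring, rfl, ?_, by ring⟩
  unfold pc4 pb2 at s1
  unfold pc6
  linear_combination (-1 / 4 : K) * s1

lemma Rel7.of_param {d l : K} (hd : d ≠ 0) (hd1 : d ≠ 1) (hl : l ≠ 0) :
    Rel7 (-27 * pc4 d * l ^ 2) (-54 * pc6 d * l ^ 3) (3 * l * pb2 d)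
      (l * (36 * (d ^ 3 - d ^ 2) + 3 * pb2 d)) (l * (36 * (d ^ 2 - d) + 3 * pb2 d)) := by
  have hd2 : d - 1 ≠ 0 := sub_ne_zero.mpr hd1
  have h36 : (36 : K) ≠ 0 := by norm_num
  refine ⟨?_, ?_, ?_, ?_, ?_, ?_⟩
  · intro h
    have h0 : 36 * l * d ^ 2 * (d - 1) ≠ 0 :=
      mul_ne_zero (mul_ne_zero (mul_ne_zero h36 hl) (pow_ne_zero _ hd)) hd2
    exact h0 (by linear_combination -h)
  · intro h
    have h0 : 36 * l * d * (d - 1) ^ 2 ≠ 0 :=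
      mul_ne_zero (mul_ne_zero (mul_ne_zero h36 hl) hd) (pow_ne_zero _ hd2)
    exact h0 (by linear_combination h)
  · intro h
    have h0 : 36 * l * d * (d - 1) ≠ 0 :=
      mul_ne_zero (mul_ne_zero (mul_ne_zero h36 hl) hd) hd2
    exact h0 (by linear_combination -h)
  · unfold pc4 pc6 pb2
    ring
  · unfold pc4 pc6 pb2
    ring
  · unfold pc4 pc6 pb2
    ring

lemma tf_param {d l : K} (hd : d ≠ 0) (hd1 : d ≠ 1) (hl : l ≠ 0) :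
    tf (3 * l * pb2 d) (l * (36 * (d ^ 3 - d ^ 2) + 3 * pb2 d))
      (l * (36 * (d ^ 2 - d) + 3 * pb2 d)) * (d ^ 2 - d) = d ^ 3 - 8 * d ^ 2 + 5 * d + 1 := by
  have hd2 : d - 1 ≠ 0 := sub_ne_zero.mpr hd1
  have h36 : (36 : K) ≠ 0 := by norm_num
  have hD : (l * (36 * (d ^ 3 - d ^ 2) + 3 * pb2 d) - 3 * l * pb2 d) *
      (l * (36 * (d ^ 2 - d) + 3 * pb2 d) - 3 * l * pb2 d) *
      (l * (36 * (d ^ 3 - d ^ 2) + 3 * pb2 d) - l * (36 * (d ^ 2 - d) + 3 * pb2 d)) ≠ 0 := by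
    have h1 : (l * (36 * (d ^ 3 - d ^ 2) + 3 * pb2 d) - 3 * l * pb2 d) *
        (l * (36 * (d ^ 2 - d) + 3 * pb2 d) - 3 * l * pb2 d) *
        (l * (36 * (d ^ 3 - d ^ 2) + 3 * pb2 d) - l * (36 * (d ^ 2 - d) + 3 * pb2 d)) =
        (36 * l) ^ 3 * d ^ 4 * (d - 1) ^ 4 := by ring
    rw [h1]
    exact mul_ne_zero (mul_ne_zero (pow_ne_zero _ (mul_ne_zero h36 hl)) (pow_ne_zero _ hd))
      (pow_ne_zero _ hd2)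
  unfold tf
  rw [div_mul_eq_mul_div, div_eq_iff hD]
  ring

end Pool.Agent.M7
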