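import Pool.Agent.M7.Half
import Pool.Agent.M7.Cls

/-! # Division by 2 on the two curves of conductor 49 (helper33)

PROOFS. `TT W`: the subgroup `{0, (0, 0)}`. `step3`: `P = 0` and `P = (0, 0)` are clear
(`P + P = 0 = 0 + 0`), so `x ≠ 0`, `y ≠ 0` (`x² - 147 x + 5488` has no zero in a real field).
`half3`: if `x = r²` (`r ≠ 0`): `x' = -147 + 2 r² + 2 y/r` and `x'' = -147 + 2 r² - 2 y/r` satisfy
`x' x'' = -343` (as `y² = r² (r⁴ - 147 r² + 5488)`), and `(2 r x')² = x' (x'² + 294 x' - 343)`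
(`x'² - (2 a + 4 r²) x' - 343 = 0`, `a = -147`). So `E4_class`: `x'` is a square `s²`: `Half.half` with
`r`, `s`; or `-7 x' = z²`: `x'' = -343/x' = (49/z)²... = 7² (-7 x')/x'²`, a square; `Half.half` with
`-r` (`2 y = (-r) (s² - a - 2 r²)`).
`step3`: `E3_class`: `x` a square: `T = 0`. `7 x` a square: `T = (0, 0)`, `P + T` has coordinate
`5488/x = (28)² (7 x)/x²`, a square; `half3` for `P + T`.
`half4`: `x = r²`: `x' = 294 + 2 r² + 2 y/r`, `x'' = 294 + 2 r² - 2 y/r`, `x' x'' = 87808 = 16 * 5488`,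
`x₃ = x'/4`: `(r x'/4)² = x₃ (x₃² - 147 x₃ + 5488)`. `E3_class`: `x₃` a square, so `x'` is; or `7 x₃` a
square, so `x'' = 87808/x' = 112² (7 x')/x'²` is.
`step4`: `E4_class`: `-7 x` a square: `P + T` has coordinate `-343/x = 7² (-7 x)/x²`. -/

namespace Pool.Agent.M7

open NumberField WeierstrassCurve WeierstrassCurve.Affine Pool.Agent.H42M

/-- a curve of conductor 49 -/
def E3 : WeierstrassCurve ℚ := ⟨0, -147, 0, 5488, 0⟩

/-- a curve of conductor 49 -/
def E4 : WeierstrassCurve ℚ := ⟨0, 294, 0, -343, 0⟩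

variable {F : Type*} [Field F] [NumberField F]

lemma half_E3 : Half (E3⁄F) (-147) 5488 where
  a₁ := by simp [E3]
  a₂ := by simp [E3]
  a₃ := by simp [E3]
  a₄ := by simp [E3]
  a₆ := by simp [E3]
  hb := by norm_num
  hd := by norm_num
  two := by norm_num

lemma half_E4 : Half (E4⁄F) 294 (-343) where
  a₁ := by simp [E4]
  a₂ := by simp [E4]
  a₃ := by simp [E4]
  a₄ := by simp [E4]
  a₆ := by simp [E4]
  hb := by norm_num
  hd := by norm_num
  two := by norm_num

variable [DecidableEq F]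

/-- the subgroup `{0, (0, 0)}` -/
def Half.TT {W : Affine F} {a b : F} (H : Half W a b) : AddSubgroup W.Point where
  carrier := {0, Point.some 0 0 H.nonsingular_zero}
  zero_mem' := by simp
  add_mem' := by
    intro P Q hP hQ
    rcases hP with rfl | rfl <;> rcases hQ with rfl | rfl
    · left; simp
    · right; simp
    · right; simp
    · left; exact H.two_zero
  neg_mem' := by
    intro P hP
    rcases hP with rfl | rfl
    · left; simp
    · right; exact neg_eq_of_add_eq_zero_right H.two_zero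

lemma Half.mem_TT {W : Affine F} {a b : F} (H : Half W a b) {P : W.Point} :
    P ∈ H.TT ↔ P = 0 ∨ P = Point.some 0 0 H.nonsingular_zero := Iff.rfl

lemma half3 (H : Hyp7 F) {x y r : F} {h : (E3⁄F).Nonsingular x y} (hr : x = r ^ 2) (hr0 : r ≠ 0) :
    ∃ Q : (E3⁄F).Point, Point.some x y h = Q + Q := by
  have e := (half_E3 (F := F)).eq h
  subst hr
  obtain ⟨m, hm⟩ : ∃ m : F, y = r * m := ⟨y / r, by field_simp⟩
  subst hm
  have e2 : m ^ 2 = r ^ 4 - 147 * r ^ 2 + 5488 := by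
    have : r ^ 2 * m ^ 2 = r ^ 2 * (r ^ 4 - 147 * r ^ 2 + 5488) := by linear_combination e
    exact mul_left_cancel₀ (pow_ne_zero 2 hr0) this
  have h1 : (-147 + 2 * r ^ 2 + 2 * m) * (-147 + 2 * r ^ 2 - 2 * m) = -343 := by
    linear_combination (-4 : F) * e2
  have hx0 : -147 + 2 * r ^ 2 + 2 * m ≠ 0 := by
    intro h0
    rw [h0, zero_mul] at h1
    norm_num at h1
  have h2 : (2 * r * (-147 + 2 * r ^ 2 + 2 * m)) ^ 2 = (-147 + 2 * r ^ 2 + 2 * m) *
      ((-147 + 2 * r ^ 2 + 2 * m) ^ 2 + 294 * (-147 + 2 * r ^ 2 + 2 * m) - 343) := by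
    linear_combination (-147 + 2 * r ^ 2 + 2 * m) * h1
  have hy0 : 2 * r * (-147 + 2 * r ^ 2 + 2 * m) ≠ 0 :=
    mul_ne_zero (mul_ne_zero two_ne_zero hr0) hx0
  rcases E4_class H hy0 h2 with ⟨s, hs⟩ | ⟨z, hz⟩
  · have hs0 : s ≠ 0 := by
      rintro rfl
      exact hx0 (by rw [hs, zero_mul])
    exact (half_E3 (F := F)).half h (r := r) (s := s) rfl hr0 hs0 (by linear_combination r * hs)
  · have hz0 : z ≠ 0 := by
      rintro rfl
      rw [mul_zero] at hz
      exact hx0 ((mul_eq_zero.mp hz).resolve_left (by norm_num))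
    have h3 : (49 / z) ^ 2 = -147 + 2 * r ^ 2 - 2 * m := by
      rw [div_pow, div_eq_iff (pow_ne_zero 2 hz0)]
      linear_combination (7 : F) * h1 + (-147 + 2 * r ^ 2 - 2 * m) * hz
    exact (half_E3 (F := F)).half h (r := -r) (s := 49 / z) (by ring) (neg_ne_zero.mpr hr0)
      (div_ne_zero (by norm_num) hz0) (by linear_combination r * h3)

lemma half4 (H : Hyp7 F) {x y r : F} {h : (E4⁄F).Nonsingular x y} (hr : x = r ^ 2) (hr0 : r ≠ 0) :
    ∃ Q : (E4⁄F).Point, Point.some x y h = Q + Q := by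
  have e := (half_E4 (F := F)).eq h
  subst hr
  obtain ⟨m, hm⟩ : ∃ m : F, y = r * m := ⟨y / r, by field_simp⟩
  subst hm
  have e2 : m ^ 2 = r ^ 4 + 294 * r ^ 2 - 343 := by
    have : r ^ 2 * m ^ 2 = r ^ 2 * (r ^ 4 + 294 * r ^ 2 - 343) := by linear_combination e
    exact mul_left_cancel₀ (pow_ne_zero 2 hr0) this
  have h1 : (294 + 2 * r ^ 2 + 2 * m) * (294 + 2 * r ^ 2 - 2 * m) = 87808 := by
    linear_combination (-4 : F) * e2
  have hx0 : 294 + 2 * r ^ 2 + 2 * m ≠ 0 := by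
    intro h0
    rw [h0, zero_mul] at h1
    norm_num at h1
  have h2 : (r * (294 + 2 * r ^ 2 + 2 * m) / 4) ^ 2 = (294 + 2 * r ^ 2 + 2 * m) / 4 *
      (((294 + 2 * r ^ 2 + 2 * m) / 4) ^ 2 - 147 * ((294 + 2 * r ^ 2 + 2 * m) / 4) + 5488) := by
    linear_combination ((294 + 2 * r ^ 2 + 2 * m) / 64) * h1
  have hy0 : r * (294 + 2 * r ^ 2 + 2 * m) / 4 ≠ 0 :=
    div_ne_zero (mul_ne_zero hr0 hx0) (by norm_num)
  rcases E3_class H hy0 h2 with ⟨s, hs⟩ | ⟨z, hz⟩
  · have hs0 : s ≠ 0 := by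
      rintro rfl
      rw [mul_zero] at hs
      exact hx0 ((div_eq_zero_iff.mp hs).resolve_right (by norm_num))
    exact (half_E4 (F := F)).half h (r := r) (s := 2 * s) rfl hr0 (mul_ne_zero two_ne_zero hs0)
      (by linear_combination 4 * r * hs)
  · have hz0 : z ≠ 0 := by
      rintro rfl
      rw [mul_zero] at hz
      have h4 := (mul_eq_zero.mp hz).resolve_left (by norm_num)
      exact hx0 ((div_eq_zero_iff.mp h4).resolve_right (by norm_num))
    have h3 : (392 / z) ^ 2 = 294 + 2 * r ^ 2 - 2 * m := by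
      rw [div_pow, div_eq_iff (pow_ne_zero 2 hz0)]
      linear_combination (-7 / 4 : F) * h1 + (294 + 2 * r ^ 2 - 2 * m) * hz
    exact (half_E4 (F := F)).half h (r := -r) (s := 392 / z) (by ring) (neg_ne_zero.mpr hr0)
      (div_ne_zero (by norm_num) hz0) (by linear_combination r * h3)

theorem step3 (H : Hyp7 F) (P : (E3⁄F).Point) :
    ∃ T ∈ (half_E3 (F := F)).TT, ∃ Q, P + T = Q + Q := by
  rcases P with _ | ⟨x, y, h⟩
  · exact ⟨0, zero_mem _, 0, rfl⟩
  have e := (half_E3 (F := F)).eq h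
  by_cases hx : x = 0
  · subst hx
    have hy : y = 0 := by
      rw [zero_mul] at e
      exact pow_eq_zero_iff two_ne_zero |>.mp e
    subst hy
    exact ⟨_, (half_E3 (F := F)).mem_TT.mpr (Or.inr rfl), 0, by
      rw [(half_E3 (F := F)).two_zero, add_zero]⟩
  have hy : y ≠ 0 := by
    rintro rfl
    have h1 : x ^ 2 + -147 * x + 5488 = 0 := by
      have h2 : x * (x ^ 2 + -147 * x + 5488) = 0 := by
        rw [← e]
        ring
      exact (mul_eq_zero.mp h2).resolve_left hx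
    obtain ⟨φ⟩ := H.real
    have h3 := congrArg φ h1
    simp only [map_add, map_mul, map_pow, map_neg, map_ofNat, map_zero] at h3
    nlinarith [sq_nonneg (2 * φ x - 147)]
  have e' : y ^ 2 = x * (x ^ 2 - 147 * x + 5488) := by linear_combination e
  rcases E3_class H hy e' with ⟨s, hs⟩ | ⟨z, hz⟩
  · have hs0 : s ≠ 0 := by
      rintro rfl
      exact hx (by rw [hs, zero_mul])
    obtain ⟨Q, hQ⟩ := half3 H (h := h) (r := s) (by rw [hs]; ring) hs0
    exact ⟨0, zero_mem _, Q, by rw [add_zero]; exact hQ⟩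
  · have hz0 : z ≠ 0 := by
      rintro rfl
      rw [mul_zero] at hz
      exact hx ((mul_eq_zero.mp hz).resolve_left (by norm_num))
    obtain ⟨y', h', hadd⟩ := (half_E3 (F := F)).addT h hx
    obtain ⟨Q, hQ⟩ := half3 H (h := h') (r := 196 / z) (by
      rw [div_pow, div_eq_div_iff hx (pow_ne_zero 2 hz0)]
      linear_combination (-5488 : F) * hz) (div_ne_zero (by norm_num) hz0)
    exact ⟨_, (half_E3 (F := F)).mem_TT.mpr (Or.inr rfl), Q, by rw [← hQ]; exact hadd⟩

theorem step4 (H : Hyp7 F) (P : (E4⁄F).Point) :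
    ∃ T ∈ (half_E4 (F := F)).TT, ∃ Q, P + T = Q + Q := by
  rcases P with _ | ⟨x, y, h⟩
  · exact ⟨0, zero_mem _, 0, rfl⟩
  have e := (half_E4 (F := F)).eq h
  by_cases hx : x = 0
  · subst hx
    have hy : y = 0 := by
      rw [zero_mul] at e
      exact pow_eq_zero_iff two_ne_zero |>.mp e
    subst hy
    exact ⟨_, (half_E4 (F := F)).mem_TT.mpr (Or.inr rfl), 0, by
      rw [(half_E4 (F := F)).two_zero, add_zero]⟩
  have hy : y ≠ 0 := by
    rintro rfl
    have h1 : x ^ 2 + 294 * x + -343 = 0 := by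
      have h2 : x * (x ^ 2 + 294 * x + -343) = 0 := by
        rw [← e]
        ring
      exact (mul_eq_zero.mp h2).resolve_left hx
    apply sq_ne_seven H.seven ((x + 147) / 56)
    linear_combination h1 / 3136
  have e' : y ^ 2 = x * (x ^ 2 + 294 * x - 343) := by linear_combination e
  rcases E4_class H hy e' with ⟨s, hs⟩ | ⟨z, hz⟩
  · have hs0 : s ≠ 0 := by
      rintro rfl
      exact hx (by rw [hs, zero_mul])
    obtain ⟨Q, hQ⟩ := half4 H (h := h) (r := s) (by rw [hs]; ring) hs0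
    exact ⟨0, zero_mem _, Q, by rw [add_zero]; exact hQ⟩
  · have hz0 : z ≠ 0 := by
      rintro rfl
      rw [mul_zero] at hz
      exact hx ((mul_eq_zero.mp hz).resolve_left (by norm_num))
    obtain ⟨y', h', hadd⟩ := (half_E4 (F := F)).addT h hx
    obtain ⟨Q, hQ⟩ := half4 H (h := h') (r := 49 / z) (by
      rw [div_pow, div_eq_div_iff hx (pow_ne_zero 2 hz0)]
      linear_combination (343 : F) * hz) (div_ne_zero (by norm_num) hz0)
    exact ⟨_, (half_E4 (F := F)).mem_TT.mpr (Or.inr rfl), Q, by rw [← hQ]; exact hadd⟩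

end Pool.Agent.M7
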