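import Pool.Agent.M7.Cls
import Pool.Agent.H42M.Group
import Pool.Agent.H42M.Main

/-! # Division by 2 on the curve of conductor 21 (helper33)

`E21` is `Y² = X (X + 9) (X + 16)` with `x = 9 X + 75`, `y = 27 Y`.

PROOF of `step21`: adapt `H42M.step_E2`. For `P = (x, y)` not in `G0` (so `y ≠ 0`,
`mem_G0_two`) put `X = (x - 75)/9`, `Y = y/27`; the four cases of `C21_all`:
(1) `X + 16`, `X` squares: then `X + 9 = (Y/..)²` is a square and `Full.half` applies, `T = 0`;
(2) `X + 16`, `-3 X` squares: `T = (-33, 324)` (order 4, `four_tors` with `m = -3`);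
(3) `7 (X + 16)`, `-X` squares: `T = (-6, 0)`; (4) `7 (X + 16)`, `3 X` squares: `T = (183, 2268)`
(order 4, `four_tors` with `m = 21`). In (2)-(4) use `translate`: for `P + T = (x₃, y₃)` the elements
`(x - e) (a - e) (x₃ - e)` are squares for `e = 75, -69` (`a` the coordinate of `T`), so `x₃ - 75` and
`x₃ + 69` are squares (`isSquare_third`: `(x - 75) (a - 75)`, `(x + 69) (a + 69)` are squares as
`(a - 75, a + 69) = (-108, 36), (-81, 63), (108, 252)`), and case (1) applies to `P + T`. -/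

namespace Pool.Agent.M7

open NumberField WeierstrassCurve WeierstrassCurve.Affine Pool.Agent.H42M

/-- the curve of conductor 21 -/
def E21 : WeierstrassCurve ℚ := ⟨0, 0, 0, -5211, -31050⟩

instance : E21.IsElliptic := by
  rw [WeierstrassCurve.isElliptic_iff]
  rw [isUnit_iff_ne_zero]
  simp [E21, WeierstrassCurve.Δ, WeierstrassCurve.b₂, WeierstrassCurve.b₄, WeierstrassCurve.b₆,
    WeierstrassCurve.b₈]
  norm_num

variable {F : Type*} [Field F] [NumberField F]

lemma full_E21 : Full (E21⁄F) (-6) (-69) 75 where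
  a₁ := by simp [E21]
  a₂ := by simp [E21]
  a₃ := by simp [E21]
  sum := by norm_num
  a₄ := by simp [E21]; norm_num
  a₆ := by simp [E21]; norm_num
  ne₁₂ := by norm_num
  ne₁₃ := by norm_num
  ne₂₃ := by norm_num
  two := by norm_num

variable [DecidableEq F]

lemma g0_two_21 {x y : F} (h : (E21⁄F).Nonsingular x y) (hy : y = 0) :
    Point.some x y h ∈ G0 E21 F :=
  mem_G0_two full_E21 ⟨-6, by simp⟩ ⟨-69, by simp⟩ ⟨75, by simp⟩ h hy

/-- the two squares give the third -/
lemma third21 {x y : F} {h : (E21⁄F).Nonsingular x y} (hP : Point.some x y h ∉ G0 E21 F)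
    (h1 : IsSquare (x - 75)) (h3 : IsSquare (x + 69)) :
    ∃ Q : (E21⁄F).Point, Point.some x y h = Q + Q := by
  have hy : y ≠ 0 := fun hy => hP (g0_two_21 h hy)
  have he := (full_E21 (F := F)).eq h
  obtain ⟨s, hs⟩ := h1
  obtain ⟨t, ht⟩ := h3
  have hs0 : s ≠ 0 := by
    rintro rfl
    apply hy
    have h1 : x - 75 = 0 := by linear_combination hs
    rw [h1, mul_zero] at he
    exact pow_eq_zero_iff (two_ne_zero) |>.mp he
  have ht0 : t ≠ 0 := by
    rintro rfl
    apply hy
    have h1 : x - -69 = 0 := by linear_combination ht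
    rw [h1, mul_zero, zero_mul] at he
    exact pow_eq_zero_iff (two_ne_zero) |>.mp he
  refine full_E21.half h ⟨y / (s * t), ?_⟩ ⟨t, by linear_combination ht⟩ ⟨s, hs⟩
  rw [div_mul_div_comm, eq_div_iff (mul_ne_zero (mul_ne_zero hs0 ht0) (mul_ne_zero hs0 ht0))]
  have h1 : s * t * (s * t) = (x - -69) * (x - 75) := by
    rw [hs]; linear_combination (-(s * s)) * ht
  rw [h1]; linear_combination -he

theorem step21 (H : Hyp7 F) (h3 : Nonsplit F 3) (P : (E21⁄F).Point) :
    ∃ T ∈ G0 E21 F, ∃ Q, P + T = Q + Q := by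
  by_cases hP : P ∈ G0 E21 F
  · exact ⟨-P, neg_mem hP, 0, by rw [add_neg_cancel, add_zero]⟩
  rcases P with _ | ⟨x, y, h⟩
  · exact absurd (zero_mem _) hP
  have hy : y ≠ 0 := fun hy => hP (g0_two_21 h hy)
  have he := (full_E21 (F := F)).eq h
  set X : F := (x - 75) / 9 with hX
  set Y : F := y / 27 with hY
  have hY0 : Y ≠ 0 := div_ne_zero hy (by norm_num)
  have e : Y ^ 2 = X * (X + 9) * (X + 16) := by
    rw [hY, div_pow, he, hX]; ring
  have hxX : x - 75 = 9 * X := by rw [hX]; ring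
  have hxX' : x + 69 = 9 * (X + 16) := by rw [hX]; ring
  have hx0 : x - 75 ≠ 0 := by
    intro h0
    apply hy
    rw [h0, mul_zero] at he
    exact pow_eq_zero_iff (two_ne_zero) |>.mp he
  have hx0' : x + 69 ≠ 0 := by
    intro h0
    apply hy
    have h1 : x - -69 = 0 := by linear_combination h0
    rw [h1, mul_zero, zero_mul] at he
    exact pow_eq_zero_iff (two_ne_zero) |>.mp he
  have main : ∀ (a b : F) (h' : (E21⁄F).Nonsingular a b), Point.some a b h' ∈ G0 E21 F →
      a - 75 ≠ 0 → a + 69 ≠ 0 → IsSquare ((x - 75) * (a - 75)) → IsSquare ((x + 69) * (a + 69)) →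
      ∃ T ∈ G0 E21 F, ∃ Q, Point.some x y h + T = Q + Q := by
    intro a b h' hT ha ha' hsq hsq'
    obtain ⟨x₃, y₃, h₃, hadd, hP₃, hcl⟩ := translate full_E21 hP hT
    refine ⟨_, hT, ?_⟩
    rw [hadd]
    refine third21 hP₃ ?_ ?_
    · exact isSquare_third hsq (mul_ne_zero hx0 ha) (hcl 75 (Or.inr (Or.inr rfl)))
    · refine isSquare_third hsq' (mul_ne_zero hx0' ha') ?_
      have := hcl (-69) (Or.inr (Or.inl rfl))
      rwa [sub_neg_eq_add, sub_neg_eq_add, sub_neg_eq_add] at this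
  rcases C21_all H h3 hY0 e with ⟨⟨t, ht⟩, ⟨s, hs⟩⟩ | ⟨⟨t, ht⟩, ⟨s, hs⟩⟩ | ⟨⟨t, ht⟩, ⟨s, hs⟩⟩ |
    ⟨⟨t, ht⟩, ⟨s, hs⟩⟩
  · refine ⟨0, zero_mem _, ?_⟩
    rw [add_zero]
    exact third21 hP ⟨3 * s, by rw [hxX]; linear_combination 9 * hs⟩
      ⟨3 * t, by rw [hxX']; linear_combination 9 * ht⟩
  · have h' : (E21⁄F).Nonsingular (-33 : F) 324 := full_E21.nonsingular (by norm_num)
    refine main (-33) 324 h' (mem_G0_some (a := -33) (b := 324) (by simp) (by simp) h' ?_)
      (by norm_num) (by norm_num) ⟨18 * s, ?_⟩ ⟨18 * t, ?_⟩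
    · refine four_tors full_E21 h' (m := -3) (by norm_num) ?_ (by norm_num)
      simp [E21]; norm_num
    · rw [hxX]; linear_combination 324 * hs
    · rw [hxX']; linear_combination 324 * ht
  · have h' : (E21⁄F).Nonsingular (-6 : F) 0 := full_E21.nonsingular (by norm_num)
    refine main (-6) 0 h' (g0_two_21 h' rfl)
      (by norm_num) (by norm_num) ⟨27 * s, ?_⟩ ⟨9 * t, ?_⟩
    · rw [hxX]; linear_combination 729 * hs
    · rw [hxX']; linear_combination 81 * ht
  · have h' : (E21⁄F).Nonsingular (183 : F) 2268 := full_E21.nonsingular (by norm_num)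
    refine main 183 2268 h' (mem_G0_some (a := 183) (b := 2268) (by simp) (by simp) h' ?_)
      (by norm_num) (by norm_num) ⟨18 * s, ?_⟩ ⟨18 * t, ?_⟩
    · refine four_tors full_E21 h' (m := 21) (by norm_num) ?_ (by norm_num)
      simp [E21]; norm_num
    · rw [hxX]; linear_combination 324 * hs
    · rw [hxX']; linear_combination 324 * ht

end Pool.Agent.M7
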