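import Pool.Agent.H42M.ModTor

/-! # The sum formula for coordinates of points (helper33)

PROOF of `Xof_sum`. `P = (x₁, y₁)`, `Q = (x₂, y₂)`, `-Q = (x₂, -y₂ - a₁ x₂ - a₃)`, `x₁ ≠ x₂`.
`Point.add_of_X_ne`, `slope_of_X_ne`: `x₃ = l² + a₁ l - a₂ - x₁ - x₂`, `l = (y₁ - y₂)/(x₁ - x₂)`, and
`x₄` the same with `l' = (y₁ + y₂ + a₁ x₂ + a₃)/(x₁ - x₂)`. Multiply by `(x₁ - x₂)²` and use both
equations: `(x₃ + x₄) (x₁ - x₂)² = 2 x₁ x₂ (x₁ + x₂) + b₂ x₁ x₂ + b₄ (x₁ + x₂) + b₆`; then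
`X = 36 x + 3 b₂`, `c₄ = b₂² - 24 b₄`, `c₆ = -b₂³ + 36 b₂ b₄ - 216 b₆`. Compare `H42M.dup`, `dup'`. -/

namespace Pool.Agent.M7

open WeierstrassCurve WeierstrassCurve.Affine Pool.Agent.H42M

variable {K : Type*} [Field K] [DecidableEq K] {W : Affine K}

theorem Xof_sum [CharZero K] {P Q : W.Point} {X₁ X₂ X₃ X₄ : K} (h₁ : Xof P X₁) (h₂ : Xof Q X₂)
    (hne : X₁ ≠ X₂) (h₃ : Xof (P + Q) X₃) (h₄ : Xof (P - Q) X₄) :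
    (X₃ + X₄) * (X₁ - X₂) ^ 2 =
      2 * (X₁ * X₂ + (-27 * W.c₄)) * (X₁ + X₂) + 4 * (-54 * W.c₆) := by
  obtain ⟨x₁, y₁, n₁, rfl, rfl⟩ := h₁
  obtain ⟨x₂, y₂, n₂, rfl, rfl⟩ := h₂
  obtain ⟨x₃, y₃, n₃, e₃, rfl⟩ := h₃
  obtain ⟨x₄, y₄, n₄, e₄, rfl⟩ := h₄
  have hx : x₁ ≠ x₂ := by
    rintro rfl
    exact hne rfl
  have hd : x₁ - x₂ ≠ 0 := sub_ne_zero.mpr hx
  rw [Point.add_of_X_ne hx] at e₃
  rw [sub_eq_add_neg, Point.neg_some, Point.add_of_X_ne hx] at e₄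
  have f₃ := (Point.some.inj e₃).1
  have f₄ := (Point.some.inj e₄).1
  rw [slope_of_X_ne hx, addX] at f₃ f₄
  obtain ⟨l, hl⟩ : ∃ l : K, l = (y₁ - y₂) / (x₁ - x₂) := ⟨_, rfl⟩
  obtain ⟨m, hm⟩ : ∃ m : K, m = (y₁ - W.negY x₂ y₂) / (x₁ - x₂) := ⟨_, rfl⟩
  rw [← hl] at f₃
  rw [← hm] at f₄
  rw [eq_div_iff hd] at hl hm
  rw [negY] at hm
  have q₁ := (W.equation_iff x₁ y₁).mp n₁.1
  have q₂ := (W.equation_iff x₂ y₂).mp n₂.1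
  have key : (x₃ + x₄) * (x₁ - x₂) ^ 2 =
      2 * x₁ * x₂ * (x₁ + x₂) + W.b₂ * x₁ * x₂ + W.b₄ * (x₁ + x₂) + W.b₆ := by
    rw [← f₃, ← f₄, b₂, b₄, b₆]
    linear_combination (l * (x₁ - x₂) + (y₁ - y₂) + W.a₁ * (x₁ - x₂)) * hl +
      (m * (x₁ - x₂) + (y₁ + y₂ + W.a₁ * x₂ + W.a₃) + W.a₁ * (x₁ - x₂)) * hm + 2 * q₁ + 2 * q₂
  rw [c₄, c₆]
  linear_combination 46656 * key

lemma Xof_dup {R : W.Point} {X X' : K} (h : Xof R X) (h' : Xof (R + R) X') :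
    4 * X' * (X ^ 3 + (-27 * W.c₄) * X + (-54 * W.c₆)) =
      X ^ 4 - 2 * (-27 * W.c₄) * X ^ 2 - 8 * (-54 * W.c₆) * X + (-27 * W.c₄) ^ 2 := by
  obtain ⟨x, y, h, rfl, rfl⟩ := h
  obtain ⟨x', y', h', he, rfl⟩ := h'
  exact dup' he

lemma Xof_add_self_ne [CharZero K] {R : W.Point} {X : K} (h : Xof R X)
    (hf : X ^ 3 + (-27 * W.c₄) * X + (-54 * W.c₆) ≠ 0) : R + R ≠ 0 := by
  obtain ⟨x, y, h, rfl, rfl⟩ := h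
  intro h0
  have hy : y = W.negY x y := by
    by_contra hy
    rw [Point.add_self_of_Y_ne hy] at h0
    exact Point.some_ne_zero _ h0
  apply hf
  have heq := (W.equation_iff x y).mp h.1
  have hy2 : 2 * y + W.a₁ * x + W.a₃ = 0 := by
    rw [negY] at hy
    linear_combination hy
  rw [c₄, c₆, b₂, b₄, b₆]
  linear_combination 11664 * (2 * y + W.a₁ * x + W.a₃) * hy2 - 46656 * heq

end Pool.Agent.M7
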